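import Pool.Agent.Lib.MP_990a44_co.Upper

/-!
The classical construction attaining the bound (Ahlswede 1987).
-/

namespace Pool.Agent.Lib.MP_990a44_co

open Finset

theorem card_filter_lt (q k : ℕ) (hk : k ≤ q) :
    (univ.filter fun x : Fin q => x.val < k).card = k := by
  rw [Fin.card_filter_val_lt]; omega

theorem card_filter_ge (q k : ℕ) (hk : k ≤ q) :
    (univ.filter fun x : Fin q => ¬ x.val < k).card = q - k := by
  have h := card_filter_add_card_filter_not (s := (univ : Finset (Fin q))) (fun x => x.val < k)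
  rw [card_filter_lt q k hk, card_univ, Fintype.card_fin] at h
  omega

theorem lower (q n i j : ℕ) (hq : 2 ≤ q) (hij : i + j ≤ n) :
    ∃ A B : Finset (Fin n → Fin q), (∀ a ∈ A, ∀ b ∈ B, hammingDist a b = i + j) ∧
      A.card * B.card = (q - 1) ^ j * qb q ^ i * (n - i).choose j := by
  classical
  let o : Fin q := ⟨0, by omega⟩
  let lo : Finset (Fin q) := univ.filter fun x => x.val < q / 2
  let hi : Finset (Fin q) := univ.filter fun x => ¬ x.val < q / 2
  let L : Finset (Fin n) := univ.filter fun t => t.val < i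
  let R : Finset (Fin n) := univ.filter fun t => ¬ t.val < i
  have hlo : lo.card = q / 2 := card_filter_lt q _ (by omega)
  have hhi : hi.card = (q + 1) / 2 := by
    rw [card_filter_ge q _ (by omega)]; omega
  have hL : L.card = i := card_filter_lt n _ (by omega)
  have hR : R.card = n - i := card_filter_ge n _ (by omega)
  let A : Finset (Fin n → Fin q) := Fintype.piFinset fun t => if t ∈ L then lo else {o}
  let Bf : Finset (Fin n) → Finset (Fin n → Fin q) := fun J =>
    Fintype.piFinset fun t => if t ∈ L then hi else if t ∈ J then univ.erase o else {o}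
  have hLR : ∀ t, t ∈ R → t ∉ L := by
    intro t h1 h2
    exact (mem_filter.1 h1).2 (mem_filter.1 h2).2
  have hdiff : ∀ a ∈ A, ∀ J, J ⊆ R → ∀ b ∈ Bf J,
      (univ.filter fun t => a t ≠ b t) = L ∪ J := by
    intro a ha J hJ b hb
    ext t
    have h1 := Fintype.mem_piFinset.1 ha t
    have h2 := Fintype.mem_piFinset.1 hb t
    simp only [mem_filter, mem_univ, true_and, mem_union]
    by_cases hL' : t ∈ L
    · rw [if_pos hL'] at h1 h2
      refine ⟨fun _ => Or.inl hL', fun _ h => ?_⟩
      exact (mem_filter.1 h2).2 (h ▸ (mem_filter.1 h1).2)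
    · rw [if_neg hL'] at h1 h2
      rw [mem_singleton] at h1
      by_cases hJ' : t ∈ J
      · rw [if_pos hJ'] at h2
        refine ⟨fun _ => Or.inr hJ', fun _ h => ?_⟩
        exact (mem_erase.1 h2).1 (h.symm.trans h1)
      · rw [if_neg hJ', mem_singleton] at h2
        constructor
        · intro h; exact absurd (h1.trans h2.symm) h
        · rintro (h | h)
          · exact absurd h hL'
          · exact absurd h hJ'
  have hAcard : A.card = (q / 2) ^ i := by
    rw [Fintype.card_piFinset]
    simp only [apply_ite Finset.card, hlo, card_singleton]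
    rw [prod_ite, prod_const, prod_const, one_pow, mul_one, filter_mem_eq_inter, univ_inter, hL]
  have hBf : ∀ J ∈ powersetCard j R, (Bf J).card = ((q + 1) / 2) ^ i * (q - 1) ^ j := by
    intro J hJ
    rw [mem_powersetCard] at hJ
    rw [Fintype.card_piFinset]
    simp only [apply_ite Finset.card, hhi, card_singleton, card_erase_of_mem (mem_univ o),
      card_univ, Fintype.card_fin]
    rw [prod_ite, prod_const, filter_mem_eq_inter, univ_inter, hL, prod_ite, prod_const,
      prod_const, one_pow, mul_one]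
    congr 2
    rw [← hJ.2]
    congr 1
    ext t
    simp only [mem_filter, mem_univ, true_and]
    exact ⟨fun h => h.2, fun h => ⟨hLR t (hJ.1 h), h⟩⟩
  have hAne : A.Nonempty := by
    rw [← card_pos, hAcard]
    exact pow_pos (by omega) _
  refine ⟨A, (powersetCard j R).biUnion Bf, ?_, ?_⟩
  · intro a ha b hb
    obtain ⟨J, hJ, hb⟩ := mem_biUnion.1 hb
    rw [mem_powersetCard] at hJ
    rw [hd_eq, hdiff a ha J hJ.1 b hb, card_union_of_disjoint, hL, hJ.2]
    rw [disjoint_right]
    intro t ht
    exact hLR t (hJ.1 ht)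
  · rw [card_biUnion, sum_congr rfl hBf, sum_const, card_powersetCard, hR, hAcard, smul_eq_mul,
      qb, mul_pow]
    · ring
    · intro J hJ J' hJ' hne
      obtain ⟨a, ha⟩ := hAne
      rw [mem_coe, mem_powersetCard] at hJ hJ'
      rw [Function.onFun, disjoint_left]
      intro b hb hb'
      have h1 := hdiff a ha J hJ.1 b hb
      have h2 := hdiff a ha J' hJ'.1 b hb'
      apply hne
      ext t
      have h3 : t ∈ L ∪ J ↔ t ∈ L ∪ J' := by rw [← h1, ← h2]
      simp only [mem_union] at h3
      constructor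
      · intro h
        exact (h3.1 (Or.inr h)).resolve_left (hLR t (hJ.1 h))
      · intro h
        exact (h3.2 (Or.inr h)).resolve_left (hLR t (hJ'.1 h))

theorem main_ge4 (q n δ : ℕ) (hq : 4 ≤ q) (hδ : δ ≤ n) :
    IsGreatest
      {N : ℕ | ∃ A B : Finset (Fin n → Fin q),
        (∀ a ∈ A, ∀ b ∈ B, hammingDist a b = δ) ∧ N = A.card * B.card}
      ((Finset.HasAntidiagonal.antidiagonal δ).sup fun p =>
        (q - 1) ^ p.2 * ((q / 2) * ((q + 1) / 2)) ^ p.1 * (n - p.1).choose p.2) := by
  constructor
  · obtain ⟨p, hp, hsup⟩ := exists_mem_eq_sup (Finset.HasAntidiagonal.antidiagonal δ) ⟨(0, δ), by simp⟩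
      (fun p : ℕ × ℕ => (q - 1) ^ p.2 * ((q / 2) * ((q + 1) / 2)) ^ p.1 * (n - p.1).choose p.2)
    rw [HasAntidiagonal.mem_antidiagonal] at hp
    obtain ⟨A, B, h1, h2⟩ := lower q n p.1 p.2 (by omega) (by omega)
    exact ⟨A, B, hp ▸ h1, by rw [hsup, h2]; rfl⟩
  · rintro N ⟨A, B, hd, rfl⟩
    obtain ⟨i, j, hij, h⟩ := upper (ι := Fin n) hq (Fintype.card_fin q) (n - δ) δ
      (by rw [Fintype.card_fin]; omega) A B hd
    refine h.trans ?_
    have e : n - δ + j = n - i := by omega
    rw [e]
    exact le_sup (f := fun p : ℕ × ℕ =>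
      (q - 1) ^ p.2 * ((q / 2) * ((q + 1) / 2)) ^ p.1 * (n - p.1).choose p.2)
      (b := (i, j)) (HasAntidiagonal.mem_antidiagonal.2 hij)

end Pool.Agent.Lib.MP_990a44_co
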