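import Mathlib

/-!
A purely numerical lemma about nonnegative matrices indexed by letters, used in the induction
step of the upper bound for constant distance code pairs.
-/

namespace Pool.Agent.Lib.MP_990a44_co

open Finset

/-- The number `floor(q/2) * ceil(q/2)`. -/
def qb (q : ℕ) : ℕ := (q / 2) * ((q + 1) / 2)

theorem mul_le_qb {s t q : ℕ} (h : s + t ≤ q) : s * t ≤ qb q := by
  unfold qb
  obtain ⟨k, hk | hk⟩ := Nat.even_or_odd' q
  · have h1 : q / 2 = k := by omega
    have h2 : (q + 1) / 2 = k := by omega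
    rw [h1, h2]
    nlinarith [sq_nonneg ((s : ℤ) - t)]
  · have h1 : q / 2 = k := by omega
    have h2 : (q + 1) / 2 = k + 1 := by omega
    rw [h1, h2]
    rcases le_total s k with hs | hs
    · have ht : t ≤ 2 * k + 1 - s := by omega
      obtain ⟨d, rfl⟩ := Nat.exists_eq_add_of_le hs
      have ht' : t ≤ s + 2 * d + 1 := by omega
      nlinarith
    · rcases le_total t k with ht | ht
      · obtain ⟨d, rfl⟩ := Nat.exists_eq_add_of_le ht
        have hs' : s ≤ t + 2 * d + 1 := by omega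
        nlinarith
      · have : (s = k ∧ t ≤ k + 1) ∨ (s = k + 1 ∧ t = k) := by omega
        rcases this with ⟨rfl, h3⟩ | ⟨rfl, rfl⟩
        · exact Nat.mul_le_mul_left _ h3
        · rw [mul_comm]

theorem qb_pos {q : ℕ} (hq : 2 ≤ q) : 0 < qb q := by
  unfold qb
  apply Nat.mul_pos <;> omega

theorem avg_le {α : Type*} (P : Finset α) (g : α → ℝ) (c : ℝ) (hc : c ≤ 1)
    (h : ∀ p ∈ P, g p + c ≤ 1) : (∑ p ∈ P, g p) / (P.card : ℝ) + c ≤ 1 := by
  rcases P.eq_empty_or_nonempty with rfl | hP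
  · simpa using hc
  · have hpos : (0 : ℝ) < P.card := by exact_mod_cast hP.card_pos
    have h1 : ∑ p ∈ P, g p ≤ ∑ _p ∈ P, (1 - c) :=
      sum_le_sum fun p hp => by linarith [h p hp]
    rw [sum_const, nsmul_eq_mul] at h1
    have : (∑ p ∈ P, g p) / (P.card : ℝ) ≤ 1 - c := by
      rw [div_le_iff₀ hpos]; linarith
    linarith

variable {α : Type*} [DecidableEq α]

/-- The averaged constraints. -/
theorem averaged (K P Q : Finset α) (z : α → α → ℝ)
    (hKP : Disjoint K P) (hKQ : Disjoint K Q) (hPQ : Disjoint P Q)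
    (hcon : ∀ S T : Finset α, S ⊆ K ∪ P → T ⊆ K ∪ Q → Disjoint S T → (S ∩ P).card ≤ 1 →
      (T ∩ Q).card ≤ 1 → ∑ x ∈ S, ∑ y ∈ T, z x y ≤ 1)
    (S T : Finset α) (hS : S ⊆ K) (hT : T ⊆ K) (hST : Disjoint S T) :
    (∑ x ∈ P, ∑ y ∈ Q, z x y) / P.card / Q.card + (∑ x ∈ P, ∑ y ∈ T, z x y) / P.card
      + (∑ x ∈ S, ∑ y ∈ Q, z x y) / Q.card + ∑ x ∈ S, ∑ y ∈ T, z x y ≤ 1 := by
  have hSP : S ∩ P = ∅ := by
    rw [← disjoint_iff_inter_eq_empty]; exact Disjoint.mono_left hS hKP
  have hTQ : T ∩ Q = ∅ := by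
    rw [← disjoint_iff_inter_eq_empty]; exact Disjoint.mono_left hT hKQ
  have step1 : ∀ T' : Finset α, T' ⊆ K ∪ Q → Disjoint S T' → (T' ∩ Q).card ≤ 1 →
      (∑ x ∈ P, ∑ y ∈ T', z x y) / P.card + ∑ x ∈ S, ∑ y ∈ T', z x y ≤ 1 := by
    intro T' h1 h2 h3
    apply avg_le
    · exact hcon S T' (hS.trans subset_union_left) h1 h2 (by simp [hSP]) h3
    · intro p hp
      have hpS : p ∉ S := fun h => disjoint_left.1 hKP (hS h) hp
      have := hcon (insert p S) T' ?_ h1 ?_ ?_ h3
      · rwa [sum_insert hpS] at this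
      · intro x hx
        rcases mem_insert.1 hx with rfl | hx
        · exact mem_union_right _ hp
        · exact mem_union_left _ (hS hx)
      · rw [disjoint_insert_left]
        refine ⟨fun h => ?_, h2⟩
        rcases mem_union.1 (h1 h) with h | h
        · exact disjoint_left.1 hKP h hp
        · exact disjoint_left.1 hPQ hp h
      · rw [insert_inter_of_mem hp, hSP]; simp
  have key := avg_le Q (fun y => (∑ x ∈ P, z x y) / P.card + ∑ x ∈ S, z x y)
    ((∑ x ∈ P, ∑ y ∈ T, z x y) / P.card + ∑ x ∈ S, ∑ y ∈ T, z x y)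
    (step1 T (hT.trans subset_union_left) hST (by simp [hTQ])) ?_
  · rw [sum_add_distrib, ← sum_div, add_div, sum_comm (s := Q) (t := P),
      sum_comm (s := Q) (t := S)] at key
    linarith
  · intro y hy
    have hyT : y ∉ T := fun h => disjoint_left.1 hKQ (hT h) hy
    have := step1 (insert y T) ?_ ?_ ?_
    · simp only [sum_insert hyT, sum_add_distrib, add_div] at this
      linarith
    · intro x hx
      rcases mem_insert.1 hx with rfl | hx
      · exact mem_union_right _ hy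
      · exact mem_union_left _ (hT hx)
    · rw [disjoint_insert_right]
      exact ⟨fun h => disjoint_left.1 hKQ (hS h) hy, hST⟩
    · rw [insert_inter_of_mem hy, hTQ]; simp

theorem sum_erase_sum (K : Finset α) (f : α → ℝ) :
    ∑ x ∈ K, ∑ y ∈ K.erase x, f y = ((K.card : ℝ) - 1) * ∑ y ∈ K, f y := by
  have : ∀ x ∈ K, ∑ y ∈ K.erase x, f y = ∑ y ∈ K, f y - f x := by
    intro x hx
    rw [← add_sum_erase K f hx]; ring
  rw [sum_congr rfl this, sum_sub_distrib, sum_const, nsmul_eq_mul]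
  ring

theorem offdiag_comm (K : Finset α) (z : α → α → ℝ) :
    ∑ y ∈ K, ∑ x ∈ K.erase y, z x y = ∑ x ∈ K, ∑ y ∈ K.erase x, z x y := by
  apply sum_comm'
  intro y x
  simp only [mem_erase]
  constructor
  · rintro ⟨h1, h2, h3⟩; exact ⟨⟨fun h => h2 h.symm, h1⟩, h3⟩
  · rintro ⟨⟨h1, h2⟩, h3⟩; exact ⟨h2, fun h => h1 h.symm, h3⟩

/-- Full coordinates: use two-element sets. -/
theorem pairs_bound (K : Finset α) (z : α → α → ℝ)
    (hcon : ∀ S T : Finset α, S ⊆ K → T ⊆ K → Disjoint S T → ∑ x ∈ S, ∑ y ∈ T, z x y ≤ 1) :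
    2 * ((K.card : ℝ) - 2) * ∑ x ∈ K, ∑ y ∈ K.erase x, z x y
      ≤ (K.card : ℝ) * ((K.card : ℝ) - 1) := by
  have h1 : ∀ x ∈ K, ∀ x' ∈ K.erase x,
      ∑ y ∈ (K.erase x).erase x', z x y + ∑ y ∈ (K.erase x').erase x, z x' y ≤ 1 := by
    intro x hx x' hx'
    have hne : x' ≠ x := (mem_erase.1 hx').1
    have := hcon {x, x'} ((K.erase x).erase x') ?_ ?_ ?_
    · rw [sum_pair hne.symm] at this
      rwa [erase_right_comm (s := K) (a := x') (b := x)]
    · intro a ha
      rcases mem_insert.1 ha with rfl | ha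
      · exact hx
      · rw [mem_singleton.1 ha]; exact (mem_erase.1 hx').2
    · exact (erase_subset _ _).trans (erase_subset _ _)
    · rw [disjoint_left]
      intro a ha hb
      rcases mem_insert.1 ha with rfl | ha
      · simp at hb
      · rw [mem_singleton.1 ha] at hb; simp at hb
  have h2 : ∑ x ∈ K, ∑ x' ∈ K.erase x, (∑ y ∈ (K.erase x).erase x', z x y
      + ∑ y ∈ (K.erase x').erase x, z x' y) ≤ ∑ x ∈ K, ∑ _x' ∈ K.erase x, (1 : ℝ) :=
    sum_le_sum fun x hx => sum_le_sum fun x' hx' => h1 x hx x' hx'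
  have h3 : ∑ x ∈ K, ∑ _x' ∈ K.erase x, (1 : ℝ) = (K.card : ℝ) * ((K.card : ℝ) - 1) := by
    rw [sum_erase_sum K (fun _ => (1 : ℝ))]; simp; ring
  have h4 : ∑ x ∈ K, ∑ x' ∈ K.erase x, ∑ y ∈ (K.erase x).erase x', z x y
      = ((K.card : ℝ) - 2) * ∑ x ∈ K, ∑ y ∈ K.erase x, z x y := by
    rw [mul_sum]
    apply sum_congr rfl
    intro x hx
    rw [sum_erase_sum (K.erase x) (fun y => z x y), card_erase_of_mem hx]
    have : 1 ≤ K.card := card_pos.2 ⟨x, hx⟩
    push_cast [this]
    ring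
  have h5 : ∑ x ∈ K, ∑ x' ∈ K.erase x, ∑ y ∈ (K.erase x').erase x, z x' y
      = ((K.card : ℝ) - 2) * ∑ x ∈ K, ∑ y ∈ K.erase x, z x y := by
    rw [← h4]
    exact offdiag_comm K (fun x' x => ∑ y ∈ (K.erase x').erase x, z x' y)
  simp only [sum_add_distrib] at h2
  rw [h3, h4, h5] at h2
  linarith

/-- The numerical heart of the induction step. -/
theorem matrix_lemma (q : ℕ) (hq : 4 ≤ q) (K P Q : Finset α) (z : α → α → ℝ)
    (hz : ∀ x y, 0 ≤ z x y)
    (hKP : Disjoint K P) (hKQ : Disjoint K Q) (hPQ : Disjoint P Q)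
    (hcard : K.card + P.card + Q.card ≤ q)
    (hcon : ∀ S T : Finset α, S ⊆ K ∪ P → T ⊆ K ∪ Q → Disjoint S T → (S ∩ P).card ≤ 1 →
      (T ∩ Q).card ≤ 1 → ∑ x ∈ S, ∑ y ∈ T, z x y ≤ 1) :
    (∑ x ∈ P, ∑ y ∈ Q, z x y) / (qb q : ℝ)
      + (∑ x ∈ P, ∑ y ∈ K, z x y + ∑ x ∈ K, ∑ y ∈ Q, z x y
        + ∑ x ∈ K, ∑ y ∈ K.erase x, z x y) / ((q : ℝ) - 1) ≤ 1 := by
  have hav := averaged K P Q z hKP hKQ hPQ hcon
  set u := ∑ x ∈ P, ∑ y ∈ Q, z x y with hu
  set v := ∑ x ∈ P, ∑ y ∈ K, z x y with hv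
  set w := ∑ x ∈ K, ∑ y ∈ Q, z x y with hw
  set d := ∑ x ∈ K, ∑ y ∈ K.erase x, z x y with hd
  set U := u / P.card / Q.card with hU
  set V := v / P.card with hV
  set W := w / Q.card with hW
  have hu0 : 0 ≤ u := sum_nonneg fun x _ => sum_nonneg fun y _ => hz x y
  have hv0 : 0 ≤ v := sum_nonneg fun x _ => sum_nonneg fun y _ => hz x y
  have hw0 : 0 ≤ w := sum_nonneg fun x _ => sum_nonneg fun y _ => hz x y
  have hU0 : 0 ≤ U := by positivity
  have hV0 : 0 ≤ V := by positivity
  have hW0 : 0 ≤ W := by positivity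
  have hqb : (0 : ℝ) < qb q := by exact_mod_cast qb_pos (by omega : 2 ≤ q)
  have hq1 : (0 : ℝ) < (q : ℝ) - 1 := by
    have : (4 : ℝ) ≤ q := by exact_mod_cast hq
    linarith
  have hvV : v = P.card * V := by
    rcases P.eq_empty_or_nonempty with h | h
    · simp [hv, h]
    · have hpos : (0 : ℝ) < P.card := by exact_mod_cast h.card_pos
      rw [hV]; field_simp
  have hwW : w = Q.card * W := by
    rcases Q.eq_empty_or_nonempty with h | h
    · simp [hw, h]
    · have hpos : (0 : ℝ) < Q.card := by exact_mod_cast h.card_pos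
      rw [hW]; field_simp
  have huU : u / (qb q : ℝ) ≤ U := by
    rcases P.eq_empty_or_nonempty with h | h
    · have : u = 0 := by simp [hu, h]
      rw [this, zero_div]; exact hU0
    rcases Q.eq_empty_or_nonempty with h' | h'
    · have : u = 0 := by simp [hu, h']
      rw [this, zero_div]; exact hU0
    have hpos : (0 : ℝ) < P.card := by exact_mod_cast h.card_pos
    have hpos' : (0 : ℝ) < Q.card := by exact_mod_cast h'.card_pos
    rw [hU, div_div]
    apply div_le_div_of_nonneg_left hu0 (by positivity)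
    exact_mod_cast mul_le_qb (by omega)
  have C0 : U + V ≤ 1 := by
    have := hav ∅ K (empty_subset _) Subset.rfl (disjoint_empty_left _)
    simpa using this
  have CK : U + W ≤ 1 := by
    have := hav K ∅ Subset.rfl (empty_subset _) (disjoint_empty_right _)
    simpa using this
  have C1 : K.card * U + ((K.card : ℝ) - 1) * V + W + d ≤ K.card := by
    have h1 : ∀ x ∈ K, U + (∑ y ∈ K.erase x, ∑ p ∈ P, z p y) / P.card
        + (∑ y ∈ Q, z x y) / Q.card + ∑ y ∈ K.erase x, z x y ≤ 1 := by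
      intro x hx
      have := hav {x} (K.erase x) (singleton_subset_iff.2 hx) (erase_subset _ _)
        (by simp)
      rw [sum_comm (s := K.erase x)]
      simpa using this
    have h2 := sum_le_sum h1
    simp only [sum_add_distrib, sum_const, nsmul_eq_mul, mul_one, ← sum_div] at h2
    rw [sum_erase_sum K (fun y => ∑ p ∈ P, z p y), sum_comm (s := K) (t := P)] at h2
    rw [mul_div_assoc] at h2
    exact h2
  have C1' : K.card * U + V + ((K.card : ℝ) - 1) * W + d ≤ K.card := by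
    have h1 : ∀ y ∈ K, U + (∑ p ∈ P, z p y) / P.card
        + (∑ x ∈ K.erase y, ∑ r ∈ Q, z x r) / Q.card + ∑ x ∈ K.erase y, z x y ≤ 1 := by
      intro y hy
      have := hav (K.erase y) {y} (erase_subset _ _) (singleton_subset_iff.2 hy)
        (by simp)
      simpa using this
    have h2 := sum_le_sum h1
    simp only [sum_add_distrib, sum_const, nsmul_eq_mul, mul_one, ← sum_div] at h2
    rw [sum_erase_sum K (fun x => ∑ r ∈ Q, z x r), sum_comm (s := K) (t := P),
      offdiag_comm K z] at h2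
    rw [mul_div_assoc] at h2
    exact h2
  have hcardR : (K.card : ℝ) + P.card + Q.card ≤ q := by exact_mod_cast hcard
  suffices h : v + w + d ≤ ((q : ℝ) - 1) * (1 - U) by
    have : (v + w + d) / ((q : ℝ) - 1) ≤ 1 - U := by
      rw [div_le_iff₀ hq1]; linarith
    linarith
  rcases K.eq_empty_or_nonempty with hK | hK
  · have h1 : v = 0 := by simp [hv, hK]
    have h2 : w = 0 := by simp [hw, hK]
    have h3 : d = 0 := by simp [hd, hK]
    rw [h1, h2, h3]
    have : 0 ≤ 1 - U := by linarith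
    have := mul_nonneg hq1.le this
    linarith
  have hK1 : (1 : ℝ) ≤ K.card := Nat.one_le_cast.2 hK.card_pos
  have hP0 : (0 : ℝ) ≤ P.card := Nat.cast_nonneg _
  have hQ0 : (0 : ℝ) ≤ Q.card := Nat.cast_nonneg _
  have hR : 0 ≤ 1 - U := by linarith
  rcases Q.eq_empty_or_nonempty with hQ | hQ
  · rcases P.eq_empty_or_nonempty with hP | hP
    · have h1 : v = 0 := by simp [hv, hP]
      have h2 : w = 0 := by simp [hw, hQ]
      have h3 : U = 0 := by simp [hU, hQ]
      have h4 : V = 0 := by simp [hV, hP]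
      have h5 : W = 0 := by simp [hW, hQ]
      rw [h1, h2, h3]
      rw [h3, h4, h5] at C1
      have hkq : K.card ≤ q := by omega
      rcases hkq.lt_or_eq with h | h
      · have : (K.card : ℝ) + 1 ≤ q := by exact_mod_cast h
        linarith
      · have hp := pairs_bound K z (fun S T hS hT hST => hcon S T
          (hS.trans subset_union_left) (hT.trans subset_union_left) hST (by simp [hP])
          (by simp [hQ]))
        rw [h, ← hd] at hp
        have hq4 : (4 : ℝ) ≤ q := by exact_mod_cast hq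
        by_contra hcon'
        push Not at hcon'
        nlinarith
    · have hP1 : (1 : ℝ) ≤ P.card := by exact_mod_cast hP.card_pos
      have h2 : w = 0 := by simp [hw, hQ]
      have h5 : W = 0 := by simp [hW, hQ]
      rw [h5] at C1'
      rw [h2, hvV]
      have e1 : ((P.card : ℝ) - 1) * V ≤ ((P.card : ℝ) - 1) * (1 - U) :=
        mul_le_mul_of_nonneg_left (by linarith) (by linarith)
      have e2 : ((K.card : ℝ) + P.card - 1) * (1 - U) ≤ ((q : ℝ) - 1) * (1 - U) :=
        mul_le_mul_of_nonneg_right (by linarith) hR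
      nlinarith
  · have hQ1 : (1 : ℝ) ≤ Q.card := by exact_mod_cast hQ.card_pos
    rw [hvV, hwW]
    have e1 : ((Q.card : ℝ) - 1) * W ≤ ((Q.card : ℝ) - 1) * (1 - U) :=
      mul_le_mul_of_nonneg_left (by linarith) (by linarith)
    rcases le_total ((P.card : ℝ) - K.card + 1) 0 with h | h
    · have e3 : ((P.card : ℝ) - K.card + 1) * V ≤ 0 := mul_nonpos_of_nonpos_of_nonneg h hV0
      have e2 : ((K.card : ℝ) + Q.card - 1) * (1 - U) ≤ ((q : ℝ) - 1) * (1 - U) :=
        mul_le_mul_of_nonneg_right (by linarith) hR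
      nlinarith
    · have e3 : ((P.card : ℝ) - K.card + 1) * V ≤ ((P.card : ℝ) - K.card + 1) * (1 - U) :=
        mul_le_mul_of_nonneg_left (by linarith) h
      have e2 : ((P.card : ℝ) + Q.card) * (1 - U) ≤ ((q : ℝ) - 1) * (1 - U) :=
        mul_le_mul_of_nonneg_right (by linarith) hR
      nlinarith

end Pool.Agent.Lib.MP_990a44_co
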