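import Pool.Agent.Lib.MP_990a44_co.Q3AsyC

/-!
Block bounds inside the window.
-/

namespace Pool.Agent.Lib.MP_990a44_co.Q3

open Finset Real

lemma sum_three (g : ℕ) : ∑ j ∈ range (g + 1), (g.choose j : ℝ) * 2 ^ j = 3 ^ g := by
  rw [show (3 : ℝ) = 2 + 1 by norm_num, add_pow]
  exact sum_congr rfl fun j _ => by ring

lemma Win.block_table {a b N h D g : ℕ} (W : Win a b) (hN : S (a + b) a < N)
    (H : Hull (a + b) a N h D 3) (hg1 : 1 ≤ g) (hg : g ≤ h) {p0 p1 : ℝ} (h0 : 0.4136 ≤ p0)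
    (h01 : p0 ≤ p1) (h1 : p1 ≤ 1) (hfull : ∀ p, Adm (a + b) a N h (a + b) p → p ≤ p1) :
    (N : ℝ) * 3 ^ g ≤ (3 ^ h * D) * (p0 * 3 ^ g + (1 - p0) + (p1 - p0) * 2 ^ g) := by
  have key := H.block g hg
    (fun j => p0 + (if j = 0 then 1 - p0 else 0) + (if j = g then p1 - p0 else 0)) (by
      intro j j' w p hj hj' c1 c2 c3 c4 c5
      rcases Nat.lt_or_ge w (a + b) with c | c
      · have := (W.adm_bound hN c3 c4 c c5).1
        beta_reduce
        split_ifs <;> linarith
      · obtain rfl : w = a + b := by omega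
        have := hfull p c5
        obtain rfl : j = g := by omega
        obtain rfl : j' = j := by omega
        beta_reduce
        rw [if_neg (by omega), if_pos rfl]
        linarith) (by
      beta_reduce
      rw [if_pos rfl, if_neg (by omega)]
      linarith)
  refine key.trans (le_of_eq ?_)
  congr 1
  simp only [mul_add, sum_add_distrib, mul_ite, mul_zero, sum_ite_eq', mem_range, ← sum_mul,
    sum_three]
  rw [if_pos (by omega), if_pos (by omega)]
  simp only [Nat.choose_zero_right, Nat.choose_self]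
  push_cast
  ring

lemma sum_lo (g : ℕ) : ∑ j ∈ range (g + 1), (g.choose j : ℝ) * 2 ^ j * (1 / ((j : ℝ) + 1))
    ≤ 1.5 * 3 ^ g / (g + 1) := by
  have h1 := sum_three (g + 1)
  rw [sum_range_succ'] at h1
  have h2 : ∀ j ∈ range (g + 1), (g.choose j : ℝ) * 2 ^ j * (1 / ((j : ℝ) + 1))
      = ((g + 1).choose (j + 1) : ℝ) * 2 ^ (j + 1) / (2 * (g + 1)) := by
    intro j _
    have : ((g : ℝ) + 1) * g.choose j = (g + 1).choose (j + 1) * (j + 1) := by
      exact_mod_cast Nat.add_one_mul_choose_eq g j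
    field_simp
    rw [pow_succ]
    linear_combination (2 * 2 ^ j : ℝ) * this
  rw [sum_congr rfl h2, ← sum_div, div_le_div_iff₀ (by positivity) (by positivity)]
  simp only [Nat.choose_zero_right, pow_zero] at h1
  rw [pow_succ (3 : ℝ) g] at h1
  have h3 : ∑ j ∈ range (g + 1), ((g + 1).choose (j + 1) : ℝ) * 2 ^ (j + 1) ≤ 3 ^ g * 3 := by
    push_cast at h1; linarith
  nlinarith [mul_le_mul_of_nonneg_right h3 (show (0 : ℝ) ≤ g + 1 by positivity)]

lemma sum_hi (g : ℕ) :
    ∑ j ∈ range (g + 1), (g.choose j : ℝ) * 2 ^ j * (1 / (((g - j : ℕ) : ℝ) + 1))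
    ≤ 3 * 3 ^ g / (g + 1) := by
  have h1 := sum_three (g + 1)
  rw [sum_range_succ] at h1
  have h2 : ∀ j ∈ range (g + 1), (g.choose j : ℝ) * 2 ^ j * (1 / (((g - j : ℕ) : ℝ) + 1))
      = ((g + 1).choose j : ℝ) * 2 ^ j / (g + 1) := by
    intro j hj
    have hj' := mem_range.mp hj
    have e : g + 1 - j = g - j + 1 := by omega
    have : (g.choose j : ℝ) * (g + 1) = (g + 1).choose j * (((g - j : ℕ) : ℝ) + 1) := by
      have := Nat.choose_mul_succ_eq g j
      rw [e] at this
      exact_mod_cast this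
    field_simp
    linear_combination this
  rw [sum_congr rfl h2, ← sum_div]
  refine div_le_div_of_nonneg_right ?_ (by positivity)
  have : (0 : ℝ) ≤ ((g + 1).choose (g + 1) : ℝ) * 2 ^ (g + 1) := by positivity
  rw [pow_succ (3 : ℝ) g] at h1
  linarith

lemma am_hm {x y v : ℝ} (hx : 0 ≤ x) (hy : 0 ≤ y) (h : x + y ≤ v) :
    4 / (v + 2) ≤ 1 / (x + 1) + 1 / (y + 1) := by
  rw [div_add_div _ _ (by linarith) (by linarith), div_le_div_iff₀ (by linarith) (by positivity)]
  nlinarith [sq_nonneg (x - y), mul_nonneg (sub_nonneg.mpr h) (show 0 ≤ x + y + 2 by linarith)]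

lemma Win.block_formula {a b N h D g : ℕ} (W : Win a b) (hN : S (a + b) a < N)
    (H : Hull (a + b) a N h D 3) (hg : g ≤ h) {r : ℝ} (hr : 20 ≤ r) (hrn : r ^ 2 ≤ a + b) :
    (N : ℝ) ≤ (3 ^ h * D) * (0.5 / r + 0.27 * r / (g + 1)) := by
  have hr0 : 0 < 0.5 / r := by positivity
  have hr1 : 0 ≤ 0.06 * r := by positivity
  have key := H.block g hg
    (fun j => 0.5 / r + 0.06 * r * (1 / ((j : ℝ) + 1))
      + 0.06 * r * (1 / (((g - j : ℕ) : ℝ) + 1))) (by
      intro j j' w p hj hj' c1 c2 c3 c4 c5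
      beta_reduce
      have p1 : 0 ≤ 0.06 * r * (1 / ((j : ℝ) + 1)) := by positivity
      have p2 : 0 ≤ 0.06 * r * (1 / ((j' : ℝ) + 1)) := by positivity
      have p3 : 0 ≤ 0.06 * r * (1 / (((g - j : ℕ) : ℝ) + 1)) := by positivity
      have p4 : 0 ≤ 0.06 * r * (1 / (((g - j' : ℕ) : ℝ) + 1)) := by positivity
      rcases Nat.lt_or_ge w (a + b) with c | c
      · have d := (W.adm_bound hN c3 c4 c c5).2 r hr hrn
        have e : 0.12 * r / (((min w (a + b - w) : ℕ) : ℝ) + 2)
            = 0.06 * r * (4 / (((min w (a + b - w) : ℕ) : ℝ) + 2)) / 2 := by ring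
        rw [e] at d
        rcases le_total w (a + b - w) with c' | c'
        · have d1 := mul_le_mul_of_nonneg_left (am_hm (x := j) (y := j')
            (v := (min w (a + b - w) : ℕ)) (by positivity) (by positivity)
            (by exact_mod_cast (by omega : j + j' ≤ min w (a + b - w)))) hr1
          linarith
        · have d1 := mul_le_mul_of_nonneg_left (am_hm (x := (g - j : ℕ)) (y := (g - j' : ℕ))
            (v := (min w (a + b - w) : ℕ)) (by positivity) (by positivity)
            (by exact_mod_cast (by omega : g - j + (g - j') ≤ min w (a + b - w)))) hr1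
          linarith
      · have := c5.2.1
        obtain rfl : j = g := by omega
        obtain rfl : j' = j := by omega
        simp only [Nat.sub_self, Nat.cast_zero, zero_add, div_one, mul_one] at *
        linarith) (by
      beta_reduce
      have p3 : 0 ≤ 0.06 * r * (1 / (((g - 0 : ℕ) : ℝ) + 1)) := by positivity
      simp only [Nat.cast_zero, zero_add, div_one, mul_one]
      linarith)
  have e : ∑ j ∈ range (g + 1), (g.choose j : ℝ) * 2 ^ j * (0.5 / r + 0.06 * r * (1 / ((j : ℝ) + 1))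
      + 0.06 * r * (1 / (((g - j : ℕ) : ℝ) + 1)))
      = 0.5 / r * ∑ j ∈ range (g + 1), (g.choose j : ℝ) * 2 ^ j
        + 0.06 * r * ∑ j ∈ range (g + 1), (g.choose j : ℝ) * 2 ^ j * (1 / ((j : ℝ) + 1))
        + 0.06 * r * ∑ j ∈ range (g + 1),
          (g.choose j : ℝ) * 2 ^ j * (1 / (((g - j : ℕ) : ℝ) + 1)) := by
    rw [mul_sum, mul_sum, mul_sum, ← sum_add_distrib, ← sum_add_distrib]
    exact sum_congr rfl fun j _ => by ring
  rw [e, sum_three] at key
  have d1 := mul_le_mul_of_nonneg_left (sum_lo g) hr1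
  have d2 := mul_le_mul_of_nonneg_left (sum_hi g) hr1
  have : (N : ℝ) * 3 ^ g ≤ (3 ^ h * D) * (0.5 / r + 0.27 * r / (g + 1)) * 3 ^ g := by
    rw [mul_assoc (3 ^ h * D : ℝ)]
    refine key.trans (mul_le_mul_of_nonneg_left ?_ (by positivity))
    have e2 : (0.5 / r + 0.27 * r / (g + 1)) * 3 ^ g = 0.5 / r * 3 ^ g
        + 0.06 * r * (1.5 * 3 ^ g / (g + 1)) + 0.06 * r * (3 * 3 ^ g / (g + 1)) := by ring
    linarith
  exact le_of_mul_le_mul_right this (by positivity)

end Pool.Agent.Lib.MP_990a44_co.Q3
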