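import Pool.Agent.Lib.MP_990a44_co.Q3AsyD
import Pool.Agent.Lib.MP_990a44_co.Q3AsyG

/-!
The arithmetic statement for all lengths above 400.
-/

namespace Pool.Agent.Lib.MP_990a44_co.Q3

open Finset Real

/-- everything known inside the window about a counterexample -/
structure Ctx (a b N h D : ℕ) : Prop where
  win : Win a b
  big : S (a + b) a < N
  w1 : 3 * ((a + b) * log 3 - lZ a b) < 2 * -log (bet a b)
  w2 : 3 * ((a + b) * ((a : ℝ) / (a + b) - 2 / 3) ^ 2) < -log (bet a b)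
  hull : Hull (a + b) a N h D 3

lemma dev_le {a b : ℕ} (ha : 1 ≤ a) (hb : 1 ≤ b) (hn : 400 < a + b)
    (w2 : 3 * ((a + b) * ((a : ℝ) / (a + b) - 2 / 3) ^ 2) < -log (bet a b)) :
    3 * ((a : ℝ) / (a + b) - 2 / 3) ^ 2 ≤ 0.0085 := by
  have h1 := logB_le' ha hb hn.le
  have h2 : (401 : ℝ) ≤ (a : ℝ) + b := by exact_mod_cast hn
  have : 3 * ((a : ℝ) / (a + b) - 2 / 3) ^ 2 * (a + b) ≤ 0.0085 * (a + b) := by linarith
  exact le_of_mul_le_mul_right this (by linarith)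

lemma win_of {a b : ℕ} (ha : 1 ≤ a) (hb : 1 ≤ b) (hn : 400 < a + b)
    (w2 : 3 * ((a + b) * ((a : ℝ) / (a + b) - 2 / 3) ^ 2) < -log (bet a b)) : Win a b := by
  have h1 := dev_le ha hb hn w2
  have h2 : (401 : ℝ) ≤ (a : ℝ) + b := by exact_mod_cast hn
  have h3 : |(a : ℝ) / (a + b) - 2 / 3| ≤ 0.05323 := abs_le_of_sq_le_sq (by linarith) (by norm_num)
  obtain ⟨h4, h5⟩ := abs_le.mp h3
  refine ⟨hn, ?_, ?_⟩
  · rw [← le_div_iff₀ (by linarith)]; linarith
  · rw [← div_le_iff₀ (by linarith)]; linarith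

namespace Ctx

variable {a b N h D : ℕ} (C : Ctx a b N h D)
include C

lemma G_le : 1 + 4.5 * ((a : ℝ) / (a + b) - 2 / 3) ^ 2 ≤ 1.01275 := by
  have := dev_le C.win.ha C.win.hb C.win.big C.w2
  linarith

/-- hulls of bounded dimension -/
lemma small {g c : ℕ} (hg1 : 1 ≤ g) (hg : g ≤ h) (hc : h ≤ c) (hc2 : c ≤ 25) {p0 p1 E M : ℝ}
    (h0 : 0.4136 ≤ p0) (h01 : p0 ≤ p1) (h1 : p1 ≤ 1)
    (hfull : ∀ p, Adm (a + b) a N h (a + b) p → p ≤ p1) (hE0 : 0 ≤ E)
    (hE : p0 * 3 ^ g + (1 - p0) + (p1 - p0) * 2 ^ g ≤ E * 3 ^ g)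
    (hM : (1.01275 : ℝ) ^ (2 * c) ≤ M)
    (hfin : 2.0087 * M * E ^ 2 * 401 ≤ 401 - 2 * c - 5.28) : False := by
  have W := C.win
  have hbig := W.big
  have hn := W.n_ge
  have h2 := W.block_table C.big C.hull hg1 hg h0 h01 h1 hfull
  have h3 := W.tilt_x C.hull hc (by omega)
  have h4 : (N : ℝ) ≤ (3 ^ h * D : ℝ) * E := by
    have : (N : ℝ) * 3 ^ g ≤ (3 ^ h * D : ℝ) * E * 3 ^ g := by
      rw [mul_assoc _ E]
      exact h2.trans (mul_le_mul_of_nonneg_left hE (by positivity))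
    exact le_of_mul_le_mul_right this (by positivity)
  refine sig_fin C.big hE0 h4 ?_
  have h5 : (1 + 4.5 * ((a : ℝ) / (a + b) - 2 / 3) ^ 2) ^ (2 * c) ≤ M :=
    (pow_le_pow_left₀ (by positivity) C.G_le _).trans hM
  have hc' : (c : ℝ) ≤ 25 := by exact_mod_cast hc2
  have hc0 : (0 : ℝ) ≤ c := by positivity
  set σ := sig a b h D
  set n : ℝ := a + b
  have h6 : σ ^ 2 * (n - 2 * c - 5.28) ≤ 2.0087 * M * n := by
    refine h3.trans ?_
    exact mul_le_mul_of_nonneg_right (mul_le_mul_of_nonneg_left h5 (by norm_num)) (by linarith)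
  have h7 : 2.0087 * M * E ^ 2 * n ≤ n - 2 * c - 5.28 := by
    have : 2.0087 * M * E ^ 2 ≤ 1 := by linarith
    nlinarith
  have h8 : σ ^ 2 * E ^ 2 * (n - 2 * c - 5.28) ≤ 1 * (n - 2 * c - 5.28) := by
    nlinarith [mul_le_mul_of_nonneg_right h6 (sq_nonneg E)]
  exact le_of_mul_le_mul_right h8 (by linarith)

lemma r0 (hh : h = 0) : False := by
  have h1 := C.hull.triv_h
  have h2 := C.hull.D_S
  have h3 := C.big
  subst hh
  omega

lemma r1 (h1 : 1 ≤ h) (h2 : h ≤ 2) : False :=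
  C.small (g := 1) (c := 2) (p0 := 0.45) (p1 := 0.45) (E := 0.634) (M := 1.06) le_rfl h1 h2
    (by norm_num) (by norm_num) le_rfl (by norm_num) (fun _ hp => C.win.adm_fullA C.big h2 hp)
    (by norm_num) (by norm_num) (by norm_num) (by norm_num)

lemma r2 (h1 : 3 ≤ h) (h2 : h ≤ 6) : False :=
  C.small (g := 3) (c := 6) (p0 := 0.4136) (p1 := 1) (E := 0.6091) (M := 1.17) (by norm_num) h1 h2
    (by norm_num) le_rfl (by norm_num) le_rfl (fun _ hp => hp.2.1)
    (by norm_num) (by norm_num) (by norm_num) (by norm_num)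

lemma r3 (h1 : 7 ≤ h) (h2 : h ≤ 25) : False :=
  C.small (g := 7) (c := 25) (p0 := 0.4136) (p1 := 1) (E := 0.4482) (M := 1.9) (by norm_num) h1 h2
    le_rfl le_rfl (by norm_num) le_rfl (fun _ hp => hp.2.1)
    (by norm_num) (by norm_num) (by norm_num) (by norm_num)

variable {u : ℝ} (hu : 20 ≤ u) (hu2 : u ^ 2 = a + b)
include hu hu2

lemma r4 (h1 : 26 ≤ h) (h2 : (h : ℝ) ≤ 3 * u) : False := by
  have W := C.win
  have hn := W.n_ge
  have h3 := W.block_formula C.big C.hull h1 (r := 20) le_rfl (by linarith)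
  have hh : 2 * h + 78 ≤ a + b := by
    have : (2 * h + 78 : ℝ) ≤ a + b := by nlinarith
    exact_mod_cast this
  have h4 := W.tilt_x C.hull le_rfl hh
  have h5 := logB_le W.ha W.hb (by linarith) hu2
  have w2 := C.w2
  set y := ((a : ℝ) / (a + b) - 2 / 3) ^ 2 with hy
  have hy0 : 0 ≤ y := by positivity
  rw [← hu2] at w2 h4
  have h6 : y * u ≤ 0.17 / 3 := by
    have : y * u * u ≤ 0.17 / 3 * u := by nlinarith
    exact le_of_mul_le_mul_right this (by linarith)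
  have h7 : (1 + 4.5 * y) ^ (2 * h) ≤ 5.79 := by
    have c1 : (1 + 4.5 * y) ^ (2 * h) ≤ exp (4.5 * y) ^ (2 * h) :=
      pow_le_pow_left₀ (by positivity) (by linarith [add_one_le_exp (4.5 * y)]) _
    rw [← exp_nat_mul] at c1
    have c2 : ((2 * h : ℕ) : ℝ) * (4.5 * y) ≤ 1 + 0.53 := by
      push_cast; nlinarith [mul_le_mul_of_nonneg_right h2 hy0]
    have c3 := exp_one_lt_d9
    have c4 := add_one_le_exp (-0.53)
    have c5 : exp 0.53 * exp (-0.53) = 1 := by rw [← exp_add]; simp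
    have c6 : exp 0.53 ≤ 2.128 := by nlinarith [exp_pos 0.53]
    have c7 : exp 1 * exp 0.53 ≤ 2.7182818286 * 2.128 :=
      mul_le_mul c3.le c6 (exp_pos _).le (by norm_num)
    have c8 := exp_le_exp.mpr c2
    rw [exp_add] at c8
    linarith
  refine sig_fin (h := h) (D := D) C.big (E := 0.225) (by norm_num) (h3.trans (le_of_eq (by norm_num))) ?_
  set σ := sig a b h D
  have h8 : σ ^ 2 * (0.6868 * u ^ 2) ≤ 2.0087 * 5.79 * u ^ 2 := by
    refine le_trans (mul_le_mul_of_nonneg_left ?_ (sq_nonneg σ)) (h4.trans ?_)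
    · nlinarith
    · exact mul_le_mul_of_nonneg_right (by linarith) (by positivity)
  have h9 : σ ^ 2 * 0.6868 * u ^ 2 ≤ 2.0087 * 5.79 * u ^ 2 := by linarith
  have h10 := le_of_mul_le_mul_right h9 (by positivity)
  linarith

lemma r5 (h1 : 3 * u ≤ h) (h2 : 4 * h ≤ a + b) : False := by
  have W := C.win
  have hn := W.n_ge
  have hbig := W.big
  have e := sq_sqrt (show 0 ≤ 20 * u by linarith)
  have hr : 20 ≤ √(20 * u) := le_sqrt_of_sq_le (by linarith)
  set r := √(20 * u)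
  have h3 := W.block_formula C.big C.hull le_rfl hr (by nlinarith)
  have h4 := W.tilt_y C.w1 C.hull (by omega)
  have h2' : (4 * h : ℝ) ≤ a + b := by exact_mod_cast h2
  have h5 : 0.5 / r + 0.27 * r / (h + 1) ≤ 2.3 / r := by
    have c1 : 0.27 * r / (h + 1) ≤ 1.8 / r := by
      rw [div_le_div_iff₀ (by positivity) (by linarith)]; nlinarith
    have c2 : 2.3 / r = 0.5 / r + 1.8 / r := by rw [← add_div]; norm_num
    linarith
  refine sig_fin C.big (E := 2.3 / r) (by positivity)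
    (h3.trans (mul_le_mul_of_nonneg_left h5 (by positivity))) ?_
  set A := sig a b h D ^ 2
  have hA : 0 ≤ A := sq_nonneg _
  rw [← hu2] at h4 h2' hn
  have h6 : (A * (0.3214 * u ^ 2)) ^ 3 ≤ 5.011 * (u ^ 2) ^ 4 :=
    (pow_le_pow_left₀ (by positivity) (mul_le_mul_of_nonneg_left (by linarith) hA) 3).trans h4
  have h7 : A ^ 3 ≤ 151 * u ^ 2 := by
    have : A ^ 3 * (0.3214 ^ 3 * u ^ 6) ≤ 151 * u ^ 2 * (0.3214 ^ 3 * u ^ 6) := by
      have : 0 ≤ u ^ 8 := by positivity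
      nlinarith
    exact le_of_mul_le_mul_right this (by positivity)
  rw [div_pow, e, ← mul_div_assoc, div_le_one (by linarith)]
  refine (pow_le_pow_iff_left₀ (by positivity) (by positivity) three_ne_zero).mp ?_
  have : 20 * u ^ 2 ≤ u ^ 3 := by nlinarith
  nlinarith

lemma r6 (h1 : a + b ≤ 4 * h) (h2 : 5 * h ≤ 2 * (a + b)) : False := by
  have W := C.win
  have hn := W.n_ge
  have hbig := W.big
  have h3 := W.block_formula C.big C.hull le_rfl hu hu2.le
  have h4 := W.tilt_y C.w1 C.hull (by omega)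
  have h1' : (a + b : ℝ) ≤ 4 * h := by exact_mod_cast h1
  have h2' : (5 * h : ℝ) ≤ 2 * (a + b) := by exact_mod_cast h2
  rw [← hu2] at h4 h1' h2' hn
  have h5 : 0.5 / u + 0.27 * u / (h + 1) ≤ 1.58 / u := by
    have c1 : 0.27 * u / (h + 1) ≤ 1.08 / u := by
      rw [div_le_div_iff₀ (by positivity) (by linarith)]; nlinarith
    have c2 : 1.58 / u = 0.5 / u + 1.08 / u := by rw [← add_div]; norm_num
    linarith
  refine sig_fin C.big (E := 1.58 / u) (by positivity)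
    (h3.trans (mul_le_mul_of_nonneg_left h5 (by positivity))) ?_
  set A := sig a b h D ^ 2
  have hA : 0 ≤ A := sq_nonneg _
  have h6 : (A * (0.1235 * u ^ 2)) ^ 3 ≤ 5.011 * (u ^ 2) ^ 4 :=
    (pow_le_pow_left₀ (by positivity) (mul_le_mul_of_nonneg_left (by linarith) hA) 3).trans h4
  have h7 : A ^ 3 ≤ 2661 * u ^ 2 := by
    have : A ^ 3 * (0.1235 ^ 3 * u ^ 6) ≤ 2661 * u ^ 2 * (0.1235 ^ 3 * u ^ 6) := by
      have : 0 ≤ u ^ 8 := by positivity
      nlinarith
    exact le_of_mul_le_mul_right this (by positivity)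
  rw [div_pow, ← mul_div_assoc, div_le_one (by positivity)]
  refine (pow_le_pow_iff_left₀ (by positivity) (by positivity) three_ne_zero).mp ?_
  have c1 : 400 * 400 ≤ u ^ 2 * u ^ 2 := mul_le_mul (by linarith) (by linarith) (by norm_num)
    (by positivity)
  have c2 : 400 * 400 * u ^ 2 ≤ u ^ 2 * u ^ 2 * u ^ 2 :=
    mul_le_mul_of_nonneg_right c1 (by positivity)
  nlinarith

omit hu hu2 in
lemma r7 (h1 : 2 * (a + b) ≤ 5 * h) : False := by
  have W := C.win
  have hn := W.n_ge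
  have hlo := W.lo
  have h1' : (2 * (a + b) : ℝ) ≤ 5 * h := by exact_mod_cast h1
  have hb6 : b + 6 ≤ h := by
    have : (b + 5 : ℝ) < h := by linarith
    have : b + 5 < h := by exact_mod_cast this
    omega
  obtain ⟨j, rfl⟩ : ∃ j, h = b + j := ⟨h - b, by omega⟩
  have hj : 6 ≤ j := by omega
  push_cast at h1'
  have h2 := C.hull.triv_d
  rw [show a + b - a = b by omega] at h2
  have h3 : (N : ℝ) ≤ D * 3 ^ b := by exact_mod_cast h2
  have h4 := W.tilt_y0 C.w1 C.hull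
  refine sig_fin (h := b + j) (D := D) C.big (E := 1 / 3 ^ j) (by positivity)
    (h3.trans (le_of_eq (by rw [pow_add]; field_simp))) ?_
  set A := sig a b (b + j) D ^ 2
  have hA : 0 ≤ A := sq_nonneg _
  have c1 : (j : ℝ) ≤ 2 ^ j := by exact_mod_cast Nat.lt_two_pow_self.le
  have c2 : (a : ℝ) + b ≤ 75 * 2 ^ j := by linarith
  have c3 : ((a : ℝ) + b) ^ 4 ≤ 75 ^ 4 * 16 ^ j := by
    refine (pow_le_pow_left₀ (by linarith) c2 4).trans (le_of_eq ?_)
    rw [mul_pow, ← pow_mul, mul_comm j 4, pow_mul]; norm_num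
  have c4 : (45 : ℝ) ^ 6 ≤ 45 ^ j := pow_le_pow_right₀ (by norm_num) hj
  have c5 : (45 : ℝ) ^ j * 16 ^ j ≤ ((3 ^ j) ^ 2) ^ 3 := by
    rw [← mul_pow, ← pow_mul, ← pow_mul, mul_comm j, pow_mul]
    exact pow_le_pow_left₀ (by norm_num) (by norm_num) j
  have c6 : (45 : ℝ) ^ 6 * 16 ^ j ≤ 45 ^ j * 16 ^ j := mul_le_mul_of_nonneg_right c4 (by positivity)
  rw [div_pow, one_pow, mul_one_div, div_le_one (by positivity)]
  refine (pow_le_pow_iff_left₀ hA (by positivity) three_ne_zero).mp ?_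
  have c7 : (0 : ℝ) ≤ 16 ^ j := by positivity
  linarith

end Ctx

theorem asy (n d N h D : ℕ) (hn : 400 < n) (hd : 1 ≤ d) (hdn : d ≤ n) (hE : Edge n d N)
    (H : Hull n d N h D 3) : N ≤ F n d := by
  rw [F_eq_SA (by omega)]
  by_contra hN
  push Not at hN
  obtain ⟨b, hb, rfl, w1, w2⟩ := window hn hd hdn hE hN
  have C : Ctx d b N h D := ⟨win_of hd hb hn w2, hN, w1, w2, H⟩
  have hn' := C.win.n_ge
  have hu2 := sq_sqrt (show (0 : ℝ) ≤ d + b by linarith)
  have hu : 20 ≤ √((d : ℝ) + b) := le_sqrt_of_sq_le (by linarith)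
  rcases Nat.eq_zero_or_pos h with c0 | c0
  · exact C.r0 c0
  rcases le_or_gt h 2 with c1 | c1
  · exact C.r1 c0 c1
  rcases le_or_gt h 6 with c2 | c2
  · exact C.r2 c1 c2
  rcases le_or_gt h 25 with c3 | c3
  · exact C.r3 c2 c3
  rcases le_total (h : ℝ) (3 * √((d : ℝ) + b)) with c4 | c4
  · exact C.r4 hu hu2 c3 c4
  rcases le_total (4 * h) (d + b) with c5 | c5
  · exact C.r5 hu hu2 c4 c5
  rcases le_total (5 * h) (2 * (d + b)) with c6 | c6
  · exact C.r6 hu hu2 c5 c6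
  · exact C.r7 c6

end Pool.Agent.Lib.MP_990a44_co.Q3
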