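import Pool.Agent.Lib.MP_990a44_co.Q3Lin

/-! The Gibbs bound over one information set. -/

namespace Pool.Agent.Lib.MP_990a44_co.Q3

open Finset

variable {ι : Type} [Fintype ι] [DecidableEq ι]

theorem exp_spread (u a p q : ℝ) (hp : 0 ≤ p) (hq : 0 ≤ q) :
    Real.exp ((1 - (a + p)) * u) + Real.exp ((1 - (a + q)) * u) ≤
      Real.exp ((1 - a) * u) + Real.exp ((1 - (a + p + q)) * u) := by
  have e1 : Real.exp ((1 - (a + p)) * u) = Real.exp ((1 - a) * u) * Real.exp (-(p * u)) := by
    rw [← Real.exp_add]; congr 1; ring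
  have e2 : Real.exp ((1 - (a + q)) * u) = Real.exp ((1 - a) * u) * Real.exp (-(q * u)) := by
    rw [← Real.exp_add]; congr 1; ring
  have e3 : Real.exp ((1 - (a + p + q)) * u) =
      Real.exp ((1 - a) * u) * (Real.exp (-(p * u)) * Real.exp (-(q * u))) := by
    rw [← Real.exp_add, ← Real.exp_add]; congr 1; ring
  rw [e1, e2, e3]
  have h0 := Real.exp_pos ((1 - a) * u)
  have key : 0 ≤ (1 - Real.exp (-(p * u))) * (1 - Real.exp (-(q * u))) := by
    rcases le_total 0 u with hu | hu
    · exact mul_nonneg (sub_nonneg.2 (Real.exp_le_one_iff.2 (by nlinarith)))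
        (sub_nonneg.2 (Real.exp_le_one_iff.2 (by nlinarith)))
    · exact mul_nonneg_of_nonpos_of_nonpos
        (sub_nonpos.2 (Real.one_le_exp (by nlinarith)))
        (sub_nonpos.2 (Real.one_le_exp (by nlinarith)))
  nlinarith [mul_nonneg h0.le key]

theorem exp_spread' (u a b x y : ℝ) (hx : a ≤ x) (hy : a ≤ y) (h : x + y = a + b) :
    Real.exp ((1 - x) * u) + Real.exp ((1 - y) * u) ≤
      Real.exp ((1 - a) * u) + Real.exp ((1 - b) * u) := by
  have := exp_spread u a (x - a) (y - a) (by linarith) (by linarith)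
  rw [show a + (x - a) = x by ring, show a + (y - a) = y by ring,
    show x + (y - a) = b by linarith] at this
  exact this

theorem three_exp (u l x y w : ℝ) (hl : 1 / 2 ≤ l) (hx0 : 0 ≤ x) (hy0 : 0 ≤ y) (hw0 : 0 ≤ w)
    (hx : x ≤ l) (hy : y ≤ l) (hw : w ≤ l) (hs : x + y + w = 1) :
    Real.exp ((1 - x) * u) + Real.exp ((1 - y) * u) + Real.exp ((1 - w) * u) ≤
      Real.exp ((1 - l) * u) + Real.exp (l * u) + Real.exp u := by
  have big : ∀ x y w : ℝ, 0 ≤ y → 0 ≤ w → x ≤ l → x + y + w = 1 → 1 - l ≤ x →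
      Real.exp ((1 - x) * u) + Real.exp ((1 - y) * u) + Real.exp ((1 - w) * u) ≤
      Real.exp ((1 - l) * u) + Real.exp (l * u) + Real.exp u := by
    intro x y w hy0 hw0 hx hs h1
    have a1 := exp_spread' u 0 (y + w) y w hy0 hw0 (by ring)
    have a2 := exp_spread' u (1 - l) l x (y + w) h1 (by linarith) (by linarith)
    rw [sub_zero, one_mul] at a1
    rw [show 1 - (1 - l) = l by ring] at a2
    linarith
  by_cases h1 : 1 - l ≤ x
  · exact big x y w hy0 hw0 hx hs h1
  by_cases h2 : 1 - l ≤ y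
  · have := big y x w hx0 hw0 hy (by linarith) h2
    linarith
  by_cases h3 : 1 - l ≤ w
  · have := big w x y hx0 hy0 hw (by linarith) h3
    linarith
  push Not at h1 h2 h3
  have a1 := exp_spread' u (x + y - (1 - l)) (1 - l) x y (by linarith) (by linarith) (by ring)
  have a2 := exp_spread' u 0 l (x + y - (1 - l)) w (by linarith) hw0 (by linarith)
  rw [sub_zero, one_mul] at a2
  rw [show 1 - (1 - l) = l by ring] at a1
  linarith

theorem gibbs {A : Finset (ι → ZMod 3)} (hA : A.Nonempty) (X : Finset ι)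
    (inj : ∀ a ∈ A, ∀ a' ∈ A, (∀ i ∈ X, a i = a' i) → a = a') (V : ι → ZMod 3 → ℝ) :
    (A.card : ℝ) * Real.exp ((∑ a ∈ A, ∑ i ∈ X, V i (a i)) / A.card) ≤
      ∏ i ∈ X, ∑ x, Real.exp (V i x) := by
  have hc : (0 : ℝ) < A.card := by exact_mod_cast hA.card_pos
  set m := (∑ a ∈ A, ∑ i ∈ X, V i (a i)) / A.card with hm
  have h1 : (A.card : ℝ) * Real.exp m ≤ ∑ a ∈ A, Real.exp (∑ i ∈ X, V i (a i)) := by
    have : ∀ a ∈ A, Real.exp m * ((∑ i ∈ X, V i (a i)) - m + 1) ≤
        Real.exp (∑ i ∈ X, V i (a i)) := by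
      intro a _
      have h := Real.add_one_le_exp ((∑ i ∈ X, V i (a i)) - m)
      calc _ ≤ Real.exp m * Real.exp ((∑ i ∈ X, V i (a i)) - m) :=
            mul_le_mul_of_nonneg_left h (Real.exp_pos m).le
        _ = _ := by rw [← Real.exp_add]; congr 1; ring
    refine le_trans (le_of_eq ?_) (sum_le_sum this)
    rw [← mul_sum, sum_add_distrib, sum_sub_distrib, sum_const, sum_const, nsmul_eq_mul,
      nsmul_eq_mul, hm]
    field_simp
    ring
  refine h1.trans ?_
  rw [← sum_box_prod X (fun i x => Real.exp (V i x))]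
  have h2 : ∑ a ∈ A, Real.exp (∑ i ∈ X, V i (a i)) =
      ∑ v ∈ A.image (proj X), ∏ i ∈ X, Real.exp (V i (v i)) := by
    rw [sum_image fun a ha a' ha' h => inj a ha a' ha' (proj_eq_iff.1 h)]
    refine sum_congr rfl fun a _ => ?_
    rw [Real.exp_sum]
    exact prod_congr rfl fun i hi => by rw [proj_apply _ hi]
  rw [h2]
  refine sum_le_sum_of_subset_of_nonneg ?_ fun v _ _ => prod_nonneg fun i _ => (Real.exp_pos _).le
  intro v hv
  obtain ⟨a, _, rfl⟩ := mem_image.1 hv
  exact proj_mem_box X a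

/-- frequency of the letter `x` at the coordinate `t` -/
noncomputable def fr (A : Finset (ι → ZMod 3)) (t : ι) (x : ZMod 3) : ℝ :=
  ((A.filter fun a => a t = x).card : ℝ) / A.card

omit [Fintype ι] [DecidableEq ι] in
theorem fr_sum {A : Finset (ι → ZMod 3)} (hA : A.Nonempty) (t : ι) : ∑ x, fr A t x = 1 := by
  have hc : (0 : ℝ) < A.card := by exact_mod_cast hA.card_pos
  unfold fr
  rw [← sum_div, div_eq_one_iff_eq hc.ne']
  have := card_eq_sum_card_fiberwise (s := A) (t := univ) (f := fun a => a t)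
    (fun _ _ => mem_univ _)
  exact_mod_cast this.symm

omit [Fintype ι] [DecidableEq ι] in
theorem one_sub_fr {B : Finset (ι → ZMod 3)} (hB : B.Nonempty) (t : ι) (x : ZMod 3) :
    1 - fr B t x = (∑ b ∈ B, if b t = x then (0 : ℝ) else 1) / B.card := by
  have hc : (0 : ℝ) < B.card := by exact_mod_cast hB.card_pos
  unfold fr
  rw [card_filter]
  push_cast
  field_simp
  rw [sub_eq_iff_eq_add, ← sum_add_distrib, card_eq_sum_ones]
  push_cast
  exact sum_congr rfl fun b _ => by split_ifs <;> simp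

omit [Fintype ι] [DecidableEq ι] in
theorem letter_sum {B : Finset (ι → ZMod 3)} (hB : B.Nonempty) (t : ι) (u l : ℝ)
    (hl : 1 / 2 ≤ l) (h : ∀ x, fr B t x ≤ l) :
    ∑ x, Real.exp ((1 - fr B t x) * u) ≤
      Real.exp ((1 - l) * u) + Real.exp (l * u) + Real.exp u := by
  have h0 : ∀ x, 0 ≤ fr B t x := fun x => by unfold fr; positivity
  have hs := fr_sum hB t
  have e : ∀ f : ZMod 3 → ℝ, ∑ x, f x = f 0 + f 1 + f 2 := fun f => Fin.sum_univ_three f
  rw [e] at hs ⊢
  exact three_exp u l _ _ _ hl (h0 _) (h0 _) (h0 _) (h _) (h _) (h _) hs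

/-- the span of the differences -/
def spanD (A : Finset (ι → ZMod 3)) : Submodule (ZMod 3) (ι → ZMod 3) :=
  Submodule.span (ZMod 3) {e | ∃ a ∈ A, ∃ a' ∈ A, e = a' - a}

theorem exists_split {A B : Finset (ι → ZMod 3)} {d : ℕ} (h : CD A B d) :
    ∃ X : Finset ι, (∀ a ∈ A, ∀ a' ∈ A, (∀ i ∈ X, a i = a' i) → a = a') ∧
      (∀ b ∈ B, ∀ b' ∈ B, (∀ i ∈ Xᶜ, b i = b' i) → b = b') := by
  obtain ⟨X, -, hX⟩ := exists_info (spanD A) univ fun e _ h => funext fun i => h i (mem_univ i)
  refine ⟨X, fun a ha a' ha' hh => ?_, fun b hb b' hb' hh => ?_⟩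
  · have := hX.1 (a' - a) (Submodule.subset_span ⟨a, ha, a', ha', rfl⟩) fun i hi => by
      rw [Pi.sub_apply, hh i hi, sub_self]
    exact (sub_eq_zero.1 this).symm
  · have := hX.eq_zero_of_orth (c := b' - b) (by
      intro e he
      induction he using Submodule.span_induction with
      | mem x hx =>
        obtain ⟨a, ha, a', ha', rfl⟩ := hx
        rw [dotProduct_comm]
        exact h.orth ha ha' hb hb'
      | zero => simp
      | add x y _ _ hx hy => rw [dotProduct_add, hx, hy, add_zero]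
      | smul c x _ hx => rw [dotProduct_smul, hx, smul_zero])
      fun i hi => by rw [Pi.sub_apply, hh i hi, sub_self]
    exact (sub_eq_zero.1 this).symm

theorem edge {n : ℕ} (ih : IH n) (hn : Fintype.card ι = n) {A B : Finset (ι → ZMod 3)}
    {d : ℕ} (h : CD A B d) : Edge n d (A.card * B.card) := by
  rcases A.eq_empty_or_nonempty with rfl | hA
  · left; simp
  rcases B.eq_empty_or_nonempty with rfl | hB
  · left; simp
  by_cases h1 : ∃ t x, ∀ a ∈ A, a t = x
  · obtain ⟨t, x, hx⟩ := h1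
    exact Or.inl (pascal ih hn h t x hx)
  by_cases h2 : ∃ t x, ∀ b ∈ B, b t = x
  · obtain ⟨t, x, hx⟩ := h2
    left
    rw [mul_comm]
    exact pascal ih hn h.symm t x hx
  push Not at h1 h2
  right
  intro z l hz hl _ hF
  have hcA : (0 : ℝ) < A.card := by exact_mod_cast hA.card_pos
  have hcB : (0 : ℝ) < B.card := by exact_mod_cast hB.card_pos
  have fA : ∀ t x, fr A t x ≤ l := by
    intro t x
    have := freq ih hn h t x (h1 t x)
    have h3 : ((A.filter fun a => a t = x).card : ℝ) * B.card ≤ l * A.card * B.card := by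
      have h4 : ((A.filter fun a => a t = x).card : ℝ) * B.card ≤
        (F (n - 1) d : ℝ) + F (n - 1) (d - 1) := by exact_mod_cast this
      push_cast at hF
      linarith
    unfold fr
    rw [div_le_iff₀ hcA]
    exact le_of_mul_le_mul_right h3 hcB
  have fB : ∀ t x, fr B t x ≤ l := by
    intro t x
    have := freq ih hn h.symm t x (h2 t x)
    have h3 : ((B.filter fun a => a t = x).card : ℝ) * A.card ≤ l * B.card * A.card := by
      have h4 : ((B.filter fun a => a t = x).card : ℝ) * A.card ≤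
        (F (n - 1) d : ℝ) + F (n - 1) (d - 1) := by exact_mod_cast this
      push_cast at hF
      linarith
    unfold fr
    rw [div_le_iff₀ hcB]
    exact le_of_mul_le_mul_right h3 hcA
  obtain ⟨X, hXA, hXB⟩ := exists_split h
  set u := Real.log z with hu
  set G := Real.exp ((1 - l) * u) + Real.exp (l * u) + Real.exp u with hG
  have hG0 : 0 ≤ G := by positivity
  have g1 := gibbs hA X hXA fun i x => (1 - fr B i x) * u
  have g2 := gibbs hB Xᶜ hXB fun i x => (1 - fr A i x) * u
  have b1 : ∏ i ∈ X, ∑ x, Real.exp ((1 - fr B i x) * u) ≤ G ^ X.card := by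
    rw [← prod_const]
    exact prod_le_prod (fun i _ => sum_nonneg fun x _ => (Real.exp_pos _).le)
      fun i _ => letter_sum hB i u l hl (fB i)
  have b2 : ∏ i ∈ Xᶜ, ∑ x, Real.exp ((1 - fr A i x) * u) ≤ G ^ Xᶜ.card := by
    rw [← prod_const]
    exact prod_le_prod (fun i _ => sum_nonneg fun x _ => (Real.exp_pos _).le)
      fun i _ => letter_sum hA i u l hl (fA i)
  let q : ι → ℝ := fun i => ∑ a ∈ A, ∑ b ∈ B, if b i = a i then (0 : ℝ) else 1
  have s1 : (∑ a ∈ A, ∑ i ∈ X, (1 - fr B i (a i)) * u) / A.card =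
      (∑ i ∈ X, q i) * u / (A.card * B.card) := by
    rw [sum_comm, sum_mul, sum_div, sum_div]
    refine sum_congr rfl fun i _ => ?_
    simp only [one_sub_fr hB, q]
    rw [← sum_mul, ← sum_div]
    field_simp
  have s2 : (∑ b ∈ B, ∑ i ∈ Xᶜ, (1 - fr A i (b i)) * u) / B.card =
      (∑ i ∈ Xᶜ, q i) * u / (A.card * B.card) := by
    rw [sum_comm, sum_mul, sum_div, sum_div]
    refine sum_congr rfl fun i _ => ?_
    simp only [one_sub_fr hA, q]
    rw [← sum_mul, ← sum_div, sum_comm]
    simp only [eq_comm]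
    field_simp
  have s3 : ∑ i ∈ X, q i + ∑ i ∈ Xᶜ, q i = d * (A.card * B.card) := by
    rw [sum_add_sum_compl]
    simp only [q]
    rw [sum_comm]
    have : ∀ a ∈ A, ∑ i, ∑ b ∈ B, (if b i = a i then (0 : ℝ) else 1) = d * B.card := by
      intro a ha
      rw [sum_comm]
      have : ∀ b ∈ B, ∑ i, (if b i = a i then (0 : ℝ) else 1) = d := by
        intro b hb
        rw [← h a ha b hb, hd_eq_dW, dW, card_filter]
        push_cast
        exact sum_congr rfl fun i _ => by by_cases hh : a i = b i <;> simp [hh, eq_comm]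
      rw [sum_congr rfl this, sum_const, nsmul_eq_mul, mul_comm]
    rw [sum_congr rfl this, sum_const, nsmul_eq_mul]
    ring
  rw [s1] at g1
  rw [s2] at g2
  have hzd : z ^ d = Real.exp ((∑ i ∈ X, q i) * u / (A.card * B.card)) *
      Real.exp ((∑ i ∈ Xᶜ, q i) * u / (A.card * B.card)) := by
    rw [← Real.exp_add, ← add_div, ← add_mul, s3,
      show (d : ℝ) * (A.card * B.card) * u / (A.card * B.card) = d * u by field_simp,
      Real.exp_nat_mul, hu, Real.exp_log hz]
  have hGz : z ^ (1 - l) + z ^ l + z = G := by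
    rw [hG, Real.rpow_def_of_pos hz, Real.rpow_def_of_pos hz, hu, Real.exp_log hz, mul_comm (1 - l),
      mul_comm l]
  rw [hGz, hzd, ← hn, ← card_add_card_compl X, pow_add]
  push_cast
  calc _ = (A.card * Real.exp ((∑ i ∈ X, q i) * u / (A.card * B.card))) *
        (B.card * Real.exp ((∑ i ∈ Xᶜ, q i) * u / (A.card * B.card))) := by ring
    _ ≤ _ := mul_le_mul (g1.trans b1) (g2.trans b2) (by positivity) (by positivity)

end Pool.Agent.Lib.MP_990a44_co.Q3
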