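import Pool.Agent.Lib.MP_990a44_co.Q3Nine
import Pool.Agent.Lib.MP_990a44_co.Q3Edge

/-! The induction, the classical lower bound and the exact value for three letters. -/

namespace Pool.Agent.Lib.MP_990a44_co.Q3

open Finset

theorem F_zero (n : ℕ) : F n 0 = 1 := by simp [F]

theorem step (harith : Arith) {n : ℕ} (ih : IH n) {ι : Type} [Fintype ι] [DecidableEq ι]
    (hn : Fintype.card ι = n) {A B : Finset (ι → ZMod 3)} {d : ℕ} (h : CD A B d) :
    A.card * B.card ≤ F n d := by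
  rcases A.eq_empty_or_nonempty with rfl | hA
  · simp
  rcases B.eq_empty_or_nonempty with rfl | hB
  · simp
  obtain ⟨a₀, ha₀⟩ := id hA
  obtain ⟨b₀, hb₀⟩ := id hB
  rcases Nat.eq_zero_or_pos d with rfl | hd
  · rw [F_zero]
    have h1 : A.card ≤ 1 := card_le_one.2 fun a ha a' ha' =>
      (hammingDist_eq_zero.1 (h a ha b₀ hb₀)).trans (hammingDist_eq_zero.1 (h a' ha' b₀ hb₀)).symm
    have h2 : B.card ≤ 1 := card_le_one.2 fun b hb b' hb' =>
      (hammingDist_eq_zero.1 (h a₀ ha₀ b hb)).symm.trans (hammingDist_eq_zero.1 (h a₀ ha₀ b' hb'))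
    exact Nat.mul_le_mul h1 h2
  have hdn : d ≤ n := by
    rw [← h a₀ ha₀ b₀ hb₀, ← hn]
    exact hammingDist_le_card_fintype
  obtain ⟨k, D, hH⟩ := exists_hull ih hn h hA hB
  have h3 : ∀ e ∈ hull A B, e ≠ 0 → 3 ∣ wt univ e ∧ wt univ e ≠ 0 := by
    intro e he hne
    refine ⟨?_, fun h0 => hne (funext fun i => wt_eq_zero.1 h0 i (mem_univ i))⟩
    rw [← ZMod.natCast_eq_zero_iff, wt_cast]
    exact hull_orth h e he e he
  refine harith n d _ k D hd hdn (edge ih hn h) (hH 3 fun e he hne => ?_) ?_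
  · have := h3 e he hne
    omega
  · by_cases hw : ∃ e ∈ hull A B, wt univ e = 3
    · obtain ⟨e, he, hw⟩ := hw
      exact Or.inl (nine ih hn h hA hB he hw)
    · push Not at hw
      refine Or.inr (hH 6 fun e he hne => ?_)
      have := h3 e he hne
      have := hw e he
      omega

theorem ih_all (harith : Arith) (n : ℕ) : IH n := by
  induction n with
  | zero => intro κ _ _ h; omega
  | succ n ih =>
    intro κ _ _ hκ d A B h
    rcases Nat.lt_or_ge (Fintype.card κ) n with h1 | h1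
    · exact ih κ h1 d A B h
    · have h2 : Fintype.card κ = n := by omega
      rw [h2]
      exact step harith ih h2 h

/-- the product `N` is attained on some coordinate set of size `n` -/
def Ach (n d N : ℕ) : Prop :=
  ∃ (κ : Type) (_ : Fintype κ) (_ : DecidableEq κ), Fintype.card κ = n ∧
    ∃ A B : Finset (κ → ZMod 3), CD A B d ∧ A.card * B.card = N

theorem hd_sum {ι : Type} [Fintype ι] (a b : ι → ZMod 3) :
    hammingDist a b = ∑ i, if a i ≠ b i then 1 else 0 := card_filter _ _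

theorem ach_sphere (n d : ℕ) : Ach n d (S n d) := by
  refine ⟨Fin n, inferInstance, inferInstance, Fintype.card_fin n, {0},
    univ.filter fun c => wt univ c = d, fun a ha b hb => ?_, ?_⟩
  · rw [mem_singleton.1 ha, hd_eq_wt, sub_zero]
    exact (mem_filter.1 hb).2
  · rw [card_sphere, Fintype.card_fin, card_singleton, one_mul]

theorem ach_mul {n d N n' d' N' : ℕ} (h : Ach n d N) (h' : Ach n' d' N') :
    Ach (n + n') (d + d') (N * N') := by
  obtain ⟨κ, _, _, hκ, A, B, hd, rfl⟩ := h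
  obtain ⟨κ', _, _, hκ', A', B', hd', rfl⟩ := h'
  have inj : Function.Injective
      fun x : (κ → ZMod 3) × (κ' → ZMod 3) => Sum.elim x.1 x.2 := by
    rintro ⟨a, a'⟩ ⟨b, b'⟩ hh
    have h1 : a = b := funext fun i => congrFun hh (Sum.inl i)
    have h2 : a' = b' := funext fun i => congrFun hh (Sum.inr i)
    rw [h1, h2]
  refine ⟨κ ⊕ κ', inferInstance, inferInstance, by rw [Fintype.card_sum, hκ, hκ'],
    (A ×ˢ A').image fun x => Sum.elim x.1 x.2, (B ×ˢ B').image fun x => Sum.elim x.1 x.2,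
    fun a ha b hb => ?_, ?_⟩
  · obtain ⟨⟨x, x'⟩, hx, rfl⟩ := mem_image.1 ha
    obtain ⟨⟨y, y'⟩, hy, rfl⟩ := mem_image.1 hb
    rw [mem_product] at hx hy
    rw [← hd x hx.1 y hy.1, ← hd' x' hx.2 y' hy.2, hd_sum, hd_sum, hd_sum, Fintype.sum_sum_type]
    rfl
  · rw [card_image_of_injective _ inj, card_image_of_injective _ inj, card_product, card_product]
    ring

theorem ach_block : Ach 3 2 18 := by
  refine ⟨Fin 3, inferInstance, inferInstance, rfl, {![0, 0, 0], ![1, 1, 1], ![2, 2, 2]},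
    {![0, 1, 2], ![0, 2, 1], ![1, 0, 2], ![1, 2, 0], ![2, 0, 1], ![2, 1, 0]}, ?_, ?_⟩
  · unfold CD; decide
  · decide

theorem ach_all (m j i : ℕ) : Ach (m + 3 * i) (j + 2 * i) (S m j * 18 ^ i) := by
  induction i with
  | zero => simpa using ach_sphere m j
  | succ i ih =>
    have := ach_mul ih ach_block
    rwa [add_assoc, add_assoc, mul_assoc] at this

theorem Ach.fin {n d N : ℕ} (h : Ach n d N) :
    ∃ A B : Finset (Fin n → ZMod 3), CD A B d ∧ A.card * B.card = N := by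
  obtain ⟨κ, _, _, hκ, A, B, hd, rfl⟩ := h
  let e : Fin n ≃ κ := (Fintype.equivFinOfCardEq hκ).symm
  have inj : Function.Injective fun a : κ → ZMod 3 => a ∘ e := fun a b hh =>
    funext fun i => by simpa using congrFun hh (e.symm i)
  refine ⟨A.image fun a => a ∘ e, B.image fun a => a ∘ e, fun a ha b hb => ?_, ?_⟩
  · obtain ⟨x, hx, rfl⟩ := mem_image.1 ha
    obtain ⟨y, hy, rfl⟩ := mem_image.1 hb
    rw [← hd x hx y hy, hd_sum, hd_sum]
    exact Equiv.sum_comp e fun i => if x i ≠ y i then 1 else 0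
  · rw [card_image_of_injective _ inj, card_image_of_injective _ inj]

theorem main_three (harith : Arith) (n δ : ℕ) :
    IsGreatest
      {N : ℕ | ∃ A B : Finset (Fin n → Fin 3),
        (∀ a ∈ A, ∀ b ∈ B, hammingDist a b = δ) ∧ N = A.card * B.card}
      (((range (δ + 1) ×ˢ range (δ + 1)).filter
          fun p : ℕ × ℕ => 2 * p.1 + p.2 = δ ∧ 3 * p.1 ≤ n).sup fun p : ℕ × ℕ =>
        2 ^ p.2 * 18 ^ p.1 * (n - 3 * p.1).choose p.2) := by
  have hm : ∀ i j : ℕ, 2 * i + j = δ → 3 * i ≤ n → (i, j) ∈ (range (δ + 1) ×ˢ range (δ + 1)).filter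
      fun p : ℕ × ℕ => 2 * p.1 + p.2 = δ ∧ 3 * p.1 ≤ n := by
    intro i j h1 h2
    rw [mem_filter, mem_product, mem_range, mem_range]
    exact ⟨⟨by show i < δ + 1; omega, by show j < δ + 1; omega⟩, h1, h2⟩
  constructor
  · obtain ⟨p, hp, hsup⟩ := exists_mem_eq_sup _ ⟨(0, δ), hm 0 δ (by omega) (by omega)⟩
      (fun p : ℕ × ℕ => 2 ^ p.2 * 18 ^ p.1 * (n - 3 * p.1).choose p.2)
    rw [mem_filter] at hp
    have := ach_all (n - 3 * p.1) p.2 p.1
    rw [show n - 3 * p.1 + 3 * p.1 = n by omega, show p.2 + 2 * p.1 = δ by omega] at this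
    obtain ⟨A, B, h1, h2⟩ := this.fin
    refine ⟨A, B, h1, ?_⟩
    rw [hsup]
    exact (h2.trans (by rw [S]; ring)).symm
  · rintro N ⟨A, B, hd, rfl⟩
    have h := ih_all harith (n + 1) (Fin n) (by simp) δ A B hd
    rw [Fintype.card_fin] at h
    refine h.trans ?_
    have hs := fun i j h1 h2 => le_sup (f := fun p : ℕ × ℕ =>
      2 ^ p.2 * 18 ^ p.1 * (n - 3 * p.1).choose p.2) (hm i j h1 h2)
    unfold F
    split_ifs with h1 h2 h3 h4
    · obtain ⟨rfl, rfl⟩ := h1
      exact hs 1 0 rfl (by norm_num)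
    · obtain ⟨rfl, rfl⟩ := h2
      exact hs 1 1 rfl (by norm_num)
    · obtain ⟨rfl, rfl⟩ := h3
      exact hs 2 0 rfl (by norm_num)
    · obtain ⟨rfl, rfl⟩ := h4
      exact hs 3 0 rfl (by norm_num)
    · simpa using hs 0 δ (by omega) (by omega)

end Pool.Agent.Lib.MP_990a44_co.Q3
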