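import Pool.Agent.Lib.MP_990a44_co.Q3Fin
import Pool.Agent.Lib.MP_990a44_co.Q3AsyE
import Pool.Agent.Lib.MP_990a44_co.Q3Main

/-!
The arithmetic statement for all lengths.
-/

namespace Pool.Agent.Lib.MP_990a44_co.Q3

theorem arith : Arith := by
  intro n d N h D hd1 hd hE H H9
  rcases Nat.lt_or_ge 400 n with hn | hn
  · exact asy n d N h D hn hd1 hd hE H
  · exact fin n d N h D hn hd1 hd hE H H9

end Pool.Agent.Lib.MP_990a44_co.Q3
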