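import Pool.Agent.Lib.MP_990a44_co.Q3Block

/-!
Stirling type bounds for binomial probabilities.
-/

namespace Pool.Agent.Lib.MP_990a44_co.Q3

open Finset Real Filter Topology Stirling

lemma stir_pos {n : ℕ} (hn : 1 ≤ n) : 0 < stirlingSeq n := by
  obtain ⟨m, rfl⟩ : ∃ m, n = m + 1 := ⟨n - 1, by omega⟩
  exact stirlingSeq'_pos m

lemma stir_diff {n : ℕ} (hn : 1 ≤ n) (t : ℕ) :
    log (stirlingSeq n) - log (stirlingSeq (n + t)) ≤ 1 / (12 * n) - 1 / (12 * ((n + t : ℕ) : ℝ)) := by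
  induction t with
  | zero => simp
  | succ t ih =>
    have h := log_stirlingSeq_sdiff_le (n + t)
    have hp : (0 : ℝ) < ((n + t : ℕ) : ℝ) := by exact_mod_cast (by omega : 0 < n + t)
    have e : (1 : ℝ) / (12 * ((n + t : ℕ) : ℝ) * (((n + t : ℕ) : ℝ) + 1))
        = 1 / (12 * ((n + t : ℕ) : ℝ)) - 1 / (12 * ((n + (t + 1) : ℕ) : ℝ)) := by
      have : ((n + (t + 1) : ℕ) : ℝ) = ((n + t : ℕ) : ℝ) + 1 := by push_cast; ring
      rw [this]; field_simp; ring
    rw [e] at h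
    have e2 : n + (t + 1) = n + t + 1 := by ring
    rw [e2] at h ⊢
    linarith

lemma stir_le {n : ℕ} (hn : 1 ≤ n) : stirlingSeq n ≤ √π * exp (1 / (12 * n)) := by
  have hpi : 0 < √π := sqrt_pos.mpr pi_pos
  have ht : Tendsto (fun t : ℕ => log (stirlingSeq (n + t))) atTop (𝓝 (log (√π))) := by
    have h1 : Tendsto (fun t : ℕ => n + t) atTop atTop :=
      tendsto_atTop_mono (fun t => Nat.le_add_left t n) tendsto_id
    exact (tendsto_stirlingSeq_sqrt_pi.comp h1).log hpi.ne'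
  have h2 : log (stirlingSeq n) - 1 / (12 * n) ≤ log (√π) := by
    refine ge_of_tendsto' ht fun t => ?_
    have := stir_diff hn t
    have hp : (0 : ℝ) ≤ 1 / (12 * ((n + t : ℕ) : ℝ)) := by positivity
    linarith
  rw [← log_le_log_iff (stir_pos hn) (by positivity), log_mul hpi.ne' (exp_pos _).ne', log_exp]
  linarith

lemma stir_anti {m n : ℕ} (hm : 1 ≤ m) (h : m ≤ n) : stirlingSeq n ≤ stirlingSeq m := by
  obtain ⟨a, rfl⟩ : ∃ a, m = a + 1 := ⟨m - 1, by omega⟩
  obtain ⟨b, rfl⟩ : ∃ b, n = b + 1 := ⟨n - 1, by omega⟩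
  exact stirlingSeq'_antitone (by omega : a ≤ b)

lemma fact_sq {n : ℕ} (hn : 1 ≤ n) :
    ((n.factorial : ℝ)) ^ 2 = stirlingSeq n ^ 2 * (2 * n) * ((n : ℝ) ^ n / exp n) ^ 2 := by
  have hp : (0 : ℝ) < n := by exact_mod_cast hn
  have e : ((n : ℝ) / exp 1) ^ n = (n : ℝ) ^ n / exp n := by
    rw [div_pow, ← exp_nat_mul, mul_one]
  rw [stirlingSeq, e, div_pow, mul_pow, sq_sqrt (by positivity)]
  field_simp

/-- the binomial probability at its own mean -/
noncomputable def bet (a b : ℕ) : ℝ :=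
  ((a + b).choose a : ℝ) * ((a : ℝ) / (a + b)) ^ a * ((b : ℝ) / (a + b)) ^ b

lemma bet_sq {a b : ℕ} (ha : 1 ≤ a) (hb : 1 ≤ b) :
    bet a b ^ 2 * (2 * a * b) * (stirlingSeq a * stirlingSeq b) ^ 2
      = stirlingSeq (a + b) ^ 2 * (a + b) := by
  have ha' : (0 : ℝ) < a := by exact_mod_cast ha
  have hb' : (0 : ℝ) < b := by exact_mod_cast hb
  have h1 := fact_sq ha
  have h2 := fact_sq hb
  have h3 := fact_sq (show 1 ≤ a + b by omega)
  have h4 : ((a + b).choose a : ℝ) * a.factorial * b.factorial = (a + b).factorial := by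
    have h5 : (a + b).choose a = (a + b).choose b := Nat.choose_symm_add
    rw [h5]
    have h6 := Nat.add_choose_mul_factorial_mul_factorial a b
    exact_mod_cast h6
  have h5 : ((a + b).choose a : ℝ) ^ 2 * (a.factorial : ℝ) ^ 2 * (b.factorial : ℝ) ^ 2
      = ((a + b).factorial : ℝ) ^ 2 := by rw [← h4]; ring
  rw [h1, h2, h3] at h5
  push_cast at h5
  rw [exp_add, pow_add] at h5
  unfold bet
  rw [div_pow, div_pow]
  have hs : (0 : ℝ) < (a : ℝ) + b := by positivity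
  have ea := exp_pos (a : ℝ)
  have eb := exp_pos (b : ℝ)
  have pa : (0 : ℝ) < ((a : ℝ) + b) ^ a := by positivity
  have pb : (0 : ℝ) < ((a : ℝ) + b) ^ b := by positivity
  field_simp at h5 ⊢
  linarith

lemma bet_pos {a b : ℕ} (ha : 1 ≤ a) (hb : 1 ≤ b) : 0 < bet a b := by
  have ha' : (0 : ℝ) < a := by exact_mod_cast ha
  have hb' : (0 : ℝ) < b := by exact_mod_cast hb
  have : (0 : ℝ) < ((a + b).choose a : ℝ) := by
    exact_mod_cast Nat.choose_pos (by omega)
  unfold bet; positivity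

lemma bet_upper {a b : ℕ} (ha : 1 ≤ a) (hb : 1 ≤ b) :
    bet a b ^ 2 * (2 * π * a * b) ≤ a + b := by
  have ha' : (0 : ℝ) < a := by exact_mod_cast ha
  have hb' : (0 : ℝ) < b := by exact_mod_cast hb
  have h := bet_sq ha hb
  have h1 : stirlingSeq (a + b) ≤ stirlingSeq a := stir_anti ha (by omega)
  have h2 : √π ≤ stirlingSeq b := sqrt_pi_le_stirlingSeq (by omega)
  have h3 : π ≤ stirlingSeq b ^ 2 := by
    have := pow_le_pow_left₀ (sqrt_nonneg π) h2 2
    rwa [sq_sqrt pi_pos.le] at this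
  have h4 : stirlingSeq (a + b) ^ 2 ≤ stirlingSeq a ^ 2 :=
    pow_le_pow_left₀ (stir_pos (by omega)).le h1 2
  have hp := stir_pos ha
  have h5 : bet a b ^ 2 * (2 * π * a * b) * stirlingSeq a ^ 2
      ≤ (a + b) * stirlingSeq a ^ 2 := by
    calc bet a b ^ 2 * (2 * π * a * b) * stirlingSeq a ^ 2
        = bet a b ^ 2 * (2 * a * b) * stirlingSeq a ^ 2 * π := by ring
      _ ≤ bet a b ^ 2 * (2 * a * b) * stirlingSeq a ^ 2 * stirlingSeq b ^ 2 :=
          mul_le_mul_of_nonneg_left h3 (by positivity)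
      _ = stirlingSeq (a + b) ^ 2 * (a + b) := by rw [← h]; ring
      _ ≤ _ := by rw [mul_comm]; exact mul_le_mul_of_nonneg_left h4 (by positivity)
  exact le_of_mul_le_mul_right h5 (by positivity)

lemma bet_lower {a b : ℕ} (ha : 1 ≤ a) (hb : 1 ≤ b) :
    (a : ℝ) + b ≤ bet a b ^ 2 * (2 * π * a * b) * exp (1 / (6 * a) + 1 / (6 * b)) := by
  have ha' : (0 : ℝ) < a := by exact_mod_cast ha
  have hb' : (0 : ℝ) < b := by exact_mod_cast hb
  have h := bet_sq ha hb
  have h2 : √π ≤ stirlingSeq (a + b) := sqrt_pi_le_stirlingSeq (by omega)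
  have h3 : π ≤ stirlingSeq (a + b) ^ 2 := by
    have := pow_le_pow_left₀ (sqrt_nonneg π) h2 2
    rwa [sq_sqrt pi_pos.le] at this
  have h4 : stirlingSeq a * stirlingSeq b ≤ π * exp (1 / (12 * a) + 1 / (12 * b)) := by
    calc _ ≤ (√π * exp (1 / (12 * a))) * (√π * exp (1 / (12 * b))) :=
          mul_le_mul (stir_le ha) (stir_le hb) (stir_pos hb).le (by positivity)
      _ = (√π * √π) * (exp (1 / (12 * a)) * exp (1 / (12 * b))) := by ring
      _ = _ := by rw [mul_self_sqrt pi_pos.le, exp_add]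
  have h5 : (stirlingSeq a * stirlingSeq b) ^ 2 ≤ π ^ 2 * exp (1 / (6 * a) + 1 / (6 * b)) := by
    have := pow_le_pow_left₀ (mul_pos (stir_pos ha) (stir_pos hb)).le h4 2
    rw [mul_pow π, ← exp_nat_mul] at this
    have e : ((2 : ℕ) : ℝ) * (1 / (12 * a) + 1 / (12 * b)) = 1 / (6 * a) + 1 / (6 * b) := by
      push_cast; field_simp; ring
    rwa [e] at this
  have h6 : ((a : ℝ) + b) * π
      ≤ (bet a b ^ 2 * (2 * π * a * b) * exp (1 / (6 * a) + 1 / (6 * b))) * π := by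
    calc ((a : ℝ) + b) * π ≤ (a + b) * stirlingSeq (a + b) ^ 2 :=
          mul_le_mul_of_nonneg_left h3 (by positivity)
      _ = bet a b ^ 2 * (2 * a * b) * (stirlingSeq a * stirlingSeq b) ^ 2 := by rw [h]; ring
      _ ≤ bet a b ^ 2 * (2 * a * b) * (π ^ 2 * exp (1 / (6 * a) + 1 / (6 * b))) :=
          mul_le_mul_of_nonneg_left h5 (by positivity)
      _ = _ := by ring
  exact le_of_mul_le_mul_right h6 pi_pos

/-- the likelihood is maximal at the empirical frequency -/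
lemma like_le {a b : ℕ} (ha : 1 ≤ a) (hb : 1 ≤ b) {y : ℝ} (hy : 0 < y) :
    y ^ a ≤ (1 + y) ^ (a + b) * (((a : ℝ) / (a + b)) ^ a * ((b : ℝ) / (a + b)) ^ b) := by
  have ha' : (0 : ℝ) < a := by exact_mod_cast ha
  have hb' : (0 : ℝ) < b := by exact_mod_cast hb
  have hs : (0 : ℝ) < (a : ℝ) + b := by positivity
  have h1y : (0 : ℝ) < 1 + y := by positivity
  set s : ℝ := y / (1 + y) * ((a + b) / a) with hsd
  set t : ℝ := 1 / (1 + y) * ((a + b) / b) with htd
  have h1 : s ^ a ≤ exp (a * (s - 1)) := by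
    rw [exp_nat_mul]
    exact pow_le_pow_left₀ (by positivity) (by linarith [add_one_le_exp (s - 1)]) a
  have h2 : t ^ b ≤ exp (b * (t - 1)) := by
    rw [exp_nat_mul]
    exact pow_le_pow_left₀ (by positivity) (by linarith [add_one_le_exp (t - 1)]) b
  have h3 : s ^ a * t ^ b ≤ 1 := by
    calc _ ≤ exp (a * (s - 1)) * exp (b * (t - 1)) :=
          mul_le_mul h1 h2 (by positivity) (by positivity)
      _ = 1 := by
          rw [← exp_add]
          have : (a : ℝ) * (s - 1) + b * (t - 1) = 0 := by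
            rw [hsd, htd]; field_simp; ring
          rw [this, exp_zero]
  have e : y ^ a = (1 + y) ^ (a + b) * (((a : ℝ) / (a + b)) ^ a * ((b : ℝ) / (a + b)) ^ b)
      * (s ^ a * t ^ b) := by
    have e1 : (1 + y) * ((a : ℝ) / (a + b)) * s = y := by rw [hsd]; field_simp
    have e2 : (1 + y) * ((b : ℝ) / (a + b)) * t = 1 := by rw [htd]; field_simp
    calc y ^ a = ((1 + y) * ((a : ℝ) / (a + b)) * s) ^ a
          * ((1 + y) * ((b : ℝ) / (a + b)) * t) ^ b := by rw [e1, e2]; simp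
      _ = _ := by
          clear_value s t
          generalize (a : ℝ) / (a + b) = A
          generalize (b : ℝ) / (a + b) = B
          generalize 1 + y = Y
          ring
  rw [e]
  exact mul_le_of_le_one_right (by positivity) h3

lemma term_le_bet {a b : ℕ} (ha : 1 ≤ a) (hb : 1 ≤ b) {y : ℝ} (hy : 0 < y) :
    ((a + b).choose a : ℝ) * y ^ a ≤ bet a b * (1 + y) ^ (a + b) := by
  have := mul_le_mul_of_nonneg_left (like_le ha hb hy)
    (Nat.cast_nonneg (α := ℝ) ((a + b).choose a))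
  unfold bet
  linarith

/-- bound for the largest binomial probability -/
lemma pm {k : ℕ} (hk : 5 ≤ k) {y : ℝ} (hy1 : 1 ≤ y) (hy2 : y ≤ 18 / 7) (j : ℕ) :
    ((k.choose j : ℝ) * y ^ j) ^ 2 * (2 * π * (k * (y / (1 + y) ^ 2) - 0.43))
      ≤ (1 + y) ^ (2 * k) := by
  have hy : 0 < y := by linarith
  have hk' : (5 : ℝ) ≤ k := by exact_mod_cast hk
  set q : ℝ := y / (1 + y) with hq
  have h1y : 0 < 1 + y := by linarith
  have hq1 : 1 / 2 ≤ q := by rw [hq, le_div_iff₀ h1y]; linarith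
  have hq2 : q ≤ 0.72 := by rw [hq, div_le_iff₀ h1y]; linarith
  have hqq : y / (1 + y) ^ 2 = q * (1 - q) := by rw [hq]; field_simp; ring
  have hyq : y = q * (1 + y) := by rw [hq]; field_simp
  rw [hqq]
  have hqq2 : 0.2016 ≤ q * (1 - q) := by nlinarith
  have hpos : 0 < (k : ℝ) * (q * (1 - q)) - 0.43 := by nlinarith
  obtain ⟨m, hm, hmax⟩ := exists_max_image (range (k + 1))
    (fun i => (k.choose i : ℝ) * y ^ i) ⟨0, by simp⟩
  have hmk : m ≤ k := by simpa [Nat.lt_succ_iff] using hm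
  have hj : (k.choose j : ℝ) * y ^ j ≤ (k.choose m : ℝ) * y ^ m := by
    rcases Nat.lt_or_ge k j with h | h
    · rw [Nat.choose_eq_zero_of_lt h]; simp; positivity
    · exact hmax j (by simpa [Nat.lt_succ_iff] using h)
  have hcm : (0 : ℝ) < k.choose m := by exact_mod_cast Nat.choose_pos hmk
  have lo : (k + 1) * q - 1 ≤ m := by
    rcases Nat.eq_or_lt_of_le hmk with h | h
    · rw [h]; nlinarith
    · have h1 := hmax (m + 1) (by simp; omega)
      have h2 : (k.choose (m + 1) : ℝ) * (m + 1) = k.choose m * ((k : ℝ) - m) := by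
        have := Nat.choose_succ_right_eq k m
        have h3 : ((k - m : ℕ) : ℝ) = (k : ℝ) - m := Nat.cast_sub hmk
        rw [← h3]; exact_mod_cast this
      have h3 : (k.choose m : ℝ) * y ^ m * (((k : ℝ) - m) * y)
          ≤ (k.choose m : ℝ) * y ^ m * (m + 1) := by
        calc _ = (k.choose (m + 1) : ℝ) * y ^ (m + 1) * (m + 1) := by
              rw [mul_right_comm (k.choose (m + 1) : ℝ), h2]; ring
          _ ≤ _ := mul_le_mul_of_nonneg_right h1 (by positivity)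
      have h4 : ((k : ℝ) - m) * y ≤ m + 1 := le_of_mul_le_mul_left h3 (by positivity)
      have h5 : ((k + 1) * q - 1) * (1 + y) ≤ m * (1 + y) := by nlinarith
      exact le_of_mul_le_mul_right h5 h1y
  have hi : (m : ℝ) ≤ (k + 1) * q := by
    rcases Nat.eq_zero_or_pos m with h | h
    · rw [h]; simp; positivity
    · obtain ⟨i, rfl⟩ : ∃ i, m = i + 1 := ⟨m - 1, by omega⟩
      have h1 := hmax i (by simp; omega)
      have h2 : (k.choose (i + 1) : ℝ) * (i + 1) = k.choose i * ((k : ℝ) - i) := by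
        have := Nat.choose_succ_right_eq k i
        have h3 : ((k - i : ℕ) : ℝ) = (k : ℝ) - i := Nat.cast_sub (by omega)
        rw [← h3]; exact_mod_cast this
      have hci : (0 : ℝ) < k.choose i := by exact_mod_cast Nat.choose_pos (by omega)
      have h3 : (k.choose i : ℝ) * y ^ i * (i + 1)
          ≤ (k.choose i : ℝ) * y ^ i * (((k : ℝ) - i) * y) := by
        calc _ ≤ (k.choose (i + 1) : ℝ) * y ^ (i + 1) * (i + 1) :=
              mul_le_mul_of_nonneg_right h1 (by positivity)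
          _ = _ := by rw [mul_right_comm (k.choose (i + 1) : ℝ), h2]; ring
      have h4 : (i : ℝ) + 1 ≤ ((k : ℝ) - i) * y := le_of_mul_le_mul_left h3 (by positivity)
      have h5 : ((i : ℝ) + 1) * (1 + y) ≤ ((k + 1) * q) * (1 + y) := by nlinarith
      push_cast
      exact le_of_mul_le_mul_right h5 h1y
  have hm1 : 1 ≤ m := by
    have : (1 : ℝ) ≤ m := by nlinarith
    exact_mod_cast this
  have hm2 : m < k := by
    have : (m : ℝ) < k := by nlinarith
    exact_mod_cast this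
  obtain ⟨b, rfl⟩ : ∃ b, k = m + b := ⟨k - m, by omega⟩
  have hb : 1 ≤ b := by omega
  have h1 := term_le_bet hm1 hb hy
  have h2 := bet_upper hm1 hb
  have hs : (0 : ℝ) < (m : ℝ) + b := by positivity
  push_cast at lo hi hk' hpos ⊢
  have h3 : (((m : ℝ) + b) * (q * (1 - q)) - 0.43) * (m + b) ≤ m * b := by
    set K : ℝ := (m : ℝ) + b with hK
    have eb : (b : ℝ) = K - m := by rw [hK]; ring
    rw [eb]
    set e : ℝ := m - K * q with he
    have em : (m : ℝ) = K * q + e := by rw [he]; ring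
    have e1 : q - 1 ≤ e := by linarith
    have e2 : e ≤ q := by linarith
    rw [em]
    have a1 : e * (2 * q - 1) ≤ 0.3168 := by nlinarith
    have a2 : e ^ 2 ≤ 0.5184 := by nlinarith
    nlinarith
  have h4 : bet m b ^ 2 * (2 * π * (((m : ℝ) + b) * (q * (1 - q)) - 0.43)) ≤ 1 := by
    have h5 : bet m b ^ 2 * (2 * π * (((m : ℝ) + b) * (q * (1 - q)) - 0.43)) * (m + b)
        ≤ 1 * ((m : ℝ) + b) := by
      calc _ = bet m b ^ 2 * (2 * π) * ((((m : ℝ) + b) * (q * (1 - q)) - 0.43) * (m + b)) := by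
            ring
        _ ≤ bet m b ^ 2 * (2 * π) * (m * b) :=
            mul_le_mul_of_nonneg_left h3 (by have := pi_pos; positivity)
        _ ≤ _ := by linarith
    exact le_of_mul_le_mul_right h5 hs
  have h6 : (((m + b).choose j : ℝ) * y ^ j) ^ 2 ≤ (bet m b * (1 + y) ^ (m + b)) ^ 2 :=
    pow_le_pow_left₀ (by positivity) (hj.trans h1) 2
  have hpi := pi_pos
  calc _ ≤ (bet m b * (1 + y) ^ (m + b)) ^ 2 * (2 * π * (((m : ℝ) + b) * (q * (1 - q)) - 0.43)) :=
        mul_le_mul_of_nonneg_right h6 (by positivity)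
    _ = (bet m b ^ 2 * (2 * π * (((m : ℝ) + b) * (q * (1 - q)) - 0.43))) * (1 + y) ^ (2 * (m + b)) := by
        ring
    _ ≤ _ := mul_le_of_le_one_left (by positivity) h4

lemma pm_small {y : ℝ} (hy1 : 1 ≤ y) (hy2 : y ≤ 18 / 7) (k : ℕ) (j : ℕ) :
    ((k + 1).choose j : ℝ) * y ^ j ≤ 0.72 * (1 + y) ^ (k + 1) := by
  have hy : 0 < y := by linarith
  induction k generalizing j with
  | zero =>
    rcases j with _ | _ | j
    · simp; linarith
    · simp; linarith
    · rw [Nat.choose_eq_zero_of_lt (by omega)]; simp; positivity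
  | succ k ih =>
    rcases j with _ | j
    · have := ih 0
      simp only [Nat.choose_zero_right, Nat.cast_one, pow_zero, mul_one] at this ⊢
      rw [pow_succ]
      nlinarith [pow_pos (show 0 < 1 + y by linarith) (k + 1)]
    · rw [Nat.choose_succ_succ]
      push_cast
      have h1 := ih j
      have h2 := ih (j + 1)
      have h3 := mul_le_mul_of_nonneg_right h1 hy.le
      rw [pow_succ (1 + y) (k + 1)]
      simp only [Nat.succ_eq_add_one]
      rw [pow_succ y] at h2 ⊢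
      nlinarith

lemma cube_le {x : ℝ} (hx : 0 ≤ x) : 27 * x ^ 2 ≤ (1 + 2 * x) ^ 3 := by
  nlinarith [mul_nonneg (sq_nonneg (x - 1)) (show 0 ≤ 8 * x + 1 by linarith)]

lemma F_small {x : ℝ} (hx1 : 1 / 2 ≤ x) (hx2 : x ≤ 9 / 7) {v : ℕ} (hv : 1 ≤ v) (j : ℕ) :
    (F v j : ℝ) * x ^ j ≤ 0.72 * (1 + 2 * x) ^ v := by
  have hx : 0 < x := by linarith
  have hc := cube_le hx.le
  have h3 : 0 < (1 + 2 * x) ^ 3 := by positivity
  have hc' : 18 * x ^ 2 ≤ 2 / 3 * (1 + 2 * x) ^ 3 := by linarith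
  unfold F
  split_ifs with h1 h2 h3' h4
  · obtain ⟨rfl, rfl⟩ := h1
    push_cast; linarith
  · obtain ⟨rfl, rfl⟩ := h2
    push_cast
    have : 36 * x ^ 3 = 18 * x ^ 2 * (2 * x) := by ring
    rw [this, pow_succ (1 + 2 * x) 3]
    have h5 : 18 * x ^ 2 * (2 * x) ≤ 2 / 3 * (1 + 2 * x) ^ 3 * (1 + 2 * x) :=
      mul_le_mul hc' (by linarith) (by positivity) (by positivity)
    nlinarith [mul_pos h3 (show 0 < 1 + 2 * x by linarith)]
  · obtain ⟨rfl, rfl⟩ := h3'
    push_cast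
    have h5 := pow_le_pow_left₀ (by positivity) hc' 2
    have : (1 + 2 * x) ^ 6 = ((1 + 2 * x) ^ 3) ^ 2 := by ring
    rw [this]
    nlinarith [pow_pos h3 2]
  · obtain ⟨rfl, rfl⟩ := h4
    push_cast
    have h5 := pow_le_pow_left₀ (by positivity) hc' 3
    have : (1 + 2 * x) ^ 9 = ((1 + 2 * x) ^ 3) ^ 3 := by ring
    rw [this]
    nlinarith [pow_pos h3 3]
  · obtain ⟨k, rfl⟩ : ∃ k, v = k + 1 := ⟨v - 1, by omega⟩
    have := pm_small (y := 2 * x) (by linarith) (by linarith) k j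
    push_cast
    rw [mul_pow] at this
    linarith

lemma qq_ge {x : ℝ} (hx1 : 1 / 2 ≤ x) (hx2 : x ≤ 9 / 7) : 0.2016 ≤ 2 * x / (1 + 2 * x) ^ 2 := by
  rw [le_div_iff₀ (by positivity)]
  nlinarith

lemma F_mid {x : ℝ} (hx1 : 1 / 2 ≤ x) (hx2 : x ≤ 9 / 7) {v : ℕ} (hv : 5 ≤ v) (j : ℕ) :
    ((F v j : ℝ) * x ^ j) ^ 2 * (2 * π * (0.2016 * v - 0.43)) ≤ (1 + 2 * x) ^ (2 * v) := by
  have hx : 0 < x := by linarith
  have hc := cube_le hx.le
  have h3 : 0 < (1 + 2 * x) ^ 3 := by positivity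
  have hc' : 18 * x ^ 2 ≤ 2 / 3 * (1 + 2 * x) ^ 3 := by linarith
  have hpi := pi_pos
  have hpi2 := pi_lt_d2
  unfold F
  split_ifs with h1 h2 h3' h4
  · omega
  · omega
  · obtain ⟨rfl, rfl⟩ := h3'
    push_cast
    have h5 := pow_le_pow_left₀ (by positivity) hc' 4
    have e1 : (1 + 2 * x) ^ (2 * 6) = ((1 + 2 * x) ^ 3) ^ 4 := by ring
    have e2 : (324 * x ^ 4) ^ 2 = (18 * x ^ 2) ^ 4 := by ring
    rw [e1, e2]
    rw [mul_pow (2 / 3 : ℝ)] at h5
    have h6 : (18 * x ^ 2) ^ 4 * (2 * π * (0.2016 * 6 - 0.43))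
        ≤ ((2 / 3) ^ 4 * ((1 + 2 * x) ^ 3) ^ 4) * (2 * 3.15 * (0.2016 * 6 - 0.43)) :=
      mul_le_mul h5 (by nlinarith) (by positivity) (by positivity)
    nlinarith [pow_pos h3 4]
  · obtain ⟨rfl, rfl⟩ := h4
    push_cast
    have h5 := pow_le_pow_left₀ (by positivity) hc' 6
    have e1 : (1 + 2 * x) ^ (2 * 9) = ((1 + 2 * x) ^ 3) ^ 6 := by ring
    have e2 : (5832 * x ^ 6) ^ 2 = (18 * x ^ 2) ^ 6 := by ring
    rw [e1, e2]
    rw [mul_pow (2 / 3 : ℝ)] at h5
    have h6 : (18 * x ^ 2) ^ 6 * (2 * π * (0.2016 * 9 - 0.43))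
        ≤ ((2 / 3) ^ 6 * ((1 + 2 * x) ^ 3) ^ 6) * (2 * 3.15 * (0.2016 * 9 - 0.43)) :=
      mul_le_mul h5 (by nlinarith) (by positivity) (by positivity)
    nlinarith [pow_pos h3 6]
  · have h5 := pm hv (y := 2 * x) (by linarith) (by linarith) j
    have h6 := qq_ge hx1 hx2
    have hv' : (5 : ℝ) ≤ v := by exact_mod_cast hv
    push_cast
    have e : (2 : ℝ) ^ j * (v.choose j : ℝ) * x ^ j = (v.choose j : ℝ) * (2 * x) ^ j := by
      rw [mul_pow]; ring
    rw [e]
    refine le_trans (mul_le_mul_of_nonneg_left ?_ (by positivity)) h5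
    have : 0.2016 * (v : ℝ) ≤ v * (2 * x / (1 + 2 * x) ^ 2) := by nlinarith
    nlinarith

lemma F_eq_SA {n : ℕ} (hn : 10 ≤ n) (d : ℕ) : F n d = S n d := by
  unfold F S
  rw [if_neg (by omega), if_neg (by omega), if_neg (by omega), if_neg (by omega)]

lemma F_big {x : ℝ} (hx1 : 1 / 2 ≤ x) (hx2 : x ≤ 9 / 7) {v : ℕ} (hv : 10 ≤ v) (j : ℕ) :
    ((F v j : ℝ) * x ^ j) ^ 2 * (2 * π * (v * (2 * x / (1 + 2 * x) ^ 2) - 0.43))
      ≤ (1 + 2 * x) ^ (2 * v) := by
  have h5 := pm (show 5 ≤ v by omega) (y := 2 * x) (by linarith) (by linarith) j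
  rw [F_eq_SA hv, S]
  push_cast
  have e : (2 : ℝ) ^ j * (v.choose j : ℝ) * x ^ j = (v.choose j : ℝ) * (2 * x) ^ j := by
    rw [mul_pow]; ring
  rw [e]; exact h5

end Pool.Agent.Lib.MP_990a44_co.Q3
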