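import Pool.Agent.Lib.MP_990a44_co.Q3AsyA

/-!
The Gibbs bound leaves only a narrow window of distances around two thirds of the length.
-/

namespace Pool.Agent.Lib.MP_990a44_co.Q3

open Finset Real

/-- the tilt adapted to distance `a` and length `a + b` -/
noncomputable def xz (a b : ℕ) : ℝ := (a : ℝ) / (2 * b)

lemma xz_pos {a b : ℕ} (ha : 1 ≤ a) (hb : 1 ≤ b) : 0 < xz a b := by
  have ha' : (0 : ℝ) < a := by exact_mod_cast ha
  have hb' : (0 : ℝ) < b := by exact_mod_cast hb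
  unfold xz; positivity

lemma like_eq {a b : ℕ} (ha : 1 ≤ a) (hb : 1 ≤ b) :
    (2 * xz a b) ^ a
      = (1 + 2 * xz a b) ^ (a + b) * (((a : ℝ) / (a + b)) ^ a * ((b : ℝ) / (a + b)) ^ b) := by
  have ha' : (0 : ℝ) < a := by exact_mod_cast ha
  have hb' : (0 : ℝ) < b := by exact_mod_cast hb
  have e1 : (1 + 2 * xz a b) * ((a : ℝ) / (a + b)) = 2 * xz a b := by unfold xz; field_simp; ring
  have e2 : (1 + 2 * xz a b) * ((b : ℝ) / (a + b)) = 1 := by unfold xz; field_simp; ring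
  calc (2 * xz a b) ^ a = ((1 + 2 * xz a b) * ((a : ℝ) / (a + b))) ^ a
        * ((1 + 2 * xz a b) * ((b : ℝ) / (a + b))) ^ b := by rw [e1, e2]; simp
    _ = _ := by
        generalize (a : ℝ) / (a + b) = A
        generalize (b : ℝ) / (a + b) = B
        generalize 1 + 2 * xz a b = Y
        ring

lemma S_eq {a b : ℕ} (ha : 1 ≤ a) (hb : 1 ≤ b) :
    (S (a + b) a : ℝ) * xz a b ^ a = bet a b * (1 + 2 * xz a b) ^ (a + b) := by
  have := like_eq ha hb
  unfold S bet
  push_cast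
  rw [mul_pow] at this
  calc _ = ((a + b).choose a : ℝ) * (2 ^ a * xz a b ^ a) := by ring
    _ = _ := by rw [this]; ring

lemma S_pos {n d : ℕ} (h : d ≤ n) : (0 : ℝ) < S n d := by
  have := Nat.choose_pos h
  unfold S; positivity

/-- `log` of the tilted bound -/
noncomputable def lZ (a b : ℕ) : ℝ := (a + b) * log (1 + 2 * xz a b) - a * log (xz a b)

lemma log_S {a b : ℕ} (ha : 1 ≤ a) (hb : 1 ≤ b) :
    log (S (a + b) a : ℝ) = log (bet a b) + lZ a b := by
  have hx := xz_pos ha hb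
  have h := congrArg log (S_eq ha hb)
  rw [log_mul (S_pos (by omega)).ne' (by positivity), log_mul (bet_pos ha hb).ne' (by positivity),
    log_pow, log_pow] at h
  unfold lZ; push_cast at h; linarith

lemma lZ_le {a b : ℕ} (ha : 1 ≤ a) (hb : 1 ≤ b) {y : ℝ} (hy : 0 < y) :
    lZ a b ≤ (a + b) * log (1 + 2 * y) - a * log y := by
  have ha' : (0 : ℝ) < a := by exact_mod_cast ha
  have hb' : (0 : ℝ) < b := by exact_mod_cast hb
  have hx := xz_pos ha hb
  have h1 := log_le_log (by positivity) (like_le ha hb (y := 2 * y) (by positivity))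
  have h2 := congrArg log (like_eq ha hb)
  rw [log_mul (by positivity) (by positivity), log_pow, log_pow,
    log_mul (by positivity) (by positivity)] at h1 h2
  unfold lZ; push_cast at h1 h2; linarith

lemma bet_crude {a b : ℕ} (ha : 1 ≤ a) (hb : 1 ≤ b) : 1 ≤ bet a b ^ 2 * (2.2 * (a + b)) := by
  have ha' : (1 : ℝ) ≤ a := by exact_mod_cast ha
  have hb' : (1 : ℝ) ≤ b := by exact_mod_cast hb
  have h := bet_lower ha hb
  have h1 : exp (1 / (6 * (a : ℝ)) + 1 / (6 * b)) ≤ 1.4 := by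
    have e1 : 1 / (6 * (a : ℝ)) ≤ 1 / 6 := one_div_le_one_div_of_le (by norm_num) (by linarith)
    have e2 : 1 / (6 * (b : ℝ)) ≤ 1 / 6 := one_div_le_one_div_of_le (by norm_num) (by linarith)
    refine (exp_le_exp.mpr (show _ ≤ 1 / 3 by linarith)).trans ?_
    have e3 : exp (1 / 3) ^ 3 ≤ (1.4 : ℝ) ^ 3 := by
      rw [← exp_nat_mul]
      have := exp_one_lt_d9
      norm_num at this ⊢
      linarith
    exact (pow_le_pow_iff_left₀ (exp_pos _).le (by norm_num) (by norm_num)).mp e3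
  have hpi := pi_lt_d4
  have hpi0 := pi_pos
  have h2 : 2 * π * a * b * exp (1 / (6 * (a : ℝ)) + 1 / (6 * b)) ≤ 2.2 * (a + b) * (a + b) := by
    have e1 : 2 * π * a * b * exp (1 / (6 * (a : ℝ)) + 1 / (6 * b)) ≤ 2 * π * a * b * 1.4 :=
      mul_le_mul_of_nonneg_left h1 (by positivity)
    have e2 : π * (a * b) ≤ 3.1416 * (a * b) := mul_le_mul_of_nonneg_right hpi.le (by positivity)
    nlinarith [sq_nonneg ((a : ℝ) - b), mul_pos (show (0 : ℝ) < a by linarith) (show (0 : ℝ) < b by linarith)]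
  have h3 : 1 * ((a : ℝ) + b) ≤ bet a b ^ 2 * (2.2 * (a + b)) * (a + b) := by
    calc _ ≤ bet a b ^ 2 * (2 * π * a * b * exp (1 / (6 * (a : ℝ)) + 1 / (6 * b))) := by linarith
      _ ≤ bet a b ^ 2 * (2.2 * (a + b) * (a + b)) := mul_le_mul_of_nonneg_left h2 (by positivity)
      _ = _ := by ring
  exact le_of_mul_le_mul_right h3 (by linarith)

lemma log_880 : log 880 ≤ (6.8 : ℝ) := by
  have h1 : (880 : ℝ) = 2 ^ 10 * (55 / 64) := by norm_num
  have h2 := log_le_sub_one_of_pos (show (0 : ℝ) < 55 / 64 by norm_num)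
  have h3 := log_two_lt_d9
  rw [h1, log_mul (by norm_num) (by norm_num), log_pow]
  push_cast
  linarith

lemma logB_le {a b : ℕ} (ha : 1 ≤ a) (hb : 1 ≤ b) {u : ℝ} (hu : 0 < u) (hu2 : u ^ 2 = a + b) :
    -log (bet a b) ≤ 2.4 + u / 20 := by
  have h := log_le_log (by norm_num) (bet_crude ha hb)
  have hp := bet_pos ha hb
  have e : 2.2 * ((a : ℝ) + b) = 880 * (u / 20) ^ 2 := by rw [← hu2]; ring
  rw [e, log_one, log_mul (by positivity) (by positivity), log_mul (by positivity) (by positivity),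
    log_pow, log_pow] at h
  have h2 := log_le_sub_one_of_pos (show (0 : ℝ) < u / 20 by positivity)
  have h3 := log_880
  push_cast at h
  linarith

lemma logB_le' {a b : ℕ} (ha : 1 ≤ a) (hb : 1 ≤ b) (hn : 400 ≤ a + b) :
    -log (bet a b) ≤ 0.0085 * (a + b) := by
  have hn' : (400 : ℝ) ≤ a + b := by exact_mod_cast hn
  have h := log_le_log (by norm_num) (bet_crude ha hb)
  have hp := bet_pos ha hb
  have e : 2.2 * ((a : ℝ) + b) = 880 * (((a : ℝ) + b) / 400) := by ring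
  rw [e, log_one, log_mul (by positivity) (by positivity), log_mul (by positivity) (by positivity),
    log_pow] at h
  have h2 := log_le_sub_one_of_pos (show (0 : ℝ) < ((a : ℝ) + b) / 400 by positivity)
  have h3 := log_880
  push_cast at h
  linarith

lemma endpoint {a b : ℕ} (ha : 1 ≤ a) (hb : 1 ≤ b) {z g : ℝ} (hz : 0 < z) (hg : 0 < g)
    (h : g ^ (a + b) * (((a : ℝ) / (a + b)) ^ a * ((b : ℝ) / (a + b)) ^ b) / (2 * z) ^ a
      ≤ 1 - 0.0085 * (a + b)) {x : ℝ} (hx : 0 < x) :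
    0.0085 + log g - a / (a + b) * log z ≤ log (1 + 2 * x) - a / (a + b) * log x := by
  have ha' : (0 : ℝ) < a := by exact_mod_cast ha
  have hb' : (0 : ℝ) < b := by exact_mod_cast hb
  have h1 := log_le_log (by positivity) (like_le ha hb (y := 2 * x) (by positivity))
  have h2 := log_le_sub_one_of_pos (show 0 < g ^ (a + b) * (((a : ℝ) / (a + b)) ^ a
    * ((b : ℝ) / (a + b)) ^ b) / (2 * z) ^ a by positivity)
  rw [log_div (by positivity) (by positivity), log_mul (by positivity) (by positivity), log_pow,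
    log_pow (2 * z), log_mul (by positivity) hz.ne'] at h2
  rw [log_mul (by positivity) (by positivity), log_pow, log_pow,
    log_mul (by positivity) (by positivity)] at h1
  push_cast at h1 h2
  have hs : (0 : ℝ) < a + b := by positivity
  have e : ∀ t : ℝ, (a : ℝ) / (a + b) * t * (a + b) = a * t := fun t => by field_simp
  have h3 : (0.0085 + log g - a / (a + b) * log z) * (a + b)
      ≤ (log (1 + 2 * x) - a / (a + b) * log x) * (a + b) := by
    rw [sub_mul, sub_mul, e, e]; linarith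
  exact le_of_mul_le_mul_right h3 hs

lemma interval {a b N : ℕ} (ha : 1 ≤ a) (hb : 1 ≤ b) (hn : 400 ≤ a + b) {z g p1 p2 : ℝ}
    (hz : 0 < z) (hg : 0 < g) (h1 : p1 ≤ a / (a + b)) (h2 : a / (a + b) ≤ p2)
    (H1 : ∀ x : ℝ, 0 < x → 0.0085 + log g - p1 * log z ≤ log (1 + 2 * x) - p1 * log x)
    (H2 : ∀ x : ℝ, 0 < x → 0.0085 + log g - p2 * log z ≤ log (1 + 2 * x) - p2 * log x)
    (hN : (N : ℝ) * z ^ a ≤ g ^ (a + b)) : N ≤ S (a + b) a := by
  rcases Nat.eq_zero_or_pos N with h0 | h0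
  · omega
  have hN0 : (0 : ℝ) < N := by exact_mod_cast h0
  have ha' : (0 : ℝ) < a := by exact_mod_cast ha
  have hb' : (0 : ℝ) < b := by exact_mod_cast hb
  have hs : (0 : ℝ) < a + b := by positivity
  have hx := xz_pos ha hb
  have k1 := H1 _ hx
  have k2 := H2 _ hx
  set p : ℝ := a / (a + b) with hp
  have k3 : 0.0085 + log g - p * log z ≤ log (1 + 2 * xz a b) - p * log (xz a b) := by
    rcases le_total 0 (log z - log (xz a b)) with h | h
    · nlinarith [mul_le_mul_of_nonneg_right h1 h]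
    · nlinarith [mul_le_mul_of_nonpos_right h2 h]
  have k4 := mul_le_mul_of_nonneg_right k3 hs.le
  have e : ∀ t : ℝ, p * t * (a + b) = a * t := fun t => by rw [hp]; field_simp
  rw [sub_mul, sub_mul, e, e] at k4
  have k5 := log_le_log (by positivity) hN
  rw [log_mul hN0.ne' (by positivity), log_pow, log_pow] at k5
  push_cast at k5
  have k6 := logB_le' ha hb hn
  have k7 := log_S ha hb
  unfold lZ at k7
  have k8 : log (N : ℝ) ≤ log (S (a + b) a : ℝ) := by linarith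
  exact_mod_cast (log_le_log_iff hN0 (S_pos (by omega))).mp k8

lemma pascalA {n d : ℕ} (hd : 1 ≤ d) (hn : 1 ≤ n) : S (n - 1) d + 2 * S (n - 1) (d - 1) = S n d := by
  obtain ⟨m, rfl⟩ : ∃ m, n = m + 1 := ⟨n - 1, by omega⟩
  obtain ⟨e, rfl⟩ : ∃ e, d = e + 1 := ⟨d - 1, by omega⟩
  simp only [S, Nat.add_sub_cancel, Nat.choose_succ_succ]
  ring

lemma S_pred {n d : ℕ} (hd : 1 ≤ d) (hn : 1 ≤ n) : 2 * n * S (n - 1) (d - 1) = d * S n d := by
  obtain ⟨m, rfl⟩ : ∃ m, n = m + 1 := ⟨n - 1, by omega⟩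
  obtain ⟨e, rfl⟩ : ∃ e, d = e + 1 := ⟨d - 1, by omega⟩
  simp only [S, Nat.add_sub_cancel]
  have := Nat.add_one_mul_choose_eq m e
  calc 2 * (m + 1) * (2 ^ e * m.choose e) = 2 ^ (e + 1) * ((m + 1) * m.choose e) := by ring
    _ = _ := by rw [this]; ring

/-- the Gibbs bound for a counterexample -/
lemma gibbsA {n d N : ℕ} (hn : 400 < n) (hd : 1 ≤ d) (hE : Edge n d N) (hN : S n d < N)
    (z l : ℝ) (hz : 0 < z) (h1 : 1 / 2 ≤ l) (h2 : l ≤ 1) (h3 : 1 - d / (2 * n) ≤ l) :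
    (N : ℝ) * z ^ d ≤ (z ^ (1 - l) + z ^ l + z) ^ n := by
  have p1 := pascalA hd (show 1 ≤ n by omega)
  have p2 := S_pred hd (show 1 ≤ n by omega)
  rcases hE with h | h
  · rw [F_eq_SA (by omega), F_eq_SA (by omega)] at h; omega
  · refine h z l hz h1 h2 ?_
    rw [F_eq_SA (by omega), F_eq_SA (by omega)]
    have q1 : (S (n - 1) d : ℝ) + 2 * S (n - 1) (d - 1) = S n d := by exact_mod_cast p1
    have q2 : 2 * (n : ℝ) * S (n - 1) (d - 1) = d * S n d := by exact_mod_cast p2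
    have hn' : (0 : ℝ) < n := by exact_mod_cast (by omega : 0 < n)
    have q3 : (S (n - 1) (d - 1) : ℝ) = d / (2 * n) * S n d := by
      field_simp; linarith
    have q4 : (S n d : ℝ) ≤ N := by exact_mod_cast hN.le
    have q5 : (0 : ℝ) ≤ S n d := by positivity
    nlinarith [mul_le_mul_of_nonneg_right h3 q5, mul_le_mul_of_nonneg_left q4 (show 0 ≤ l by linarith)]

lemma gibbs_nat {n d N : ℕ} (hn : 400 < n) (hd : 1 ≤ d) (hE : Edge n d N) (hN : S n d < N)
    (t : ℝ) (ht : 0 < t) (i k : ℕ) (hik : i ≤ k) (hk : 1 ≤ k)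
    (h3 : (i : ℝ) / (i + k) ≤ d / (2 * n)) :
    (N : ℝ) * (t ^ (i + k)) ^ d ≤ (t ^ i + t ^ k + t ^ (i + k)) ^ n := by
  have hk' : (1 : ℝ) ≤ k := by exact_mod_cast hk
  have hik' : (i : ℝ) ≤ k := by exact_mod_cast hik
  have hi : (0 : ℝ) ≤ i := by positivity
  have hs : (0 : ℝ) < i + k := by linarith
  have e0 : 1 - (k : ℝ) / (i + k) = i / (i + k) := by field_simp; ring
  have h := gibbsA hn hd hE hN (t ^ (i + k)) (k / (i + k)) (by positivity)
    (by rw [le_div_iff₀ hs]; linarith) (by rw [div_le_iff₀ hs]; linarith) (by linarith)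
  have e : ∀ j : ℕ, (t ^ (i + k)) ^ ((j : ℝ) / (i + k)) = t ^ j := by
    intro j
    rw [← rpow_natCast t (i + k), ← rpow_mul ht.le, ← rpow_natCast]
    congr 1
    push_cast; field_simp
  rwa [e0, e, e] at h

lemma pow_le_choose_mul (d : ℕ) : ∀ n : ℕ, d ≤ n → (n : ℝ) ^ d ≤ n.choose d * (d : ℝ) ^ d := by
  induction d with
  | zero => intro n _; simp
  | succ d ih =>
    intro n hn
    obtain ⟨m, rfl⟩ : ∃ m, n = m + 1 := ⟨n - 1, by omega⟩
    have h1 := ih m (by omega)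
    have h2 : ((m : ℝ) + 1) * m.choose d = (m + 1).choose (d + 1) * ((d : ℝ) + 1) := by
      exact_mod_cast Nat.add_one_mul_choose_eq m d
    have hdm : (d : ℝ) ≤ m := by exact_mod_cast (by omega : d ≤ m)
    push_cast
    rcases Nat.eq_zero_or_pos d with h0 | h0
    · subst h0; simp
    have hd0 : (0 : ℝ) < d := by exact_mod_cast h0
    have h3 : (((m : ℝ) + 1) * d) ^ d ≤ (m * ((d : ℝ) + 1)) ^ d :=
      pow_le_pow_left₀ (by positivity) (by nlinarith) d
    rw [mul_pow, mul_pow] at h3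
    have h4 : ((m : ℝ) + 1) ^ d * (d : ℝ) ^ d ≤ (m.choose d * ((d : ℝ) + 1) ^ d) * (d : ℝ) ^ d := by
      calc _ ≤ _ := h3
        _ ≤ (m.choose d * (d : ℝ) ^ d) * ((d : ℝ) + 1) ^ d :=
            mul_le_mul_of_nonneg_right h1 (by positivity)
        _ = _ := by ring
    have h5 := le_of_mul_le_mul_right h4 (by positivity)
    calc ((m : ℝ) + 1) ^ (d + 1) = (m + 1) * (m + 1) ^ d := by ring
      _ ≤ (m + 1) * (m.choose d * ((d : ℝ) + 1) ^ d) := mul_le_mul_of_nonneg_left h5 (by positivity)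
      _ = ((m + 1) * m.choose d) * ((d : ℝ) + 1) ^ d := by ring
      _ = _ := by rw [h2]; ring

lemma low_range {n d N : ℕ} (hn : 400 < n) (hd : 1 ≤ d) (hE : Edge n d N) (hN : S n d < N)
    (h6 : 6 * d ≤ n) : False := by
  have hn' : (0 : ℝ) < n := by exact_mod_cast (by omega : 0 < n)
  have hd' : (0 : ℝ) < d := by exact_mod_cast hd
  have h6' : 6 * (d : ℝ) ≤ n := by exact_mod_cast h6
  set p : ℝ := d / n with hp
  have hp0 : 0 < p := by positivity
  have hp6 : p ≤ 1 / 6 := by rw [hp, div_le_iff₀ hn']; linarith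
  have hpn : p * n = d := by rw [hp]; field_simp
  have h := gibbsA hn hd hE hN (p ^ 2) (1 - p / 2) (by positivity) (by linarith) (by linarith)
    (by rw [hp]; field_simp; rfl)
  have e1 : (p ^ 2) ^ (1 - (1 - p / 2)) = p ^ p := by
    rw [← rpow_natCast p 2, ← rpow_mul hp0.le]; congr 1; push_cast; ring
  have e2 : (p ^ 2) ^ (1 - p / 2) = p ^ p * p * p ^ (1 - 2 * p) := by
    rw [← rpow_natCast p 2, ← rpow_mul hp0.le, ← rpow_add_one hp0.ne', ← rpow_add hp0]
    congr 1; push_cast; ring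
  have e3 : p ^ 2 = p ^ p * p * p ^ (1 - p) := by
    rw [← rpow_natCast p 2, ← rpow_add_one hp0.ne', ← rpow_add hp0]
    congr 1; push_cast; ring
  have b0 : p ^ (2 / 3 : ℝ) ≤ 1 / 3 := by
    have c1 : (p ^ (2 / 3 : ℝ)) ^ 3 ≤ (1 / 3 : ℝ) ^ 3 := by
      rw [← rpow_natCast, ← rpow_mul hp0.le]
      norm_num
      nlinarith
    exact (pow_le_pow_iff_left₀ (by positivity) (by norm_num) (by norm_num)).mp c1
  have b1 : p ^ (1 - 2 * p) ≤ 1 / 3 :=
    (rpow_le_rpow_of_exponent_ge hp0 (by linarith) (by linarith)).trans b0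
  have b2 : p ^ (1 - p) ≤ 1 / 3 :=
    (rpow_le_rpow_of_exponent_ge hp0 (by linarith) (by linarith)).trans b0
  have hpp : 0 < p ^ p := by positivity
  have g1 : (p ^ 2) ^ (1 - (1 - p / 2)) + (p ^ 2) ^ (1 - p / 2) + p ^ 2
      ≤ p ^ p * exp (p * log 2) := by
    rw [e1, e2]
    nth_rewrite 1 [e3]
    have c1 := add_one_le_exp (p * log 2)
    have c2 := log_two_gt_d9
    have c3 : 1 + p * p ^ (1 - 2 * p) + p * p ^ (1 - p) ≤ exp (p * log 2) := by
      nlinarith [mul_le_mul_of_nonneg_left b1 hp0.le, mul_le_mul_of_nonneg_left b2 hp0.le]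
    nlinarith [mul_le_mul_of_nonneg_left c3 hpp.le]
  have g2 := h.trans (pow_le_pow_left₀ (by positivity) g1 n)
  have e4 : (p ^ p * exp (p * log 2)) ^ n = p ^ d * 2 ^ d := by
    rw [mul_pow, ← rpow_natCast (p ^ p), ← rpow_mul hp0.le, hpn, rpow_natCast, ← exp_nat_mul,
      show (n : ℝ) * (p * log 2) = d * log 2 by rw [← hpn]; ring, exp_nat_mul,
      exp_log (by norm_num)]
  rw [e4, ← pow_mul, mul_comm 2 d, pow_mul, sq] at g2
  have g3 : (N : ℝ) * p ^ d ≤ 2 ^ d := by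
    have : (N : ℝ) * p ^ d * p ^ d ≤ 2 ^ d * p ^ d := by linarith
    exact le_of_mul_le_mul_right this (by positivity)
  have g4 : 1 ≤ (n.choose d : ℝ) * p ^ d := by
    have := pow_le_choose_mul d n (by omega)
    rw [hp, div_pow, ← mul_div_assoc, le_div_iff₀ (by positivity)]
    linarith
  have g5 : (N : ℝ) * p ^ d ≤ (S n d : ℝ) * p ^ d := by
    unfold S; push_cast
    nlinarith [mul_le_mul_of_nonneg_left g4 (show (0 : ℝ) ≤ 2 ^ d by positivity)]
  have g6 : (N : ℝ) ≤ S n d := le_of_mul_le_mul_right g5 (by positivity)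
  have : N ≤ S n d := by exact_mod_cast g6
  omega

lemma top_range {n N : ℕ} (hn : 400 < n) (hE : Edge n n N) (hN : S n n < N) : False := by
  have hn' : (0 : ℝ) < n := by exact_mod_cast (by omega : 0 < n)
  have h := gibbs_nat hn (by omega) hE hN 2 (by norm_num) 1 3 (by norm_num) (by norm_num)
    (by push_cast; rw [div_le_div_iff₀ (by norm_num) (by positivity)]; linarith)
  have h1 : ((2 : ℝ) ^ 1 + 2 ^ 3 + 2 ^ (1 + 3)) ^ n ≤ (2 * 2 ^ (1 + 3)) ^ n :=
    pow_le_pow_left₀ (by norm_num) (by norm_num) n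
  rw [mul_pow] at h1
  have h2 : (N : ℝ) ≤ 2 ^ n := le_of_mul_le_mul_right (h.trans h1) (by positivity)
  have h3 : N ≤ 2 ^ n := by exact_mod_cast h2
  simp [S] at hN
  omega

lemma mid_range {a b N : ℕ} (hn : 400 < a + b) (hE : Edge (a + b) a N) (hN : S (a + b) a < N)
    (h6 : a + b ≤ 6 * a) (h5 : 5 * a ≤ 3 * (a + b)) : False := by
  have ha : 1 ≤ a := by omega
  have hb : 1 ≤ b := by omega
  have ha' : (0 : ℝ) < a := by exact_mod_cast ha
  have hb' : (0 : ℝ) < b := by exact_mod_cast hb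
  have hs : (0 : ℝ) < a + b := by positivity
  have h6' : (a : ℝ) + b ≤ 6 * a := by exact_mod_cast h6
  have h5' : 5 * (a : ℝ) ≤ 3 * (a + b) := by exact_mod_cast h5
  have key : ∀ (i k a1 b1 a2 b2 : ℕ), i ≤ k → 1 ≤ k → 1 ≤ a1 → 1 ≤ b1 → 1 ≤ a2 → 1 ≤ b2 →
      (i : ℝ) / (i + k) ≤ a1 / (a1 + b1) / 2 →
      (a1 : ℝ) / (a1 + b1) ≤ a / (a + b) → (a : ℝ) / (a + b) ≤ a2 / (a2 + b2) →
      ((5 / 6 : ℝ) ^ i + (5 / 6) ^ k + (5 / 6) ^ (i + k)) ^ (a1 + b1)
        * (((a1 : ℝ) / (a1 + b1)) ^ a1 * ((b1 : ℝ) / (a1 + b1)) ^ b1) / (2 * (5 / 6) ^ (i + k)) ^ a1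
          ≤ 1 - 0.0085 * (a1 + b1) →
      ((5 / 6 : ℝ) ^ i + (5 / 6) ^ k + (5 / 6) ^ (i + k)) ^ (a2 + b2)
        * (((a2 : ℝ) / (a2 + b2)) ^ a2 * ((b2 : ℝ) / (a2 + b2)) ^ b2) / (2 * (5 / 6) ^ (i + k)) ^ a2
          ≤ 1 - 0.0085 * (a2 + b2) → False := by
    intro i k a1 b1 a2 b2 hik hk c1 c2 c3 c4 l1 l2 l3 n1 n2
    have g := gibbs_nat hn ha hE hN (5 / 6) (by norm_num) i k hik hk (by
      push_cast
      have : (a : ℝ) / (2 * (a + b)) = a / (a + b) / 2 := by field_simp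
      rw [this]; linarith)
    have := interval ha hb hn.le (by positivity) (by positivity) l2 l3
      (fun x hx => endpoint c1 c2 (by positivity) (by positivity) n1 hx)
      (fun x hx => endpoint c3 c4 (by positivity) (by positivity) n2 hx) g
    omega
  rcases le_total ((a : ℝ) / (a + b)) (1 / 3) with c | c
  · refine key 1 11 1 5 1 2 (by norm_num) (by norm_num) (by norm_num) (by norm_num) (by norm_num)
      (by norm_num) (by norm_num) ?_ (by norm_num; linarith) (by norm_num) (by norm_num)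
    rw [div_le_div_iff₀ (by norm_num) hs]; push_cast; linarith
  rcases le_total ((a : ℝ) / (a + b)) (1 / 2) with c' | c'
  · exact key 1 5 1 2 1 1 (by norm_num) (by norm_num) (by norm_num) (by norm_num) (by norm_num)
      (by norm_num) (by norm_num) (by norm_num; linarith) (by norm_num; linarith) (by norm_num)
      (by norm_num)
  · refine key 1 3 1 1 3 2 (by norm_num) (by norm_num) (by norm_num) (by norm_num) (by norm_num)
      (by norm_num) (by norm_num) (by norm_num; linarith) ?_ (by norm_num) (by norm_num)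
    rw [div_le_div_iff₀ hs (by norm_num)]; push_cast; linarith

lemma poly20 {v : ℝ} (hv : 0 ≤ v) : 27 * (v ^ 3 + v ^ 7 + v ^ 10) ^ 2 ≤ (1 + 2 * v ^ 4) ^ 5 := by
  have e : (1 + 2 * v ^ 4) ^ 5 - 27 * (v ^ 3 + v ^ 7 + v ^ 10) ^ 2
      = (v - 1) ^ 2 * (1 + 2 * v + 3 * v ^ 2 + 4 * v ^ 3 + 15 * v ^ 4 + 26 * v ^ 5 + 7 * v ^ 6
        + 3 * v ^ 6 * (1 - v) ^ 2 + 15 * v ^ 8 + 42 * v ^ 9 + 3 * v ^ 10
        + 9 * v ^ 10 * (1 - v) ^ 2
        + v ^ 12 * (43 / 2 + 11 * v + 17 * v * (1 - v ^ 2) ^ 2 + 3 / 2 * (1 - v ^ 2) ^ 2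
          + 7 / 2 * v ^ 4 * (1 - v) ^ 2 + 10 * v ^ 4 + 3 / 2 * v ^ 6)) := by ring
  have : 0 ≤ (1 + 2 * v ^ 4) ^ 5 - 27 * (v ^ 3 + v ^ 7 + v ^ 10) ^ 2 := by rw [e]; positivity
  linarith

lemma hoeff {t : ℝ} (ht : |t| ≤ 1 / 2) : log (1 + 2 * exp t) ≤ log 3 + 2 * t / 3 + t ^ 2 / 8 := by
  set s : ℝ := t / 3 with hs
  have hs1 : |s| ≤ 1 / 6 := by rw [hs, abs_div]; norm_num; linarith
  have hs2 : |-(2 * s)| = 2 * |s| := by rw [abs_neg, abs_mul]; norm_num
  have h1 := abs_le.mp (exp_bound (x := s) (by linarith) (n := 3) (by norm_num))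
  have h2 := abs_le.mp (exp_bound (x := -(2 * s)) (by rw [hs2]; linarith) (n := 3) (by norm_num))
  rw [hs2] at h2
  simp only [sum_range_succ, range_zero, sum_empty, Nat.factorial] at h1 h2
  norm_num at h1 h2
  have h3 : |s| ^ 3 ≤ s ^ 2 / 6 := by
    rw [← sq_abs s]; nlinarith [abs_nonneg s, sq_nonneg |s|]
  have h4 : exp (-(2 * s)) + 2 * exp s ≤ 3 * exp (t ^ 2 / 8) := by
    have := add_one_le_exp (t ^ 2 / 8)
    have e : t = 3 * s := by rw [hs]; ring
    rw [e] at this ⊢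
    nlinarith [h1.2, h2.2]
  have h5 : 1 + 2 * exp t = exp (2 * s) * (exp (-(2 * s)) + 2 * exp s) := by
    have e : t = 2 * s + s := by rw [hs]; ring
    rw [mul_add, ← exp_add, e, exp_add]; simp; ring
  have h6 : 1 + 2 * exp t ≤ 3 * exp (2 * t / 3 + t ^ 2 / 8) := by
    rw [h5, exp_add, show 2 * t / 3 = 2 * s by rw [hs]; ring]
    nlinarith [mul_le_mul_of_nonneg_left h4 (exp_pos (2 * s)).le]
  have h7 := log_le_log (by positivity) h6
  rw [log_mul (by norm_num) (exp_pos _).ne', log_exp] at h7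
  linarith

/-- the window -/
theorem window {n d N : ℕ} (hn : 400 < n) (hd : 1 ≤ d) (hdn : d ≤ n) (hE : Edge n d N)
    (hN : S n d < N) : ∃ b, 1 ≤ b ∧ n = d + b ∧
      3 * ((d + b) * log 3 - lZ d b) < 2 * -log (bet d b) ∧
      3 * ((d + b) * ((d : ℝ) / (d + b) - 2 / 3) ^ 2) < -log (bet d b) := by
  rcases Nat.eq_or_lt_of_le hdn with h | h
  · subst h; exact (top_range hn hE hN).elim
  obtain ⟨b, rfl⟩ : ∃ b, n = d + b := ⟨n - d, by omega⟩
  have hb : 1 ≤ b := by omega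
  rcases le_total (6 * d) (d + b) with h6 | h6
  · exact (low_range hn hd hE hN h6).elim
  rcases le_total (5 * d) (3 * (d + b)) with h5 | h5
  · exact (mid_range hn hE hN h6 h5).elim
  have ha' : (0 : ℝ) < d := by exact_mod_cast hd
  have hb' : (0 : ℝ) < b := by exact_mod_cast hb
  have hs : (0 : ℝ) < d + b := by positivity
  have h5' : 3 * ((d : ℝ) + b) ≤ 5 * d := by exact_mod_cast h5
  have hx := xz_pos hd hb
  have hS := S_pos (show d ≤ d + b by omega)
  have hN' : (S (d + b) d : ℝ) < N := by exact_mod_cast hN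
  set v : ℝ := xz d b ^ (1 / 4 : ℝ) with hv
  have hv0 : 0 < v := by positivity
  have hv4 : v ^ 4 = xz d b := by
    rw [hv, ← rpow_natCast, ← rpow_mul hx.le]; norm_num
  have g := gibbs_nat hn hd hE hN v hv0 3 7 (by norm_num) (by norm_num) (by
    push_cast; rw [div_le_div_iff₀ (by norm_num) (by positivity)]; linarith)
  have g1 := log_le_log (by have := hS.trans hN'; positivity) g
  rw [log_mul (hS.trans hN').ne' (by positivity), log_pow, log_pow, log_pow] at g1
  have g2 := log_le_log (by positivity) (poly20 hv0.le)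
  rw [log_mul (by norm_num) (by positivity), log_pow, log_pow, hv4,
    show (27 : ℝ) = 3 ^ 3 by norm_num, log_pow] at g2
  have g3 : log (xz d b) = 4 * log v := by rw [← hv4, log_pow]; norm_num
  have g4 := log_lt_log hS hN'
  rw [log_S hd hb] at g4
  push_cast at g1 g2
  have g5 := mul_le_mul_of_nonneg_left g2 hs.le
  have R : 3 * ((d + b) * log 3 - lZ d b) < 2 * -log (bet d b) := by
    unfold lZ at g4 ⊢
    rw [g3] at g4 ⊢
    nlinarith
  refine ⟨b, hb, rfl, R, ?_⟩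
  set D : ℝ := (d : ℝ) / (d + b) - 2 / 3 with hD
  have hDd : (d : ℝ) = (d + b) * (D + 2 / 3) := by rw [hD]; field_simp; ring
  have low : ∀ t : ℝ, |t| ≤ 1 / 2 →
      ((d : ℝ) + b) * (D * t - t ^ 2 / 8) ≤ (d + b) * log 3 - lZ d b := by
    intro t ht
    have c1 := lZ_le hd hb (exp_pos t)
    rw [log_exp] at c1
    have c2 := mul_le_mul_of_nonneg_left (hoeff ht) hs.le
    have c3 : (d : ℝ) * t = (d + b) * (D + 2 / 3) * t := by rw [← hDd]
    nlinarith
  have L := logB_le' hd hb hn.le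
  have c1 := low (1 / 2) (by norm_num)
  have c2 := low (-(1 / 2)) (by norm_num)
  have d1 : D ≤ 1 / 8 := by
    by_contra hc
    push Not at hc
    nlinarith [mul_lt_mul_of_pos_left hc hs]
  have d2 : -(1 / 8) ≤ D := by
    by_contra hc
    push Not at hc
    nlinarith [mul_lt_mul_of_pos_left hc hs]
  have c3 := low (4 * D) (by rw [abs_le]; constructor <;> linarith)
  nlinarith

end Pool.Agent.Lib.MP_990a44_co.Q3
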