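import Pool.Agent.Lib.MP_990a44_co.Q3AsyB

/-!
Bounds for the collision densities inside the window.
-/

namespace Pool.Agent.Lib.MP_990a44_co.Q3

open Finset Real

/-- the parameters lie in the window -/
structure Win (a b : ℕ) : Prop where
  big : 400 < a + b
  lo : 0.6134 * ((a : ℝ) + b) ≤ a
  hi : (a : ℝ) ≤ 0.72 * ((a : ℝ) + b)

namespace Win

variable {a b : ℕ} (W : Win a b)
include W

lemma n_ge : (401 : ℝ) ≤ (a : ℝ) + b := by exact_mod_cast W.big

lemma a_ge : (245 : ℝ) ≤ a := by have := W.n_ge; have := W.lo; linarith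

lemma b_ge : (112 : ℝ) ≤ b := by have := W.n_ge; have := W.hi; linarith

lemma ha : 1 ≤ a := by have := W.a_ge; exact_mod_cast (show (1 : ℝ) ≤ a by linarith)

lemma hb : 1 ≤ b := by have := W.b_ge; exact_mod_cast (show (1 : ℝ) ≤ b by linarith)

lemma x_ge : 0.79 ≤ xz a b := by
  have := W.b_ge; have := W.lo
  unfold xz; rw [le_div_iff₀ (by linarith)]; linarith

lemma x_le : xz a b ≤ 9 / 7 := by
  have := W.b_ge; have := W.hi
  unfold xz; rw [div_le_iff₀ (by linarith)]; linarith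

lemma Q_eq : 2 * xz a b / (1 + 2 * xz a b) ^ 2 = a * b / ((a : ℝ) + b) ^ 2 := by
  have := W.b_ge; have := W.a_ge
  have h1 : (b : ℝ) ≠ 0 := by linarith
  have h2 : (a : ℝ) + b ≠ 0 := by linarith
  have e : 1 + 2 * xz a b = (a + b) / b := by unfold xz; field_simp; ring
  rw [e]; unfold xz; field_simp

lemma Q_le : 2 * xz a b / (1 + 2 * xz a b) ^ 2 ≤ 0.2372 := by
  have := W.n_ge; have := W.lo; have := W.hi
  rw [W.Q_eq, div_le_iff₀ (by positivity)]
  nlinarith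

lemma bet_ge : 1 ≤ bet a b ^ 2
    * (2 * π * ((a + b) * (2 * xz a b / (1 + 2 * xz a b) ^ 2)) * 1.0023) := by
  have h1 := W.a_ge; have h2 := W.b_ge
  have h := bet_lower W.ha W.hb
  have e1 : 1 / (6 * (a : ℝ)) ≤ 1 / (6 * 245) := one_div_le_one_div_of_le (by norm_num) (by linarith)
  have e2 : 1 / (6 * (b : ℝ)) ≤ 1 / (6 * 112) := one_div_le_one_div_of_le (by norm_num) (by linarith)
  have e3 : exp (1 / (6 * (a : ℝ)) + 1 / (6 * b)) ≤ 1.0023 := by
    set y := 1 / (6 * (a : ℝ)) + 1 / (6 * b)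
    have c1 := add_one_le_exp (-y)
    have c2 : exp y * exp (-y) = 1 := by rw [← exp_add]; simp
    have c3 : y ≤ 0.0022 := by linarith
    nlinarith [exp_pos y]
  have hpi := pi_pos
  have hs : (0 : ℝ) < a + b := by linarith
  have h3 : 1 * ((a : ℝ) + b) ≤ bet a b ^ 2
      * (2 * π * ((a + b) * (a * b / ((a : ℝ) + b) ^ 2)) * 1.0023) * (a + b) := by
    have e : bet a b ^ 2 * (2 * π * ((a + b) * (a * b / ((a : ℝ) + b) ^ 2)) * 1.0023) * (a + b)
        = bet a b ^ 2 * (2 * π * a * b) * 1.0023 := by field_simp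
    rw [e, one_mul]
    exact h.trans (mul_le_mul_of_nonneg_left e3 (by positivity))
  rw [W.Q_eq]
  exact le_of_mul_le_mul_right h3 hs

/-- a localised factor on a long part of the coordinates is cancelled by the localisation of the
sphere -/
lemma big_part {t q v : ℝ} (hv : 10 ≤ v) (hq : q = 2 / 9 ∨ q = 2 * xz a b / (1 + 2 * xz a b) ^ 2)
    (h : t ^ 2 * (2 * π * (v * q - 0.43)) ≤ 1) :
    t ^ 2 * (v - 2.14) ≤ 1.07 * (a + b) * bet a b ^ 2 := by
  have h1 := W.bet_ge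
  have h2 := W.Q_le
  have h3 := qq_ge (by linarith [W.x_ge]) W.x_le
  have hn := W.n_ge
  set Q := 2 * xz a b / (1 + 2 * xz a b) ^ 2
  have hpi := pi_pos
  have h4 : t ^ 2 * (v * q - 0.43) ≤ bet a b ^ 2 * ((a + b) * Q * 1.0023) := by
    have : (2 * π) * (t ^ 2 * (v * q - 0.43)) ≤ (2 * π) * (bet a b ^ 2 * ((a + b) * Q * 1.0023)) := by
      nlinarith
    exact le_of_mul_le_mul_left this (by positivity)
  have hB : 0 ≤ bet a b ^ 2 * (a + b) := by positivity
  have ht := sq_nonneg t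
  rcases hq with rfl | rfl
  · have c1 : t ^ 2 * (v - 2.14) ≤ 4.5 * (t ^ 2 * (v * (2 / 9) - 0.43)) := by nlinarith
    nlinarith [mul_le_mul_of_nonneg_left h2 hB]
  · have c1 : t ^ 2 * (v - 2.14) * Q ≤ t ^ 2 * (v * Q - 0.43) := by nlinarith
    have c2 : t ^ 2 * (v - 2.14) * Q ≤ (1.07 * (a + b) * bet a b ^ 2) * Q := by
      nlinarith [mul_nonneg hB (show 0 ≤ Q by linarith)]
    exact le_of_mul_le_mul_right c2 (by linarith)

/-- the product bound relative to the sphere -/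
lemma mu_split {k : ℕ} (hk : 2 * k ≤ a) (hw : 3 * k ≤ a + b) :
    ((F (3 * k) (2 * k) * F (a + b - 3 * k) (a - 2 * k) : ℕ) : ℝ) / S (a + b) a * bet a b
      ≤ (F (3 * k) (2 * k) / 3 ^ (3 * k))
        * (F (a + b - 3 * k) (a - 2 * k) * xz a b ^ (a - 2 * k)
          / (1 + 2 * xz a b) ^ (a + b - 3 * k)) := by
  have hx := xz_pos W.ha W.hb
  have hS := S_pos (show a ≤ a + b by omega)
  have h1 := S_eq W.ha W.hb
  set x := xz a b
  have h2 : (3 : ℝ) ^ (3 * k) * x ^ (2 * k) ≤ (1 + 2 * x) ^ (3 * k) := by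
    rw [pow_mul, pow_mul, pow_mul, ← mul_pow]
    exact pow_le_pow_left₀ (by positivity) (by have := cube_le hx.le; linarith) k
  have e1 : x ^ a = x ^ (2 * k) * x ^ (a - 2 * k) := by rw [← pow_add]; congr 1; omega
  have e2 : (1 + 2 * x) ^ (a + b) = (1 + 2 * x) ^ (3 * k) * (1 + 2 * x) ^ (a + b - 3 * k) := by
    rw [← pow_add]; congr 1; omega
  have e3 : bet a b = S (a + b) a * x ^ a / (1 + 2 * x) ^ (a + b) := by
    rw [h1]; field_simp
  rw [e3, e1, e2]
  push_cast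
  have e4 : (F (3 * k) (2 * k) : ℝ) * F (a + b - 3 * k) (a - 2 * k) / S (a + b) a
      * (S (a + b) a * (x ^ (2 * k) * x ^ (a - 2 * k))
        / ((1 + 2 * x) ^ (3 * k) * (1 + 2 * x) ^ (a + b - 3 * k)))
      = (F (3 * k) (2 * k) * (x ^ (2 * k) / (1 + 2 * x) ^ (3 * k)))
        * (F (a + b - 3 * k) (a - 2 * k) * x ^ (a - 2 * k) / (1 + 2 * x) ^ (a + b - 3 * k)) := by
    field_simp
  rw [e4]
  refine mul_le_mul_of_nonneg_right ?_ (by positivity)
  rw [div_eq_mul_inv (F (3 * k) (2 * k) : ℝ)]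
  refine mul_le_mul_of_nonneg_left ?_ (by positivity)
  rw [div_le_iff₀ (by positivity), inv_mul_eq_div, le_div_iff₀ (by positivity)]
  linarith

end Win

lemma th_small {x : ℝ} (hx1 : 1 / 2 ≤ x) (hx2 : x ≤ 9 / 7) {v : ℕ} (hv : 1 ≤ v) (j : ℕ) :
    (F v j : ℝ) * x ^ j / (1 + 2 * x) ^ v ≤ 0.72 := by
  rw [div_le_iff₀ (by positivity)]; exact F_small hx1 hx2 hv j

lemma th_mid {x : ℝ} (hx1 : 1 / 2 ≤ x) (hx2 : x ≤ 9 / 7) {v : ℕ} (hv : 5 ≤ v) (j : ℕ) :
    ((F v j : ℝ) * x ^ j / (1 + 2 * x) ^ v) ^ 2 * (2 * π * (0.2016 * v - 0.43)) ≤ 1 := by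
  have := F_mid hx1 hx2 hv j
  rw [div_pow, div_mul_eq_mul_div, div_le_one (by positivity), ← pow_mul, mul_comm v 2]
  exact this

lemma th_big {x : ℝ} (hx1 : 1 / 2 ≤ x) (hx2 : x ≤ 9 / 7) {v : ℕ} (hv : 10 ≤ v) (j : ℕ) :
    ((F v j : ℝ) * x ^ j / (1 + 2 * x) ^ v) ^ 2
      * (2 * π * (v * (2 * x / (1 + 2 * x) ^ 2) - 0.43)) ≤ 1 := by
  have := F_big hx1 hx2 hv j
  rw [div_pow, div_mul_eq_mul_div, div_le_one (by positivity), ← pow_mul, mul_comm v 2]
  exact this

lemma psi_le {p m : ℝ} (hp1 : p ≤ 1) (hm0 : 0 ≤ m) (hm : m ≤ 0.7506)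
    (h : p * (3 - p) ≤ m * (1 + p)) : p ≤ m / 3 + 0.29 * m ^ 2 := by
  by_contra hc
  push Not at hc
  set f := m / 3 + 0.29 * m ^ 2 with hf
  have f0 : 0 ≤ f := by positivity
  have f1 : f ≤ 0.5 := by nlinarith
  have h1 : m * (1 + f) ≤ f * (3 - f) := by
    have e : f * (3 - f) - m * (1 + f)
        = m ^ 2 * (3 * 0.29 - 4 / 9 - 5 * 0.29 / 3 * m - 0.29 ^ 2 * m ^ 2) := by rw [hf]; ring
    have : 0 ≤ 3 * 0.29 - 4 / 9 - 5 * 0.29 / 3 * m - 0.29 ^ 2 * m ^ 2 := by nlinarith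
    nlinarith [mul_nonneg (sq_nonneg m) this]
  have h2 : p * (3 - p) * (1 + f) ≤ f * (3 - f) * (1 + p) := by
    calc _ ≤ m * (1 + p) * (1 + f) := mul_le_mul_of_nonneg_right h (by linarith)
      _ = m * (1 + f) * (1 + p) := by ring
      _ ≤ _ := mul_le_mul_of_nonneg_right h1 (by linarith)
  have h3 : 0 < (p - f) * (3 - p - f - p * f) := mul_pos (by linarith) (by nlinarith)
  nlinarith

/-- purely numerical consequence of the two localisations -/
lemma mu_num {n v m t s B : ℝ} (hn : 401 ≤ n) (hv : 2 * v ≤ n) (hB : 0 < B) (hm : 0 ≤ m)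
    (h1 : m * B ≤ s * t) (h2 : t ^ 2 * (n - v - 2.14) ≤ 1.07 * n * B ^ 2) :
    m ^ 2 * (n - v - 2.14) ≤ 1.07 * n * s ^ 2 := by
  have c1 : (m * B) ^ 2 ≤ (s * t) ^ 2 := pow_le_pow_left₀ (by positivity) h1 2
  have c2 : m ^ 2 * (n - v - 2.14) * B ^ 2 ≤ 1.07 * n * s ^ 2 * B ^ 2 := by
    calc _ = (m * B) ^ 2 * (n - v - 2.14) := by ring
      _ ≤ (s * t) ^ 2 * (n - v - 2.14) := mul_le_mul_of_nonneg_right c1 (by linarith)
      _ = s ^ 2 * (t ^ 2 * (n - v - 2.14)) := by ring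
      _ ≤ s ^ 2 * (1.07 * n * B ^ 2) := mul_le_mul_of_nonneg_left h2 (by positivity)
      _ = _ := by ring
  exact le_of_mul_le_mul_right c2 (by positivity)

lemma mu_mid {n v m s : ℝ} (hn : 401 ≤ n) (hv : 2 * v ≤ n) (hv5 : 5 ≤ v)
    (h1 : m ^ 2 * (n - v - 2.14) ≤ 1.07 * n * s ^ 2)
    (h2 : s ^ 2 * (2 * π * (0.2016 * v - 0.43)) ≤ 1) :
    m ^ 2 ≤ 0.854 / (v - 2.133) + 1.727 / n := by
  have hpi := pi_gt_d4
  set A := v - 2.133 with hA
  set C := n - v - 2.14 with hC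
  have hA0 : 0 < A := by linarith
  have hC0 : 0 < C := by linarith
  have c1 : s ^ 2 * (1.2666 * A) ≤ 1 := by
    refine le_trans (mul_le_mul_of_nonneg_left ?_ (sq_nonneg s)) h2
    nlinarith
  have c2 : m ^ 2 * (A * C) ≤ 0.8448 * n := by
    have d1 : m ^ 2 * C * (1.2666 * A) ≤ 1.07 * n * s ^ 2 * (1.2666 * A) :=
      mul_le_mul_of_nonneg_right h1 (by positivity)
    have d2 : 1.07 * n * (s ^ 2 * (1.2666 * A)) ≤ 1.07 * n * 1 :=
      mul_le_mul_of_nonneg_left c1 (by linarith)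
    nlinarith
  have c3 : m ^ 2 ≤ 0.854 / A + 0.854 / C := by
    have e : 0.854 / A + 0.854 / C = 0.854 * (A + C) / (A * C) := by field_simp; ring
    rw [e, le_div_iff₀ (by positivity)]
    linarith
  have c4 : 0.854 / C ≤ 1.727 / n := by
    rw [div_le_div_iff₀ hC0 (by linarith)]; linarith
  linarith

lemma pi_num {n v r m p : ℝ} (hn : 401 ≤ n) (hr : 20 ≤ r) (hrn : r ^ 2 ≤ n) (hv5 : 5 ≤ v)
    (hv : v ≤ 13 ∨ 14 ≤ v)
    (h1 : m ^ 2 ≤ 0.854 / (v - 2.133) + 1.727 / n) (h2 : p ≤ m / 3 + 0.29 * m ^ 2) :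
    p ≤ 0.5 / r + 0.12 * r / (v + 2) := by
  have hA : 0 < v - 2.133 := by linarith
  have hr0 : 0 < r := by linarith
  have c0 : 0 < 0.5 / r := by positivity
  set s := 1 / (v - 2.133) with hs
  have hs0 : 0 < s := by positivity
  have es : 0.854 / (v - 2.133) = 0.854 * s := by rw [hs]; ring
  rw [es] at h1
  rcases hv with hv | hv
  · have c1 : 1.727 / n ≤ 1.727 / 401 := div_le_div_of_nonneg_left (by norm_num) (by norm_num) hn
    have c2 : p ≤ 0.6035 * s + 0.0698 := by nlinarith [sq_nonneg (m - 0.4)]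
    have c3 : 0.6035 * s + 0.0698 ≤ 2.4 / (v + 2) := by
      rw [le_div_iff₀ (by linarith), hs]
      have e : (0.6035 * (1 / (v - 2.133)) + 0.0698) * (v + 2)
          = (0.6035 + 0.0698 * (v - 2.133)) * (v + 2) / (v - 2.133) := by field_simp
      rw [e, div_le_iff₀ hA]
      nlinarith
    have c4 : 2.4 / (v + 2) ≤ 0.12 * r / (v + 2) :=
      div_le_div_of_nonneg_right (by linarith) (by linarith)
    linarith
  · set i := 1 / r with hi
    have hi0 : 0 < i := by positivity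
    have hir : i * r = 1 := by rw [hi]; field_simp
    have hi1 : i ≤ 1 / 20 := one_div_le_one_div_of_le (by norm_num) hr
    have c1 : 1.727 / n ≤ 1.727 * i ^ 2 := by
      rw [hi, div_pow, one_pow, mul_one_div]
      exact div_le_div_of_nonneg_left (by norm_num) (by positivity) hrn
    have c2 : m / 3 ≤ m ^ 2 * r * (5 / 57) + i * (19 / 60) := by
      have : 0 ≤ r * (m - 19 / 10 * i) ^ 2 := by positivity
      have e : r * (m - 19 / 10 * i) ^ 2
          = m ^ 2 * r - 19 / 5 * m * (i * r) + 361 / 100 * i * (i * r) := by ring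
      rw [e, hir] at this
      linarith
    have c3 : m ^ 2 * (r * (5 / 57) + 0.29) ≤ (0.854 * s + 1.727 * i ^ 2) * (r * (5 / 57) + 0.29) :=
      mul_le_mul_of_nonneg_right (by linarith) (by positivity)
    have c4 : i ^ 2 * r = i := by rw [sq, mul_assoc, hir, mul_one]
    have c5 : 0.0873 * s ≤ 0.12 / (v + 2) := by
      rw [hs, mul_one_div, div_le_div_iff₀ hA (by linarith)]; linarith
    have c6 : 0.0873 * s * r ≤ 0.12 * r / (v + 2) := by
      calc _ ≤ 0.12 / (v + 2) * r := mul_le_mul_of_nonneg_right c5 hr0.le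
        _ = _ := by ring
    have c7 : s * 20 ≤ s * r := mul_le_mul_of_nonneg_left hr hs0.le
    have c8 : i ^ 2 ≤ i / 20 := by nlinarith
    have e5 : 0.5 / r = 0.5 * i := by rw [hi]; ring
    have e6 : (0.854 * s + 1.727 * i ^ 2) * (r * (5 / 57) + 0.29)
        = 0.854 * (5 / 57) * (s * r) + 0.854 * 0.29 * s + 1.727 * (5 / 57) * (i ^ 2 * r)
          + 1.727 * 0.29 * i ^ 2 := by ring
    rw [e6, c4] at c3
    rw [e5]
    linarith

namespace Win

variable {a b : ℕ} (W : Win a b)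
include W

lemma mu_bound {k : ℕ} (hk1 : 1 ≤ k) (hk : 2 * k ≤ a) (hw : 3 * k < a + b) {m : ℝ}
    (hm : m = ((F (3 * k) (2 * k) * F (a + b - 3 * k) (a - 2 * k) : ℕ) : ℝ) / S (a + b) a)
    {v : ℕ} (hv : v = min (3 * k) (a + b - 3 * k)) :
    m ≤ 0.7506 ∧ (5 ≤ v → m ^ 2 ≤ 0.854 / (v - 2.133) + 1.727 / (a + b)) := by
  have hx1 : 1 / 2 ≤ xz a b := by linarith [W.x_ge]
  have hx2 := W.x_le
  have hn := W.n_ge
  have hbig := W.big
  have hB := bet_pos W.ha W.hb
  have hm0 : 0 ≤ m := by rw [hm]; positivity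
  have h1 := W.mu_split hk hw.le
  rw [← hm] at h1
  have e1 : (F (3 * k) (2 * k) : ℝ) / 3 ^ (3 * k)
      = F (3 * k) (2 * k) * 1 ^ (2 * k) / (1 + 2 * 1) ^ (3 * k) := by norm_num
  rw [e1] at h1
  have hv2 : 2 * (v : ℝ) ≤ a + b := by exact_mod_cast (by omega : 2 * v ≤ a + b)
  obtain ⟨s, hs0, hs1, hs2, hs3⟩ : ∃ s : ℝ, 0 ≤ s ∧ s ≤ 0.72 ∧
      (5 ≤ v → s ^ 2 * (2 * π * (0.2016 * v - 0.43)) ≤ 1) ∧
      m ^ 2 * (a + b - v - 2.14) ≤ 1.07 * (a + b) * s ^ 2 := by
    rcases le_total (3 * k) (a + b - 3 * k) with c | c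
    · have ev : v = 3 * k := by omega
      have c1 := th_big hx1 hx2 (show 10 ≤ a + b - 3 * k by omega) (a - 2 * k)
      have ec : ((a + b - 3 * k : ℕ) : ℝ) = a + b - v := by
        rw [Nat.cast_sub hw.le, ev]; push_cast; ring
      rw [ec] at c1
      have c2 := W.big_part (by linarith) (Or.inr rfl) c1
      refine ⟨_, by positivity, th_small (x := 1) (by norm_num) (by norm_num) (by omega) _, ?_,
        mu_num hn hv2 hB hm0 h1 c2⟩
      intro h5
      rw [ev] at h5 ⊢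
      exact th_mid (x := 1) (by norm_num) (by norm_num) h5 _
    · have ev : v = a + b - 3 * k := by omega
      have c1 := th_big (x := 1) (by norm_num) (by norm_num) (show 10 ≤ 3 * k by omega) (2 * k)
      have ec : ((3 * k : ℕ) : ℝ) = a + b - v := by
        rw [ev, Nat.cast_sub hw.le]; push_cast; ring
      rw [ec] at c1
      have c2 := W.big_part (by linarith) (Or.inl (by norm_num)) c1
      rw [mul_comm _ (_ * xz a b ^ _ / _)] at h1
      refine ⟨_, by positivity, th_small hx1 hx2 (by omega) _, ?_, mu_num hn hv2 hB hm0 h1 c2⟩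
      intro h5
      rw [ev] at h5 ⊢
      exact th_mid hx1 hx2 h5 _
  have key : 5 ≤ v → m ^ 2 ≤ 0.854 / (v - 2.133) + 1.727 / (a + b) := fun h5 =>
    mu_mid hn hv2 (by exact_mod_cast h5) hs3 (hs2 h5)
  refine ⟨?_, key⟩
  have h2 : m ^ 2 ≤ 0.7506 ^ 2 := by
    rcases Nat.lt_or_ge v 5 with c | c
    · have c1 : (v : ℝ) ≤ 4 := by exact_mod_cast (by omega : v ≤ 4)
      have c2 : s ^ 2 ≤ 0.72 ^ 2 := pow_le_pow_left₀ hs0 hs1 2
      have c3 : m ^ 2 * (a + b - 6.14) ≤ 0.7506 ^ 2 * (a + b - 6.14) := by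
        nlinarith [sq_nonneg m]
      exact le_of_mul_le_mul_right c3 (by linarith)
    · have c1 : (5 : ℝ) ≤ v := by exact_mod_cast c
      have c2 : 0.854 / ((v : ℝ) - 2.133) ≤ 0.854 / 2.867 :=
        div_le_div_of_nonneg_left (by norm_num) (by norm_num) (by linarith)
      have c3 : 1.727 / ((a : ℝ) + b) ≤ 1.727 / 401 :=
        div_le_div_of_nonneg_left (by norm_num) (by norm_num) hn
      have := key c
      norm_num at c2 c3 this ⊢
      linarith
  exact (pow_le_pow_iff_left₀ hm0 (by norm_num) two_ne_zero).mp h2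

/-- the two bounds for the collision density of a word which is not of full weight -/
lemma adm_bound {N h w : ℕ} {p : ℝ} (hN : S (a + b) a < N) (h3 : 3 ∣ w) (hw3 : 3 ≤ w)
    (hw : w < a + b) (H : Adm (a + b) a N h w p) :
    p ≤ 0.4136 ∧ ∀ r : ℝ, 20 ≤ r → r ^ 2 ≤ a + b →
      p ≤ 0.5 / r + 0.12 * r / ((min w (a + b - w) : ℕ) + 2) := by
  obtain ⟨hp0, hp1, H | ⟨H1, H2, -⟩⟩ := H
  · subst H
    exact ⟨by norm_num, fun r hr _ => by positivity⟩
  obtain ⟨k, rfl⟩ := h3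
  have e : 2 * (3 * k) / 3 = 2 * k := by omega
  rw [e] at H1 H2
  have H3 := H2 hw
  have hS := S_pos (show a ≤ a + b by omega)
  have hN' : (S (a + b) a : ℝ) ≤ N := by exact_mod_cast hN.le
  obtain ⟨m1, m2⟩ := W.mu_bound (by omega) H1 hw rfl rfl
  set m := ((F (3 * k) (2 * k) * F (a + b - 3 * k) (a - 2 * k) : ℕ) : ℝ) / S (a + b) a with hm
  have hm0 : 0 ≤ m := by rw [hm]; positivity
  have c1 : p * (3 - p) ≤ m * (1 + p) := by
    rw [hm, div_mul_eq_mul_div, le_div_iff₀ hS]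
    exact (mul_le_mul_of_nonneg_left hN' (mul_nonneg hp0 (by linarith))).trans H3
  have c2 := psi_le hp1 hm0 m1 c1
  have c3 : p ≤ 0.4136 := by nlinarith
  refine ⟨c3, fun r hr hrn => ?_⟩
  set v := min (3 * k) (a + b - 3 * k) with hv
  rcases Nat.lt_or_ge v 5 with c | c
  · have d1 : (v : ℝ) ≤ 4 := by exact_mod_cast (by omega : v ≤ 4)
    have d2 : 0.12 * r / 6 ≤ 0.12 * r / (v + 2) :=
      div_le_div_of_nonneg_left (by linarith) (by positivity) (by linarith)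
    have d3 : 0.4136 - 0.12 * r / 6 ≤ 0.5 / r := by
      rw [le_div_iff₀ (by linarith)]; nlinarith
    linarith
  · refine pi_num W.n_ge hr hrn (by exact_mod_cast c) ?_ (m2 c) c2
    rcases Nat.lt_or_ge v 14 with d | d
    · left; exact_mod_cast (by omega : v ≤ 13)
    · right; exact_mod_cast d

/-- full weight words when the hull has dimension at most two -/
lemma adm_fullA {N h : ℕ} {p : ℝ} (hN : S (a + b) a < N) (hh : h ≤ 2)
    (H : Adm (a + b) a N h (a + b) p) : p ≤ 0.45 := by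
  obtain ⟨hp0, hp1, H | ⟨-, -, H2⟩⟩ := H
  · rw [H]; norm_num
  obtain ⟨e, H3⟩ := H2 rfl
  have hbig := W.big
  obtain rfl : a = b + b := by omega
  have e1 : (b + b + b) / 3 = b := by omega
  have e2 : 2 * (b + b + b) / 3 = b + b := by omega
  rw [e1, e2] at H3
  have hb := W.hb
  have hb' : (134 : ℝ) ≤ b := by exact_mod_cast (by omega : 134 ≤ b)
  have c1 := bet_upper hb hb
  have c2 : bet b b = ((b + b).choose b : ℝ) / 2 ^ (b + b) := by
    have : (b : ℝ) / (b + b) = 1 / 2 := by field_simp; ring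
    unfold bet; rw [this, pow_add, one_div, inv_pow]; field_simp
  have c3 : bet b b ≤ 0.05 := by
    have hpi := pi_gt_d2
    have d1 : bet b b ^ 2 * (π * b) ≤ 1 := by
      have : bet b b ^ 2 * (π * b) * (2 * b) ≤ 1 * (2 * b) := by nlinarith
      exact le_of_mul_le_mul_right this (by linarith)
    have d2 : (400 : ℝ) ≤ π * b := by nlinarith
    have d3 : bet b b ^ 2 ≤ 0.05 ^ 2 := by nlinarith [sq_nonneg (bet b b)]
    exact (pow_le_pow_iff_left₀ (bet_pos hb hb).le (by norm_num) two_ne_zero).mp d3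
  rw [c2, div_le_iff₀ (by positivity)] at c3
  have hN' : (S (b + b + b) (b + b) : ℝ) ≤ N := by exact_mod_cast hN.le
  have hS := S_pos (show b + b ≤ b + b + b by omega)
  have c4 : (b + b + b).choose (b + b) = (b + b + b).choose b := Nat.choose_symm_add
  have c5 : (3 : ℝ) ^ h ≤ 9 := by
    calc (3 : ℝ) ^ h ≤ 3 ^ 2 := pow_le_pow_right₀ (by norm_num) hh
      _ = 9 := by norm_num
  have c6 : p * S (b + b + b) (b + b) ≤ 0.45 * S (b + b + b) (b + b) := by
    refine (mul_le_mul_of_nonneg_left hN' hp0).trans (H3.trans ?_)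
    unfold S
    rw [c4]
    push_cast
    have hC : (0 : ℝ) ≤ (b + b + b).choose b := by positivity
    calc (3 : ℝ) ^ h * ((b + b + b).choose b * (b + b).choose b)
        ≤ 9 * ((b + b + b).choose b * (0.05 * 2 ^ (b + b))) :=
          mul_le_mul c5 (mul_le_mul_of_nonneg_left c3 hC) (by positivity) (by norm_num)
      _ = _ := by ring
  exact le_of_mul_le_mul_right c6 hS

end Win

end Pool.Agent.Lib.MP_990a44_co.Q3
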