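import Pool.Agent.Lib.MP_990a44_co.Q3AsyC

/-!
Bounds for the number of words of weight `d` in the dual of the hull, inside the window.
-/

namespace Pool.Agent.Lib.MP_990a44_co.Q3

open Finset Real

lemma PL {z : ℝ} (hz1 : 0.75 ≤ z) (hz2 : z ≤ 9 / 7) {k : ℕ} (hk : 39 ≤ k) {t : ℝ} (ht0 : 0 ≤ t)
    (ht : t ^ 2 = 2 * π * (k * (2 * z / (1 + 2 * z) ^ 2) - 0.43)) :
    P k z * t ≤ 1.001 * (1 + 2 * z) ^ (2 * k) := by
  have h1 : (∑ j ∈ range (k + 1), (k.choose j : ℝ) ^ 2 * (2 * z) ^ (2 * j)) * t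
      ≤ (1 + 2 * z) ^ (2 * k) := by
    have e : (1 + 2 * z) ^ (2 * k)
        = ∑ j ∈ range (k + 1), (k.choose j : ℝ) * (2 * z) ^ j * (1 + 2 * z) ^ k := by
      rw [← sum_mul, two_mul k, pow_add]
      congr 1
      rw [add_comm 1, add_pow]
      exact sum_congr rfl fun j _ => by ring
    rw [e, sum_mul]
    refine sum_le_sum fun j _ => ?_
    have c1 := pm (k := k) (by omega) (y := 2 * z) (by linarith) (by linarith) j
    rw [← ht, ← mul_pow, mul_comm 2 k, pow_mul] at c1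
    have c2 := (pow_le_pow_iff_left₀ (by positivity) (by positivity) two_ne_zero).mp c1
    calc _ = (k.choose j : ℝ) * (2 * z) ^ j * ((k.choose j : ℝ) * (2 * z) ^ j * t) := by ring
      _ ≤ _ := mul_le_mul_of_nonneg_left c2 (by positivity)
  have h2 := sq_sum_le k z (by linarith)
  have h3 : (1 + z) ^ (2 * k) ≤ 0.49 ^ k * (1 + 2 * z) ^ (2 * k) := by
    rw [pow_mul, pow_mul, ← mul_pow]
    exact pow_le_pow_left₀ (by positivity) (by nlinarith) k
  have h4 : (0.49 : ℝ) ^ k * t ≤ 0.001 := by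
    have c1 : 2 * z / (1 + 2 * z) ^ 2 ≤ 1 / 4 := by
      rw [div_le_iff₀ (by positivity)]; nlinarith [sq_nonneg (1 - 2 * z)]
    have c2 : (k : ℝ) ≤ 2 ^ k := by exact_mod_cast Nat.lt_two_pow_self.le
    have hk0 : (0 : ℝ) ≤ k := by positivity
    have c3 : t ^ 2 ≤ 1.6 * 2 ^ k := by
      have := pi_lt_d2
      have := pi_pos
      have d1 : k * (2 * z / (1 + 2 * z) ^ 2) - 0.43 ≤ k * (1 / 4) := by
        nlinarith [mul_le_mul_of_nonneg_left c1 hk0]
      have d2 : 2 * π * (k * (2 * z / (1 + 2 * z) ^ 2) - 0.43) ≤ 2 * π * (k * (1 / 4)) :=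
        mul_le_mul_of_nonneg_left d1 (by positivity)
      nlinarith
    have c4 : (0.4802 : ℝ) ^ k ≤ 0.4802 ^ 39 :=
      pow_le_pow_of_le_one (by norm_num) (by norm_num) hk
    have c5 : ((0.49 : ℝ) ^ k * t) ^ 2 ≤ 0.001 ^ 2 := by
      calc _ = ((0.49 : ℝ) ^ k) ^ 2 * t ^ 2 := by ring
        _ ≤ ((0.49 : ℝ) ^ k) ^ 2 * (1.6 * 2 ^ k) := mul_le_mul_of_nonneg_left c3 (by positivity)
        _ = 1.6 * 0.4802 ^ k := by
          rw [← pow_mul, mul_comm k 2, pow_mul, mul_left_comm, ← mul_pow]; norm_num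
        _ ≤ 1.6 * 0.4802 ^ 39 := by linarith
        _ ≤ _ := by norm_num
    exact (pow_le_pow_iff_left₀ (by positivity) (by norm_num) two_ne_zero).mp c5
  have h5 : (∑ j ∈ range (k + 1), (k.choose j : ℝ) ^ 2 * z ^ (2 * j)) * t
      ≤ 0.001 * (1 + 2 * z) ^ (2 * k) := by
    calc _ ≤ 0.49 ^ k * (1 + 2 * z) ^ (2 * k) * t := mul_le_mul_of_nonneg_right (h2.trans h3) ht0
      _ = (0.49 ^ k * t) * (1 + 2 * z) ^ (2 * k) := by ring
      _ ≤ _ := mul_le_mul_of_nonneg_right h4 (by positivity)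
  rw [P_eq, add_mul]
  linarith

/-- localised tilt bound -/
lemma Hull.loc {n d N h D : ℕ} (H : Hull n d N h D 3) {c : ℕ} (hc : h ≤ c) (hc2 : 2 * c + 78 ≤ n)
    {z : ℝ} (hz1 : 0.75 ≤ z) (hz2 : z ≤ 9 / 7) :
    ((3 ^ h * D : ℝ) * z ^ d) ^ 2
        * (2 * π * ((n - 2 * c - 1) / 2 * (2 * z / (1 + 2 * z) ^ 2) - 0.43))
      ≤ 1.002001 * ((3 * (1 + 2 * z ^ 2)) ^ c * (1 + 2 * z) ^ (n - 2 * c)) ^ 2 := by
  have h1 := H.four_block c hc (by omega) z (by linarith)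
  set k := (n - 2 * c) / 2 with hk
  set r := (n - 2 * c) % 2 with hr
  have hQ := qq_ge (x := z) (by linarith) hz2
  set Q := 2 * z / (1 + 2 * z) ^ 2 with hQd
  have hk39 : 39 ≤ k := by omega
  have hk' : (39 : ℝ) ≤ k := by exact_mod_cast hk39
  have hpi := pi_pos
  have hT : 0 ≤ 2 * π * (k * Q - 0.43) := mul_nonneg (by positivity) (by nlinarith)
  have h2 := PL hz1 hz2 hk39 (sqrt_nonneg _) (sq_sqrt hT)
  set t := √(2 * π * (k * Q - 0.43)) with ht
  have ht0 : 0 ≤ t := sqrt_nonneg _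
  have h3 : (3 ^ h * D : ℝ) * z ^ d * t
      ≤ 1.001 * ((3 * (1 + 2 * z ^ 2)) ^ c * (1 + 2 * z) ^ (n - 2 * c)) := by
    have e : n - 2 * c = 2 * k + r := by omega
    calc _ ≤ (3 * (1 + 2 * z ^ 2)) ^ c * P k z * (1 + 2 * z) ^ r * t :=
          mul_le_mul_of_nonneg_right h1 ht0
      _ = (3 * (1 + 2 * z ^ 2)) ^ c * (1 + 2 * z) ^ r * (P k z * t) := by ring
      _ ≤ (3 * (1 + 2 * z ^ 2)) ^ c * (1 + 2 * z) ^ r * (1.001 * (1 + 2 * z) ^ (2 * k)) :=
          mul_le_mul_of_nonneg_left h2 (by positivity)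
      _ = _ := by rw [e, pow_add]; ring
  have h4 := pow_le_pow_left₀ (by positivity) h3 2
  have h5 : ((n : ℝ) - 2 * c - 1) / 2 ≤ k := by
    have : n ≤ 2 * c + 2 * k + 1 := by omega
    have : (n : ℝ) ≤ 2 * c + 2 * k + 1 := by exact_mod_cast this
    linarith
  have h6 : 2 * π * (((n : ℝ) - 2 * c - 1) / 2 * Q - 0.43) ≤ t ^ 2 := by
    rw [ht, sq_sqrt hT]
    refine mul_le_mul_of_nonneg_left ?_ (by positivity)
    nlinarith
  calc _ ≤ ((3 ^ h * D : ℝ) * z ^ d) ^ 2 * t ^ 2 := mul_le_mul_of_nonneg_left h6 (by positivity)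
    _ = ((3 ^ h * D : ℝ) * z ^ d * t) ^ 2 := by ring
    _ ≤ _ := h4
    _ = _ := by ring

/-- the ratio of the trivial bound to the sphere size -/
noncomputable def sig (a b h D : ℕ) : ℝ := (3 ^ h * D : ℝ) / S (a + b) a

lemma sig_nonneg (a b h D : ℕ) : 0 ≤ sig a b h D := by unfold sig; positivity

lemma sig_eq (a b h D : ℕ) : (3 ^ h * D : ℝ) = sig a b h D * S (a + b) a := by
  have := S_pos (show a ≤ a + b by omega)
  unfold sig; field_simp

lemma sig_fin {a b N h D : ℕ} (hN : S (a + b) a < N) {E : ℝ} (hE : 0 ≤ E)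
    (h1 : (N : ℝ) ≤ (3 ^ h * D : ℝ) * E) (h2 : sig a b h D ^ 2 * E ^ 2 ≤ 1) : False := by
  have hS := S_pos (show a ≤ a + b by omega)
  have h0 := sig_nonneg a b h D
  have h3 : sig a b h D * E ≤ 1 := by
    rw [← mul_pow] at h2
    exact (pow_le_one_iff_of_nonneg (by positivity) two_ne_zero).mp h2
  rw [sig_eq a b] at h1
  have h4 : (S (a + b) a : ℝ) < N := by exact_mod_cast hN
  nlinarith

namespace Win

variable {a b : ℕ} (W : Win a b)
include W

lemma G_eq : 3 * (1 + 2 * xz a b ^ 2)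
    = (1 + 4.5 * ((a : ℝ) / (a + b) - 2 / 3) ^ 2) * (1 + 2 * xz a b) ^ 2 := by
  have := W.b_ge; have := W.a_ge
  have h1 : (b : ℝ) ≠ 0 := by linarith
  have h2 : (a : ℝ) + b ≠ 0 := by linarith
  unfold xz; field_simp; ring

/-- tilt at the saddle point -/
lemma tilt_x {N h D : ℕ} (H : Hull (a + b) a N h D 3) {c : ℕ} (hc : h ≤ c)
    (hc2 : 2 * c + 78 ≤ a + b) :
    sig a b h D ^ 2 * (a + b - 2 * c - 5.28)
      ≤ 2.0087 * (1 + 4.5 * ((a : ℝ) / (a + b) - 2 / 3) ^ 2) ^ (2 * c) * (a + b) := by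
  have hx1 := W.x_ge
  have h1 := H.loc hc hc2 (z := xz a b) (by linarith) W.x_le
  have hQ := qq_ge (x := xz a b) (by linarith) W.x_le
  have h2 := W.bet_ge
  have hn := W.n_ge
  rw [W.G_eq, sig_eq a b, mul_assoc (sig a b h D), S_eq W.ha W.hb] at h1
  set Q := 2 * xz a b / (1 + 2 * xz a b) ^ 2
  set G := 1 + 4.5 * ((a : ℝ) / (a + b) - 2 / 3) ^ 2 with hG
  have hG0 : 0 < G := by positivity
  set σ := sig a b h D
  have e : (G * (1 + 2 * xz a b) ^ 2) ^ c * (1 + 2 * xz a b) ^ (a + b - 2 * c)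
      = G ^ c * (1 + 2 * xz a b) ^ (a + b) := by
    rw [mul_pow, ← pow_mul, mul_assoc, ← pow_add]; congr 2; omega
  rw [e] at h1
  have hZ : 0 < (1 + 2 * xz a b) ^ (a + b) := by positivity
  set Z := (1 + 2 * xz a b) ^ (a + b)
  push_cast at h1
  have hc2' : (2 * c + 78 : ℝ) ≤ a + b := by exact_mod_cast hc2
  set L := ((a : ℝ) + b - 2 * c - 1) / 2 * Q - 0.43 with hL
  have hL0 : 0 ≤ L := by nlinarith
  have hpi := pi_pos
  have h3 : σ ^ 2 * bet a b ^ 2 * (2 * π * L) ≤ 1.002001 * G ^ (2 * c) := by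
    have : σ ^ 2 * bet a b ^ 2 * (2 * π * L) * Z ^ 2 ≤ 1.002001 * G ^ (2 * c) * Z ^ 2 := by
      calc _ = (σ * (bet a b * Z)) ^ 2 * (2 * π * L) := by ring
        _ ≤ _ := h1
        _ = _ := by ring
    exact le_of_mul_le_mul_right this (by positivity)
  have h4 : σ ^ 2 * L ≤ 1.002001 * G ^ (2 * c) * ((a + b) * Q * 1.0023) := by
    calc _ = σ ^ 2 * L * 1 := by ring
      _ ≤ σ ^ 2 * L * (bet a b ^ 2 * (2 * π * ((a + b) * Q) * 1.0023)) :=
          mul_le_mul_of_nonneg_left h2 (by positivity)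
      _ = σ ^ 2 * bet a b ^ 2 * (2 * π * L) * ((a + b) * Q * 1.0023) := by ring
      _ ≤ _ := mul_le_mul_of_nonneg_right h3 (by positivity)
  have h5 : σ ^ 2 * (a + b - 2 * c - 5.28) * Q ≤ 2.0087 * G ^ (2 * c) * (a + b) * Q := by
    have c1 : (a + b - 2 * c - 5.28) * Q ≤ 2 * L := by rw [hL]; nlinarith
    have c2 : 0 ≤ G ^ (2 * c) * (a + b) * Q := by positivity
    nlinarith [mul_le_mul_of_nonneg_left c1 (sq_nonneg σ)]
  exact le_of_mul_le_mul_right h5 (by linarith)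

/-- the window inequality cancels the loss of the tilt at the square root of the saddle point -/
lemma rho (w1 : 3 * ((a + b) * log 3 - lZ a b) < 2 * -log (bet a b)) {A c : ℝ} (hA : 0 ≤ A)
    (hc : 0 ≤ c)
    (h : A * ((S (a + b) a : ℝ) ^ 2 * xz a b ^ a) ≤ c * (3 * (1 + 2 * xz a b)) ^ (a + b)) :
    A ^ 3 ≤ c ^ 3 * (4.981 * ((a : ℝ) + b) ^ 4) := by
  have hx := xz_pos W.ha W.hb
  have hB := bet_pos W.ha W.hb
  have hn := W.n_ge
  have h1 := S_eq W.ha W.hb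
  have hZ : 0 < (1 + 2 * xz a b) ^ (a + b) := by positivity
  set ρ := 3 ^ (a + b) * xz a b ^ a / (1 + 2 * xz a b) ^ (a + b) with hρ
  have hρ0 : 0 < ρ := by positivity
  have h2 : log ρ = (a + b) * log 3 - lZ a b := by
    rw [hρ, log_div (by positivity) hZ.ne', log_mul (by positivity) (by positivity), log_pow,
      log_pow, log_pow]
    unfold lZ; push_cast; ring
  have h3 : ρ ^ 3 * bet a b ^ 2 ≤ 1 := by
    rw [← log_nonpos_iff (by positivity), log_mul (by positivity) (by positivity), log_pow,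
      log_pow, h2]
    push_cast; linarith
  have h4 : A * bet a b ^ 2 ≤ c * ρ := by
    rw [mul_pow] at h
    set Z := (1 + 2 * xz a b) ^ (a + b)
    have : A * bet a b ^ 2 * Z ^ 2 ≤ c * ρ * Z ^ 2 := by
      calc _ = A * (bet a b * Z) ^ 2 := by ring
        _ = A * ((S (a + b) a : ℝ) ^ 2 * xz a b ^ a) * xz a b ^ a := by rw [← h1]; ring
        _ ≤ c * (3 ^ (a + b) * Z) * xz a b ^ a := mul_le_mul_of_nonneg_right h (by positivity)
        _ = _ := by rw [hρ]; field_simp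
    exact le_of_mul_le_mul_right this (by positivity)
  have h5 : 1 ≤ bet a b ^ 2 * (1.4939 * ((a : ℝ) + b)) := by
    refine W.bet_ge.trans (mul_le_mul_of_nonneg_left ?_ (by positivity))
    have c1 := W.Q_le
    have c2 := pi_lt_d4
    have c3 := pi_pos
    have hQ := qq_ge (x := xz a b) (by linarith [W.x_ge]) W.x_le
    set Q := 2 * xz a b / (1 + 2 * xz a b) ^ 2
    have c4 : π * Q ≤ 3.1416 * 0.2372 := mul_le_mul c2.le c1 (by linarith) (by norm_num)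
    nlinarith
  have h6 := pow_le_pow_left₀ (by positivity) h4 3
  have h7 : 1 ≤ (bet a b ^ 2 * (1.4939 * ((a : ℝ) + b))) ^ 4 := one_le_pow₀ h5
  calc A ^ 3 = A ^ 3 * 1 := by ring
    _ ≤ A ^ 3 * (bet a b ^ 2 * (1.4939 * ((a : ℝ) + b))) ^ 4 :=
        mul_le_mul_of_nonneg_left h7 (by positivity)
    _ = (A * bet a b ^ 2) ^ 3 * (bet a b ^ 2 * (1.4939 * ((a : ℝ) + b)) ^ 4) := by ring
    _ ≤ (c * ρ) ^ 3 * (bet a b ^ 2 * (1.4939 * ((a : ℝ) + b)) ^ 4) :=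
        mul_le_mul_of_nonneg_right h6 (by positivity)
    _ = c ^ 3 * (1.4939 ^ 4 * ((a : ℝ) + b) ^ 4) * (ρ ^ 3 * bet a b ^ 2) := by ring
    _ ≤ c ^ 3 * (1.4939 ^ 4 * ((a : ℝ) + b) ^ 4) * 1 :=
        mul_le_mul_of_nonneg_left h3 (by positivity)
    _ ≤ _ := by
        rw [mul_one]
        exact mul_le_mul_of_nonneg_left
          (mul_le_mul_of_nonneg_right (by norm_num) (by positivity)) (by positivity)

lemma y_ge : 0.88 ≤ √(xz a b) := le_sqrt_of_sq_le (by linarith [W.x_ge])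

lemma y_le : √(xz a b) ≤ 1.134 := sqrt_le_iff.mpr ⟨by norm_num, by linarith [W.x_le]⟩

lemma y_pow {c : ℕ} (hc : 2 * c ≤ a + b) :
    ((3 * (1 + 2 * √(xz a b) ^ 2)) ^ c * (1 + 2 * √(xz a b)) ^ (a + b - 2 * c)) ^ 2
      ≤ (3 * (1 + 2 * xz a b)) ^ (a + b) := by
  have hx := xz_pos W.ha W.hb
  have hy := W.y_ge
  have e := sq_sqrt hx.le
  have c1 : (1 + 2 * √(xz a b)) ^ 2 ≤ 3 * (1 + 2 * xz a b) := by
    nlinarith [sq_nonneg (√(xz a b) - 1)]
  rw [e, mul_pow, ← pow_mul, ← pow_mul, mul_comm (a + b - 2 * c) 2, pow_mul _ 2]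
  calc _ ≤ (3 * (1 + 2 * xz a b)) ^ (c * 2) * (3 * (1 + 2 * xz a b)) ^ (a + b - 2 * c) :=
        mul_le_mul_of_nonneg_left (pow_le_pow_left₀ (by positivity) c1 _) (by positivity)
    _ = _ := by rw [← pow_add]; congr 1; omega

lemma y_left (h D : ℕ) : ((3 ^ h * D : ℝ) * √(xz a b) ^ a) ^ 2
    = sig a b h D ^ 2 * ((S (a + b) a : ℝ) ^ 2 * xz a b ^ a) := by
  have hx := xz_pos W.ha W.hb
  rw [sig_eq a b, mul_pow, ← pow_mul, mul_comm a 2, pow_mul, sq_sqrt hx.le]; ring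

/-- localised tilt at the square root of the saddle point -/
lemma tilt_y (w1 : 3 * ((a + b) * log 3 - lZ a b) < 2 * -log (bet a b)) {N h D : ℕ}
    (H : Hull (a + b) a N h D 3) (hh : 2 * h + 78 ≤ a + b) :
    (sig a b h D ^ 2 * (0.6597 * (a + b - 2 * h) - 3.37)) ^ 3 ≤ 5.011 * ((a : ℝ) + b) ^ 4 := by
  have hy1 := W.y_ge
  have hy2 := W.y_le
  have h1 := H.loc le_rfl hh (z := √(xz a b)) (by linarith) (by linarith)
  have h2 := W.y_pow (c := h) (by omega)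
  rw [W.y_left] at h1
  have hQ : 0.21 ≤ 2 * √(xz a b) / (1 + 2 * √(xz a b)) ^ 2 := by
    rw [le_div_iff₀ (by positivity)]; nlinarith
  set Q := 2 * √(xz a b) / (1 + 2 * √(xz a b)) ^ 2
  push_cast at h1
  have hh' : (2 * h + 78 : ℝ) ≤ a + b := by exact_mod_cast hh
  have c1 : 0.6597 * ((a : ℝ) + b - 2 * h) - 3.37 ≤ 2 * π * ((a + b - 2 * h - 1) / 2 * Q - 0.43) := by
    have d1 : ((a : ℝ) + b - 2 * h - 1) / 2 * 0.21 - 0.43 ≤ (a + b - 2 * h - 1) / 2 * Q - 0.43 := by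
      nlinarith
    have d2 := pi_gt_d4
    nlinarith
  have hx := xz_pos W.ha W.hb
  have h3 := W.rho w1 (A := sig a b h D ^ 2 * (0.6597 * (a + b - 2 * h) - 3.37)) (c := 1.002001)
    (mul_nonneg (sq_nonneg _) (by linarith)) (by norm_num) (by
      calc _ = sig a b h D ^ 2 * ((S (a + b) a : ℝ) ^ 2 * xz a b ^ a)
            * (0.6597 * (a + b - 2 * h) - 3.37) := by ring
        _ ≤ _ := mul_le_mul_of_nonneg_left c1 (by positivity)
        _ ≤ _ := h1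
        _ ≤ _ := mul_le_mul_of_nonneg_left h2 (by norm_num))
  refine h3.trans ?_
  rw [← mul_assoc]
  exact mul_le_mul_of_nonneg_right (by norm_num) (by positivity)

/-- plain tilt at the square root of the saddle point -/
lemma tilt_y0 (w1 : 3 * ((a + b) * log 3 - lZ a b) < 2 * -log (bet a b)) {N h D : ℕ}
    (H : Hull (a + b) a N h D 3) : (sig a b h D ^ 2) ^ 3 ≤ 4.981 * ((a : ℝ) + b) ^ 4 := by
  have hy1 := W.y_ge
  have h1 := H.tilt_all (√(xz a b)) (by linarith)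
  have h2 := W.y_pow (c := (a + b) / 2) (by omega)
  rw [show a + b - 2 * ((a + b) / 2) = (a + b) % 2 by omega] at h2
  have h3 := (pow_le_pow_left₀ (by positivity) h1 2).trans h2
  rw [W.y_left] at h3
  have h4 := W.rho w1 (A := sig a b h D ^ 2) (c := 1) (sq_nonneg _) (by norm_num) (by linarith)
  linarith

end Win

end Pool.Agent.Lib.MP_990a44_co.Q3
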