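import Pool.Agent.Lib.MP_990a44_co.Q3Defs

/-! Restriction of a constant distance pair to a set of coordinates; Pascal bound. -/

namespace Pool.Agent.Lib.MP_990a44_co.Q3

open Finset

variable {ι : Type} [Fintype ι] [DecidableEq ι]

/-- distance on the coordinates in `W` -/
def dW (W : Finset ι) (a b : ι → ZMod 3) : ℕ := (W.filter fun i => a i ≠ b i).card

/-- the word that agrees with `a` on `W` and is zero elsewhere -/
def proj (W : Finset ι) (a : ι → ZMod 3) : ι → ZMod 3 := fun i => if i ∈ W then a i else 0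

omit [Fintype ι] in
theorem proj_eq_iff {W : Finset ι} {a b : ι → ZMod 3} :
    proj W a = proj W b ↔ ∀ i ∈ W, a i = b i := by
  constructor
  · intro h i hi
    have := congrFun h i
    simpa [proj, hi] using this
  · intro h
    funext i
    by_cases hi : i ∈ W
    · simp [proj, hi, h i hi]
    · simp [proj, hi]

omit [DecidableEq ι] in
theorem hd_eq_dW (a b : ι → ZMod 3) : hammingDist a b = dW univ a b := rfl

theorem dW_add_compl (W : Finset ι) (a b : ι → ZMod 3) :
    dW W a b + dW Wᶜ a b = hammingDist a b := by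
  rw [hd_eq_dW, dW, dW, dW, ← card_union_of_disjoint, ← filter_union, union_compl]
  exact disjoint_filter_filter disjoint_compl_right

omit [Fintype ι] [DecidableEq ι] in
theorem dW_congr {W : Finset ι} {a a' b b' : ι → ZMod 3} (ha : ∀ i ∈ W, a i = a' i)
    (hb : ∀ i ∈ W, b i = b' i) : dW W a b = dW W a' b' := by
  unfold dW
  congr 1
  refine filter_congr fun i hi => ?_
  rw [ha i hi, hb i hi]

omit [Fintype ι] [DecidableEq ι] in
theorem dW_comm (W : Finset ι) (a b : ι → ZMod 3) : dW W a b = dW W b a := by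
  unfold dW
  congr 1
  exact filter_congr fun i _ => ne_comm

omit [Fintype ι] [DecidableEq ι] in
theorem dW_singleton (t : ι) (a b : ι → ZMod 3) :
    dW {t} a b = if a t = b t then 0 else 1 := by
  unfold dW
  by_cases h : a t = b t
  · simp [filter_singleton, h]
  · simp [filter_singleton, h]

omit [DecidableEq ι] in
theorem CD.symm {A B : Finset (ι → ZMod 3)} {d : ℕ} (h : CD A B d) : CD B A d :=
  fun b hb a ha => by rw [hammingDist_comm]; exact h a ha b hb

theorem restrict {n : ℕ} (ih : IH n) (W : Finset ι) (hW : W.card < n)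
    {A B : Finset (ι → ZMod 3)} {d : ℕ} (h : ∀ a ∈ A, ∀ b ∈ B, dW W a b = d) :
    (A.image (proj W)).card * (B.image (proj W)).card ≤ F W.card d := by
  classical
  let res : (ι → ZMod 3) → ({i // i ∈ W} → ZMod 3) := fun a i => a i
  let ext : ({i // i ∈ W} → ZMod 3) → (ι → ZMod 3) := fun v i => if hi : i ∈ W then v ⟨i, hi⟩ else 0
  have hcomp : ∀ a, ext (res a) = proj W a := by
    intro a
    funext i
    by_cases hi : i ∈ W <;> simp [ext, res, proj, hi]
  have hcard : ∀ X : Finset (ι → ZMod 3), (X.image (proj W)).card ≤ (X.image res).card := by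
    intro X
    have : X.image (proj W) = (X.image res).image ext := by
      rw [image_image]
      exact image_congr fun a _ => (hcomp a).symm
    rw [this]
    exact card_image_le
  have hc : Fintype.card {i // i ∈ W} = W.card := by simp
  have key := ih {i // i ∈ W} (by rw [hc]; exact hW) d (A.image res) (B.image res) (by
    intro a' ha' b' hb'
    obtain ⟨a, ha, rfl⟩ := mem_image.1 ha'
    obtain ⟨b, hb, rfl⟩ := mem_image.1 hb'
    rw [← h a ha b hb]
    unfold hammingDist dW
    refine card_bij (fun i _ => i.1) ?_ ?_ ?_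
    · intro i hi
      rw [mem_filter] at hi ⊢
      exact ⟨i.2, hi.2⟩
    · intro i _ j _ hij
      exact Subtype.ext hij
    · intro i hi
      rw [mem_filter] at hi
      exact ⟨⟨i, hi.1⟩, by rw [mem_filter]; exact ⟨mem_univ _, hi.2⟩, rfl⟩)
  rw [hc] at key
  exact le_trans (Nat.mul_le_mul (hcard A) (hcard B)) key

/-- restriction with bounded fibres -/
theorem restrict_fib {n : ℕ} (ih : IH n) (W : Finset ι) (hW : W.card < n)
    {A B : Finset (ι → ZMod 3)} {d : ℕ} (h : ∀ a ∈ A, ∀ b ∈ B, dW W a b = d) (k l : ℕ)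
    (hA : ∀ v, (A.filter fun a => proj W a = v).card ≤ k)
    (hB : ∀ v, (B.filter fun b => proj W b = v).card ≤ l) :
    A.card * B.card ≤ k * l * F W.card d := by
  have h1 : A.card ≤ k * (A.image (proj W)).card :=
    card_le_mul_card_image A k fun v _ => hA v
  have h2 : B.card ≤ l * (B.image (proj W)).card :=
    card_le_mul_card_image B l fun v _ => hB v
  calc A.card * B.card ≤ (k * (A.image (proj W)).card) * (l * (B.image (proj W)).card) :=
        Nat.mul_le_mul h1 h2
    _ = k * l * ((A.image (proj W)).card * (B.image (proj W)).card) := by ring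
    _ ≤ _ := Nat.mul_le_mul_left _ (restrict ih W hW h)

theorem fib_le_one {W : Finset ι} {A : Finset (ι → ZMod 3)}
    (h : ∀ a ∈ A, ∀ a' ∈ A, (∀ i ∈ W, a i = a' i) → a = a') (v : ι → ZMod 3) :
    (A.filter fun a => proj W a = v).card ≤ 1 := by
  rw [card_le_one]
  intro a ha a' ha'
  rw [mem_filter] at ha ha'
  exact h a ha.1 a' ha'.1 (proj_eq_iff.1 (ha.2.trans ha'.2.symm))

theorem card_le_proj_mul (W : Finset ι) (A : Finset (ι → ZMod 3)) :
    A.card ≤ (A.image (proj W)).card * (A.image (proj Wᶜ)).card := by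
  rw [← card_product]
  refine card_le_card_of_injOn (fun a => (proj W a, proj Wᶜ a)) ?_ ?_
  · intro a ha
    simp only [coe_product, Set.mem_prod, mem_coe]
    exact ⟨mem_image_of_mem _ ha, mem_image_of_mem _ ha⟩
  · intro a _ b _ hab
    simp only [Prod.mk.injEq] at hab
    funext i
    by_cases hi : i ∈ W
    · exact proj_eq_iff.1 hab.1 i hi
    · exact proj_eq_iff.1 hab.2 i (mem_compl.2 hi)

/-- a pair with constant distance on `W` splits -/
theorem split {n : ℕ} (ih : IH n) (hn : Fintype.card ι = n) (W : Finset ι) (hW : W.card < n)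
    (hW0 : 0 < W.card) {A B : Finset (ι → ZMod 3)} {d d₁ : ℕ} (h : CD A B d)
    (h₁ : ∀ a ∈ A, ∀ b ∈ B, dW W a b = d₁) :
    A.card * B.card ≤ F W.card d₁ * F (n - W.card) (d - d₁) := by
  have hc : Wᶜ.card = n - W.card := by rw [card_compl, hn]
  have r1 := restrict ih W hW h₁
  have r2 := restrict ih Wᶜ (by rw [hc]; omega) (A := A) (B := B) (d := d - d₁) (by
    intro a ha b hb
    have := dW_add_compl W a b
    rw [h a ha b hb, h₁ a ha b hb] at this
    omega)
  rw [hc] at r2
  calc A.card * B.card ≤ ((A.image (proj W)).card * (A.image (proj Wᶜ)).card) *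
        ((B.image (proj W)).card * (B.image (proj Wᶜ)).card) :=
        Nat.mul_le_mul (card_le_proj_mul W A) (card_le_proj_mul W B)
    _ = ((A.image (proj W)).card * (B.image (proj W)).card) *
        ((A.image (proj Wᶜ)).card * (B.image (proj Wᶜ)).card) := by ring
    _ ≤ _ := Nat.mul_le_mul r1 r2

theorem eq_of_off {t : ι} {a b : ι → ZMod 3} (h : ∀ i ∈ ({t}ᶜ : Finset ι), a i = b i)
    (ht : a t = b t) : a = b := by
  funext i
  by_cases hi : i = t
  · rw [hi]; exact ht
  · exact h i (by simpa using hi)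

theorem card_off {n : ℕ} (hn : Fintype.card ι = n) (t : ι) : ({t}ᶜ : Finset ι).card = n - 1 := by
  rw [card_compl, hn, card_singleton]

/-- pairs with the same letter at `t` -/
theorem same_letter {n : ℕ} (ih : IH n) (hn : Fintype.card ι = n) {A B : Finset (ι → ZMod 3)}
    {d : ℕ} (h : CD A B d) (t : ι) (x : ZMod 3) (hA : ∀ a ∈ A, a t = x) :
    A.card * (B.filter fun b => b t = x).card ≤ F (n - 1) d := by
  have hn0 : 0 < n := by rw [← hn]; exact Fintype.card_pos_iff.2 ⟨t⟩
  have := restrict_fib ih ({t}ᶜ) (by rw [card_off hn]; omega) (A := A)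
    (B := B.filter fun b => b t = x) (d := d) (by
      intro a ha b hb
      rw [mem_filter] at hb
      have := dW_add_compl {t} a b
      rw [h a ha b hb.1, dW_singleton, if_pos (by rw [hA a ha, hb.2])] at this
      omega) 1 1
    (fib_le_one fun a ha a' ha' hh => eq_of_off hh (by rw [hA a ha, hA a' ha']))
    (fib_le_one fun b hb b' hb' hh => eq_of_off hh (by
      rw [mem_filter] at hb hb'
      rw [hb.2, hb'.2]))
  rw [card_off hn] at this
  simpa using this

/-- pairs with different letters at `t` -/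
theorem other_letter {n : ℕ} (ih : IH n) (hn : Fintype.card ι = n) {A B : Finset (ι → ZMod 3)}
    {d : ℕ} (h : CD A B d) (t : ι) (x : ZMod 3) (hA : ∀ a ∈ A, a t = x) (l : ℕ)
    (hB : ∀ v, ((B.filter fun b => b t ≠ x).filter fun b => proj {t}ᶜ b = v).card ≤ l) :
    A.card * (B.filter fun b => b t ≠ x).card ≤ l * F (n - 1) (d - 1) := by
  have hn0 : 0 < n := by rw [← hn]; exact Fintype.card_pos_iff.2 ⟨t⟩
  have := restrict_fib ih ({t}ᶜ) (by rw [card_off hn]; omega) (A := A)
    (B := B.filter fun b => b t ≠ x) (d := d - 1) (by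
      intro a ha b hb
      rw [mem_filter] at hb
      have := dW_add_compl {t} a b
      rw [h a ha b hb.1, dW_singleton, if_neg (by rw [hA a ha]; exact hb.2.symm)] at this
      omega) 1 l
    (fib_le_one fun a ha a' ha' hh => eq_of_off hh (by rw [hA a ha, hA a' ha'])) hB
  rw [card_off hn] at this
  simpa using this

theorem pascal {n : ℕ} (ih : IH n) (hn : Fintype.card ι = n) {A B : Finset (ι → ZMod 3)}
    {d : ℕ} (h : CD A B d) (t : ι) (x : ZMod 3) (hA : ∀ a ∈ A, a t = x) :
    A.card * B.card ≤ F (n - 1) d + 2 * F (n - 1) (d - 1) := by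
  have h1 := same_letter ih hn h t x hA
  have h2 := other_letter ih hn h t x hA 2 (by
    intro v
    have : ((univ : Finset (ZMod 3)).erase x).card = 2 := by
      rw [card_erase_of_mem (mem_univ _)]; simp
    rw [← this]
    refine card_le_card_of_injOn (fun b => b t) ?_ ?_
    · intro b hb
      rw [mem_coe, mem_filter, mem_filter] at hb
      simpa using hb.1.2
    · intro b hb b' hb' hh
      rw [mem_coe, mem_filter] at hb hb'
      exact eq_of_off (proj_eq_iff.1 (hb.2.trans hb'.2.symm)) hh)
  have h3 := card_filter_add_card_filter_not (s := B) (fun b => b t = x)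
  rw [← h3, mul_add]
  exact add_le_add h1 h2

/-- letter frequency bound when `A` is not constant at `t` -/
theorem freq {n : ℕ} (ih : IH n) (hn : Fintype.card ι = n) {A B : Finset (ι → ZMod 3)}
    {d : ℕ} (h : CD A B d) (t : ι) (x : ZMod 3) (hA : ∃ a ∈ A, a t ≠ x) :
    (A.filter fun a => a t = x).card * B.card ≤ F (n - 1) d + F (n - 1) (d - 1) := by
  obtain ⟨a₀, ha₀, hx⟩ := hA
  have h' : CD (A.filter fun a => a t = x) B d := fun a ha b hb =>
    h a (mem_filter.1 ha).1 b hb
  have hA' : ∀ a ∈ A.filter fun a => a t = x, a t = x := fun a ha => (mem_filter.1 ha).2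
  have h1 := same_letter ih hn h' t x hA'
  have h2 := other_letter ih hn h' t x hA' 1 (fib_le_one (by
    intro b hb b' hb' hh
    rw [mem_filter] at hb hb'
    refine eq_of_off hh ?_
    have e1 := dW_add_compl {t} a₀ b
    have e2 := dW_add_compl {t} a₀ b'
    rw [h a₀ ha₀ b hb.1, dW_singleton] at e1
    rw [h a₀ ha₀ b' hb'.1, dW_singleton, ← dW_congr (fun _ _ => rfl) hh] at e2
    have e3 : (if a₀ t = b t then 0 else 1) = (if a₀ t = b' t then 0 else 1 : ℕ) := by omega
    have aux : ∀ x p q r : ZMod 3, p ≠ x →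
        ((if p = q then 0 else 1) = (if p = r then 0 else 1 : ℕ)) → q ≠ x → r ≠ x → q = r := by
      decide
    exact aux x _ _ _ hx e3 hb.2 hb'.2))
  have h3 := card_filter_add_card_filter_not (s := B) (fun b => b t = x)
  rw [← h3, mul_add]
  simpa using add_le_add h1 h2

end Pool.Agent.Lib.MP_990a44_co.Q3
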