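import Pool.Agent.Lib.MP_990a44_co.Q3Defs

/-!
Consequences of the hull data that hold uniformly on blocks of dimensions.
-/

namespace Pool.Agent.Lib.MP_990a44_co.Q3

open Finset

/-- `φ` dominates the collision densities on two disjoint partial information sets of size `g` -/
def Good (n d N h lo g : ℕ) (φ : ℕ → ℝ) : Prop :=
  ∀ j j' w p, j ≤ g → j' ≤ g → j + j' ≤ w → w + 2 * g ≤ n + j + j' → 3 ∣ w → lo ≤ w →
    Adm n d N h w p → 2 * p ≤ φ j + φ j'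

/-- averaging over the deletion of one coordinate of a partial information set -/
noncomputable def lift (g : ℕ) (φ : ℕ → ℝ) (j : ℕ) : ℝ :=
  ((j : ℝ) * φ (j - 1) + ((g + 1 - j : ℕ) : ℝ) * φ j) / (g + 1)

lemma lift_ge (g : ℕ) (φ : ℕ → ℝ) (j : ℕ) (hj : j ≤ g + 1) (x : ℝ)
    (h1 : 1 ≤ j → x ≤ φ (j - 1)) (h2 : j ≤ g → x ≤ φ j) : x ≤ lift g φ j := by
  unfold lift
  have hg : (0 : ℝ) < g + 1 := by positivity
  rw [le_div_iff₀ hg]
  have hc : ((g + 1 - j : ℕ) : ℝ) = g + 1 - j := by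
    rw [Nat.cast_sub hj]; push_cast; ring
  have a1 : (j : ℝ) * x ≤ j * φ (j - 1) := by
    rcases Nat.eq_zero_or_pos j with h0 | h0
    · simp [h0]
    · exact mul_le_mul_of_nonneg_left (h1 h0) (by positivity)
  have a2 : ((g + 1 - j : ℕ) : ℝ) * x ≤ ((g + 1 - j : ℕ) : ℝ) * φ j := by
    rcases Nat.lt_or_ge g j with h0 | h0
    · have : g + 1 - j = 0 := by omega
      simp [this]
    · exact mul_le_mul_of_nonneg_left (h2 h0) (by positivity)
  have : x * (g + 1) = j * x + ((g + 1 - j : ℕ) : ℝ) * x := by rw [hc]; ring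
  linarith

lemma Good.lift {n d N h lo g : ℕ} {φ : ℕ → ℝ} (H : Good n d N h lo g φ) :
    Good n d N h lo (g + 1) (lift g φ) := by
  intro j j' w p hj hj' h1 h2 h3 h4 h5
  have key : ∀ a, a ≤ g → a ≤ j → j ≤ a + 1 → 2 * p - φ a ≤ Q3.lift g φ j' := by
    intro a ha ha1 ha2
    apply lift_ge g φ j' hj'
    · intro h0
      have := H a (j' - 1) w p ha (by omega) (by omega) (by omega) h3 h4 h5
      linarith
    · intro h0
      have := H a j' w p ha h0 (by omega) (by omega) h3 h4 h5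
      linarith
  have : 2 * p - Q3.lift g φ j' ≤ Q3.lift g φ j := by
    apply lift_ge g φ j hj
    · intro h0
      have := key (j - 1) (by omega) (by omega) (by omega)
      linarith
    · intro h0
      have := key j h0 le_rfl (by omega)
      linarith
  linarith

lemma sum_lift (g : ℕ) (φ : ℕ → ℝ) :
    ∑ j ∈ range (g + 2), ((g + 1).choose j : ℝ) * 2 ^ j * lift g φ j
      = 3 * ∑ j ∈ range (g + 1), (g.choose j : ℝ) * 2 ^ j * φ j := by
  have hg : (0 : ℝ) < g + 1 := by positivity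
  have e1 : ∀ j ∈ range (g + 2), ((g + 1).choose j : ℝ) * 2 ^ j * lift g φ j
      = (((g + 1).choose j : ℝ) * j / (g + 1)) * 2 ^ j * φ (j - 1)
        + (g.choose j : ℝ) * 2 ^ j * φ j := by
    intro j _
    have h1 : (g.choose j : ℝ) * (g + 1) = ((g + 1).choose j : ℝ) * ((g + 1 - j : ℕ) : ℝ) := by
      exact_mod_cast Nat.choose_mul_succ_eq g j
    have h2 : (g.choose j : ℝ) = ((g + 1).choose j : ℝ) * ((g + 1 - j : ℕ) : ℝ) / (g + 1) := by
      rw [eq_div_iff hg.ne']; exact h1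
    rw [h2]; unfold lift; field_simp
  rw [sum_congr rfl e1, sum_add_distrib, sum_range_succ', sum_range_succ (n := g + 1)]
  have e2 : ∀ j ∈ range (g + 1),
      (((g + 1).choose (j + 1) : ℝ) * ((j + 1 : ℕ) : ℝ) / (g + 1)) * 2 ^ (j + 1) * φ (j + 1 - 1)
        = 2 * ((g.choose j : ℝ) * 2 ^ j * φ j) := by
    intro j _
    have h1 : ((g + 1 : ℕ) : ℝ) * (g.choose j : ℝ) = ((g + 1).choose (j + 1) : ℝ) * ((j + 1 : ℕ) : ℝ) := by
      exact_mod_cast Nat.add_one_mul_choose_eq g j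
    rw [← h1, Nat.add_sub_cancel]; push_cast; field_simp; ring
  rw [sum_congr rfl e2, ← mul_sum, Nat.choose_succ_self]
  simp; ring

/-- the Cauchy-Schwarz bound with partial information sets of any size `g ≤ h` -/
theorem Hull.block {n d N h D lo : ℕ} (H : Hull n d N h D lo) (g : ℕ) (hg : g ≤ h)
    (φ : ℕ → ℝ) (hφ : Good n d N h lo g φ) (h0 : 1 ≤ φ 0) :
    (N : ℝ) * 3 ^ g ≤ (3 ^ h * D) * ∑ j ∈ range (g + 1), (g.choose j : ℝ) * 2 ^ j * φ j := by
  obtain ⟨t, rfl⟩ := Nat.exists_eq_add_of_le hg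
  clear hg
  induction t generalizing g φ with
  | zero =>
    have h2 := H.two_h
    have := H.cs3 φ (by
      intro j j' w p hw ha
      obtain ⟨_, a2, _, a4, a5, a6, a7, a8⟩ := hw
      exact hφ j j' w p a2 a4 a5 (by omega) a7 a8 ha)
    have e : ∑ j ∈ range (g + 1), (g.choose j : ℝ) * 2 ^ j * φ j
        = φ 0 + ∑ j ∈ Icc 1 g, (g.choose j : ℝ) * 2 ^ j * φ j := by
      rw [range_eq_Ico, ← sum_Ico_consecutive _ (Nat.zero_le 1) (by omega)]
      simp only [Nat.Ico_zero_eq_range, range_one, sum_singleton, Nat.choose_zero_right]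
      rw [← Ico_add_one_right_eq_Icc]; simp
    simp only [Nat.add_zero] at this ⊢
    rw [e]
    have hD : (0 : ℝ) ≤ D := by positivity
    have h3 : (0 : ℝ) < 3 ^ g := by positivity
    have : (N : ℝ) ≤ D * (φ 0 + ∑ j ∈ Icc 1 g, (g.choose j : ℝ) * 2 ^ j * φ j) :=
      this.trans (mul_le_mul_of_nonneg_left (by linarith) hD)
    nlinarith
  | succ t ih =>
    have e : g + (t + 1) = (g + 1) + t := by ring
    rw [e] at H hφ ⊢
    have h1 : 1 ≤ lift g φ 0 := lift_ge g φ 0 (by omega) 1 (by omega) (fun _ => h0)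
    have := ih (g + 1) (lift g φ) h1 H hφ.lift
    rw [sum_lift, pow_succ] at this
    nlinarith

lemma sq_sum_succ (k : ℕ) (y : ℝ) (hy : 0 ≤ y) :
    ∑ j ∈ range (k + 2), ((k + 1).choose j : ℝ) ^ 2 * y ^ (2 * j)
      ≤ (1 + y) ^ 2 * ∑ j ∈ range (k + 1), (k.choose j : ℝ) ^ 2 * y ^ (2 * j) := by
  set T := ∑ j ∈ range (k + 1), (k.choose j : ℝ) ^ 2 * y ^ (2 * j) with hT
  have hA : T = ∑ j ∈ range (k + 1), (k.choose (j + 1) : ℝ) ^ 2 * y ^ (2 * (j + 1)) + 1 := by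
    rw [hT, sum_range_succ', sum_range_succ (n := k)]; simp
  rw [sum_range_succ']
  have e : ∀ j ∈ range (k + 1), ((k + 1).choose (j + 1) : ℝ) ^ 2 * y ^ (2 * (j + 1))
      ≤ (1 + y) * ((k.choose (j + 1) : ℝ) ^ 2 * y ^ (2 * (j + 1)))
        + (1 + y) * y * ((k.choose j : ℝ) ^ 2 * y ^ (2 * j)) := by
    intro j _
    rw [Nat.choose_succ_succ]; push_cast
    set a : ℝ := (k.choose (j + 1) : ℝ) * y ^ (j + 1) with ha
    set b : ℝ := (k.choose j : ℝ) * y ^ j with hb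
    have e1 : ((k.choose j : ℝ) + k.choose (j + 1)) ^ 2 * y ^ (2 * (j + 1)) = (a + y * b) ^ 2 := by
      rw [ha, hb]; ring
    have e2 : (k.choose (j + 1) : ℝ) ^ 2 * y ^ (2 * (j + 1)) = a ^ 2 := by rw [ha]; ring
    have e3 : (k.choose j : ℝ) ^ 2 * y ^ (2 * j) = b ^ 2 := by rw [hb]; ring
    rw [e1, e2, e3]
    nlinarith [mul_nonneg hy (sq_nonneg (a - b))]
  have := sum_le_sum e
  rw [sum_add_distrib, ← mul_sum, ← mul_sum, ← hT] at this
  simp only [Nat.choose_zero_right, Nat.cast_one, one_pow, mul_zero, pow_zero, mul_one]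
  have h2 : ∑ j ∈ range (k + 1), (k.choose (j + 1) : ℝ) ^ 2 * y ^ (2 * (j + 1)) = T - 1 := by
    linarith
  rw [h2] at this
  nlinarith

lemma sq_sum_le (k : ℕ) (y : ℝ) (hy : 0 ≤ y) :
    ∑ j ∈ range (k + 1), (k.choose j : ℝ) ^ 2 * y ^ (2 * j) ≤ (1 + y) ^ (2 * k) := by
  induction k with
  | zero => simp
  | succ k ih =>
    refine (sq_sum_succ k y hy).trans ?_
    rw [show 2 * (k + 1) = 2 + 2 * k by ring, pow_add]
    exact mul_le_mul_of_nonneg_left ih (by positivity)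

lemma P_eq (k : ℕ) (z : ℝ) : P k z = ∑ j ∈ range (k + 1), (k.choose j : ℝ) ^ 2 * (2 * z) ^ (2 * j)
    + ∑ j ∈ range (k + 1), (k.choose j : ℝ) ^ 2 * z ^ (2 * j) := by
  unfold P; rw [← sum_add_distrib]; exact sum_congr rfl fun j _ => by ring

lemma P_nonneg (k : ℕ) (z : ℝ) (hz : 0 ≤ z) : 0 ≤ P k z := by
  unfold P; exact sum_nonneg fun j _ => by positivity

lemma P_succ (k : ℕ) (z : ℝ) (hz : 0 ≤ z) : P (k + 1) z ≤ (1 + 2 * z) ^ 2 * P k z := by
  rw [P_eq, P_eq, mul_add]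
  have h1 := sq_sum_succ k (2 * z) (by positivity)
  have h2 := sq_sum_succ k z hz
  have h3 : (1 + z) ^ 2 * ∑ j ∈ range (k + 1), (k.choose j : ℝ) ^ 2 * z ^ (2 * j)
      ≤ (1 + 2 * z) ^ 2 * ∑ j ∈ range (k + 1), (k.choose j : ℝ) ^ 2 * z ^ (2 * j) :=
    mul_le_mul_of_nonneg_right (by nlinarith) (sum_nonneg fun j _ => by positivity)
  linarith

lemma P_add (k t : ℕ) (z : ℝ) (hz : 0 ≤ z) : P (k + t) z ≤ (1 + 2 * z) ^ (2 * t) * P k z := by
  induction t with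
  | zero => simp
  | succ t ih =>
    refine (P_succ (k + t) z hz).trans ?_
    rw [show 2 * (t + 1) = 2 + 2 * t by ring, pow_add, mul_assoc]
    exact mul_le_mul_of_nonneg_left ih (by positivity)

/-- the Fourier bound, uniform for all `h ≤ b` -/
theorem Hull.four_block {n d N h D lo : ℕ} (H : Hull n d N h D lo) (b : ℕ) (hb : h ≤ b)
    (hb2 : 2 * b ≤ n) (z : ℝ) (hz : 0 < z) :
    (3 ^ h * D : ℝ) * z ^ d ≤ (3 * (1 + 2 * z ^ 2)) ^ b * P ((n - 2 * b) / 2) z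
      * (1 + 2 * z) ^ ((n - 2 * b) % 2) := by
  obtain ⟨t, rfl⟩ := Nat.exists_eq_add_of_le hb
  set k := (n - 2 * (h + t)) / 2 with hk
  set r := (n - 2 * (h + t)) % 2 with hr
  have h1 := H.D_four z (k + t) (k + (t + r)) hz (by omega)
  have h2 := P_add k t z hz.le
  have h3 := P_add k (t + r) z hz.le
  have hP := P_nonneg k z hz.le
  have h4 : P (k + t) z * P (k + (t + r)) z ≤ ((1 + 2 * z) ^ (2 * t + r) * P k z) ^ 2 := by
    calc _ ≤ ((1 + 2 * z) ^ (2 * t) * P k z) * ((1 + 2 * z) ^ (2 * (t + r)) * P k z) :=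
          mul_le_mul h2 h3 (P_nonneg _ z hz.le) (by positivity)
      _ = _ := by ring
  have h5 : ((D : ℝ) * z ^ d) ^ 2
      ≤ ((1 + 2 * z ^ 2) ^ h * ((1 + 2 * z) ^ (2 * t + r) * P k z)) ^ 2 := by
    calc _ ≤ _ := h1
      _ ≤ (1 + 2 * z ^ 2) ^ (2 * h) * ((1 + 2 * z) ^ (2 * t + r) * P k z) ^ 2 :=
          mul_le_mul_of_nonneg_left h4 (by positivity)
      _ = _ := by ring
  have h6 : (D : ℝ) * z ^ d ≤ (1 + 2 * z ^ 2) ^ h * ((1 + 2 * z) ^ (2 * t + r) * P k z) :=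
    (pow_le_pow_iff_left₀ (by positivity) (by positivity) two_ne_zero).mp h5
  have h7 : (1 + 2 * z) ^ (2 * t) ≤ (3 * (1 + 2 * z ^ 2)) ^ t := by
    rw [pow_mul]; exact pow_le_pow_left₀ (by positivity) (by nlinarith [sq_nonneg (z - 1)]) t
  calc (3 ^ h * D : ℝ) * z ^ d = 3 ^ h * (D * z ^ d) := by ring
    _ ≤ 3 ^ h * ((1 + 2 * z ^ 2) ^ h * ((1 + 2 * z) ^ (2 * t + r) * P k z)) :=
        mul_le_mul_of_nonneg_left h6 (by positivity)
    _ = (3 * (1 + 2 * z ^ 2)) ^ h * (1 + 2 * z) ^ (2 * t) * (P k z * (1 + 2 * z) ^ r) := by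
        rw [mul_pow]; ring
    _ ≤ (3 * (1 + 2 * z ^ 2)) ^ h * (3 * (1 + 2 * z ^ 2)) ^ t * (P k z * (1 + 2 * z) ^ r) := by
        gcongr
    _ = _ := by rw [pow_add]; ring

/-- the tilted counting bound, uniform in `h` -/
theorem Hull.tilt_all {n d N h D lo : ℕ} (H : Hull n d N h D lo) (z : ℝ) (hz : 0 < z) :
    (3 ^ h * D : ℝ) * z ^ d ≤ (3 * (1 + 2 * z ^ 2)) ^ (n / 2) * (1 + 2 * z) ^ (n % 2) := by
  have h2 := H.two_h
  have h1 := H.D_tilt z hz
  obtain ⟨t, ht⟩ : ∃ t, n / 2 = h + t := ⟨n / 2 - h, by omega⟩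
  have e : n - 2 * h = 2 * t + n % 2 := by omega
  have h7 : (1 + 2 * z) ^ (2 * t) ≤ (3 * (1 + 2 * z ^ 2)) ^ t := by
    rw [pow_mul]; exact pow_le_pow_left₀ (by positivity) (by nlinarith [sq_nonneg (z - 1)]) t
  rw [e] at h1
  calc (3 ^ h * D : ℝ) * z ^ d = 3 ^ h * (D * z ^ d) := by ring
    _ ≤ 3 ^ h * ((1 + 2 * z ^ 2) ^ h * (1 + 2 * z) ^ (2 * t + n % 2)) :=
        mul_le_mul_of_nonneg_left h1 (by positivity)
    _ = (3 * (1 + 2 * z ^ 2)) ^ h * (1 + 2 * z) ^ (2 * t) * (1 + 2 * z) ^ (n % 2) := by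
        rw [mul_pow]; ring
    _ ≤ (3 * (1 + 2 * z ^ 2)) ^ h * (3 * (1 + 2 * z ^ 2)) ^ t * (1 + 2 * z) ^ (n % 2) := by
        gcongr
    _ = _ := by rw [ht, pow_add]

end Pool.Agent.Lib.MP_990a44_co.Q3
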