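import Mathlib

/-!
Ternary constant distance code pairs: definitions and the interface between the structural
part (hull, information sets, Cauchy-Schwarz) and the purely arithmetic part.
-/

namespace Pool.Agent.Lib.MP_990a44_co.Q3

open Finset

/-- sphere size -/
def S (n d : ℕ) : ℕ := 2 ^ d * n.choose d

/-- closed form of Ahlswede's value for three letters -/
def F (n d : ℕ) : ℕ :=
  if n = 3 ∧ d = 2 then 18 else if n = 4 ∧ d = 3 then 36 else if n = 6 ∧ d = 4 then 324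
  else if n = 9 ∧ d = 6 then 5832 else 2 ^ d * n.choose d

/-- Krawtchouk value: coefficient of `X ^ d` in `(1 - X) ^ w * (1 + 2 X) ^ (n - w)` -/
def K (n d w : ℕ) : ℤ :=
  ∑ i ∈ range (d + 1), (-1) ^ i * (w.choose i : ℤ) * (2 ^ (d - i) * ((n - w).choose (d - i) : ℤ))

/-- `P k z` = mean of `|1+2u|^(2k)` plus mean of `|1-u|^(2k)` over the circle `|u| = z` -/
noncomputable def P (k : ℕ) (z : ℝ) : ℝ :=
  ∑ j ∈ range (k + 1), (k.choose j : ℝ) ^ 2 * ((2 * z) ^ (2 * j) + z ^ (2 * j))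

/-- constant distance pair -/
def CD {ι : Type} [Fintype ι] (A B : Finset (ι → ZMod 3)) (d : ℕ) : Prop :=
  ∀ a ∈ A, ∀ b ∈ B, hammingDist a b = d

/-- induction hypothesis: the bound holds for all shorter lengths -/
def IH (n : ℕ) : Prop :=
  ∀ (κ : Type) [Fintype κ] [DecidableEq κ], Fintype.card κ < n →
    ∀ (d : ℕ) (A B : Finset (κ → ZMod 3)), CD A B d → A.card * B.card ≤ F (Fintype.card κ) d

/-- Pascal bound (some coordinate is constant on `A` or on `B`) or the Gibbs bound -/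
def Edge (n d N : ℕ) : Prop :=
  N ≤ F (n - 1) d + 2 * F (n - 1) (d - 1) ∨
    ∀ z l : ℝ, 0 < z → 1 / 2 ≤ l → l ≤ 1 →
      ((F (n - 1) d : ℝ) + F (n - 1) (d - 1)) ≤ l * N →
      (N : ℝ) * z ^ d ≤ (z ^ (1 - l) + z ^ l + z) ^ n

/-- what is known about the collision density `p` of a nonzero word of weight `w` of the hull -/
def Adm (n d N h w : ℕ) (p : ℝ) : Prop :=
  0 ≤ p ∧ p ≤ 1 ∧ (p = 0 ∨ (2 * w / 3 ≤ d ∧
    (w < n → p * (3 - p) * N ≤ (F w (2 * w / 3) * F (n - w) (d - 2 * w / 3) : ℕ) * (1 + p)) ∧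
    (w = n → 3 * d = 2 * n ∧
      p * N ≤ (3 ^ h * (n.choose (n / 3) * (2 * n / 3).choose (n / 3)) : ℕ))))

/-- `w` is a possible weight of a nonzero word of the hull having weights `j`, `j'` on two
disjoint information sets; `lo` is a lower bound for the minimum weight -/
def Wt (n h lo j j' w : ℕ) : Prop :=
  1 ≤ j ∧ j ≤ h ∧ 1 ≤ j' ∧ j' ≤ h ∧ j + j' ≤ w ∧ w ≤ j + j' + (n - 2 * h) ∧ 3 ∣ w ∧ lo ≤ w

/-- everything the arithmetic part may use about the hull (dimension `h`) and the number `D` of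
words of weight `d` in its dual -/
structure Hull (n d N h D lo : ℕ) : Prop where
  two_h : 2 * h ≤ n
  triv_h : N ≤ D * 3 ^ h
  triv_d : N ≤ D * 3 ^ (n - d)
  D_S : D ≤ S n d
  D_pow : D ≤ 3 ^ (n - h)
  D_tilt : ∀ z : ℝ, 0 < z → (D : ℝ) * z ^ d ≤ (1 + 2 * z ^ 2) ^ h * (1 + 2 * z) ^ (n - 2 * h)
  D_four : ∀ (z : ℝ) (k k' : ℕ), 0 < z → k + k' = n - 2 * h →
    ((D : ℝ) * z ^ d) ^ 2 ≤ (1 + 2 * z ^ 2) ^ (2 * h) * (P k z * P k' z)
  mac : ∀ φ : ℕ → ℝ, (∀ j j' w, Wt n h lo j j' w → 2 * (K n d w : ℝ) ≤ φ j + φ j') →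
    (3 : ℝ) ^ h * D ≤ S n d + ∑ j ∈ Icc 1 h, (h.choose j : ℝ) * 2 ^ j * φ j
  cs3 : ∀ φ : ℕ → ℝ,
    (∀ j j' w p, Wt n h lo j j' w → Adm n d N h w p → 2 * p ≤ φ j + φ j') →
    (N : ℝ) ≤ D * (1 + ∑ j ∈ Icc 1 h, (h.choose j : ℝ) * 2 ^ j * φ j)

/-- the nine-letter bound, available when the hull has a word of weight three -/
def Nine (n d N : ℕ) : Prop :=
  3 ≤ d → F (n - 3) d + F (n - 3) (d - 3) ≤ F (n - 3) (d - 2) → N ≤ 18 * F (n - 3) (d - 2)

/-- the purely arithmetic statement that finishes the induction -/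
def Arith : Prop :=
  ∀ n d N h D : ℕ, 1 ≤ d → d ≤ n → Edge n d N → Hull n d N h D 3 →
    (Nine n d N ∨ Hull n d N h D 6) → N ≤ F n d

end Pool.Agent.Lib.MP_990a44_co.Q3
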