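import Pool.Agent.Lib.MP_990a44_co.Q3FinRun0

/-!
Kernel evaluation of the checker for lengths 131 to 270.
-/

namespace Pool.Agent.Lib.MP_990a44_co.Q3

theorem runL131 : largeR LL 131 4 = true := by decide +kernel
theorem runL135 : largeR LL 135 4 = true := by decide +kernel
theorem runL139 : largeR LL 139 4 = true := by decide +kernel
theorem runL143 : largeR LL 143 4 = true := by decide +kernel
theorem runL147 : largeR LL 147 4 = true := by decide +kernel
theorem runL151 : largeR LL 151 4 = true := by decide +kernel
theorem runL155 : largeR LL 155 4 = true := by decide +kernel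
theorem runL159 : largeR LL 159 4 = true := by decide +kernel
theorem runL163 : largeR LL 163 4 = true := by decide +kernel
theorem runL167 : largeR LL 167 4 = true := by decide +kernel
theorem runL171 : largeR LL 171 4 = true := by decide +kernel
theorem runL175 : largeR LL 175 4 = true := by decide +kernel
theorem runL179 : largeR LL 179 4 = true := by decide +kernel
theorem runL183 : largeR LL 183 4 = true := by decide +kernel
theorem runL187 : largeR LL 187 4 = true := by decide +kernel
theorem runL191 : largeR LL 191 4 = true := by decide +kernel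
theorem runL195 : largeR LL 195 4 = true := by decide +kernel
theorem runL199 : largeR LL 199 4 = true := by decide +kernel
theorem runL203 : largeR LL 203 4 = true := by decide +kernel
theorem runL207 : largeR LL 207 4 = true := by decide +kernel
theorem runL211 : largeR LL 211 4 = true := by decide +kernel
theorem runL215 : largeR LL 215 4 = true := by decide +kernel
theorem runL219 : largeR LL 219 4 = true := by decide +kernel
theorem runL223 : largeR LL 223 4 = true := by decide +kernel
theorem runL227 : largeR LL 227 4 = true := by decide +kernel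
theorem runL231 : largeR LL 231 4 = true := by decide +kernel
theorem runL235 : largeR LL 235 4 = true := by decide +kernel
theorem runL239 : largeR LL 239 4 = true := by decide +kernel
theorem runL243 : largeR LL 243 4 = true := by decide +kernel
theorem runL247 : largeR LL 247 4 = true := by decide +kernel
theorem runL251 : largeR LL 251 4 = true := by decide +kernel
theorem runL255 : largeR LL 255 4 = true := by decide +kernel
theorem runL259 : largeR LL 259 4 = true := by decide +kernel
theorem runL263 : largeR LL 263 4 = true := by decide +kernel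
theorem runL267 : largeR LL 267 4 = true := by decide +kernel

theorem finB {n d N h D : ℕ} (h1 : 131 ≤ n) (h2 : n ≤ 270) (hd1 : 1 ≤ d) (hd : d ≤ n)
    (hE : Edge n d N) (H : Hull n d N h D 3) : N ≤ F n d := by
  rcases Nat.lt_or_ge n 135 with h1' | h1
  · exact largeR_sound runL131 (by omega) h1 (by omega) hd1 hd hE H
  rcases Nat.lt_or_ge n 139 with h1' | h1
  · exact largeR_sound runL135 (by omega) h1 (by omega) hd1 hd hE H
  rcases Nat.lt_or_ge n 143 with h1' | h1
  · exact largeR_sound runL139 (by omega) h1 (by omega) hd1 hd hE H
  rcases Nat.lt_or_ge n 147 with h1' | h1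
  · exact largeR_sound runL143 (by omega) h1 (by omega) hd1 hd hE H
  rcases Nat.lt_or_ge n 151 with h1' | h1
  · exact largeR_sound runL147 (by omega) h1 (by omega) hd1 hd hE H
  rcases Nat.lt_or_ge n 155 with h1' | h1
  · exact largeR_sound runL151 (by omega) h1 (by omega) hd1 hd hE H
  rcases Nat.lt_or_ge n 159 with h1' | h1
  · exact largeR_sound runL155 (by omega) h1 (by omega) hd1 hd hE H
  rcases Nat.lt_or_ge n 163 with h1' | h1
  · exact largeR_sound runL159 (by omega) h1 (by omega) hd1 hd hE H
  rcases Nat.lt_or_ge n 167 with h1' | h1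
  · exact largeR_sound runL163 (by omega) h1 (by omega) hd1 hd hE H
  rcases Nat.lt_or_ge n 171 with h1' | h1
  · exact largeR_sound runL167 (by omega) h1 (by omega) hd1 hd hE H
  rcases Nat.lt_or_ge n 175 with h1' | h1
  · exact largeR_sound runL171 (by omega) h1 (by omega) hd1 hd hE H
  rcases Nat.lt_or_ge n 179 with h1' | h1
  · exact largeR_sound runL175 (by omega) h1 (by omega) hd1 hd hE H
  rcases Nat.lt_or_ge n 183 with h1' | h1
  · exact largeR_sound runL179 (by omega) h1 (by omega) hd1 hd hE H
  rcases Nat.lt_or_ge n 187 with h1' | h1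
  · exact largeR_sound runL183 (by omega) h1 (by omega) hd1 hd hE H
  rcases Nat.lt_or_ge n 191 with h1' | h1
  · exact largeR_sound runL187 (by omega) h1 (by omega) hd1 hd hE H
  rcases Nat.lt_or_ge n 195 with h1' | h1
  · exact largeR_sound runL191 (by omega) h1 (by omega) hd1 hd hE H
  rcases Nat.lt_or_ge n 199 with h1' | h1
  · exact largeR_sound runL195 (by omega) h1 (by omega) hd1 hd hE H
  rcases Nat.lt_or_ge n 203 with h1' | h1
  · exact largeR_sound runL199 (by omega) h1 (by omega) hd1 hd hE H
  rcases Nat.lt_or_ge n 207 with h1' | h1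
  · exact largeR_sound runL203 (by omega) h1 (by omega) hd1 hd hE H
  rcases Nat.lt_or_ge n 211 with h1' | h1
  · exact largeR_sound runL207 (by omega) h1 (by omega) hd1 hd hE H
  rcases Nat.lt_or_ge n 215 with h1' | h1
  · exact largeR_sound runL211 (by omega) h1 (by omega) hd1 hd hE H
  rcases Nat.lt_or_ge n 219 with h1' | h1
  · exact largeR_sound runL215 (by omega) h1 (by omega) hd1 hd hE H
  rcases Nat.lt_or_ge n 223 with h1' | h1
  · exact largeR_sound runL219 (by omega) h1 (by omega) hd1 hd hE H
  rcases Nat.lt_or_ge n 227 with h1' | h1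
  · exact largeR_sound runL223 (by omega) h1 (by omega) hd1 hd hE H
  rcases Nat.lt_or_ge n 231 with h1' | h1
  · exact largeR_sound runL227 (by omega) h1 (by omega) hd1 hd hE H
  rcases Nat.lt_or_ge n 235 with h1' | h1
  · exact largeR_sound runL231 (by omega) h1 (by omega) hd1 hd hE H
  rcases Nat.lt_or_ge n 239 with h1' | h1
  · exact largeR_sound runL235 (by omega) h1 (by omega) hd1 hd hE H
  rcases Nat.lt_or_ge n 243 with h1' | h1
  · exact largeR_sound runL239 (by omega) h1 (by omega) hd1 hd hE H
  rcases Nat.lt_or_ge n 247 with h1' | h1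
  · exact largeR_sound runL243 (by omega) h1 (by omega) hd1 hd hE H
  rcases Nat.lt_or_ge n 251 with h1' | h1
  · exact largeR_sound runL247 (by omega) h1 (by omega) hd1 hd hE H
  rcases Nat.lt_or_ge n 255 with h1' | h1
  · exact largeR_sound runL251 (by omega) h1 (by omega) hd1 hd hE H
  rcases Nat.lt_or_ge n 259 with h1' | h1
  · exact largeR_sound runL255 (by omega) h1 (by omega) hd1 hd hE H
  rcases Nat.lt_or_ge n 263 with h1' | h1
  · exact largeR_sound runL259 (by omega) h1 (by omega) hd1 hd hE H
  rcases Nat.lt_or_ge n 267 with h1' | h1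
  · exact largeR_sound runL263 (by omega) h1 (by omega) hd1 hd hE H
  exact largeR_sound runL267 (by omega) h1 (by omega) hd1 hd hE H

end Pool.Agent.Lib.MP_990a44_co.Q3
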