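import Pool.Agent.Lib.MP_990a44_co.Q3FinRun0

/-!
Kernel evaluation of the checker for lengths 271 to 340.
-/

namespace Pool.Agent.Lib.MP_990a44_co.Q3

theorem runL271 : largeR LL 271 2 = true := by decide +kernel
theorem runL273 : largeR LL 273 2 = true := by decide +kernel
theorem runL275 : largeR LL 275 2 = true := by decide +kernel
theorem runL277 : largeR LL 277 2 = true := by decide +kernel
theorem runL279 : largeR LL 279 2 = true := by decide +kernel
theorem runL281 : largeR LL 281 2 = true := by decide +kernel
theorem runL283 : largeR LL 283 2 = true := by decide +kernel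
theorem runL285 : largeR LL 285 2 = true := by decide +kernel
theorem runL287 : largeR LL 287 2 = true := by decide +kernel
theorem runL289 : largeR LL 289 2 = true := by decide +kernel
theorem runL291 : largeR LL 291 2 = true := by decide +kernel
theorem runL293 : largeR LL 293 2 = true := by decide +kernel
theorem runL295 : largeR LL 295 2 = true := by decide +kernel
theorem runL297 : largeR LL 297 2 = true := by decide +kernel
theorem runL299 : largeR LL 299 2 = true := by decide +kernel
theorem runL301 : largeR LL 301 2 = true := by decide +kernel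
theorem runL303 : largeR LL 303 2 = true := by decide +kernel
theorem runL305 : largeR LL 305 2 = true := by decide +kernel
theorem runL307 : largeR LL 307 2 = true := by decide +kernel
theorem runL309 : largeR LL 309 2 = true := by decide +kernel
theorem runL311 : largeR LL 311 2 = true := by decide +kernel
theorem runL313 : largeR LL 313 2 = true := by decide +kernel
theorem runL315 : largeR LL 315 2 = true := by decide +kernel
theorem runL317 : largeR LL 317 2 = true := by decide +kernel
theorem runL319 : largeR LL 319 2 = true := by decide +kernel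
theorem runL321 : largeR LL 321 2 = true := by decide +kernel
theorem runL323 : largeR LL 323 2 = true := by decide +kernel
theorem runL325 : largeR LL 325 2 = true := by decide +kernel
theorem runL327 : largeR LL 327 2 = true := by decide +kernel
theorem runL329 : largeR LL 329 2 = true := by decide +kernel
theorem runL331 : largeR LL 331 2 = true := by decide +kernel
theorem runL333 : largeR LL 333 2 = true := by decide +kernel
theorem runL335 : largeR LL 335 2 = true := by decide +kernel
theorem runL337 : largeR LL 337 2 = true := by decide +kernel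
theorem runL339 : largeR LL 339 2 = true := by decide +kernel

theorem finC {n d N h D : ℕ} (h1 : 271 ≤ n) (h2 : n ≤ 340) (hd1 : 1 ≤ d) (hd : d ≤ n)
    (hE : Edge n d N) (H : Hull n d N h D 3) : N ≤ F n d := by
  rcases Nat.lt_or_ge n 273 with h1' | h1
  · exact largeR_sound runL271 (by omega) h1 (by omega) hd1 hd hE H
  rcases Nat.lt_or_ge n 275 with h1' | h1
  · exact largeR_sound runL273 (by omega) h1 (by omega) hd1 hd hE H
  rcases Nat.lt_or_ge n 277 with h1' | h1
  · exact largeR_sound runL275 (by omega) h1 (by omega) hd1 hd hE H
  rcases Nat.lt_or_ge n 279 with h1' | h1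
  · exact largeR_sound runL277 (by omega) h1 (by omega) hd1 hd hE H
  rcases Nat.lt_or_ge n 281 with h1' | h1
  · exact largeR_sound runL279 (by omega) h1 (by omega) hd1 hd hE H
  rcases Nat.lt_or_ge n 283 with h1' | h1
  · exact largeR_sound runL281 (by omega) h1 (by omega) hd1 hd hE H
  rcases Nat.lt_or_ge n 285 with h1' | h1
  · exact largeR_sound runL283 (by omega) h1 (by omega) hd1 hd hE H
  rcases Nat.lt_or_ge n 287 with h1' | h1
  · exact largeR_sound runL285 (by omega) h1 (by omega) hd1 hd hE H
  rcases Nat.lt_or_ge n 289 with h1' | h1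
  · exact largeR_sound runL287 (by omega) h1 (by omega) hd1 hd hE H
  rcases Nat.lt_or_ge n 291 with h1' | h1
  · exact largeR_sound runL289 (by omega) h1 (by omega) hd1 hd hE H
  rcases Nat.lt_or_ge n 293 with h1' | h1
  · exact largeR_sound runL291 (by omega) h1 (by omega) hd1 hd hE H
  rcases Nat.lt_or_ge n 295 with h1' | h1
  · exact largeR_sound runL293 (by omega) h1 (by omega) hd1 hd hE H
  rcases Nat.lt_or_ge n 297 with h1' | h1
  · exact largeR_sound runL295 (by omega) h1 (by omega) hd1 hd hE H
  rcases Nat.lt_or_ge n 299 with h1' | h1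
  · exact largeR_sound runL297 (by omega) h1 (by omega) hd1 hd hE H
  rcases Nat.lt_or_ge n 301 with h1' | h1
  · exact largeR_sound runL299 (by omega) h1 (by omega) hd1 hd hE H
  rcases Nat.lt_or_ge n 303 with h1' | h1
  · exact largeR_sound runL301 (by omega) h1 (by omega) hd1 hd hE H
  rcases Nat.lt_or_ge n 305 with h1' | h1
  · exact largeR_sound runL303 (by omega) h1 (by omega) hd1 hd hE H
  rcases Nat.lt_or_ge n 307 with h1' | h1
  · exact largeR_sound runL305 (by omega) h1 (by omega) hd1 hd hE H
  rcases Nat.lt_or_ge n 309 with h1' | h1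
  · exact largeR_sound runL307 (by omega) h1 (by omega) hd1 hd hE H
  rcases Nat.lt_or_ge n 311 with h1' | h1
  · exact largeR_sound runL309 (by omega) h1 (by omega) hd1 hd hE H
  rcases Nat.lt_or_ge n 313 with h1' | h1
  · exact largeR_sound runL311 (by omega) h1 (by omega) hd1 hd hE H
  rcases Nat.lt_or_ge n 315 with h1' | h1
  · exact largeR_sound runL313 (by omega) h1 (by omega) hd1 hd hE H
  rcases Nat.lt_or_ge n 317 with h1' | h1
  · exact largeR_sound runL315 (by omega) h1 (by omega) hd1 hd hE H
  rcases Nat.lt_or_ge n 319 with h1' | h1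
  · exact largeR_sound runL317 (by omega) h1 (by omega) hd1 hd hE H
  rcases Nat.lt_or_ge n 321 with h1' | h1
  · exact largeR_sound runL319 (by omega) h1 (by omega) hd1 hd hE H
  rcases Nat.lt_or_ge n 323 with h1' | h1
  · exact largeR_sound runL321 (by omega) h1 (by omega) hd1 hd hE H
  rcases Nat.lt_or_ge n 325 with h1' | h1
  · exact largeR_sound runL323 (by omega) h1 (by omega) hd1 hd hE H
  rcases Nat.lt_or_ge n 327 with h1' | h1
  · exact largeR_sound runL325 (by omega) h1 (by omega) hd1 hd hE H
  rcases Nat.lt_or_ge n 329 with h1' | h1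
  · exact largeR_sound runL327 (by omega) h1 (by omega) hd1 hd hE H
  rcases Nat.lt_or_ge n 331 with h1' | h1
  · exact largeR_sound runL329 (by omega) h1 (by omega) hd1 hd hE H
  rcases Nat.lt_or_ge n 333 with h1' | h1
  · exact largeR_sound runL331 (by omega) h1 (by omega) hd1 hd hE H
  rcases Nat.lt_or_ge n 335 with h1' | h1
  · exact largeR_sound runL333 (by omega) h1 (by omega) hd1 hd hE H
  rcases Nat.lt_or_ge n 337 with h1' | h1
  · exact largeR_sound runL335 (by omega) h1 (by omega) hd1 hd hE H
  rcases Nat.lt_or_ge n 339 with h1' | h1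
  · exact largeR_sound runL337 (by omega) h1 (by omega) hd1 hd hE H
  exact largeR_sound runL339 (by omega) h1 (by omega) hd1 hd hE H

end Pool.Agent.Lib.MP_990a44_co.Q3
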