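import Pool.Agent.Lib.MP_990a44_co.Q3FinRun0

/-!
Kernel evaluation of the checker for lengths 341 to 400.
-/

namespace Pool.Agent.Lib.MP_990a44_co.Q3

theorem runL341 : largeR LL 341 2 = true := by decide +kernel
theorem runL343 : largeR LL 343 2 = true := by decide +kernel
theorem runL345 : largeR LL 345 2 = true := by decide +kernel
theorem runL347 : largeR LL 347 2 = true := by decide +kernel
theorem runL349 : largeR LL 349 2 = true := by decide +kernel
theorem runL351 : largeR LL 351 2 = true := by decide +kernel
theorem runL353 : largeR LL 353 2 = true := by decide +kernel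
theorem runL355 : largeR LL 355 2 = true := by decide +kernel
theorem runL357 : largeR LL 357 2 = true := by decide +kernel
theorem runL359 : largeR LL 359 2 = true := by decide +kernel
theorem runL361 : largeR LL 361 2 = true := by decide +kernel
theorem runL363 : largeR LL 363 2 = true := by decide +kernel
theorem runL365 : largeR LL 365 2 = true := by decide +kernel
theorem runL367 : largeR LL 367 2 = true := by decide +kernel
theorem runL369 : largeR LL 369 2 = true := by decide +kernel
theorem runL371 : largeR LL 371 2 = true := by decide +kernel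
theorem runL373 : largeR LL 373 2 = true := by decide +kernel
theorem runL375 : largeR LL 375 2 = true := by decide +kernel
theorem runL377 : largeR LL 377 2 = true := by decide +kernel
theorem runL379 : largeR LL 379 2 = true := by decide +kernel
theorem runL381 : largeR LL 381 2 = true := by decide +kernel
theorem runL383 : largeR LL 383 2 = true := by decide +kernel
theorem runL385 : largeR LL 385 2 = true := by decide +kernel
theorem runL387 : largeR LL 387 2 = true := by decide +kernel
theorem runL389 : largeR LL 389 2 = true := by decide +kernel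
theorem runL391 : largeR LL 391 2 = true := by decide +kernel
theorem runL393 : largeR LL 393 2 = true := by decide +kernel
theorem runL395 : largeR LL 395 2 = true := by decide +kernel
theorem runL397 : largeR LL 397 2 = true := by decide +kernel
theorem runL399 : largeR LL 399 2 = true := by decide +kernel

theorem finD {n d N h D : ℕ} (h1 : 341 ≤ n) (h2 : n ≤ 400) (hd1 : 1 ≤ d) (hd : d ≤ n)
    (hE : Edge n d N) (H : Hull n d N h D 3) : N ≤ F n d := by
  rcases Nat.lt_or_ge n 343 with h1' | h1
  · exact largeR_sound runL341 (by omega) h1 (by omega) hd1 hd hE H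
  rcases Nat.lt_or_ge n 345 with h1' | h1
  · exact largeR_sound runL343 (by omega) h1 (by omega) hd1 hd hE H
  rcases Nat.lt_or_ge n 347 with h1' | h1
  · exact largeR_sound runL345 (by omega) h1 (by omega) hd1 hd hE H
  rcases Nat.lt_or_ge n 349 with h1' | h1
  · exact largeR_sound runL347 (by omega) h1 (by omega) hd1 hd hE H
  rcases Nat.lt_or_ge n 351 with h1' | h1
  · exact largeR_sound runL349 (by omega) h1 (by omega) hd1 hd hE H
  rcases Nat.lt_or_ge n 353 with h1' | h1
  · exact largeR_sound runL351 (by omega) h1 (by omega) hd1 hd hE H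
  rcases Nat.lt_or_ge n 355 with h1' | h1
  · exact largeR_sound runL353 (by omega) h1 (by omega) hd1 hd hE H
  rcases Nat.lt_or_ge n 357 with h1' | h1
  · exact largeR_sound runL355 (by omega) h1 (by omega) hd1 hd hE H
  rcases Nat.lt_or_ge n 359 with h1' | h1
  · exact largeR_sound runL357 (by omega) h1 (by omega) hd1 hd hE H
  rcases Nat.lt_or_ge n 361 with h1' | h1
  · exact largeR_sound runL359 (by omega) h1 (by omega) hd1 hd hE H
  rcases Nat.lt_or_ge n 363 with h1' | h1
  · exact largeR_sound runL361 (by omega) h1 (by omega) hd1 hd hE H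
  rcases Nat.lt_or_ge n 365 with h1' | h1
  · exact largeR_sound runL363 (by omega) h1 (by omega) hd1 hd hE H
  rcases Nat.lt_or_ge n 367 with h1' | h1
  · exact largeR_sound runL365 (by omega) h1 (by omega) hd1 hd hE H
  rcases Nat.lt_or_ge n 369 with h1' | h1
  · exact largeR_sound runL367 (by omega) h1 (by omega) hd1 hd hE H
  rcases Nat.lt_or_ge n 371 with h1' | h1
  · exact largeR_sound runL369 (by omega) h1 (by omega) hd1 hd hE H
  rcases Nat.lt_or_ge n 373 with h1' | h1
  · exact largeR_sound runL371 (by omega) h1 (by omega) hd1 hd hE H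
  rcases Nat.lt_or_ge n 375 with h1' | h1
  · exact largeR_sound runL373 (by omega) h1 (by omega) hd1 hd hE H
  rcases Nat.lt_or_ge n 377 with h1' | h1
  · exact largeR_sound runL375 (by omega) h1 (by omega) hd1 hd hE H
  rcases Nat.lt_or_ge n 379 with h1' | h1
  · exact largeR_sound runL377 (by omega) h1 (by omega) hd1 hd hE H
  rcases Nat.lt_or_ge n 381 with h1' | h1
  · exact largeR_sound runL379 (by omega) h1 (by omega) hd1 hd hE H
  rcases Nat.lt_or_ge n 383 with h1' | h1
  · exact largeR_sound runL381 (by omega) h1 (by omega) hd1 hd hE H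
  rcases Nat.lt_or_ge n 385 with h1' | h1
  · exact largeR_sound runL383 (by omega) h1 (by omega) hd1 hd hE H
  rcases Nat.lt_or_ge n 387 with h1' | h1
  · exact largeR_sound runL385 (by omega) h1 (by omega) hd1 hd hE H
  rcases Nat.lt_or_ge n 389 with h1' | h1
  · exact largeR_sound runL387 (by omega) h1 (by omega) hd1 hd hE H
  rcases Nat.lt_or_ge n 391 with h1' | h1
  · exact largeR_sound runL389 (by omega) h1 (by omega) hd1 hd hE H
  rcases Nat.lt_or_ge n 393 with h1' | h1
  · exact largeR_sound runL391 (by omega) h1 (by omega) hd1 hd hE H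
  rcases Nat.lt_or_ge n 395 with h1' | h1
  · exact largeR_sound runL393 (by omega) h1 (by omega) hd1 hd hE H
  rcases Nat.lt_or_ge n 397 with h1' | h1
  · exact largeR_sound runL395 (by omega) h1 (by omega) hd1 hd hE H
  rcases Nat.lt_or_ge n 399 with h1' | h1
  · exact largeR_sound runL397 (by omega) h1 (by omega) hd1 hd hE H
  exact largeR_sound runL399 (by omega) h1 (by omega) hd1 hd hE H

end Pool.Agent.Lib.MP_990a44_co.Q3
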