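import Pool.Agent.Lib.MP_990a44_co.Q3FinRun1
import Pool.Agent.Lib.MP_990a44_co.Q3FinRun2
import Pool.Agent.Lib.MP_990a44_co.Q3FinRun3
import Pool.Agent.Lib.MP_990a44_co.Q3FinRun4

/-!
The arithmetic statement for all lengths up to 400.
-/

namespace Pool.Agent.Lib.MP_990a44_co.Q3

theorem fin (n d N h D : ℕ) (hn : n ≤ 400) (hd1 : 1 ≤ d) (hd : d ≤ n) (hE : Edge n d N)
    (H : Hull n d N h D 3) (H9 : Nine n d N ∨ Hull n d N h D 6) : N ≤ F n d := by
  rcases Nat.lt_or_ge n 22 with h1 | h1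
  · exact finS (by omega) hd1 hd hE H H9
  rcases Nat.lt_or_ge n 131 with h2 | h2
  · exact finA h1 (by omega) hd1 hd hE H
  rcases Nat.lt_or_ge n 271 with h3 | h3
  · exact finB h2 (by omega) hd1 hd hE H
  rcases Nat.lt_or_ge n 341 with h4 | h4
  · exact finC h3 (by omega) hd1 hd hE H
  exact finD h4 hn hd1 hd hE H

end Pool.Agent.Lib.MP_990a44_co.Q3
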