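import Pool.Agent.Lib.MP_990a44_co.Q3Block

/-!
Basic tools for the kernel-evaluated finite check: fast binomial coefficients, packed tables,
the inverse of `p (3 - p) / (1 + p)`, and the Gibbs test.
-/

namespace Pool.Agent.Lib.MP_990a44_co.Q3

open Finset

noncomputable def force {α : Type} (x : ℕ) (f : ℕ → α) : α :=
  Nat.rec (motive := fun _ => α) (f 0) (fun n _ => f (Nat.succ n)) x

lemma force_eq {α : Type} (x : ℕ) (f : ℕ → α) : force x f = f x := by cases x <;> rfl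

noncomputable def sel {α : Type} (c : Bool) (x y : α) : α := Bool.rec (motive := fun _ => α) y x c

lemma sel_eq {α : Type} (c : Bool) (x y : α) : sel c x y = if c = true then x else y := by
  cases c <;> rfl

lemma sel_and {c x : Bool} : sel c x false = true ↔ c = true ∧ x = true := by
  cases c <;> simp [sel_eq]

lemma sel_or {c x : Bool} : sel c true x = true ↔ c = true ∨ x = true := by
  cases c <;> simp [sel_eq]

def mx (a b : ℕ) : ℕ := Nat.add a (Nat.sub b a)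
def mn (a b : ℕ) : ℕ := Nat.sub a (Nat.sub a b)

lemma mx_eq (a b : ℕ) : mx a b = max a b := by
  show a + (b - a) = _; omega

lemma mn_eq (a b : ℕ) : mn a b = min a b := by
  show a - (a - b) = _; omega

/-- all `i < k` satisfy `f i` -/
noncomputable def allLt (f : ℕ → Bool) (k : ℕ) : Bool :=
  Nat.rec (motive := fun _ => Bool) true (fun i ih => sel (f i) ih false) k

lemma allLt_sound {f : ℕ → Bool} {k : ℕ} (h : allLt f k = true) : ∀ i < k, f i = true := by
  induction k with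
  | zero => intro i hi; omega
  | succ k ih =>
    have h' : sel (f k) (allLt f k) false = true := h
    rw [sel_and] at h'
    intro i hi
    rcases Nat.lt_succ_iff_lt_or_eq.mp hi with h1 | h1
    · exact ih h'.2 i h1
    · rw [h1]; exact h'.1

/-- maximum of `f i` over `i < k` -/
noncomputable def maxLt (f : ℕ → ℕ) (k : ℕ) : ℕ :=
  Nat.rec (motive := fun _ => ℕ) 0 (fun i ih => mx (f i) ih) k

lemma le_maxLt (f : ℕ → ℕ) {k i : ℕ} (hi : i < k) : f i ≤ maxLt f k := by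
  induction k with
  | zero => omega
  | succ k ih =>
    have e : maxLt f (k + 1) = mx (f k) (maxLt f k) := rfl
    rw [e, mx_eq]
    rcases Nat.lt_succ_iff_lt_or_eq.mp hi with h1 | h1
    · exact (ih h1).trans (le_max_right _ _)
    · rw [h1]; exact le_max_left _ _

lemma maxLt_le (f : ℕ → ℕ) (k B : ℕ) (h : ∀ i < k, f i ≤ B) : maxLt f k ≤ B := by
  induction k with
  | zero => exact Nat.zero_le _
  | succ k ih =>
    have e : maxLt f (k + 1) = mx (f k) (maxLt f k) := rfl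
    rw [e, mx_eq]
    exact max_le (h k (by omega)) (ih fun i hi => h i (by omega))

/-- sum of `f i` over `i < k` -/
noncomputable def sumLt (f : ℕ → ℕ) (k : ℕ) : ℕ :=
  Nat.rec (motive := fun _ => ℕ) 0 (fun i ih => Nat.add (f i) ih) k

lemma sumLt_eq (f : ℕ → ℕ) (k : ℕ) : sumLt f k = ∑ i ∈ range k, f i := by
  induction k with
  | zero => rfl
  | succ k ih =>
    have e : sumLt f (k + 1) = f k + sumLt f k := rfl
    rw [e, ih, sum_range_succ, add_comm]

lemma sum_digit_lt (B : ℕ) (f : ℕ → ℕ) (k : ℕ) (hf : ∀ i < k, f i < B) :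
    ∑ i ∈ range k, f i * B ^ i < B ^ k := by
  induction k with
  | zero => simp
  | succ k ih =>
    rw [sum_range_succ, pow_succ]
    have h1 := ih fun i hi => hf i (by omega)
    have h2 : f k + 1 ≤ B := hf k (by omega)
    nlinarith [Nat.mul_le_mul_right (B ^ k) h2]

lemma sum_digit (B : ℕ) (f : ℕ → ℕ) (k : ℕ) (hf : ∀ i < k, f i < B) (i : ℕ) (hi : i < k) :
    (∑ j ∈ range k, f j * B ^ j) / B ^ i % B = f i := by
  induction k with
  | zero => omega
  | succ k ih =>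
    have hB : 0 < B := lt_of_le_of_lt (Nat.zero_le _) (hf k (by omega))
    have hp : 0 < B ^ i := pow_pos hB i
    rw [sum_range_succ]
    rcases Nat.lt_succ_iff_lt_or_eq.mp hi with h1 | h1
    · obtain ⟨t, rfl⟩ := Nat.exists_eq_add_of_lt h1
      have e : f (i + t + 1) * B ^ (i + t + 1) = (f (i + t + 1) * B ^ t * B) * B ^ i := by ring
      rw [e, Nat.add_mul_div_right _ _ hp, Nat.add_mul_mod_self_right]
      exact ih (fun j hj => hf j (by omega)) h1
    · subst h1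
      rw [Nat.add_mul_div_right _ _ hp,
        Nat.div_eq_of_lt (sum_digit_lt B f i fun j hj => hf j (by omega)), zero_add,
        Nat.mod_eq_of_lt (hf i hi)]

/-- binomial coefficient as a digit of a power -/
def binom (n k : ℕ) : ℕ :=
  Nat.mod (Nat.shiftRight (Nat.pow (Nat.succ (Nat.pow 2 (Nat.succ n))) n) (Nat.mul (Nat.succ n) k))
    (Nat.pow 2 (Nat.succ n))

lemma row_digit (n k : ℕ) :
    (2 ^ (n + 1) + 1) ^ n / 2 ^ ((n + 1) * k) % 2 ^ (n + 1) = n.choose k := by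
  have hf : ∀ i < n + 1, n.choose i < 2 ^ (n + 1) := fun i _ =>
    lt_of_le_of_lt (Nat.choose_le_two_pow n i) (Nat.pow_lt_pow_right (by norm_num) (by omega))
  have e : (2 ^ (n + 1) + 1) ^ n = ∑ j ∈ range (n + 1), n.choose j * (2 ^ (n + 1)) ^ j := by
    rw [add_pow]; exact sum_congr rfl fun j _ => by simp [mul_comm]
  rw [e, pow_mul]
  rcases Nat.lt_or_ge k (n + 1) with h | h
  · exact sum_digit _ _ _ hf k h
  · rw [Nat.div_eq_of_lt, Nat.zero_mod, Nat.choose_eq_zero_of_lt (by omega)]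
    exact lt_of_lt_of_le (sum_digit_lt _ _ _ hf) (Nat.pow_le_pow_right (by positivity) h)

lemma binom_eq (n k : ℕ) : binom n k = n.choose k := by
  rw [← row_digit, binom, ← Nat.shiftRight_eq_div_pow]; rfl

/-- entries of a packed table (the lowest digit is a check sum and is skipped) -/
def dg (T i : ℕ) : ℕ :=
  Nat.mod (Nat.shiftRight T (Nat.mul 64 (Nat.succ i))) 18446744073709551616

def salt (P : ℕ) : ℕ := Nat.add (Nat.shiftLeft P 64) (Nat.mod P 18446744073709551557)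

/-- packs `f 0, ..., f (k - 1)` into a table (not verified) -/
noncomputable def pack (f : ℕ → ℕ) (k : ℕ) : ℕ :=
  salt (sumLt (fun i => Nat.shiftLeft (f i) (Nat.mul 64 i)) k)

noncomputable def Sv (n d : ℕ) : ℕ := Nat.shiftLeft (binom n d) d

lemma Sv_eq (n d : ℕ) : Sv n d = S n d := by
  have : Sv n d = binom n d <<< d := rfl
  rw [this, Nat.shiftLeft_eq, binom_eq, S, mul_comm]

noncomputable def Fv (n d : ℕ) : ℕ :=
  sel (sel (Nat.beq n 3) (Nat.beq d 2) false) 18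
    (sel (sel (Nat.beq n 4) (Nat.beq d 3) false) 36
      (sel (sel (Nat.beq n 6) (Nat.beq d 4) false) 324
        (sel (sel (Nat.beq n 9) (Nat.beq d 6) false) 5832 (Sv n d))))

lemma Fv_eq (n d : ℕ) : Fv n d = F n d := by
  simp only [Fv, F, sel_eq (α := ℕ), sel_and, Nat.beq_eq, Sv_eq, S]

lemma S_le_F (n d : ℕ) : S n d ≤ F n d := by
  unfold F S
  split_ifs with h1 h2 h3 h4
  · obtain ⟨rfl, rfl⟩ := h1; decide
  · obtain ⟨rfl, rfl⟩ := h2; decide
  · obtain ⟨rfl, rfl⟩ := h3; decide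
  · obtain ⟨rfl, rfl⟩ := h4; decide
  · exact le_rfl

lemma F_eq_S {n : ℕ} (hn : 10 ≤ n) (d : ℕ) : F n d = S n d := by
  unfold F S
  rw [if_neg (by omega), if_neg (by omega), if_neg (by omega), if_neg (by omega)]

def psiStep (m _i P : ℕ) : ℕ :=
  Nat.succ (Nat.div (Nat.mul 1073741824 m) (Nat.sub (Nat.sub 3221225472 m) P))

noncomputable def psiSel (m P : ℕ) : ℕ :=
  sel (sel (Nat.ble P 1073741824)
    (Nat.ble (Nat.mul m (Nat.add 1073741824 P)) (Nat.mul P (Nat.sub 3221225472 P))) false)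
    P 1073741824

/-- an upper bound, in units of `2 ^ 30`, for the smaller root of `p (3 - p) = m (1 + p)` -/
noncomputable def psiUp (it m : ℕ) : ℕ :=
  psiSel m (Nat.rec (motive := fun _ => ℕ) m (psiStep m) it)

lemma psiUp_spec (it m : ℕ) : psiUp it m = 1073741824 ∨ (psiUp it m ≤ 1073741824 ∧
    m * (1073741824 + psiUp it m) ≤ psiUp it m * (3221225472 - psiUp it m)) := by
  unfold psiUp psiSel
  generalize (Nat.rec (motive := fun _ => ℕ) m _ it) = P
  rw [sel_eq]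
  split_ifs with h2
  · rw [sel_and, Nat.ble_eq, Nat.ble_eq] at h2
    exact Or.inr h2
  · exact Or.inl rfl

lemma psiUp_le (it m : ℕ) : psiUp it m ≤ 1073741824 := by
  rcases psiUp_spec it m with h | h
  · exact h.le
  · exact h.1

lemma psiUp_sound (it m : ℕ) (p : ℝ) (hp1 : p ≤ 1)
    (h : p * (3 - p) * 1073741824 ≤ m * (1 + p)) (hp0 : 0 ≤ p) :
    p * 1073741824 ≤ psiUp it m := by
  rcases psiUp_spec it m with h1 | ⟨h1, h2⟩
  · rw [h1]; push_cast; linarith
  · generalize psiUp it m = P at h1 h2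
    have h3 : (m : ℝ) * (1073741824 + P) ≤ P * (3221225472 - P) := by
      have : ((3221225472 - P : ℕ) : ℝ) = 3221225472 - P := by
        rw [Nat.cast_sub (by omega)]; norm_num
      rw [← this]; exact_mod_cast h2
    have h4 : (P : ℝ) ≤ 1073741824 := by exact_mod_cast h1
    have h5 : (0 : ℝ) ≤ P := by positivity
    set x : ℝ := P / 1073741824 with hx
    have hP : (P : ℝ) = x * 1073741824 := by rw [hx]; field_simp
    set μ : ℝ := m / 1073741824 with hμ
    have hm : (m : ℝ) = μ * 1073741824 := by rw [hμ]; field_simp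
    rw [hP, hm] at h3
    rw [hm] at h
    rw [hP] at h4 h5 ⊢
    have a1 : μ * (1 + x) ≤ x * (3 - x) := by nlinarith
    have a2 : p * (3 - p) ≤ μ * (1 + p) := by nlinarith
    have a3 : 0 ≤ x := by nlinarith
    by_contra hc
    have a4 : x < p := by nlinarith
    have a5 : p * (3 - p) * (1 + x) ≤ x * (3 - x) * (1 + p) := by nlinarith
    have a6 : 0 < (p - x) * (3 - p - x - p * x) := by
      apply mul_pos (by linarith); nlinarith
    nlinarith

/-- from the collision inequality to the table value -/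
lemma adm_psi {n d N h w : ℕ} {p : ℝ} (H : Adm n d N h w p) (hw : w < n) (N0 m it : ℕ)
    (hN : N0 ≤ N) (h0 : 0 < N0)
    (hm : 2 * w / 3 ≤ d →
      1073741824 * (F w (2 * w / 3) * F (n - w) (d - 2 * w / 3)) ≤ m * N0) :
    p * 1073741824 ≤ psiUp it m := by
  obtain ⟨h1, h2, h3 | ⟨h3, h4, _⟩⟩ := H
  · rw [h3]; simp
  · have h5 := h4 hw
    have h6 : (1073741824 : ℝ) * ((F w (2 * w / 3) * F (n - w) (d - 2 * w / 3) : ℕ) : ℝ)
        ≤ m * N0 := by exact_mod_cast hm h3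
    generalize ((F w (2 * w / 3) * F (n - w) (d - 2 * w / 3) : ℕ) : ℝ) = FF at h5 h6
    apply psiUp_sound it m p h2 _ h1
    have hN' : (N0 : ℝ) ≤ N := by exact_mod_cast hN
    have h0' : (0 : ℝ) < N0 := by exact_mod_cast h0
    have a1 : 0 ≤ p * (3 - p) := mul_nonneg h1 (by linarith)
    have a2 : p * (3 - p) * N0 ≤ FF * (1 + p) := le_trans (mul_le_mul_of_nonneg_left hN' a1) h5
    have a3 : 1073741824 * FF * (1 + p) ≤ m * N0 * (1 + p) :=
      mul_le_mul_of_nonneg_right h6 (by linarith)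
    have a4 : (p * (3 - p) * 1073741824) * N0 ≤ (m * (1 + p)) * N0 := by nlinarith
    exact le_of_mul_le_mul_right a4 h0'

/-- table value for a word of full weight -/
noncomputable def pfull (n d N0 b : ℕ) : ℕ :=
  sel (Nat.beq (Nat.mul 3 d) (Nat.mul 2 n))
    (mn 1073741824 (Nat.succ (Nat.div (Nat.mul 1073741824 (Nat.mul (Nat.pow 3 b)
      (Nat.mul (binom n (Nat.div n 3)) (binom (Nat.div (Nat.mul 2 n) 3) (Nat.div n 3))))) N0))) 0

lemma pfull_le (n d N0 b : ℕ) : pfull n d N0 b ≤ 1073741824 := by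
  unfold pfull; rw [sel_eq, mn_eq]; split_ifs
  · exact min_le_left _ _
  · exact Nat.zero_le _

lemma le_succ_div_mul (a b : ℕ) (hb : 0 < b) : a ≤ (a / b + 1) * b := by
  have := Nat.lt_div_mul_add (a := a) hb
  nlinarith

lemma adm_full {n d N h : ℕ} {p : ℝ} (H : Adm n d N h n p) (N0 b : ℕ)
    (hN : N0 ≤ N) (h0 : 0 < N0) (hb : h ≤ b) : p * 1073741824 ≤ pfull n d N0 b := by
  obtain ⟨h1, h2, h3 | ⟨_, _, h5⟩⟩ := H
  · rw [h3]; simp
  · obtain ⟨h6, h7⟩ := h5 rfl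
    have e : pfull n d N0 b = min 1073741824 (1073741824 * (3 ^ b *
        (n.choose (n / 3) * (2 * n / 3).choose (n / 3))) / N0 + 1) := by
      unfold pfull
      rw [sel_eq, mn_eq, if_pos (by rw [Nat.beq_eq]; exact h6), binom_eq, binom_eq]; rfl
    rw [e, Nat.cast_min, le_min_iff]
    refine ⟨by push_cast; linarith, ?_⟩
    have a1 := le_succ_div_mul (1073741824 * (3 ^ b *
        (n.choose (n / 3) * (2 * n / 3).choose (n / 3)))) N0 h0
    generalize 1073741824 * (3 ^ b * (n.choose (n / 3) * (2 * n / 3).choose (n / 3))) / N0 + 1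
      = Q at a1 ⊢
    have a2 : 3 ^ h * (n.choose (n / 3) * (2 * n / 3).choose (n / 3))
        ≤ 3 ^ b * (n.choose (n / 3) * (2 * n / 3).choose (n / 3)) :=
      Nat.mul_le_mul_right _ (Nat.pow_le_pow_right (by norm_num) hb)
    have a3 : 1073741824 * (3 ^ h * (n.choose (n / 3) * (2 * n / 3).choose (n / 3))) ≤ Q * N0 :=
      le_trans (Nat.mul_le_mul_left _ a2) a1
    generalize 3 ^ h * (n.choose (n / 3) * (2 * n / 3).choose (n / 3)) = M at a3 h7
    have a4 : (1073741824 : ℝ) * M ≤ Q * N0 := by exact_mod_cast a3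
    have hN' : (N0 : ℝ) ≤ N := by exact_mod_cast hN
    have h0' : (0 : ℝ) < N0 := by exact_mod_cast h0
    have a5 : (p * 1073741824) * N0 ≤ Q * N0 := by nlinarith
    exact le_of_mul_le_mul_right a5 h0'

noncomputable def Ecore1 (n d N0 q g a r aq : ℕ) : Bool :=
    sel (Nat.ble 1 a) (sel (Nat.ble 1 q) (sel (Nat.ble (Nat.mul 2 g) q)
      (Nat.ble (Nat.succ (Nat.pow (Nat.succ (Nat.shiftRight (Nat.shiftLeft
          (Nat.add (Nat.add (Nat.shiftLeft (Nat.pow a g) (Nat.mul 10 r))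
            (Nat.shiftLeft (Nat.pow a r) (Nat.mul 10 g))) aq) 40) (Nat.mul 10 q))) n))
        (Nat.shiftLeft (Nat.mul N0 (Nat.pow (Nat.shiftRight (Nat.shiftLeft aq 40) (Nat.mul 10 q)) d))
          (Nat.mul 40 (Nat.sub n d)))) false) false) false

/-- the Gibbs test with `z = (a / 1024) ^ q` and `l = (q - g) / q` -/
noncomputable def Ecore (n d N0 q g a : ℕ) : Bool :=
  Ecore1 n d N0 q g a (Nat.sub q g) (Nat.pow a q)

lemma Ecore_spec {n d N0 q g a : ℕ} (h : Ecore n d N0 q g a = true) :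
    1 ≤ a ∧ 1 ≤ q ∧ 2 * g ≤ q ∧
      ((a ^ g * 2 ^ (10 * (q - g)) + a ^ (q - g) * 2 ^ (10 * g) + a ^ q) * 2 ^ 40
        / 2 ^ (10 * q) + 1) ^ n < N0 * (a ^ q * 2 ^ 40 / 2 ^ (10 * q)) ^ d * 2 ^ (40 * (n - d)) := by
  unfold Ecore Ecore1 at h
  rw [sel_and, sel_and, sel_and, Nat.ble_eq, Nat.ble_eq, Nat.ble_eq, Nat.ble_eq] at h
  refine ⟨h.1, h.2.1, h.2.2.1, ?_⟩
  have h4 := h.2.2.2
  simp only [← Nat.shiftLeft_eq, ← Nat.shiftRight_eq_div_pow]
  exact h4

lemma Ecore_sound {n d N N0 q g a : ℕ} {M : ℝ} (hd : d ≤ n) (hN : N0 ≤ N)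
    (hE : ∀ z l : ℝ, 0 < z → 1 / 2 ≤ l → l ≤ 1 → M ≤ l * N →
      (N : ℝ) * z ^ d ≤ (z ^ (1 - l) + z ^ l + z) ^ n)
    (hl : 1 ≤ q → 2 * g ≤ q → q * M ≤ ((q - g : ℕ) : ℝ) * N0)
    (h : Ecore n d N0 q g a = true) : False := by
  obtain ⟨ha, hq, hg, h4⟩ := Ecore_spec h
  have hl' := hl hq hg
  obtain ⟨r, rfl⟩ : ∃ r, q = g + r := ⟨q - g, by omega⟩
  rw [Nat.add_sub_cancel_left] at h4 hl'
  have hq' : (0 : ℝ) < ((g + r : ℕ) : ℝ) := by exact_mod_cast hq
  have hN' : (N0 : ℝ) ≤ N := by exact_mod_cast hN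
  set t : ℝ := a / 1024 with ht
  have ht0 : 0 < t := by
    have : (0 : ℝ) < a := by exact_mod_cast ha
    positivity
  have hgr : (g : ℝ) ≤ r := by exact_mod_cast (by omega : g ≤ r)
  have hr0 : (0 : ℝ) ≤ r := by positivity
  have hg0 : (0 : ℝ) ≤ g := by positivity
  have key := hE (t ^ (g + r)) (r / ((g + r : ℕ) : ℝ)) (pow_pos ht0 _)
    (by rw [le_div_iff₀ hq']; push_cast; linarith)
    (by rw [div_le_one hq']; push_cast; linarith)
    (by rw [div_mul_eq_mul_div, le_div_iff₀ hq']; nlinarith)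
  have e1 : (t ^ (g + r)) ^ (1 - (r : ℝ) / ((g + r : ℕ) : ℝ)) = t ^ g := by
    rw [← Real.rpow_natCast, ← Real.rpow_mul ht0.le, ← Real.rpow_natCast]
    congr 1; field_simp; push_cast; ring
  have e2 : (t ^ (g + r)) ^ ((r : ℝ) / ((g + r : ℕ) : ℝ)) = t ^ r := by
    rw [← Real.rpow_natCast, ← Real.rpow_mul ht0.le, ← Real.rpow_natCast]
    congr 1; field_simp
  rw [e1, e2] at key
  have hp : 0 < 2 ^ (10 * (g + r)) := by positivity
  have b1 := le_succ_div_mul
    ((a ^ g * 2 ^ (10 * r) + a ^ r * 2 ^ (10 * g) + a ^ (g + r)) * 2 ^ 40) _ hp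
  have b2 := Nat.div_mul_le_self (a ^ (g + r) * 2 ^ 40) (2 ^ (10 * (g + r)))
  generalize (a ^ g * 2 ^ (10 * r) + a ^ r * 2 ^ (10 * g) + a ^ (g + r)) * 2 ^ 40
    / 2 ^ (10 * (g + r)) + 1 = Zu at b1 h4
  generalize a ^ (g + r) * 2 ^ 40 / 2 ^ (10 * (g + r)) = zl at b2 h4
  have c1 : ((a : ℝ) ^ g * 2 ^ (10 * r) + a ^ r * 2 ^ (10 * g) + a ^ (g + r)) * 2 ^ 40
      ≤ Zu * 2 ^ (10 * (g + r)) := by exact_mod_cast b1
  have c2 : (zl : ℝ) * 2 ^ (10 * (g + r)) ≤ a ^ (g + r) * 2 ^ 40 := by exact_mod_cast b2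
  have ea : (a : ℝ) = t * 2 ^ 10 := by rw [ht]; norm_num
  have hp' : (0 : ℝ) < 2 ^ (10 * (g + r)) := by positivity
  have d1 : (t ^ g + t ^ r + t ^ (g + r)) * 2 ^ 40 ≤ Zu := by
    have : ((a : ℝ) ^ g * 2 ^ (10 * r) + a ^ r * 2 ^ (10 * g) + a ^ (g + r)) * 2 ^ 40
        = (t ^ g + t ^ r + t ^ (g + r)) * 2 ^ 40 * 2 ^ (10 * (g + r)) := by
      rw [ea]; simp only [mul_pow, ← pow_mul]; ring
    rw [this] at c1
    exact le_of_mul_le_mul_right c1 hp'
  have d2 : (zl : ℝ) ≤ t ^ (g + r) * 2 ^ 40 := by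
    have : (a : ℝ) ^ (g + r) * 2 ^ 40 = t ^ (g + r) * 2 ^ 40 * 2 ^ (10 * (g + r)) := by
      rw [ea]; simp only [mul_pow, ← pow_mul]; ring
    rw [this] at c2
    exact le_of_mul_le_mul_right c2 hp'
  have c4 : (Zu : ℝ) ^ n < N0 * zl ^ d * 2 ^ (40 * (n - d)) := by exact_mod_cast h4
  obtain ⟨u, rfl⟩ := Nat.exists_eq_add_of_le hd
  rw [Nat.add_sub_cancel_left] at c4
  have f1 : ((t ^ g + t ^ r + t ^ (g + r)) * 2 ^ 40) ^ (d + u) ≤ (Zu : ℝ) ^ (d + u) :=
    pow_le_pow_left₀ (by positivity) d1 _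
  have f2 : (zl : ℝ) ^ d ≤ (t ^ (g + r) * 2 ^ 40) ^ d := pow_le_pow_left₀ (by positivity) d2 _
  have f3 : (N0 : ℝ) * zl ^ d * 2 ^ (40 * u) ≤ N * (t ^ (g + r) * 2 ^ 40) ^ d * 2 ^ (40 * u) := by
    gcongr
  have f4 : (N : ℝ) * (t ^ (g + r) * 2 ^ 40) ^ d * 2 ^ (40 * u)
      = N * (t ^ (g + r)) ^ d * (2 ^ 40) ^ (d + u) := by
    rw [mul_pow, pow_add (2 ^ 40 : ℝ), pow_mul]; ring
  have f5 : (N : ℝ) * (t ^ (g + r)) ^ d * (2 ^ 40) ^ (d + u)
      ≤ (t ^ g + t ^ r + t ^ (g + r)) ^ (d + u) * (2 ^ 40) ^ (d + u) :=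
    mul_le_mul_of_nonneg_right key (by positivity)
  rw [mul_pow] at f1
  linarith

noncomputable def pickE2 (n d q g r lo a w x y z : ℕ) : ℕ :=
  Nat.add lo (sel (Nat.ble (Nat.mul n (Nat.add (Nat.add (Nat.mul g x) (Nat.mul r y)) (Nat.mul q z)))
    (Nat.mul (Nat.mul q d) (Nat.add (Nat.add x y) z))) w (Nat.sub a a))

noncomputable def pickE1 (n d q g r lo a w : ℕ) : ℕ :=
  pickE2 n d q g r lo a w (Nat.shiftLeft (Nat.pow a g) (Nat.mul 10 r))
    (Nat.shiftLeft (Nat.pow a r) (Nat.mul 10 g)) (Nat.pow a q)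

noncomputable def pickE0 (n d q g i lo : ℕ) : ℕ :=
  pickE1 n d q g (Nat.sub q g) lo (Nat.add lo (Nat.shiftRight 1024 i)) (Nat.shiftRight 1024 i)

/-- bisection for a good tilt in the Gibbs test (not verified, only a guess) -/
noncomputable def pickE (n d q g : ℕ) : ℕ := Nat.rec (motive := fun _ => ℕ) 0 (pickE0 n d q g) 11

noncomputable def pickq (n d : ℕ) : ℕ := mx 24 (Nat.succ (Nat.div (Nat.mul 8 n) d))
noncomputable def pickg (n d q : ℕ) : ℕ := Nat.div (Nat.mul q d) (Nat.mul 2 n)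

end Pool.Agent.Lib.MP_990a44_co.Q3
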