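import Pool.Agent.Lib.MP_990a44_co.Q3FinSmall

/-!
The finite check for longer lengths: hull dimensions are treated in blocks, using the Fourier
bound for the dual code and transport over partial information sets.
-/

namespace Pool.Agent.Lib.MP_990a44_co.Q3

open Finset

lemma S_step (k j : ℕ) : S (k + 3) (j + 2) * ((j + 2) * (j + 1) * (k + 1 - j))
    = 4 * ((k + 3) * (k + 2) * (k + 1)) * S k j := by
  have h1 := Nat.add_one_mul_choose_eq (k + 2) (j + 1)
  have h2 := Nat.add_one_mul_choose_eq (k + 1) j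
  have h3 := Nat.choose_mul_succ_eq k j
  unfold S
  calc 2 ^ (j + 2) * (k + 3).choose (j + 2) * ((j + 2) * (j + 1) * (k + 1 - j))
      = 4 * 2 ^ j * ((k + 2 + 1).choose (j + 1 + 1) * (j + 1 + 1)) * (j + 1) * (k + 1 - j) := by
        ring
    _ = 4 * 2 ^ j * (k + 3) * ((k + 1 + 1).choose (j + 1) * (j + 1)) * (k + 1 - j) := by
        rw [← h1]; ring
    _ = 4 * 2 ^ j * (k + 3) * (k + 2) * ((k + 1).choose j * (k + 1 - j)) := by
        rw [← h2]; ring
    _ = _ := by rw [← h3]; ring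

noncomputable def exn (k j : ℕ) : ℕ :=
  sel (sel (Nat.beq k 3) (Nat.beq j 2) false) 1680
    (sel (sel (Nat.beq k 4) (Nat.beq j 3) false) 1260
      (sel (sel (Nat.beq k 6) (Nat.beq j 4) false) 1512
        (sel (sel (Nat.beq k 9) (Nat.beq j 6) false) 1215 1120)))

lemma F_exn (k j : ℕ) : F k j * 1120 = S k j * exn k j := by
  simp only [exn, F, sel_eq (α := ℕ), sel_and, Nat.beq_eq]
  split_ifs with h1 h2 h3 h4
  · obtain ⟨rfl, rfl⟩ := h1; decide
  · obtain ⟨rfl, rfl⟩ := h2; decide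
  · obtain ⟨rfl, rfl⟩ := h3; decide
  · obtain ⟨rfl, rfl⟩ := h4; decide
  · rfl

def cstep1 (i x y k j m : ℕ) : ℕ :=
  Nat.succ (Nat.div
    (Nat.mul m (Nat.mul (Nat.mul (Nat.mul (Nat.add x 3) (Nat.add x 2)) (Nat.succ x))
      (Nat.mul (Nat.mul (Nat.add j 2) (Nat.succ j)) (Nat.sub (Nat.succ k) j))))
    (Nat.mul (Nat.mul (Nat.mul (Nat.add y 2) (Nat.succ y)) (Nat.succ i))
      (Nat.mul (Nat.mul (Nat.add k 3) (Nat.add k 2)) (Nat.succ k))))

/-- one step of the chain of upper bounds for `S (3 i) (2 i) * S (n - 3 i) (d - 2 i) / N0`;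
here `k = n - 3 (i + 1)` and `j = d - 2 (i + 1)` -/
def cstep (i k j m : ℕ) : ℕ := cstep1 i (Nat.mul 3 i) (Nat.mul 2 i) k j m

lemma cstep_sound {i k j m N0 c : ℕ} (h : c * (S (3 * i) (2 * i) * S (k + 3) (j + 2)) ≤ m * N0) :
    c * (S (3 * (i + 1)) (2 * (i + 1)) * S k j) ≤ cstep i k j m * N0 := by
  have e : cstep i k j m = m * (((3 * i + 3) * (3 * i + 2) * (3 * i + 1))
      * ((j + 2) * (j + 1) * (k + 1 - j))) / (((2 * i + 2) * (2 * i + 1) * (i + 1))
      * ((k + 3) * (k + 2) * (k + 1))) + 1 := by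
    rfl
  have h1 := S_step (3 * i) (2 * i)
  have h2 := S_step k j
  rw [show 3 * i + 1 - 2 * i = i + 1 by omega] at h1
  rw [show 3 * (i + 1) = 3 * i + 3 by ring, show 2 * (i + 1) = 2 * i + 2 by ring]
  have hp : 0 < ((2 * i + 2) * (2 * i + 1) * (i + 1)) * ((k + 3) * (k + 2) * (k + 1)) := by
    positivity
  have h3 := le_succ_div_mul (m * (((3 * i + 3) * (3 * i + 2) * (3 * i + 1))
      * ((j + 2) * (j + 1) * (k + 1 - j)))) _ hp
  rw [← e] at h3
  generalize (3 * i + 3) * (3 * i + 2) * (3 * i + 1) = a1 at *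
  generalize (j + 2) * (j + 1) * (k + 1 - j) = a2 at *
  generalize (2 * i + 2) * (2 * i + 1) * (i + 1) = b1 at *
  generalize (k + 3) * (k + 2) * (k + 1) = b2 at *
  generalize S (3 * i + 3) (2 * i + 2) = X1 at *
  generalize S (3 * i) (2 * i) = X0 at *
  generalize S (k + 3) (j + 2) = Y0 at *
  generalize S k j = Y1 at *
  generalize cstep i k j m = m' at *
  refine Nat.le_of_mul_le_mul_right ?_ hp
  have e1 : c * (X1 * Y1) * (b1 * b2) = c * (X0 * Y0) * (a1 * a2) := by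
    calc c * (X1 * Y1) * (b1 * b2) = c * (X1 * b1) * (b2 * Y1) := by ring
      _ = c * a1 * X0 * (4 * b2 * Y1) := by rw [h1]; ring
      _ = _ := by rw [← h2]; ring
  calc c * (X1 * Y1) * (b1 * b2) = c * (X0 * Y0) * (a1 * a2) := e1
    _ ≤ m * N0 * (a1 * a2) := Nat.mul_le_mul_right _ h
    _ = m * (a1 * a2) * N0 := by ring
    _ ≤ m' * (b1 * b2) * N0 := Nat.mul_le_mul_right _ h3
    _ = _ := by ring

/-- passes from `S` to `F` and from units `2 ^ 50` to units `2 ^ 30` -/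
noncomputable def cval (i k j m : ℕ) : ℕ :=
  sel (sel (Nat.ble 4 i) (Nat.ble 10 k) false) (Nat.succ (Nat.div m 1048576))
    (Nat.succ (Nat.div (Nat.mul m (Nat.mul (exn (Nat.mul 3 i) (Nat.mul 2 i)) (exn k j)))
      1315333734400))

lemma cval_sound {i k j m N0 : ℕ}
    (h : 1125899906842624 * (S (3 * i) (2 * i) * S k j) ≤ m * N0) :
    1073741824 * (F (3 * i) (2 * i) * F k j) ≤ cval i k j m * N0 := by
  unfold cval
  rw [sel_eq]
  split_ifs with h1
  · rw [sel_and, Nat.ble_eq, Nat.ble_eq] at h1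
    rw [F_eq_S (by omega), F_eq_S h1.2]
    have h2 := le_succ_div_mul m 1048576 (by norm_num)
    change _ ≤ (m / 1048576 + 1) * N0
    generalize m / 1048576 + 1 = v at h2
    have := Nat.mul_le_mul_right N0 h2
    nlinarith
  · have h2 := le_succ_div_mul (m * (exn (3 * i) (2 * i) * exn k j)) 1315333734400 (by norm_num)
    change _ ≤ (m * (exn (3 * i) (2 * i) * exn k j) / 1315333734400 + 1) * N0
    generalize m * (exn (3 * i) (2 * i) * exn k j) / 1315333734400 + 1 = v at h2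
    have h3 := F_exn (3 * i) (2 * i)
    have h4 := F_exn k j
    generalize exn (3 * i) (2 * i) = e1 at *
    generalize exn k j = e2 at *
    generalize F (3 * i) (2 * i) = F1 at *
    generalize F k j = F2 at *
    generalize S (3 * i) (2 * i) = S1 at *
    generalize S k j = S2 at *
    refine Nat.le_of_mul_le_mul_right (c := 1315333734400) ?_ (by norm_num)
    calc 1073741824 * (F1 * F2) * 1315333734400
        = 1125899906842624 * ((F1 * 1120) * (F2 * 1120)) := by ring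
      _ = 1125899906842624 * (S1 * S2) * (e1 * e2) := by rw [h3, h4]; ring
      _ ≤ m * N0 * (e1 * e2) := Nat.mul_le_mul_right _ h
      _ = m * (e1 * e2) * N0 := by ring
      _ ≤ v * 1315333734400 * N0 := Nat.mul_le_mul_right _ h2
      _ = _ := by ring

def cstepN (n d i m : ℕ) : ℕ :=
  cstep i (Nat.sub n (Nat.mul 3 (Nat.succ i))) (Nat.sub d (Nat.mul 2 (Nat.succ i))) m

noncomputable def chainM (n d i : ℕ) : ℕ :=
  Nat.rec (motive := fun _ => ℕ) 1125899906842624 (cstepN n d) i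

lemma chainM_sound (n d i : ℕ) (h1 : 3 * i ≤ n) (h2 : 2 * i ≤ d) :
    1125899906842624 * (S (3 * i) (2 * i) * S (n - 3 * i) (d - 2 * i))
      ≤ chainM n d i * (S n d + 1) := by
  induction i with
  | zero =>
    have : chainM n d 0 = 1125899906842624 := rfl
    rw [this]; simp [S]
  | succ i ih =>
    have hm := ih (by omega) (by omega)
    have e1 : n - 3 * i = n - 3 * (i + 1) + 3 := by omega
    have e2 : d - 2 * i = d - 2 * (i + 1) + 2 := by omega
    rw [e1, e2] at hm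
    exact cstep_sound hm

noncomputable def valF (n d i : ℕ) : ℕ :=
  cval i (Nat.sub n (Nat.mul 3 i)) (Nat.sub d (Nat.mul 2 i)) (chainM n d i)

def dig32 (T i : ℕ) : ℕ := Nat.mod (Nat.shiftRight T (Nat.mul 32 i)) 4294967296

noncomputable def place (v t pos ih : ℕ) : ℕ :=
  Nat.add ih (sel (Nat.ble 17 t) (Nat.shiftLeft (Nat.sub v (Nat.shiftRight ih 1152)) 1152)
    (Nat.shiftLeft v (Nat.mul 32 pos)))

noncomputable def gstep (n d half i ih : ℕ) : ℕ :=
  sel (Nat.ble half i)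
    (place (mn (valF n d (Nat.succ i)) 4294967295) (Nat.div (Nat.sub n (Nat.mul 3 (Nat.succ i))) 3)
      (Nat.add 18 (Nat.div (Nat.sub n (Nat.mul 3 (Nat.succ i))) 3)) ih)
    (place (mn (valF n d (Nat.succ i)) 4294967295) (Nat.succ i) (Nat.succ i) ih)

noncomputable def pstep (R u ih : ℕ) : ℕ :=
  Nat.add (Nat.shiftLeft ih 32) (mx (dig32 R (sel (Nat.beq u 18) 36 (Nat.sub 35 u)))
    (sel (Nat.beq u 18) 0 (Nat.mod ih 4294967296)))

/-- monotone table of the collision ratios (not verified, only a guess) -/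
noncomputable def genTab (n d I : ℕ) : ℕ :=
  force (Nat.rec (motive := fun _ => ℕ) 0 (gstep n d (Nat.div n 6)) I) fun R =>
    Nat.rec (motive := fun _ => ℕ) 0 (pstep R) 36

def loT (T i : ℕ) : ℕ := dig32 T (mn i 17)
def hiT (T t : ℕ) : ℕ := dig32 T (Nat.add 18 (mn t 17))

noncomputable def chk1 (n d T i : ℕ) : Bool :=
  sel (Nat.ble (valF n d (Nat.succ i)) (loT T (Nat.succ i))) true
    (Nat.ble (valF n d (Nat.succ i)) (hiT T (Nat.div (Nat.sub n (Nat.mul 3 (Nat.succ i))) 3)))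

noncomputable def monoChk (T : ℕ) : Bool :=
  allLt (fun u => sel (Nat.ble (dig32 T (Nat.succ u)) (dig32 T u))
    (Nat.ble (dig32 T (Nat.add 18 (Nat.succ u))) (dig32 T (Nat.add 18 u))) false) 17

lemma monoChk_sound {T : ℕ} (h : monoChk T = true) :
    (∀ a b, a ≤ b → loT T b ≤ loT T a) ∧ (∀ a b, a ≤ b → hiT T b ≤ hiT T a) := by
  have h1 : ∀ u < 17, dig32 T (u + 1) ≤ dig32 T u ∧ dig32 T (18 + (u + 1)) ≤ dig32 T (18 + u) := by
    intro u hu
    have := allLt_sound h u hu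
    rw [sel_and, Nat.ble_eq, Nat.ble_eq] at this
    exact this
  constructor
  · have : Antitone (loT T) := antitone_nat_of_succ_le fun u => by
      simp only [loT, mn_eq]
      rcases Nat.lt_or_ge u 17 with hu | hu
      · rw [min_eq_left hu.le, min_eq_left (by omega)]; exact (h1 u hu).1
      · rw [min_eq_right hu, min_eq_right (by omega)]
    exact fun a b hab => this hab
  · have : Antitone (hiT T) := antitone_nat_of_succ_le fun u => by
      simp only [hiT, mn_eq]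
      rcases Nat.lt_or_ge u 17 with hu | hu
      · rw [min_eq_left hu.le, min_eq_left (by omega)]; exact (h1 u hu).2
      · rw [min_eq_right hu, min_eq_right (by omega)]
    exact fun a b hab => this hab

/-- the meaning of a checked table -/
def TabOK (n d N h T : ℕ) : Prop :=
  ∀ i p a b, 1 ≤ i → 3 * i < n → a ≤ i → b ≤ (n - 3 * i) / 3 → Adm n d N h (3 * i) p →
    p * 1073741824 ≤ psiUp 2 (mx (loT T a) (hiT T b))

lemma tabOK_of_chk {n d N h T : ℕ} (hN : S n d + 1 ≤ N) (h1 : monoChk T = true)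
    (h2 : allLt (chk1 n d T) (min ((n - 1) / 3) (d / 2)) = true) : TabOK n d N h T := by
  intro i p a b hi hi' ha hb hp
  obtain ⟨m1, m2⟩ := monoChk_sound h1
  refine adm_psi hp hi' (S n d + 1) _ 2 hN (by omega) ?_
  intro h3
  have e : 2 * (3 * i) / 3 = 2 * i := by omega
  rw [e] at h3 ⊢
  obtain ⟨i, rfl⟩ : ∃ x, i = x + 1 := ⟨i - 1, by omega⟩
  have hv := allLt_sound h2 i (by omega)
  unfold chk1 at hv
  rw [sel_or, Nat.ble_eq, Nat.ble_eq] at hv
  have hv' : 1073741824 * (F (3 * (i + 1)) (2 * (i + 1)) * F (n - 3 * (i + 1)) (d - 2 * (i + 1)))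
      ≤ valF n d (i + 1) * (S n d + 1) := cval_sound (chainM_sound n d (i + 1) hi'.le h3)
  refine hv'.trans (Nat.mul_le_mul_right _ ?_)
  rw [mx_eq]
  rcases hv with hv | hv
  · exact (hv.trans (m1 _ _ ha)).trans (le_max_left _ _)
  · exact (hv.trans (m2 _ _ hb)).trans (le_max_right _ _)

noncomputable def cL1 (pf v x : ℕ) : ℕ := sel (Nat.beq v 0) (mx x pf) x

noncomputable def cL (T r pf g s : ℕ) : ℕ :=
  sel (Nat.beq s 0) 1073741824 (cL1 pf (Nat.sub (Nat.mul 2 g) s)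
    (psiUp 2 (mx (loT T (Nat.div (Nat.add s 2) 3))
      (hiT T (Nat.div (Nat.sub (Nat.add (Nat.sub (Nat.mul 2 g) s) 2) r) 3)))))

noncomputable def phiL (CT g k : ℕ) : ℕ :=
  Nat.add (dg CT (Nat.mul 2 k))
    (maxLt (fun j => Nat.sub (Nat.mul 2 (dg CT (Nat.add j k))) (dg CT (Nat.mul 2 j)))
      (Nat.succ g))

/-- the test for the block of dimensions from `g` to `e` -/
noncomputable def blockChk (n d N0 T g e sg : ℕ) : Bool :=
  force (pfull n d N0 e) fun pf => force (Nat.mod n 3) fun r =>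
    packChk (cL T r pf g) (Nat.succ (Nat.mul 2 g)) fun CT =>
      Nat.ble (Nat.succ (Nat.mul sg (sumLt (fun k => Nat.mul (Sv g k) (phiL CT g k)) (Nat.succ g))))
        (Nat.mul 2251799813685248 (Nat.pow 3 g))

lemma blockChk_sound {n d N N0 h D T g e sg : ℕ} (H : Hull n d N h D 3) (hN : N0 ≤ N)
    (h0 : 0 < N0) (hT : TabOK n d N h T) (hg : g ≤ h) (he : h ≤ e)
    (hs : 3 ^ h * D * 1048576 ≤ sg * N0) (hc : blockChk n d N0 T g e sg = true) : False := by
  unfold blockChk at hc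
  rw [force_eq, force_eq] at hc
  obtain ⟨CT, hCT, hc⟩ := packChk_sound hc
  rw [Nat.ble_eq, sumLt_eq] at hc
  have b2 : ∀ a b, a ≤ g → b ≤ g → 4 * dg CT (a + b) ≤ phiL CT g a + phiL CT g b := by
    have : ∀ a b, a ≤ g → 2 * dg CT (a + b) + dg CT (2 * b)
        ≤ dg CT (2 * a) + phiL CT g b := by
      intro a b ha
      have h1 : 2 * dg CT (a + b) - dg CT (2 * a) ≤ maxLt (fun j =>
          Nat.sub (Nat.mul 2 (dg CT (Nat.add j b))) (dg CT (Nat.mul 2 j))) (Nat.succ g) :=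
        le_maxLt (fun j => Nat.sub (Nat.mul 2 (dg CT (Nat.add j b)))
          (dg CT (Nat.mul 2 j))) (show a < g + 1 by omega)
      have h2 : phiL CT g b = dg CT (2 * b) + maxLt (fun j =>
          Nat.sub (Nat.mul 2 (dg CT (Nat.add j b))) (dg CT (Nat.mul 2 j))) (Nat.succ g) := by
        rfl
      omega
    intro a b ha hb
    have c1 := this a b ha
    have c2 := this b a hb
    rw [add_comm b a] at c2
    omega
  have hz : 1073741824 ≤ dg CT 0 := hCT 0 (by omega)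
  have key := H.block g hg (fun j => (phiL CT g j : ℝ) / 2147483648) (by
    intro j j' w p hj hj' h1 h2 h3 h4 h5
    obtain ⟨i, rfl⟩ := h3
    have c1 : p * 1073741824 ≤ cL T (Nat.mod n 3) (pfull n d N0 e) g (j + j') := by
      unfold cL cL1
      rw [sel_eq]
      split_ifs with h6
      · push_cast; linarith [h5.2.1]
      · rw [sel_eq]
        rcases Nat.lt_or_ge (3 * i) n with h7 | h7
        · have c2 := hT i p ((j + j' + 2) / 3) ((2 * g - (j + j') + 2 - n % 3) / 3) (by omega) h7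
            (by omega) (by omega) h5
          split_ifs
          · rw [mx_eq _ (pfull n d N0 e), Nat.cast_max]; exact le_max_of_le_left c2
          · exact c2
        · have h8 : 3 * i = n := by omega
          rw [h8] at h5
          rw [if_pos (by rw [Nat.beq_eq]; show 2 * g - (j + j') = 0; omega),
            mx_eq _ (pfull n d N0 e), Nat.cast_max]
          exact le_max_of_le_right (adm_full h5 N0 e hN h0 he)
    have c3 : (cL T (Nat.mod n 3) (pfull n d N0 e) g (j + j') : ℝ) ≤ dg CT (j + j') := by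
      exact_mod_cast hCT (j + j') (show j + j' < 2 * g + 1 by omega)
    have c4 : (4 * dg CT (j + j') : ℝ) ≤ phiL CT g j + phiL CT g j' := by
      exact_mod_cast b2 j j' hj hj'
    rw [← add_div, le_div_iff₀ (by norm_num)]
    linarith) (by
    have c4 := b2 0 0 (by omega) (by omega)
    rw [le_div_iff₀ (by norm_num)]
    have : 2147483648 ≤ phiL CT g 0 := by simp only [Nat.add_zero] at c4; omega
    exact_mod_cast this)
  have e1 : ∑ j ∈ range (g + 1), (g.choose j : ℝ) * 2 ^ j * ((phiL CT g j : ℝ) / 2147483648)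
      = ((∑ k ∈ range (g + 1), Nat.mul (Sv g k) (phiL CT g k) : ℕ) : ℝ) / 2147483648 := by
    rw [Nat.cast_sum, sum_div]
    refine sum_congr rfl fun j _ => ?_
    rw [Nat.mul_eq, Sv_eq, S]; push_cast; ring
  rw [e1] at key
  have hc' : sg * (∑ k ∈ range (g + 1), Nat.mul (Sv g k) (phiL CT g k)) + 1
      ≤ 2251799813685248 * 3 ^ g := hc
  generalize ∑ k ∈ range (g + 1), Nat.mul (Sv g k) (phiL CT g k) = U at key hc'
  have d1 : N * 3 ^ g * 2147483648 ≤ 3 ^ h * D * U := by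
    have : (N : ℝ) * 3 ^ g * 2147483648 ≤ 3 ^ h * D * U := by linarith
    exact_mod_cast this
  have d2 : 3 ^ h * D * 1048576 * U ≤ sg * N0 * U := Nat.mul_le_mul_right _ hs
  have d3 : (sg * U + 1) * N0 ≤ 2251799813685248 * 3 ^ g * N0 := Nat.mul_le_mul_right _ hc'
  have d4 : 2251799813685248 * 3 ^ g * N0 ≤ 2251799813685248 * 3 ^ g * N :=
    Nat.mul_le_mul_left _ hN
  nlinarith

noncomputable def pickz1 (d h m lo a w x y : ℕ) : ℕ :=
  Nat.add lo (sel (Nat.ble (Nat.add (Nat.mul (Nat.mul h (Nat.mul 4 (Nat.mul a a))) y)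
    (Nat.mul (Nat.mul m (Nat.mul 2 a)) x)) (Nat.mul d (Nat.mul x y))) w 0)

noncomputable def pickz0 (d h m lo a w : ℕ) : ℕ :=
  pickz1 d h m lo a w (Nat.add 1024 (Nat.mul 2 (Nat.mul a a))) (Nat.add 32 (Nat.mul 2 a))

/-- bisection for a good tilt `a / 32` (not verified, only a guess) -/
noncomputable def pickz (d h m : ℕ) : ℕ :=
  Nat.rec (motive := fun _ => ℕ) 1 (fun i lo =>
    pickz0 d h m lo (Nat.add lo (Nat.shiftRight 128 i)) (Nat.shiftRight 128 i)) 8

def tstep (k a j ih : ℕ) : ℕ :=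
  Nat.succ (Nat.div (Nat.mul ih (Nat.mul (Nat.sub k j) a)) (Nat.mul 16 (Nat.succ j)))

noncomputable def tF (k a j : ℕ) : ℕ := Nat.rec (motive := fun _ => ℕ) (Nat.pow 32 k) (tstep k a) j

lemma tF_sound (k a j : ℕ) : k.choose j * (2 * a) ^ j * 32 ^ (k - j) ≤ tF k a j := by
  induction j with
  | zero =>
    have : tF k a 0 = 32 ^ k := rfl
    rw [this]; simp
  | succ j ht =>
    have e : tF k a (j + 1) = tF k a j * ((k - j) * a) / (16 * (j + 1)) + 1 := rfl
    rw [e]
    generalize tF k a j = t at ht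
    have h1 := le_succ_div_mul (t * ((k - j) * a)) (16 * (j + 1)) (by positivity)
    generalize t * ((k - j) * a) / (16 * (j + 1)) + 1 = t1 at h1
    refine Nat.le_of_mul_le_mul_right (le_trans ?_ h1) (by positivity)
    rcases Nat.lt_or_ge j k with h2 | h2
    · obtain ⟨u, rfl⟩ := Nat.exists_eq_add_of_lt h2
      have h3 := Nat.choose_succ_right_eq (j + u + 1) j
      rw [show j + u + 1 - (j + 1) = u by omega]
      rw [show j + u + 1 - j = u + 1 by omega] at ht h3 ⊢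
      calc (j + u + 1).choose (j + 1) * (2 * a) ^ (j + 1) * 32 ^ u * (16 * (j + 1))
          = ((j + u + 1).choose (j + 1) * (j + 1)) * (2 * a) ^ j * 32 ^ (u + 1) * a := by ring
        _ = (j + u + 1).choose j * (2 * a) ^ j * 32 ^ (u + 1) * ((u + 1) * a) := by
            rw [h3]; ring
        _ ≤ _ := Nat.mul_le_mul_right _ ht
    · rw [Nat.choose_eq_zero_of_lt (by omega)]; simp

def sqr (x : ℕ) : ℕ := Nat.mul x x

noncomputable def sqSum (k a : ℕ) : ℕ := sumLt (fun j => sqr (tF k a j)) (Nat.succ k)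

lemma P_le (k a : ℕ) : P k ((a : ℝ) / 32) * 32 ^ (2 * k)
    ≤ ((sqSum k a + (32 + a) ^ (2 * k) : ℕ) : ℝ) := by
  have h1 : ∑ i ∈ range (k + 1), (k.choose i * (2 * a) ^ i * 32 ^ (k - i)) ^ 2 ≤ sqSum k a := by
    rw [sqSum, sumLt_eq]
    refine sum_le_sum fun i _ => ?_
    have := Nat.pow_le_pow_left (tF_sound k a i) 2
    rwa [pow_two (tF k a i)] at this
  have h2 := sq_sum_le k ((a : ℝ) / 32) (by positivity)
  rw [P_eq, add_mul]
  push_cast
  refine add_le_add ?_ ?_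
  · refine le_trans (le_of_eq ?_) (Nat.cast_le.mpr h1)
    rw [sum_mul, Nat.cast_sum]
    refine sum_congr rfl fun j hj => ?_
    obtain ⟨u, rfl⟩ := Nat.exists_eq_add_of_le (Nat.lt_succ_iff.mp (mem_range.mp hj))
    rw [Nat.add_sub_cancel_left]
    push_cast
    rw [show (2 : ℝ) * (a / 32) = (2 * a) / 32 by ring, div_pow]
    field_simp
    ring
  · refine le_trans (mul_le_mul_of_nonneg_right h2 (by positivity)) (le_of_eq ?_)
    rw [← mul_pow]; congr 1; ring

lemma Hull.tilt_block {n d N h D lo : ℕ} (H : Hull n d N h D lo) (b : ℕ) (hb : h ≤ b)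
    (hb2 : 2 * b ≤ n) (z : ℝ) (hz : 0 < z) :
    (3 ^ h * D : ℝ) * z ^ d ≤ (3 * (1 + 2 * z ^ 2)) ^ b * (1 + 2 * z) ^ (2 * ((n - 2 * b) / 2))
      * (1 + 2 * z) ^ ((n - 2 * b) % 2) := by
  have h1 := H.D_tilt z hz
  obtain ⟨t, rfl⟩ := Nat.exists_eq_add_of_le hb
  have e : n - 2 * h = 2 * t + (2 * ((n - 2 * (h + t)) / 2) + (n - 2 * (h + t)) % 2) := by omega
  have h7 : (1 + 2 * z) ^ (2 * t) ≤ (3 * (1 + 2 * z ^ 2)) ^ t := by
    rw [pow_mul]; exact pow_le_pow_left₀ (by positivity) (by nlinarith [sq_nonneg (z - 1)]) t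
  rw [e] at h1
  generalize 2 * ((n - 2 * (h + t)) / 2) = u at *
  generalize (n - 2 * (h + t)) % 2 = r at *
  calc (3 ^ h * D : ℝ) * z ^ d = 3 ^ h * (D * z ^ d) := by ring
    _ ≤ 3 ^ h * ((1 + 2 * z ^ 2) ^ h * (1 + 2 * z) ^ (2 * t + (u + r))) :=
        mul_le_mul_of_nonneg_left h1 (by positivity)
    _ = (3 * (1 + 2 * z ^ 2)) ^ h * (1 + 2 * z) ^ (2 * t) * ((1 + 2 * z) ^ u * (1 + 2 * z) ^ r) := by
        rw [mul_pow]; ring
    _ ≤ (3 * (1 + 2 * z ^ 2)) ^ h * (3 * (1 + 2 * z ^ 2)) ^ t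
        * ((1 + 2 * z) ^ u * (1 + 2 * z) ^ r) := by gcongr
    _ = _ := by rw [pow_add]; ring

/-- bound for `3 ^ h * D / N0` in units of `2 ^ 20`, valid for all `h ≤ b` -/
noncomputable def sigma (n d N0 b : ℕ) : ℕ :=
  force (Nat.sub n (Nat.mul 2 b)) fun m => force (Nat.div m 2) fun k =>
  force (Nat.succ (Nat.sub (pickz d b m) 1)) fun a =>
    Nat.succ (Nat.div (Nat.mul 1048576 (Nat.mul (Nat.mul (Nat.mul
        (Nat.pow (Nat.mul 3 (Nat.add 1024 (Nat.mul 2 (Nat.mul a a)))) b)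
        (mn (Nat.add (sqSum k a) (Nat.pow (Nat.add 32 a) (Nat.mul 2 k)))
          (Nat.pow (Nat.add 32 (Nat.mul 2 a)) (Nat.mul 2 k))))
        (Nat.pow (Nat.add 32 (Nat.mul 2 a)) (Nat.mod m 2))) (Nat.pow 32 d)))
      (Nat.mul N0 (Nat.mul (Nat.pow a d) (Nat.pow 32 n))))

lemma sigma_sound {n d N N0 h D lo b : ℕ} (H : Hull n d N h D lo) (h0 : 0 < N0) (hb : h ≤ b)
    (hb2 : 2 * b ≤ n) : 3 ^ h * D * 1048576 ≤ sigma n d N0 b * N0 := by
  obtain ⟨a, ha, e⟩ : ∃ a, 0 < a ∧ sigma n d N0 b = 1048576 * ((3 * (1024 + 2 * (a * a))) ^ b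
      * mn (sqSum ((n - 2 * b) / 2) a + (32 + a) ^ (2 * ((n - 2 * b) / 2)))
        ((32 + 2 * a) ^ (2 * ((n - 2 * b) / 2))) * (32 + 2 * a) ^ ((n - 2 * b) % 2) * 32 ^ d)
      / (N0 * (a ^ d * 32 ^ n)) + 1 :=
    ⟨_, Nat.succ_pos _, by unfold sigma; rw [force_eq, force_eq, force_eq]; rfl⟩
  have ha' : (0 : ℝ) < a := by exact_mod_cast ha
  obtain ⟨W, hW0, h1, h2⟩ : ∃ W : ℝ, 0 ≤ W ∧ (3 ^ h * D : ℝ) * (a / 32) ^ d
      ≤ (3 * (1 + 2 * ((a : ℝ) / 32) ^ 2)) ^ b * W * (1 + 2 * (a / 32)) ^ ((n - 2 * b) % 2) ∧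
      W * 32 ^ (2 * ((n - 2 * b) / 2)) ≤ (mn (sqSum ((n - 2 * b) / 2) a
        + (32 + a) ^ (2 * ((n - 2 * b) / 2))) ((32 + 2 * a) ^ (2 * ((n - 2 * b) / 2))) : ℕ) := by
    rw [mn_eq]
    rcases le_total (sqSum ((n - 2 * b) / 2) a + (32 + a) ^ (2 * ((n - 2 * b) / 2)))
      ((32 + 2 * a) ^ (2 * ((n - 2 * b) / 2))) with h' | h'
    · rw [min_eq_left h']
      exact ⟨_, P_nonneg _ _ (by positivity), H.four_block b hb hb2 _ (by positivity), P_le _ a⟩
    · rw [min_eq_right h']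
      refine ⟨_, by positivity, H.tilt_block b hb hb2 _ (by positivity), le_of_eq ?_⟩
      rw [← mul_pow]; push_cast; congr 1; ring
  have en : n = 2 * b + 2 * ((n - 2 * b) / 2) + (n - 2 * b) % 2 := by omega
  generalize (n - 2 * b) / 2 = k at *
  generalize (n - 2 * b) % 2 = r at *
  generalize mn (sqSum k a + (32 + a) ^ (2 * k)) ((32 + 2 * a) ^ (2 * k)) = Q at *
  have h3 := le_succ_div_mul (1048576 * ((3 * (1024 + 2 * (a * a))) ^ b * Q * (32 + 2 * a) ^ r
    * 32 ^ d)) (N0 * (a ^ d * 32 ^ n)) (by positivity)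
  rw [← e] at h3
  generalize sigma n d N0 b = sg at *
  have h4 : 3 ^ h * D * (a ^ d * 32 ^ n)
      ≤ (3 * (1024 + 2 * (a * a))) ^ b * Q * (32 + 2 * a) ^ r * 32 ^ d := by
    have : (3 ^ h * D : ℝ) * (a ^ d * 32 ^ n)
        ≤ (3 * (1024 + 2 * (a * a))) ^ b * Q * (32 + 2 * a) ^ r * 32 ^ d := by
      have e1 : (3 ^ h * D : ℝ) * (a ^ d * 32 ^ n)
          = (3 ^ h * D : ℝ) * (a / 32) ^ d * (32 ^ n * 32 ^ d) := by
        rw [div_pow]; field_simp
      have e2 : (3 * (1024 + 2 * (a * a)) : ℝ) = 3 * (1 + 2 * (a / 32) ^ 2) * 32 ^ 2 := by ring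
      have e3 : (32 + 2 * a : ℝ) = (1 + 2 * (a / 32)) * 32 := by ring
      rw [e1, e2, e3, mul_pow, mul_pow (1 + 2 * ((a : ℝ) / 32))]
      calc _ ≤ (3 * (1 + 2 * ((a : ℝ) / 32) ^ 2)) ^ b * W * (1 + 2 * (a / 32)) ^ r
            * (32 ^ n * 32 ^ d) := mul_le_mul_of_nonneg_right h1 (by positivity)
        _ = (3 * (1 + 2 * ((a : ℝ) / 32) ^ 2)) ^ b * (32 ^ 2) ^ b * (W * 32 ^ (2 * k))
            * ((1 + 2 * (a / 32)) ^ r * 32 ^ r) * 32 ^ d := by
            conv_lhs => rw [en]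
            rw [← pow_mul]; ring
        _ ≤ _ := by gcongr
    exact_mod_cast this
  refine Nat.le_of_mul_le_mul_right (c := a ^ d * 32 ^ n) ?_ (by positivity)
  calc 3 ^ h * D * 1048576 * (a ^ d * 32 ^ n) = 1048576 * (3 ^ h * D * (a ^ d * 32 ^ n)) := by ring
    _ ≤ 1048576 * ((3 * (1024 + 2 * (a * a))) ^ b * Q * (32 + 2 * a) ^ r * 32 ^ d) :=
        Nat.mul_le_mul_left _ h4
    _ ≤ _ := h3
    _ = _ := by ring

noncomputable def blocksChk (n d N0 T top : ℕ) (l : List (ℕ × ℕ)) : ℕ → ℕ → ℕ → Bool :=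
  List.rec (motive := fun _ => ℕ → ℕ → ℕ → Bool) (fun cur _ _ => Nat.ble (Nat.succ top) cur)
    (fun x _ ih cur hp sg => sel (Nat.ble (Nat.succ top) cur) true
      (force (mn x.2 top) fun L => force (mn x.1 L) fun e =>
        force (sel (Nat.beq L hp) sg (sigma n d N0 L)) fun sg1 =>
          sel (blockChk n d N0 T cur e sg1) (force (Nat.succ e) fun c1 => ih c1 L sg1) false)) l

lemma blocksChk_sound {n d N N0 h D T top : ℕ} (H : Hull n d N h D 3) (hN : N0 ≤ N)
    (h0 : 0 < N0) (hT : TabOK n d N h T) (ht : h ≤ top) (ht2 : 2 * top ≤ n) (l : List (ℕ × ℕ))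
    (cur hp sg : ℕ) (hc : cur ≤ h) (hs : h ≤ hp → 3 ^ h * D * 1048576 ≤ sg * N0)
    (hb : blocksChk n d N0 T top l cur hp sg = true) : False := by
  induction l generalizing cur hp sg with
  | nil =>
    have : Nat.ble (top + 1) cur = true := hb
    rw [Nat.ble_eq] at this; omega
  | cons x l ih =>
    have hb' : sel (Nat.ble (top + 1) cur) true
      (force (mn x.2 top) fun L => force (mn x.1 L) fun e =>
        force (sel (Nat.beq L hp) sg (sigma n d N0 L)) fun sg1 =>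
          sel (blockChk n d N0 T cur e sg1)
            (force (e + 1) fun c1 => blocksChk n d N0 T top l c1 L sg1) false) = true := hb
    rw [sel_or, Nat.ble_eq, force_eq, force_eq, force_eq, sel_and, force_eq, mn_eq, mn_eq] at hb'
    rcases hb' with hb' | ⟨h1, h2⟩
    · omega
    have hL : min x.2 top ≤ top := min_le_right _ _
    generalize min x.2 top = L at *
    have hs' : h ≤ L → 3 ^ h * D * 1048576 ≤ sel (Nat.beq L hp) sg (sigma n d N0 L) * N0 := by
      intro hh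
      rw [sel_eq]
      split_ifs with h3
      · rw [Nat.beq_eq] at h3; exact hs (by omega)
      · exact sigma_sound H h0 hh (by omega)
    rcases Nat.lt_or_ge (min x.1 L) h with h4 | h4
    · exact ih _ _ _ h4 hs' h2
    · exact blockChk_sound H hN h0 hT hc h4 (hs' (h4.trans (min_le_right _ _))) h1

/-- smallest `c` (guess) with `L < R * 3 ^ c` -/
noncomputable def findc (L fuel : ℕ) : ℕ → ℕ → ℕ :=
  Nat.rec (motive := fun _ => ℕ → ℕ → ℕ) (fun _ c => c)
    (fun _ ih R c => sel (Nat.ble R L) (force (Nat.mul 3 R) fun R1 => force (Nat.succ c) (ih R1)) c)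
    fuel

noncomputable def hullL (l : List (ℕ × ℕ)) (n d N0 : ℕ) : Bool :=
  force (Nat.succ (Nat.sub (pickz d (Nat.div n 2) (Nat.mod n 2)) 1)) fun a =>
  force (Nat.mul (Nat.mul (Nat.pow (Nat.mul 3 (Nat.add 1024 (Nat.mul 2 (Nat.mul a a)))) (Nat.div n 2))
    (Nat.pow (Nat.add 32 (Nat.mul 2 a)) (Nat.mod n 2))) (Nat.pow 32 d)) fun L =>
  force (Nat.mul N0 (Nat.mul (Nat.pow a d) (Nat.pow 32 n))) fun R =>
  force (findc L 12 R 0) fun c =>
    sel (Nat.ble (Nat.succ L) (Nat.mul R (Nat.pow 3 c)))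
      (force (mn (Nat.sub (Nat.add (Nat.sub n d) c) 1) (Nat.div n 2)) fun top =>
        force (mn (Nat.div (Nat.sub n 1) 3) (Nat.div d 2)) fun I =>
        force (genTab n d I) fun T => sel (monoChk T)
          (sel (allLt (chk1 n d T) I) (blocksChk n d N0 T top l 1 0 0) false) false) false

lemma hullL_sound {l : List (ℕ × ℕ)} {n d N h D : ℕ} (H : Hull n d N h D 3)
    (hN : S n d + 1 ≤ N) (hh : 1 ≤ h) (hc : hullL l n d (S n d + 1) = true) : False := by
  unfold hullL at hc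
  rw [force_eq, force_eq, force_eq, force_eq, sel_and, force_eq, force_eq, force_eq, sel_and,
    sel_and, Nat.ble_eq, mn_eq, mn_eq] at hc
  obtain ⟨h1, h2, h3, h4⟩ := hc
  have ha : 0 < Nat.succ (Nat.sub (pickz d (Nat.div n 2) (Nat.mod n 2)) 1) := Nat.succ_pos _
  generalize Nat.succ (Nat.sub (pickz d (Nat.div n 2) (Nat.mod n 2)) 1) = a at *
  generalize findc _ 12 _ 0 = c at *
  have h5 := H.two_h
  rcases Nat.lt_or_ge h (n - d + c) with h6 | h6
  · refine blocksChk_sound H hN (by omega) (tabOK_of_chk hN h2 h3) ?_ ?_ l 1 0 0 hh (by omega) h4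
    · show h ≤ min (n - d + c - 1) (n / 2); omega
    · show 2 * min (n - d + c - 1) (n / 2) ≤ n; omega
  · have h1' : (3 * (1024 + 2 * (a * a))) ^ (n / 2) * (32 + 2 * a) ^ (n % 2) * 32 ^ d + 1
        ≤ (S n d + 1) * (a ^ d * 32 ^ n) * 3 ^ c := h1
    have ha' : (0 : ℝ) < a := by exact_mod_cast ha
    have h7 := H.tilt_all ((a : ℝ) / 32) (by positivity)
    have h8 : 3 ^ h * D * (a ^ d * 32 ^ n)
        ≤ (3 * (1024 + 2 * (a * a))) ^ (n / 2) * (32 + 2 * a) ^ (n % 2) * 32 ^ d := by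
      have : (3 ^ h * D : ℝ) * (a ^ d * 32 ^ n)
          ≤ (3 * (1024 + 2 * (a * a))) ^ (n / 2) * (32 + 2 * a) ^ (n % 2) * 32 ^ d := by
        have en : n = 2 * (n / 2) + n % 2 := by omega
        generalize n / 2 = b at *
        generalize n % 2 = r at *
        have e1 : (3 ^ h * D : ℝ) * (a ^ d * 32 ^ n)
            = (3 ^ h * D : ℝ) * (a / 32) ^ d * (32 ^ n * 32 ^ d) := by
          rw [div_pow]; field_simp
        have e2 : (3 * (1024 + 2 * (a * a)) : ℝ) = 3 * (1 + 2 * (a / 32) ^ 2) * 32 ^ 2 := by ring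
        have e3 : (32 + 2 * a : ℝ) = (1 + 2 * (a / 32)) * 32 := by ring
        rw [e1, e2, e3, mul_pow, mul_pow (1 + 2 * ((a : ℝ) / 32))]
        calc _ ≤ (3 * (1 + 2 * ((a : ℝ) / 32) ^ 2)) ^ b * (1 + 2 * (a / 32)) ^ r
              * (32 ^ n * 32 ^ d) := mul_le_mul_of_nonneg_right h7 (by positivity)
          _ = _ := by
              conv_lhs => rw [en]
              rw [← pow_mul]; ring
      exact_mod_cast this
    have h9 : N * 3 ^ c ≤ 3 ^ h * D := by
      calc N * 3 ^ c ≤ D * 3 ^ (n - d) * 3 ^ c := Nat.mul_le_mul_right _ H.triv_d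
        _ = 3 ^ (n - d + c) * D := by ring
        _ ≤ _ := Nat.mul_le_mul_right _ (Nat.pow_le_pow_right (by norm_num) h6)
    have h10 : (S n d + 1) * 3 ^ c * (a ^ d * 32 ^ n) ≤ 3 ^ h * D * (a ^ d * 32 ^ n) :=
      Nat.mul_le_mul_right _ ((Nat.mul_le_mul_right _ hN).trans h9)
    have h11 : (S n d + 1) * (a ^ d * 32 ^ n) * 3 ^ c = (S n d + 1) * 3 ^ c * (a ^ d * 32 ^ n) := by
      ring
    omega

noncomputable def largeE (n d N0 q g a : ℕ) : Bool :=
  sel (Nat.ble (Nat.mul (Nat.mul 2 n) g) (Nat.mul q d)) (Ecore n d N0 q g a) false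

lemma pascal_S (n d : ℕ) : S n (d + 1) + 2 * S n d = S (n + 1) (d + 1) := by
  unfold S; rw [Nat.choose_succ_succ']; ring

lemma edge_S (n d : ℕ) : 2 * (n + 1) * S n d = (d + 1) * S (n + 1) (d + 1) := by
  have := Nat.add_one_mul_choose_eq n d
  unfold S
  calc 2 * (n + 1) * (2 ^ d * n.choose d) = 2 ^ (d + 1) * ((n + 1) * n.choose d) := by ring
    _ = _ := by rw [this]; ring

lemma largeE_sound {n d N q g a : ℕ} (hn : 11 ≤ n) (hd1 : 1 ≤ d) (hd : d ≤ n) (hE : Edge n d N)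
    (hN : S n d + 1 ≤ N) (h : largeE n d (S n d + 1) q g a = true) : False := by
  unfold largeE at h
  rw [sel_and, Nat.ble_eq] at h
  obtain ⟨h1, h2⟩ := h
  have h1' : 2 * n * g ≤ q * d := h1
  obtain ⟨n, rfl⟩ : ∃ x, n = x + 1 := ⟨n - 1, by omega⟩
  obtain ⟨d, rfl⟩ : ∃ x, d = x + 1 := ⟨d - 1, by omega⟩
  have p1 := pascal_S n d
  have p2 := edge_S n d
  unfold Edge at hE
  rw [Nat.add_sub_cancel, Nat.add_sub_cancel, F_eq_S (by omega), F_eq_S (by omega)] at hE
  rcases hE with hE | hE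
  · omega
  · refine Ecore_sound hd hN hE (fun _ hg => ?_) h2
    have : q * (S n (d + 1) + S n d) ≤ (q - g) * (S (n + 1) (d + 1) + 1) := by
      obtain ⟨r, rfl⟩ : ∃ r, q = g + r := ⟨q - g, by omega⟩
      rw [Nat.add_sub_cancel_left]
      generalize S n (d + 1) = M0 at *
      generalize S n d = M1 at *
      generalize S (n + 1) (d + 1) = X at *
      have a1 : 2 * (n + 1) * g * X ≤ (g + r) * (d + 1) * X := Nat.mul_le_mul_right _ h1'
      have a2 : 2 * (n + 1) * (g * X) ≤ 2 * (n + 1) * ((g + r) * M1) := by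
        calc 2 * (n + 1) * (g * X) = 2 * (n + 1) * g * X := by ring
          _ ≤ (g + r) * ((d + 1) * X) := by rw [← mul_assoc]; exact a1
          _ = _ := by rw [← p2]; ring
      have a3 : g * X ≤ (g + r) * M1 := Nat.le_of_mul_le_mul_left a2 (by positivity)
      subst p1
      nlinarith
    exact_mod_cast this

noncomputable def largeLoop (l : List (ℕ × ℕ)) (n R B fuel : ℕ) : ℕ → ℕ → ℕ → ℕ → Bool :=
  Nat.rec (motive := fun _ => ℕ → ℕ → ℕ → ℕ → Bool) (fun _ _ _ _ => true)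
    (fun _ ih d q g a =>
      force (Nat.succ (Nat.shiftLeft (Nat.mod (Nat.shiftRight R (Nat.mul (Nat.succ n) d)) B) d))
        fun N0 => force (Nat.succ d) fun d1 => sel (largeE n d N0 q g a) (ih d1 q g a)
          (force (pickq n d) fun q1 => force (pickg n d q1) fun g1 =>
            force (pickE n d q1 g1) fun a1 =>
              sel (sel (largeE n d N0 q1 g1 a1) true (hullL l n d N0)) (ih d1 q1 g1 a1) false)) fuel

lemma largeLoop_sound {l : List (ℕ × ℕ)} {n d N h D : ℕ} (hn : 11 ≤ n) (hd1 : 1 ≤ d) (hd : d ≤ n)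
    (hE : Edge n d N) (H : Hull n d N h D 3) (hN : S n d + 1 ≤ N) (hh : 1 ≤ h)
    (fuel d0 q g a : ℕ) (h1 : d0 ≤ d) (h2 : d < d0 + fuel)
    (hc : largeLoop l n ((2 ^ (n + 1) + 1) ^ n) (2 ^ (n + 1)) fuel d0 q g a = true) : False := by
  induction fuel generalizing d0 q g a with
  | zero => omega
  | succ f ih =>
    have hc' : force (((((2 ^ (n + 1) + 1) ^ n) >>> ((n + 1) * d0)) % 2 ^ (n + 1)) <<< d0 + 1)
        (fun N0 => force (d0 + 1) fun d1 => sel (largeE n d0 N0 q g a)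
          (largeLoop l n ((2 ^ (n + 1) + 1) ^ n) (2 ^ (n + 1)) f d1 q g a)
          (force (pickq n d0) fun q1 => force (pickg n d0 q1) fun g1 =>
            force (pickE n d0 q1 g1) fun a1 =>
              sel (sel (largeE n d0 N0 q1 g1 a1) true (hullL l n d0 N0))
                (largeLoop l n ((2 ^ (n + 1) + 1) ^ n) (2 ^ (n + 1)) f d1 q1 g1 a1) false))
        = true := hc
    rw [force_eq, force_eq, force_eq, force_eq, force_eq, Nat.shiftRight_eq_div_pow, row_digit,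
      Nat.shiftLeft_eq, mul_comm (n.choose d0), sel_eq] at hc'
    rcases Nat.eq_or_lt_of_le h1 with h3 | h3
    · subst h3
      split_ifs at hc' with h4
      · exact largeE_sound hn hd1 hd hE hN h4
      · rw [sel_and, sel_or] at hc'
        rcases hc'.1 with h5 | h5
        · exact largeE_sound hn hd1 hd hE hN h5
        · exact hullL_sound H hN hh h5
    · split_ifs at hc' with h4
      · exact ih _ _ _ _ h3 (by omega) hc'
      · rw [sel_and] at hc'
        exact ih _ _ _ _ h3 (by omega) hc'.2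

noncomputable def largeN (l : List (ℕ × ℕ)) (n : ℕ) : Bool :=
  force (Nat.pow 2 (Nat.succ n)) fun B => force (Nat.pow (Nat.succ B) n) fun R =>
    largeLoop l n R B n 1 0 0 0

lemma largeN_sound {l : List (ℕ × ℕ)} {n d N h D : ℕ} (hn : 11 ≤ n) (hd1 : 1 ≤ d) (hd : d ≤ n)
    (hE : Edge n d N) (H : Hull n d N h D 3) (hc : largeN l n = true) : N ≤ F n d := by
  by_contra hN
  rcases Nat.eq_zero_or_pos h with rfl | hh
  · exact hN (hull_zero H)
  rw [F_eq_S (by omega)] at hN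
  unfold largeN at hc
  rw [force_eq, force_eq] at hc
  exact largeLoop_sound hn hd1 hd hE H (by omega) hh n 1 0 0 0 hd1 (by omega) hc

/-- the lengths from `lo` to `lo + cnt - 1` -/
noncomputable def largeR (l : List (ℕ × ℕ)) (lo cnt : ℕ) : Bool :=
  allLt (fun i => force (Nat.add lo i) (largeN l)) cnt

lemma largeR_sound {l : List (ℕ × ℕ)} {lo cnt n d N h D : ℕ} (hc : largeR l lo cnt = true)
    (h0 : 11 ≤ lo) (h1 : lo ≤ n) (h2 : n < lo + cnt) (hd1 : 1 ≤ d) (hd : d ≤ n)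
    (hE : Edge n d N) (H : Hull n d N h D 3) : N ≤ F n d := by
  obtain ⟨i, rfl⟩ := Nat.exists_eq_add_of_le h1
  have := allLt_sound hc i (by omega)
  rw [force_eq] at this
  exact largeN_sound (by omega) hd1 hd hE H this

end Pool.Agent.Lib.MP_990a44_co.Q3
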