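import Pool.Agent.Lib.MP_990a44_co.Q3FinLarge

/-!
Kernel evaluation of the checker for lengths up to 21.
-/

namespace Pool.Agent.Lib.MP_990a44_co.Q3

def LM : List (ℕ × ℕ) := [(1,1),(2,2),(4,4),(8,8),(15,15),(23,23),(1000,1000)]

def LL : List (ℕ × ℕ) := [(1,9),(3,9),(9,9),(1000,1000)]

theorem runS1 : smallN 1 = true := by decide +kernel
theorem runS2 : smallN 2 = true := by decide +kernel
theorem runS3 : smallN 3 = true := by decide +kernel
theorem runS4 : smallN 4 = true := by decide +kernel
theorem runS5 : smallN 5 = true := by decide +kernel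
theorem runS6 : smallN 6 = true := by decide +kernel
theorem runS7 : smallN 7 = true := by decide +kernel
theorem runS8 : smallN 8 = true := by decide +kernel
theorem runS9 : smallN 9 = true := by decide +kernel
theorem runS10 : smallN 10 = true := by decide +kernel
theorem runS11 : smallN 11 = true := by decide +kernel
theorem runS12 : smallN 12 = true := by decide +kernel
theorem runS13 : smallN 13 = true := by decide +kernel
theorem runS14 : smallN 14 = true := by decide +kernel
theorem runS15 : smallN 15 = true := by decide +kernel
theorem runS16 : smallN 16 = true := by decide +kernel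
theorem runS17 : smallN 17 = true := by decide +kernel
theorem runS18 : smallN 18 = true := by decide +kernel
theorem runS19 : smallN 19 = true := by decide +kernel
theorem runS20 : smallN 20 = true := by decide +kernel
theorem runS21 : smallN 21 = true := by decide +kernel

theorem finS {n d N h D : ℕ} (hn : n ≤ 21) (hd1 : 1 ≤ d) (hd : d ≤ n) (hE : Edge n d N)
    (H : Hull n d N h D 3) (H9 : Nine n d N ∨ Hull n d N h D 6) : N ≤ F n d := by
  have h1 : 1 ≤ n := le_trans hd1 hd
  interval_cases n
  · exact smallN_sound hd1 hd hE H H9 runS1
  · exact smallN_sound hd1 hd hE H H9 runS2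
  · exact smallN_sound hd1 hd hE H H9 runS3
  · exact smallN_sound hd1 hd hE H H9 runS4
  · exact smallN_sound hd1 hd hE H H9 runS5
  · exact smallN_sound hd1 hd hE H H9 runS6
  · exact smallN_sound hd1 hd hE H H9 runS7
  · exact smallN_sound hd1 hd hE H H9 runS8
  · exact smallN_sound hd1 hd hE H H9 runS9
  · exact smallN_sound hd1 hd hE H H9 runS10
  · exact smallN_sound hd1 hd hE H H9 runS11
  · exact smallN_sound hd1 hd hE H H9 runS12
  · exact smallN_sound hd1 hd hE H H9 runS13
  · exact smallN_sound hd1 hd hE H H9 runS14
  · exact smallN_sound hd1 hd hE H H9 runS15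
  · exact smallN_sound hd1 hd hE H H9 runS16
  · exact smallN_sound hd1 hd hE H H9 runS17
  · exact smallN_sound hd1 hd hE H H9 runS18
  · exact smallN_sound hd1 hd hE H H9 runS19
  · exact smallN_sound hd1 hd hE H H9 runS20
  · exact smallN_sound hd1 hd hE H H9 runS21

end Pool.Agent.Lib.MP_990a44_co.Q3
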