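import Pool.Agent.Lib.MP_990a44_co.Q3FinRun0

/-!
Kernel evaluation of the checker for lengths 22 to 130.
-/

namespace Pool.Agent.Lib.MP_990a44_co.Q3

theorem runL22 : largeR LM 22 4 = true := by decide +kernel
theorem runL26 : largeR LM 26 4 = true := by decide +kernel
theorem runL30 : largeR LM 30 4 = true := by decide +kernel
theorem runL34 : largeR LM 34 4 = true := by decide +kernel
theorem runL38 : largeR LM 38 4 = true := by decide +kernel
theorem runL42 : largeR LM 42 4 = true := by decide +kernel
theorem runL46 : largeR LM 46 4 = true := by decide +kernel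
theorem runL50 : largeR LM 50 4 = true := by decide +kernel
theorem runL54 : largeR LM 54 4 = true := by decide +kernel
theorem runL58 : largeR LM 58 4 = true := by decide +kernel
theorem runL62 : largeR LM 62 4 = true := by decide +kernel
theorem runL66 : largeR LM 66 4 = true := by decide +kernel
theorem runL70 : largeR LM 70 4 = true := by decide +kernel
theorem runL74 : largeR LM 74 4 = true := by decide +kernel
theorem runL78 : largeR LM 78 4 = true := by decide +kernel
theorem runL82 : largeR LM 82 4 = true := by decide +kernel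
theorem runL86 : largeR LM 86 4 = true := by decide +kernel
theorem runL90 : largeR LM 90 4 = true := by decide +kernel
theorem runL94 : largeR LM 94 4 = true := by decide +kernel
theorem runL98 : largeR LM 98 4 = true := by decide +kernel
theorem runL102 : largeR LM 102 4 = true := by decide +kernel
theorem runL106 : largeR LM 106 4 = true := by decide +kernel
theorem runL110 : largeR LM 110 4 = true := by decide +kernel
theorem runL114 : largeR LM 114 4 = true := by decide +kernel
theorem runL118 : largeR LM 118 4 = true := by decide +kernel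
theorem runL122 : largeR LM 122 4 = true := by decide +kernel
theorem runL126 : largeR LM 126 4 = true := by decide +kernel
theorem runL130 : largeR LM 130 1 = true := by decide +kernel

theorem finA {n d N h D : ℕ} (h1 : 22 ≤ n) (h2 : n ≤ 130) (hd1 : 1 ≤ d) (hd : d ≤ n)
    (hE : Edge n d N) (H : Hull n d N h D 3) : N ≤ F n d := by
  rcases Nat.lt_or_ge n 26 with h1' | h1
  · exact largeR_sound runL22 (by omega) h1 (by omega) hd1 hd hE H
  rcases Nat.lt_or_ge n 30 with h1' | h1
  · exact largeR_sound runL26 (by omega) h1 (by omega) hd1 hd hE H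
  rcases Nat.lt_or_ge n 34 with h1' | h1
  · exact largeR_sound runL30 (by omega) h1 (by omega) hd1 hd hE H
  rcases Nat.lt_or_ge n 38 with h1' | h1
  · exact largeR_sound runL34 (by omega) h1 (by omega) hd1 hd hE H
  rcases Nat.lt_or_ge n 42 with h1' | h1
  · exact largeR_sound runL38 (by omega) h1 (by omega) hd1 hd hE H
  rcases Nat.lt_or_ge n 46 with h1' | h1
  · exact largeR_sound runL42 (by omega) h1 (by omega) hd1 hd hE H
  rcases Nat.lt_or_ge n 50 with h1' | h1
  · exact largeR_sound runL46 (by omega) h1 (by omega) hd1 hd hE H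
  rcases Nat.lt_or_ge n 54 with h1' | h1
  · exact largeR_sound runL50 (by omega) h1 (by omega) hd1 hd hE H
  rcases Nat.lt_or_ge n 58 with h1' | h1
  · exact largeR_sound runL54 (by omega) h1 (by omega) hd1 hd hE H
  rcases Nat.lt_or_ge n 62 with h1' | h1
  · exact largeR_sound runL58 (by omega) h1 (by omega) hd1 hd hE H
  rcases Nat.lt_or_ge n 66 with h1' | h1
  · exact largeR_sound runL62 (by omega) h1 (by omega) hd1 hd hE H
  rcases Nat.lt_or_ge n 70 with h1' | h1
  · exact largeR_sound runL66 (by omega) h1 (by omega) hd1 hd hE H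
  rcases Nat.lt_or_ge n 74 with h1' | h1
  · exact largeR_sound runL70 (by omega) h1 (by omega) hd1 hd hE H
  rcases Nat.lt_or_ge n 78 with h1' | h1
  · exact largeR_sound runL74 (by omega) h1 (by omega) hd1 hd hE H
  rcases Nat.lt_or_ge n 82 with h1' | h1
  · exact largeR_sound runL78 (by omega) h1 (by omega) hd1 hd hE H
  rcases Nat.lt_or_ge n 86 with h1' | h1
  · exact largeR_sound runL82 (by omega) h1 (by omega) hd1 hd hE H
  rcases Nat.lt_or_ge n 90 with h1' | h1
  · exact largeR_sound runL86 (by omega) h1 (by omega) hd1 hd hE H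
  rcases Nat.lt_or_ge n 94 with h1' | h1
  · exact largeR_sound runL90 (by omega) h1 (by omega) hd1 hd hE H
  rcases Nat.lt_or_ge n 98 with h1' | h1
  · exact largeR_sound runL94 (by omega) h1 (by omega) hd1 hd hE H
  rcases Nat.lt_or_ge n 102 with h1' | h1
  · exact largeR_sound runL98 (by omega) h1 (by omega) hd1 hd hE H
  rcases Nat.lt_or_ge n 106 with h1' | h1
  · exact largeR_sound runL102 (by omega) h1 (by omega) hd1 hd hE H
  rcases Nat.lt_or_ge n 110 with h1' | h1
  · exact largeR_sound runL106 (by omega) h1 (by omega) hd1 hd hE H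
  rcases Nat.lt_or_ge n 114 with h1' | h1
  · exact largeR_sound runL110 (by omega) h1 (by omega) hd1 hd hE H
  rcases Nat.lt_or_ge n 118 with h1' | h1
  · exact largeR_sound runL114 (by omega) h1 (by omega) hd1 hd hE H
  rcases Nat.lt_or_ge n 122 with h1' | h1
  · exact largeR_sound runL118 (by omega) h1 (by omega) hd1 hd hE H
  rcases Nat.lt_or_ge n 126 with h1' | h1
  · exact largeR_sound runL122 (by omega) h1 (by omega) hd1 hd hE H
  rcases Nat.lt_or_ge n 130 with h1' | h1
  · exact largeR_sound runL126 (by omega) h1 (by omega) hd1 hd hE H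
  exact largeR_sound runL130 (by omega) h1 (by omega) hd1 hd hE H

end Pool.Agent.Lib.MP_990a44_co.Q3
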