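import Pool.Agent.Lib.MP_990a44_co.Q3FinBase

/-!
The finite check for short lengths: one test for every length, distance and hull dimension,
using the MacWilliams identity and exact transport over the two information sets.
-/

namespace Pool.Agent.Lib.MP_990a44_co.Q3

open Finset

/-- packs a table, checks the digits and continues -/
noncomputable def packChk (f : ℕ → ℕ) (k : ℕ) (cont : ℕ → Bool) : Bool :=
  force (pack f k) fun T => sel (allLt (fun i => Nat.ble (f i) (dg T i)) k) (cont T) false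

lemma packChk_sound {f : ℕ → ℕ} {k : ℕ} {cont : ℕ → Bool} (h : packChk f k cont = true) :
    ∃ T, (∀ i < k, f i ≤ dg T i) ∧ cont T = true := by
  unfold packChk at h
  rw [force_eq, sel_and] at h
  exact ⟨_, fun i hi => by simpa [Nat.ble_eq] using allLt_sound h.1 i hi, h.2⟩

noncomputable def kTerm (n d w i : ℕ) : ℕ :=
  Nat.mul (binom w i) (Nat.shiftLeft (binom (Nat.sub n w) (Nat.sub d i)) (Nat.sub d i))

/-- shifted Krawtchouk value -/
noncomputable def Kp (n d w C : ℕ) : ℕ :=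
  Nat.sub (Nat.add (sumLt (fun i => sel (Nat.beq (Nat.mod i 2) 0) (kTerm n d w i) 0) (Nat.succ d)) C)
    (sumLt (fun i => sel (Nat.beq (Nat.mod i 2) 0) 0 (kTerm n d w i)) (Nat.succ d))

lemma kTerm_eq (n d w i : ℕ) :
    kTerm n d w i = w.choose i * (2 ^ (d - i) * (n - w).choose (d - i)) := by
  have : kTerm n d w i = binom w i * (binom (n - w) (d - i) <<< (d - i)) := rfl
  rw [this, Nat.shiftLeft_eq, binom_eq, binom_eq, mul_comm (2 ^ (d - i))]

lemma K_le_Kp (n d w C : ℕ) : (K n d w : ℝ) + C ≤ Kp n d w C := by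
  have e : Kp n d w C = (∑ i ∈ range (d + 1), (if i % 2 = 0 then kTerm n d w i else 0) + C)
      - ∑ i ∈ range (d + 1), (if i % 2 = 0 then 0 else kTerm n d w i) := by
    unfold Kp
    rw [sumLt_eq, sumLt_eq]
    simp only [sel_eq, Nat.beq_eq]
    rfl
  have e2 : K n d w = ((∑ i ∈ range (d + 1), (if i % 2 = 0 then kTerm n d w i else 0) : ℕ) : ℤ)
      - ((∑ i ∈ range (d + 1), (if i % 2 = 0 then 0 else kTerm n d w i) : ℕ) : ℤ) := by
    unfold K
    rw [Nat.cast_sum, Nat.cast_sum, ← sum_sub_distrib]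
    refine sum_congr rfl fun i _ => ?_
    rw [kTerm_eq]
    split_ifs with h
    · rw [(Nat.even_iff.mpr h).neg_one_pow]; push_cast; ring
    · rw [(Nat.odd_iff.mpr (by omega)).neg_one_pow]; push_cast; ring
  rw [e, e2]
  generalize ∑ i ∈ range (d + 1), (if i % 2 = 0 then kTerm n d w i else 0) = A
  generalize ∑ i ∈ range (d + 1), (if i % 2 = 0 then 0 else kTerm n d w i) = B
  have : ((A : ℤ) - B) + C ≤ ((A + C - B : ℕ) : ℤ) := by omega
  exact_mod_cast this

/-- largest table value over the weights compatible with weight `s` on the information sets -/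
noncomputable def cfun (t : ℕ → ℕ) (lo n m s : ℕ) : ℕ :=
  maxLt (fun i => force (Nat.mul 3 i) fun w =>
    sel (sel (Nat.ble lo w) (sel (Nat.ble s w) (Nat.ble w (Nat.add s m)) false) false) (t i) 0)
    (Nat.succ (Nat.div n 3))

lemma le_cfun (t : ℕ → ℕ) {lo n m s i : ℕ} (h1 : lo ≤ 3 * i) (h2 : s ≤ 3 * i)
    (h3 : 3 * i ≤ s + m) (h4 : 3 * i ≤ n) : t i ≤ cfun t lo n m s := by
  refine le_trans ?_ (le_maxLt _ (i := i) (show i < n / 3 + 1 by omega))
  rw [force_eq, sel_eq, if_pos]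
  rw [sel_and, sel_and, Nat.ble_eq, Nat.ble_eq, Nat.ble_eq]
  exact ⟨h1, h2, h3⟩

noncomputable def phi1 (CT P0 h k : ℕ) : ℕ :=
  maxLt (fun j => Nat.sub (Nat.mul 2 (dg CT (Nat.add (Nat.succ j) k))) (dg P0 (Nat.succ j))) h

noncomputable def init0 (CT h : ℕ) : ℕ :=
  pack (fun j => force (dg CT (Nat.mul 2 j)) fun x => sel (Nat.beq x 0)
    (mx (dg CT (Nat.sub (Nat.mul 2 j) 1)) (dg CT (Nat.succ (Nat.mul 2 j)))) x) (Nat.succ h)

noncomputable def tSum (CT P0 h : ℕ) : ℕ :=
  sumLt (fun k => Nat.mul (Sv h (Nat.succ k))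
    (Nat.add (dg P0 (Nat.succ k)) (phi1 CT P0 h (Nat.succ k)))) h

/-- twice the transport bound, passed to a continuation -/
noncomputable def trans (t : ℕ → ℕ) (lo n h : ℕ) (cont : ℕ → Bool) : Bool :=
  force (Nat.sub n (Nat.mul 2 h)) fun m =>
    packChk (cfun t lo n m) (Nat.add (Nat.mul 2 h) 2) fun CT =>
      force (init0 CT h) fun P0 => force (tSum CT P0 h) cont

lemma sum_S_Icc (h : ℕ) : ∑ j ∈ Icc 1 h, (h.choose j : ℝ) * 2 ^ j = 3 ^ h - 1 := by
  have e := add_pow (2 : ℝ) 1 h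
  rw [sum_range_succ'] at e
  rw [← Ico_add_one_right_eq_Icc, sum_Ico_eq_sum_range]
  simp only [one_pow, mul_one, pow_zero, Nat.choose_zero_right, Nat.cast_one] at e
  rw [show (2 : ℝ) + 1 = 3 by norm_num] at e
  rw [e, Nat.add_sub_cancel, add_sub_cancel_right]
  exact sum_congr rfl fun j _ => by rw [add_comm 1 j, mul_comm]

lemma trans_sound {t : ℕ → ℕ} {lo n h : ℕ} {cont : ℕ → Bool} (H : trans t lo n h cont = true)
    (h2 : 2 * h ≤ n) (C : ℝ) : ∃ (T : ℕ) (φ : ℕ → ℝ), cont T = true ∧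
      (∀ j j' i, Wt n h lo j j' (3 * i) → 2 * ((t i : ℝ) - C) ≤ φ j + φ j') ∧
      ∑ j ∈ Icc 1 h, (h.choose j : ℝ) * 2 ^ j * φ j = T / 2 - C * (3 ^ h - 1) := by
  unfold trans at H
  rw [force_eq] at H
  obtain ⟨CT, hCT, H⟩ := packChk_sound H
  rw [force_eq, force_eq] at H
  generalize init0 CT h = P0 at H
  refine ⟨_, fun j => ((dg P0 j : ℝ) + phi1 CT P0 h j) / 2 - C, H, ?_, ?_⟩
  · intro j j' i hw
    obtain ⟨a1, a2, a3, a4, a5, a6, _, a8⟩ := hw
    have b1 : t i ≤ dg CT (j + j') :=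
      (le_cfun t a8 a5 a6 (by omega)).trans (hCT (j + j') (show j + j' < 2 * h + 2 by omega))
    have b2 : ∀ a b, 1 ≤ a → a ≤ h → 2 * dg CT (a + b) ≤ dg P0 a + phi1 CT P0 h b := by
      intro a b ha ha'
      obtain ⟨a, rfl⟩ : ∃ x, a = x + 1 := ⟨a - 1, by omega⟩
      have : 2 * dg CT (a + 1 + b) - dg P0 (a + 1) ≤ phi1 CT P0 h b :=
        le_maxLt (fun j => Nat.sub (Nat.mul 2 (dg CT (Nat.add (Nat.succ j) b)))
          (dg P0 (Nat.succ j))) (show a < h by omega)
      omega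
    have c1 := b2 j j' a1 a2
    have c2 := b2 j' j a3 a4
    rw [add_comm j' j] at c2
    have : (4 * t i : ℝ) ≤ dg P0 j + phi1 CT P0 h j' + (dg P0 j' + phi1 CT P0 h j) := by
      exact_mod_cast (by omega : 4 * t i ≤ dg P0 j + phi1 CT P0 h j'
        + (dg P0 j' + phi1 CT P0 h j))
    linarith
  · have e : (tSum CT P0 h : ℝ) = ∑ j ∈ Icc 1 h, (h.choose j : ℝ) * 2 ^ j
        * ((dg P0 j : ℝ) + phi1 CT P0 h j) := by
      rw [tSum, sumLt_eq, ← Ico_add_one_right_eq_Icc, sum_Ico_eq_sum_range, Nat.add_sub_cancel,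
        Nat.cast_sum]
      refine sum_congr rfl fun k _ => ?_
      have : Nat.mul (Sv h (Nat.succ k)) (Nat.add (dg P0 (Nat.succ k))
          (phi1 CT P0 h (Nat.succ k))) = Sv h (k + 1) * (dg P0 (k + 1) + phi1 CT P0 h (k + 1)) :=
        rfl
      rw [this, Sv_eq, S, add_comm 1 k]; push_cast; ring
    rw [e, ← sum_S_Icc, mul_sum, sum_div, ← sum_sub_distrib]
    exact sum_congr rfl fun j _ => by ring

/-- the test for one hull dimension -/
noncomputable def smallH (n d N0 X KT PT h lo : ℕ) : Bool :=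
  force (Nat.pow 3 h) fun p3 =>
  trans (dg KT) lo n h fun TK =>
    force (mn (mn X (Nat.pow 3 (Nat.sub n h)))
      (Nat.div (Nat.sub (Nat.add (Nat.mul 2 X) TK) (Nat.mul (Nat.mul 2 X) (Nat.sub p3 1)))
        (Nat.mul 2 p3))) fun D =>
    sel (Nat.ble (Nat.succ (Nat.mul D (Nat.pow 3 (mn h (Nat.sub n d))))) N0) true
      (force (pfull n d N0 h) fun pf =>
        trans (fun i => sel (Nat.beq (Nat.mul 3 i) n) pf (dg PT i)) lo n h fun T =>
          Nat.ble (Nat.succ (Nat.mul D (Nat.add 2147483648 T))) (Nat.mul 2147483648 N0))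

lemma smallH_sound {n d N N0 KT PT h D lo : ℕ} (H : Hull n d N h D lo) (hN : N0 ≤ N)
    (h0 : 0 < N0) (hK : ∀ i, 3 * i ≤ n → (K n d (3 * i) : ℝ) + S n d ≤ dg KT i)
    (hP : ∀ i p, 3 * i < n → Adm n d N h (3 * i) p → p * 1073741824 ≤ dg PT i)
    (hc : smallH n d N0 (S n d) KT PT h lo = true) : False := by
  unfold smallH at hc
  rw [force_eq] at hc
  have h2 := H.two_h
  obtain ⟨TK, φ, hc, hφ, hs⟩ := trans_sound hc h2 (S n d)
  have a1 := H.mac φ (by
    intro j j' w hw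
    obtain ⟨i, rfl⟩ := hw.2.2.2.2.2.2.1
    have := hφ j j' i hw
    have := hK i (by have := hw.2.2.2.2.2.1; have := hw.2.1; have := hw.2.2.2.1; omega)
    linarith)
  rw [hs] at a1
  have a2 : D * (2 * 3 ^ h) + 2 * S n d * (3 ^ h - 1) ≤ 2 * S n d + TK := by
    have : (((3 ^ h - 1 : ℕ)) : ℝ) = 3 ^ h - 1 := by
      rw [Nat.cast_sub (Nat.one_le_pow _ _ (by norm_num))]; push_cast; ring
    have : (D : ℝ) * (2 * 3 ^ h) + 2 * S n d * ((3 ^ h - 1 : ℕ) : ℝ) ≤ 2 * S n d + TK := by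
      rw [this]; linarith
    exact_mod_cast this
  have a3 : D ≤ (2 * S n d + TK - 2 * S n d * (3 ^ h - 1)) / (2 * 3 ^ h) := by
    rw [Nat.le_div_iff_mul_le (by positivity)]; omega
  rw [force_eq, mn_eq, mn_eq, mn_eq] at hc
  have a4 : D ≤ min (min (S n d) (3 ^ (n - h)))
      ((2 * S n d + TK - 2 * S n d * (3 ^ h - 1)) / (2 * 3 ^ h)) :=
    le_min (le_min H.D_S H.D_pow) a3
  change sel (Nat.ble ((min (min (S n d) (3 ^ (n - h)))
      ((2 * S n d + TK - 2 * S n d * (3 ^ h - 1)) / (2 * 3 ^ h))) * 3 ^ (min h (n - d)) + 1) N0)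
      true _ = true at hc
  generalize min (min (S n d) (3 ^ (n - h)))
      ((2 * S n d + TK - 2 * S n d * (3 ^ h - 1)) / (2 * 3 ^ h)) = D' at a4 hc
  rw [sel_or, Nat.ble_eq] at hc
  rcases hc with hc | hc
  · have b1 : N ≤ D * 3 ^ (min h (n - d)) := by
      rcases le_total h (n - d) with h' | h'
      · rw [min_eq_left h']; exact H.triv_h
      · rw [min_eq_right h']; exact H.triv_d
    have := Nat.mul_le_mul_right (3 ^ (min h (n - d))) a4
    omega
  · rw [force_eq] at hc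
    obtain ⟨T, ψ, hc, hψ, hs'⟩ := trans_sound hc h2 0
    rw [Nat.ble_eq] at hc
    have b1 := H.cs3 (fun j => ψ j / 1073741824) (by
      intro j j' w p hw ha
      obtain ⟨i, rfl⟩ := hw.2.2.2.2.2.2.1
      have c1 := hψ j j' i hw
      have c2 : 3 * i ≤ n := by
        have := hw.2.2.2.2.2.1; have := hw.2.1; have := hw.2.2.2.1; omega
      have c3 : p * 1073741824 ≤
          (sel (Nat.beq (Nat.mul 3 i) n) (pfull n d N0 h) (dg PT i) : ℕ) := by
        rw [sel_eq]
        split_ifs with h'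
        · rw [Nat.beq_eq] at h'
          have h'' : 3 * i = n := h'
          rw [h''] at ha
          exact adm_full ha N0 h hN h0 le_rfl
        · rw [Nat.beq_eq] at h'
          have h'' : 3 * i ≠ n := h'
          exact hP i p (by omega) ha
      rw [← add_div, le_div_iff₀ (by norm_num)]
      linarith)
    have b2 : ∑ j ∈ Icc 1 h, (h.choose j : ℝ) * 2 ^ j * (ψ j / 1073741824) = T / 2147483648 := by
      have : ∑ j ∈ Icc 1 h, (h.choose j : ℝ) * 2 ^ j * (ψ j / 1073741824)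
          = (∑ j ∈ Icc 1 h, (h.choose j : ℝ) * 2 ^ j * ψ j) / 1073741824 := by
        rw [sum_div]; exact sum_congr rfl fun j _ => by ring
      rw [this, hs']; ring
    rw [b2] at b1
    have b3 : D' * (2147483648 + T) + 1 ≤ 2147483648 * N0 := hc
    have b4 : D * (2147483648 + T) < 2147483648 * N :=
      lt_of_le_of_lt (Nat.mul_le_mul_right _ a4) (by omega)
    have b5 : (D : ℝ) * (2147483648 + T) < 2147483648 * N := by exact_mod_cast b4
    linarith

noncomputable def smallM (n d N0 i : ℕ) : ℕ :=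
  sel (Nat.ble (Nat.mul 2 i) d) (Nat.succ (Nat.div (Nat.mul 1073741824
    (Nat.mul (Fv (Nat.mul 3 i) (Nat.mul 2 i))
      (Fv (Nat.sub n (Nat.mul 3 i)) (Nat.sub d (Nat.mul 2 i))))) N0)) 0

noncomputable def nineOK (n d : ℕ) : Bool :=
  sel (Nat.ble 3 d) (sel (Nat.ble (Nat.add (Fv (Nat.sub n 3) d) (Fv (Nat.sub n 3) (Nat.sub d 3)))
    (Fv (Nat.sub n 3) (Nat.sub d 2))) (Nat.ble (Nat.mul 18 (Fv (Nat.sub n 3) (Nat.sub d 2))) (Fv n d))
    false) false

noncomputable def smallE (n d N0 : ℕ) : Bool :=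
  force (Fv (Nat.sub n 1) d) fun M0 => force (Fv (Nat.sub n 1) (Nat.sub d 1)) fun M1 =>
  force (pickq n d) fun q => force (pickg n d q) fun g =>
    sel (Nat.ble (Nat.succ (Nat.add M0 (Nat.mul 2 M1))) N0)
      (sel (Nat.ble (Nat.mul q (Nat.add M0 M1)) (Nat.mul (Nat.sub q g) N0))
        (force (pickE n d q g) fun a => Ecore n d N0 q g a) false) false

lemma smallE_sound {n d N N0 : ℕ} (hd : d ≤ n) (hE : Edge n d N) (hN : N0 ≤ N)
    (h : smallE n d N0 = true) : False := by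
  unfold smallE at h
  rw [force_eq, force_eq, force_eq, force_eq, sel_and, sel_and, force_eq, Nat.ble_eq, Nat.ble_eq,
    Fv_eq, Fv_eq] at h
  obtain ⟨h1, h2, h3⟩ := h
  generalize pickq n d = q at h2 h3
  generalize pickg n d q = g at h2 h3
  have h1' : F (n - 1) d + 2 * F (n - 1) (d - 1) + 1 ≤ N0 := h1
  have h2' : q * (F (n - 1) d + F (n - 1) (d - 1)) ≤ (q - g) * N0 := h2
  rcases hE with hE | hE
  · omega
  · exact Ecore_sound hd hN hE (fun _ _ => by exact_mod_cast h2') h3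

/-- the test for one length and distance -/
noncomputable def smallD (n d : ℕ) : Bool :=
  force (Nat.succ (Fv n d)) fun N0 => sel (smallE n d N0) true
    (force (Sv n d) fun X =>
      packChk (fun i => Kp n d (Nat.mul 3 i) X) (Nat.succ (Nat.div n 3)) fun KT =>
      packChk (fun i => force (smallM n d N0 i) (psiUp 30)) (Nat.succ (Nat.div n 3)) fun PT =>
        allLt (fun h => sel (smallH n d N0 X KT PT (Nat.succ h) 3) true
          (sel (nineOK n d) (smallH n d N0 X KT PT (Nat.succ h) 6) false)) (Nat.div n 2))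

lemma hull_zero {n d N D lo : ℕ} (H : Hull n d N 0 D lo) : N ≤ F n d := by
  have h1 := H.triv_h
  have h2 := H.D_S
  have h3 := S_le_F n d
  omega

lemma smallD_sound {n d N h D : ℕ} (hd : d ≤ n) (hE : Edge n d N) (H : Hull n d N h D 3)
    (H9 : Nine n d N ∨ Hull n d N h D 6) (hc : smallD n d = true) : N ≤ F n d := by
  by_contra hN
  have hN' : F n d + 1 ≤ N := by omega
  unfold smallD at hc
  rw [force_eq, sel_or, Fv_eq] at hc
  rcases hc with hc | hc
  · exact smallE_sound hd hE hN' hc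
  rw [force_eq, Sv_eq] at hc
  obtain ⟨KT, hK, hc⟩ := packChk_sound hc
  obtain ⟨PT, hP, hc⟩ := packChk_sound hc
  rcases Nat.eq_zero_or_pos h with rfl | hh
  · exact hN (hull_zero H)
  obtain ⟨h, rfl⟩ : ∃ x, h = x + 1 := ⟨h - 1, by omega⟩
  have h2 := H.two_h
  have hc' := allLt_sound hc h (show h < n / 2 by omega)
  have hK' : ∀ i, 3 * i ≤ n → (K n d (3 * i) : ℝ) + S n d ≤ dg KT i := by
    intro i hi
    have : Kp n d (3 * i) (S n d) ≤ dg KT i := hK i (show i < n / 3 + 1 by omega)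
    exact (K_le_Kp n d (3 * i) (S n d)).trans (by exact_mod_cast this)
  have hP' : ∀ i p, 3 * i < n → Adm n d N (h + 1) (3 * i) p → p * 1073741824 ≤ dg PT i := by
    intro i p hi ha
    have a1 := hP i (show i < n / 3 + 1 by omega)
    simp only [force_eq] at a1
    refine le_trans (adm_psi ha hi (F n d + 1) (smallM n d (F n d + 1) i) 30 hN' (by omega) ?_)
      (by exact_mod_cast a1)
    intro h3
    have e : 2 * (3 * i) / 3 = 2 * i := by omega
    rw [e] at h3 ⊢
    unfold smallM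
    rw [sel_eq, if_pos (by rw [Nat.ble_eq]; exact h3), Fv_eq, Fv_eq]
    exact le_succ_div_mul _ _ (by omega)
  rw [sel_or, sel_and] at hc'
  rcases hc' with hc' | ⟨h9, hc'⟩
  · exact smallH_sound H hN' (by omega) hK' hP' hc'
  · rcases H9 with H9 | H9
    · unfold nineOK at h9
      rw [sel_and, sel_and, Nat.ble_eq, Nat.ble_eq, Nat.ble_eq, Fv_eq, Fv_eq, Fv_eq, Fv_eq] at h9
      have a1 := H9 h9.1 h9.2.1
      have a2 : 18 * F (n - 3) (d - 2) ≤ F n d := h9.2.2
      omega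
    · exact smallH_sound H9 hN' (by omega) hK' hP' hc'

noncomputable def smallN (n : ℕ) : Bool := allLt (fun d => smallD n (Nat.succ d)) n

lemma smallN_sound {n d N h D : ℕ} (hd1 : 1 ≤ d) (hd : d ≤ n) (hE : Edge n d N)
    (H : Hull n d N h D 3) (H9 : Nine n d N ∨ Hull n d N h D 6) (hc : smallN n = true) :
    N ≤ F n d := by
  obtain ⟨d, rfl⟩ : ∃ x, d = x + 1 := ⟨d - 1, by omega⟩
  exact smallD_sound hd hE H H9 (allLt_sound hc d (by omega))

end Pool.Agent.Lib.MP_990a44_co.Q3
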