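import Pool.Agent.Lib.MP_990a44_co.Q3Lin

/-! The MacWilliams identity and bounds for the number of words of given weight in a dual code. -/

namespace Pool.Agent.Lib.MP_990a44_co.Q3

open Finset Polynomial

variable {ι : Type} [Fintype ι] [DecidableEq ι]

open Classical in
/-- the words orthogonal to `H` -/
noncomputable def dual (H : Submodule (ZMod 3) (ι → ZMod 3)) : Finset (ι → ZMod 3) :=
  univ.filter fun c => ∀ e ∈ H, c ⬝ᵥ e = 0

theorem mem_dual {H : Submodule (ZMod 3) (ι → ZMod 3)} {c : ι → ZMod 3} :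
    c ∈ dual H ↔ ∀ e ∈ H, c ⬝ᵥ e = 0 := by simp [dual]

/-- the number of words of weight `d` orthogonal to `H` -/
noncomputable def Dn (H : Submodule (ZMod 3) (ι → ZMod 3)) (d : ℕ) : ℕ :=
  ((dual H).filter fun c => wt univ c = d).card

/-- the standard additive character -/
noncomputable def chi : AddChar (ZMod 3) ℂ := ZMod.stdAddChar

theorem chi_ne_one {t : ZMod 3} (ht : t ≠ 0) : chi t ≠ 1 := by
  intro h
  apply ht
  apply ZMod.injective_stdAddChar (N := 3)
  rw [AddChar.map_zero_eq_one]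
  exact h

theorem chi_add : chi 1 + chi 2 = -1 := by
  have h : ∑ x, chi x = 0 := AddChar.sum_eq_zero_of_ne_one fun h =>
    chi_ne_one (t := 1) (by decide) (by rw [h]; rfl)
  have e : ∑ x, chi x = chi 0 + chi 1 + chi 2 := Fin.sum_univ_three fun x : ZMod 3 => chi x
  rw [e, AddChar.map_zero_eq_one] at h
  linear_combination h

theorem chi_sum {M : Type*} (s : Finset M) (f : M → ZMod 3) :
    chi (∑ i ∈ s, f i) = ∏ i ∈ s, chi (f i) := by
  classical
  induction s using Finset.induction_on with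
  | empty => simp
  | insert a s ha ih => rw [sum_insert ha, prod_insert ha, AddChar.map_add_eq_mul, ih]

theorem sum_chi (H : Submodule (ZMod 3) (ι → ZMod 3)) (c : ι → ZMod 3) :
    ∑ f ∈ words H, chi (c ⬝ᵥ f) = if c ∈ dual H then ((words H).card : ℂ) else 0 := by
  split_ifs with hc
  · rw [sum_congr rfl (g := fun _ => (1 : ℂ)) fun f hf => by
      rw [mem_dual.1 hc f (mem_words.1 hf), AddChar.map_zero_eq_one]]
    simp
  · rw [mem_dual] at hc
    push Not at hc
    obtain ⟨e, he, hce⟩ := hc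
    have h1 : ∑ f ∈ words H, chi (c ⬝ᵥ (f + e)) = ∑ f ∈ words H, chi (c ⬝ᵥ f) := by
      refine sum_bij (fun f _ => f + e) ?_ ?_ ?_ fun _ _ => rfl
      · intro f hf
        exact mem_words.2 (H.add_mem (mem_words.1 hf) he)
      · intro f _ f' _ h
        exact add_right_cancel h
      · intro f hf
        exact ⟨f - e, mem_words.2 (H.sub_mem (mem_words.1 hf) he), sub_add_cancel f e⟩
    simp only [dotProduct_add, AddChar.map_add_eq_mul] at h1
    rw [← sum_mul] at h1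
    have h2 : (∑ f ∈ words H, chi (c ⬝ᵥ f)) * (chi (c ⬝ᵥ e) - 1) = 0 := by
      linear_combination h1
    exact (mul_eq_zero.1 h2).resolve_right (sub_ne_zero.2 (chi_ne_one hce))

/-- the letter factor of the MacWilliams transform -/
noncomputable def gg (U : ℂ[X]) (t : ZMod 3) : ℂ[X] := if t = 0 then 1 + 2 * U else 1 - U

theorem letter_chi (U : ℂ[X]) (t : ZMod 3) :
    ∑ x : ZMod 3, (if x = 0 then 1 else U) * C (chi (x * t)) = gg U t := by
  have e : ∀ f : ZMod 3 → ℂ[X], ∑ x, f x = f 0 + f 1 + f 2 := fun f => Fin.sum_univ_three f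
  rw [e, if_pos rfl, if_neg (by decide), if_neg (by decide), zero_mul, AddChar.map_zero_eq_one]
  have hC : C (chi 1) + C (chi 2) = (-1 : ℂ[X]) := by rw [← C_add, chi_add]; simp
  have ht : ∀ t : ZMod 3, t = 0 ∨ t = 1 ∨ t = 2 := by decide
  rcases ht t with rfl | rfl | rfl
  · simp only [mul_zero, AddChar.map_zero_eq_one, gg, C_1, if_true]
    ring
  · rw [gg, if_neg (by decide), show (1 * 1 : ZMod 3) = 1 from rfl,
      show (2 * 1 : ZMod 3) = 2 from rfl, C_1]
    linear_combination U * hC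
  · rw [gg, if_neg (by decide), show (1 * 2 : ZMod 3) = 2 from rfl,
      show (2 * 2 : ZMod 3) = 1 from rfl, C_1]
    linear_combination U * hC

omit [DecidableEq ι] in
theorem pow_wt (U : ℂ[X]) (c : ι → ZMod 3) :
    U ^ wt univ c = ∏ i, if c i = 0 then 1 else U := by
  rw [wt, ← prod_const, prod_filter]
  exact prod_congr rfl fun i _ => by by_cases h : c i = 0 <;> simp [h]

theorem macwilliams (H : Submodule (ZMod 3) (ι → ZMod 3)) (U : ℂ[X]) :
    C ((words H).card : ℂ) * ∑ c ∈ dual H, U ^ wt univ c = ∑ f ∈ words H, ∏ i, gg U (f i) := by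
  have h1 : ∀ f : ι → ZMod 3, ∏ i, gg U (f i) = ∑ c, U ^ wt univ c * C (chi (c ⬝ᵥ f)) := by
    intro f
    have := sum_box_prod (univ : Finset ι)
      (fun i (x : ZMod 3) => (if x = 0 then 1 else U) * C (chi (x * f i)))
    rw [box_univ] at this
    simp only [letter_chi] at this
    rw [← this]
    refine sum_congr rfl fun c _ => ?_
    rw [prod_mul_distrib, ← pow_wt, dotProduct, chi_sum, map_prod]
  simp only [h1]
  rw [sum_comm]
  simp only [← mul_sum, ← map_sum, sum_chi]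
  rw [mul_sum, ← sum_filter_add_sum_filter_not univ (fun c => c ∈ dual H)]
  rw [sum_eq_zero (s := univ.filter fun c => ¬ c ∈ dual H) fun c hc => by
    rw [if_neg (mem_filter.1 hc).2]; simp]
  rw [add_zero, filter_mem_eq_inter, univ_inter]
  exact sum_congr rfl fun c hc => by rw [if_pos hc, mul_comm]

theorem coeff_lin_pow (a : ℂ) (k j : ℕ) :
    ((1 + C a * X) ^ k).coeff j = (k.choose j : ℂ) * a ^ j := by
  have : (1 + C a * X : ℂ[X]) ^ k = ((1 + X) ^ k).comp (C a * X) := by simp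
  rw [this, comp_C_mul_X_coeff, coeff_one_add_X_pow]

theorem coeff_dual (H : Submodule (ZMod 3) (ι → ZMod 3)) (z : ℂ) (d : ℕ) :
    (∑ c ∈ dual H, (C z * X) ^ wt univ c).coeff d = Dn H d * z ^ d := by
  rw [finsetSum_coeff, Dn, card_filter]
  push_cast
  rw [sum_mul]
  refine sum_congr rfl fun c _ => ?_
  rw [mul_pow, ← C_pow, coeff_C_mul, coeff_X_pow]
  by_cases h : wt univ c = d
  · simp [h]
  · simp [h, Ne.symm h]

omit [DecidableEq ι] in
theorem prod_gg (U : ℂ[X]) (f : ι → ZMod 3) :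
    ∏ i, gg U (f i) = (1 - U) ^ wt univ f * (1 + 2 * U) ^ (Fintype.card ι - wt univ f) := by
  unfold gg
  rw [prod_ite, prod_const, prod_const, mul_comm]
  have := card_filter_add_card_filter_not (s := (univ : Finset ι)) (fun i => f i = 0)
  rw [card_univ] at this
  have h2 : (univ.filter fun i => f i = 0).card = Fintype.card ι - wt univ f := by
    unfold wt
    simp only [ne_eq]
    omega
  rw [h2]
  rfl

theorem mac_K (H : Submodule (ZMod 3) (ι → ZMod 3)) (d : ℕ) :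
    ((words H).card : ℤ) * Dn H d = ∑ f ∈ words H, K (Fintype.card ι) d (wt univ f) := by
  have h := congrArg (fun p => p.coeff d) (macwilliams H (C 1 * X))
  simp only [coeff_C_mul, coeff_dual, finsetSum_coeff (s := words H), prod_gg] at h
  have h2 : ∀ w m : ℕ, ((1 - C 1 * X : ℂ[X]) ^ w * (1 + 2 * (C 1 * X)) ^ m).coeff d =
      ((∑ i ∈ range (d + 1), (-1) ^ i * (w.choose i : ℤ) * (2 ^ (d - i) * (m.choose (d - i) : ℤ))
        : ℤ) : ℂ) := by
    intro w m
    rw [show (1 - C 1 * X : ℂ[X]) = 1 + C (-1) * X by simp [sub_eq_add_neg],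
      show (1 + 2 * (C 1 * X) : ℂ[X]) = 1 + C 2 * X by simp; rfl, coeff_mul,
      Finset.Nat.sum_antidiagonal_eq_sum_range_succ_mk]
    push_cast
    refine sum_congr rfl fun i _ => ?_
    rw [coeff_lin_pow, coeff_lin_pow]
    ring
  simp only [h2, one_pow, mul_one] at h
  unfold K
  exact_mod_cast h

theorem K_zero (n d : ℕ) : K n d 0 = S n d := by
  unfold K S
  rw [sum_eq_single 0]
  · simp
  · intro i _ hi
    rw [Nat.choose_eq_zero_of_lt (Nat.pos_of_ne_zero hi)]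
    simp
  · intro h; simp at h

theorem Dn_le_S (H : Submodule (ZMod 3) (ι → ZMod 3)) (d : ℕ) : Dn H d ≤ S (Fintype.card ι) d := by
  rw [← card_sphere]
  exact card_le_card (filter_subset_filter _ (subset_univ _))

theorem Dn_le_pow {H : Submodule (ZMod 3) (ι → ZMod 3)} {I : Finset ι} (hI : Info H I) (d : ℕ) :
    Dn H d ≤ 3 ^ (Fintype.card ι - I.card) := by
  rw [← card_compl, ← card_box]
  refine (card_filter_le _ _).trans
    (card_le_card_of_injOn (proj Iᶜ) (fun c _ => proj_mem_box _ c) ?_)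
  intro c hc c' hc' h
  rw [mem_coe, mem_dual] at hc hc'
  have := hI.eq_zero_of_orth (c := c - c')
    (fun e he => by rw [sub_dotProduct, hc e he, hc' e he, sub_self])
    fun i hi => by rw [Pi.sub_apply, proj_eq_iff.1 h i hi, sub_self]
  exact sub_eq_zero.1 this

/-- squared coefficient norm -/
noncomputable def nsq (p : ℂ[X]) : ℝ := ∑ i ∈ p.support, ‖p.coeff i‖ ^ 2

theorem sum_le_nsq (p : ℂ[X]) (s : Finset ℕ) : ∑ i ∈ s, ‖p.coeff i‖ ^ 2 ≤ nsq p := by
  rw [← sum_filter_add_sum_filter_not s (fun i => i ∈ p.support),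
    sum_eq_zero (s := s.filter fun i => ¬ i ∈ p.support) fun i hi => by
      rw [notMem_support_iff.1 (mem_filter.1 hi).2]; simp, add_zero]
  exact sum_le_sum_of_subset_of_nonneg (fun i hi => (mem_filter.1 hi).2) fun _ _ _ => sq_nonneg _

theorem coeff_cs {M : Type*} (s : Finset M) (p q : M → ℂ[X]) (d : ℕ) :
    ‖∑ f ∈ s, (p f * q f).coeff d‖ ^ 2 ≤ (∑ f ∈ s, nsq (p f)) * ∑ f ∈ s, nsq (q f) := by
  have h1 : ‖∑ f ∈ s, (p f * q f).coeff d‖ ≤
      ∑ x ∈ s ×ˢ range (d + 1), ‖(p x.1).coeff x.2‖ * ‖(q x.1).coeff (d - x.2)‖ := by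
    rw [sum_product]
    refine (norm_sum_le _ _).trans (sum_le_sum fun f _ => ?_)
    rw [coeff_mul, Finset.Nat.sum_antidiagonal_eq_sum_range_succ_mk]
    exact (norm_sum_le _ _).trans (sum_le_sum fun i _ => norm_mul_le _ _)
  refine (pow_le_pow_left₀ (norm_nonneg _) h1 2).trans
    ((sum_mul_sq_le_sq_mul_sq _ _ _).trans ?_)
  refine mul_le_mul ?_ ?_ (sum_nonneg fun _ _ => sq_nonneg _)
    (sum_nonneg fun _ _ => sum_nonneg fun _ _ => sq_nonneg _)
  · rw [sum_product]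
    exact sum_le_sum fun f _ => sum_le_nsq (p f) _
  · rw [sum_product]
    refine sum_le_sum fun f _ => ?_
    have := sum_range_reflect (fun i => ‖(q f).coeff i‖ ^ 2) (d + 1)
    simp only [Nat.add_sub_cancel] at this
    rw [this]
    exact sum_le_nsq (q f) _

theorem circ_int {f : ℂ → ℝ} (hf : Continuous f) : CircleIntegrable f 0 1 :=
  hf.continuousOn.circleIntegrable zero_le_one

theorem nsq_lin (a : ℝ) (k : ℕ) :
    Real.circleAverage (fun u : ℂ => (‖1 + (a : ℂ) * u‖ ^ 2) ^ k) 0 1 =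
      ∑ j ∈ range (k + 1), (k.choose j : ℝ) ^ 2 * a ^ (2 * j) := by
  have h := sum_sq_norm_coeff_eq_circleAverage ((1 + C (a : ℂ) * X) ^ k)
  have h1 : (fun θ : ℂ => ‖eval θ ((1 + C (a : ℂ) * X) ^ k)‖ ^ 2) =
      fun u : ℂ => (‖1 + (a : ℂ) * u‖ ^ 2) ^ k := by
    funext u
    simp only [eval_pow, eval_add, eval_one, eval_mul, eval_C, eval_X, norm_pow]
    ring
  rw [h1] at h
  rw [← h]
  have h2 : ∀ j, ‖((1 + C (a : ℂ) * X) ^ k).coeff j‖ ^ 2 = (k.choose j : ℝ) ^ 2 * a ^ (2 * j) := by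
    intro j
    rw [coeff_lin_pow, norm_mul, norm_pow, Complex.norm_natCast, Complex.norm_real, mul_pow,
      ← pow_mul, mul_comm j 2, pow_mul, pow_mul, Real.norm_eq_abs, sq_abs]
  rw [← sum_congr rfl fun j _ => h2 j]
  refine sum_subset ?_ ?_
  · intro j hj
    rw [mem_support_iff, coeff_lin_pow] at hj
    rw [mem_range]
    by_contra hh
    exact hj (by rw [Nat.choose_eq_zero_of_lt (by omega)]; simp)
  · intro j _ hj
    rw [notMem_support_iff.1 hj]
    simp

/-- squared modulus of the letter factor -/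
noncomputable def ga (z : ℝ) (u : ℂ) (t : ZMod 3) : ℝ := ‖(gg (C (z : ℂ) * X) t).eval u‖ ^ 2

theorem ga_eq (z : ℝ) (u : ℂ) (t : ZMod 3) : ga z u t =
    if t = 0 then ‖1 + ((2 * z : ℝ) : ℂ) * u‖ ^ 2 else ‖1 + ((-z : ℝ) : ℂ) * u‖ ^ 2 := by
  unfold ga gg
  split_ifs
  · simp [mul_assoc]
  · simp [sub_eq_add_neg]

theorem ga_sum (z : ℝ) {u : ℂ} (hu : ‖u‖ = 1) : ∑ t, ga z u t = 3 * (1 + 2 * z ^ 2) := by
  have e : ∑ t, ga z u t = ga z u 0 + ga z u 1 + ga z u 2 :=
    Fin.sum_univ_three fun t : ZMod 3 => ga z u t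
  rw [e, ga_eq, ga_eq, ga_eq, if_pos rfl, if_neg (by decide), if_neg (by decide)]
  have h1 : u.re ^ 2 + u.im ^ 2 = 1 := by
    have := Complex.sq_norm u
    rw [hu, Complex.normSq_apply] at this
    linarith
  simp only [Complex.sq_norm, Complex.normSq_apply, Complex.add_re, Complex.one_re,
    Complex.add_im, Complex.one_im, Complex.re_ofReal_mul, Complex.im_ofReal_mul]
  linear_combination (6 * z ^ 2) * h1

theorem half_bound {H : Submodule (ZMod 3) (ι → ZMod 3)} {I T : Finset ι} (hI : Info H I)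
    (hIT : Disjoint I T) (z : ℝ) (Bd : ℂ → ℝ) (hB : Continuous Bd)
    (h : ∀ u : ℂ, ‖u‖ = 1 → ∀ f : ι → ZMod 3, ∏ i ∈ T, ga z u (f i) ≤ Bd u) :
    ∑ f ∈ words H, nsq (∏ i ∈ I ∪ T, gg (C (z : ℂ) * X) (f i)) ≤
      (3 * (1 + 2 * z ^ 2)) ^ I.card * Real.circleAverage Bd 0 1 := by
  unfold nsq
  simp only [sum_sq_norm_coeff_eq_circleAverage]
  rw [← Real.circleAverage_fun_sum fun f _ => circ_int (by fun_prop),
    ← smul_eq_mul ((3 * (1 + 2 * z ^ 2)) ^ I.card), ← Real.circleAverage_fun_smul]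
  refine Real.circleAverage_mono (circ_int (by fun_prop)) (circ_int (by fun_prop)) fun u hu => ?_
  have hu1 : ‖u‖ = 1 := by simpa using hu
  rw [smul_eq_mul, ← ga_sum z hu1, ← hI.sum_prod, sum_mul]
  refine sum_le_sum fun f _ => ?_
  rw [eval_prod, norm_prod, ← prod_pow, prod_union hIT]
  exact mul_le_mul_of_nonneg_left (h u hu1 f) (prod_nonneg fun i _ => sq_nonneg _)

theorem four_aux {H : Submodule (ZMod 3) (ι → ZMod 3)} {I J T T' : Finset ι} (hI : Info H I)
    (hJ : Info H J) (hc : I.card = J.card) (hIT : Disjoint I T) (hJT : Disjoint J T')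
    (hU : J ∪ T' = (I ∪ T)ᶜ) (z : ℝ) (hz : 0 < z) (d : ℕ) (Bd Bd' : ℂ → ℝ) (hB : Continuous Bd)
    (hB' : Continuous Bd')
    (h : ∀ u : ℂ, ‖u‖ = 1 → ∀ f : ι → ZMod 3, ∏ i ∈ T, ga z u (f i) ≤ Bd u)
    (h' : ∀ u : ℂ, ‖u‖ = 1 → ∀ f : ι → ZMod 3, ∏ i ∈ T', ga z u (f i) ≤ Bd' u) :
    ((Dn H d : ℝ) * z ^ d) ^ 2 ≤ (1 + 2 * z ^ 2) ^ (2 * I.card) *
      (Real.circleAverage Bd 0 1 * Real.circleAverage Bd' 0 1) := by
  have b1 := half_bound hI hIT z Bd hB h
  have b2 := half_bound hJ hJT z Bd' hB' h'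
  have hm := congrArg (fun p => p.coeff d) (macwilliams H (C (z : ℂ) * X))
  simp only [coeff_C_mul, coeff_dual, finsetSum_coeff (s := words H)] at hm
  have hs := coeff_cs (words H) (fun f => ∏ i ∈ I ∪ T, gg (C (z : ℂ) * X) (f i))
    (fun f => ∏ i ∈ J ∪ T', gg (C (z : ℂ) * X) (f i)) d
  simp only [hU, prod_mul_prod_compl] at hs
  rw [← hm, ← hU, hI.card_words] at hs
  have hn : ‖((3 ^ I.card : ℕ) : ℂ) * (Dn H d * (z : ℂ) ^ d)‖ = 3 ^ I.card * (Dn H d * z ^ d) := by
    rw [norm_mul, norm_mul, norm_pow, Complex.norm_natCast, Complex.norm_natCast,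
      Complex.norm_real, Real.norm_of_nonneg hz.le]
    push_cast
    ring
  rw [hn] at hs
  have n0 : ∀ p : ℂ[X], 0 ≤ nsq p := fun p => sum_nonneg fun _ _ => sq_nonneg _
  have h3 := hs.trans (mul_le_mul b1 b2 (sum_nonneg fun _ _ => n0 _)
    ((sum_nonneg fun _ _ => n0 _).trans b1))
  rw [← hc] at h3
  have hp : (0 : ℝ) < (3 ^ I.card) ^ 2 := by positivity
  refine le_of_mul_le_mul_left ?_ hp
  calc _ = (3 ^ I.card * ((Dn H d : ℝ) * z ^ d)) ^ 2 := by ring
    _ ≤ _ := h3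
    _ = _ := by rw [mul_pow, two_mul I.card, pow_add]; ring

theorem exists_halves {I J : Finset ι} (hIJ : Disjoint I J) (hc : I.card = J.card) {k k' : ℕ}
    (hk : k + k' = Fintype.card ι - 2 * I.card) :
    ∃ T T' : Finset ι, Disjoint I T ∧ Disjoint J T' ∧ J ∪ T' = (I ∪ T)ᶜ ∧ T.card = k ∧
      T'.card = k' := by
  have h1 : ((I ∪ J)ᶜ).card = k + k' := by
    rw [card_compl, card_union_of_disjoint hIJ, hk, ← hc, two_mul]
  obtain ⟨T, hT, hTc⟩ := exists_subset_card_eq (s := (I ∪ J)ᶜ) (n := k) (by omega)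
  have hm : ∀ i ∈ T, i ∉ I ∧ i ∉ J := fun i hi => by simpa using hT hi
  refine ⟨T, (I ∪ J)ᶜ \ T, disjoint_right.2 fun i hi => (hm i hi).1,
    disjoint_right.2 fun i hi => ?_, ?_, hTc, ?_⟩
  · have := (mem_sdiff.1 hi).1
    simp only [mem_compl, mem_union, not_or] at this
    exact this.2
  · ext i
    have h2 : i ∈ I → i ∉ J := fun hi => disjoint_left.1 hIJ hi
    have h3 := hm i
    simp only [mem_union, mem_sdiff, mem_compl, not_or]
    tauto
  · rw [card_sdiff_of_subset hT, h1, hTc]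
    omega

theorem Dn_four {H : Submodule (ZMod 3) (ι → ZMod 3)} {I J : Finset ι} (hI : Info H I)
    (hJ : Info H J) (hIJ : Disjoint I J) (hc : I.card = J.card) (d : ℕ) (z : ℝ) (k k' : ℕ)
    (hz : 0 < z) (hk : k + k' = Fintype.card ι - 2 * I.card) :
    ((Dn H d : ℝ) * z ^ d) ^ 2 ≤ (1 + 2 * z ^ 2) ^ (2 * I.card) * (P k z * P k' z) := by
  obtain ⟨T, T', h1, h2, h3, rfl, rfl⟩ := exists_halves hIJ hc hk
  let Bd : ℕ → ℂ → ℝ := fun k u =>
    (‖1 + ((2 * z : ℝ) : ℂ) * u‖ ^ 2) ^ k + (‖1 + ((-z : ℝ) : ℂ) * u‖ ^ 2) ^ k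
  have hB : ∀ (T : Finset ι) (u : ℂ), ‖u‖ = 1 → ∀ f : ι → ZMod 3,
      ∏ i ∈ T, ga z u (f i) ≤ Bd T.card u := by
    intro T u _ f
    simp only [Bd]
    set a := ‖1 + ((2 * z : ℝ) : ℂ) * u‖ ^ 2 with ha
    set b := ‖1 + ((-z : ℝ) : ℂ) * u‖ ^ 2 with hb
    have a0 : 0 ≤ a := sq_nonneg _
    have b0 : 0 ≤ b := sq_nonneg _
    have : ∏ i ∈ T, ga z u (f i) ≤ (max a b) ^ T.card := by
      rw [← prod_const]
      refine prod_le_prod (fun i _ => sq_nonneg _) fun i _ => ?_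
      rw [ga_eq]
      split_ifs
      · exact le_max_left _ _
      · exact le_max_right _ _
    refine this.trans ?_
    rcases le_total a b with hab | hab
    · rw [max_eq_right hab]; exact le_add_of_nonneg_left (pow_nonneg a0 _)
    · rw [max_eq_left hab]; exact le_add_of_nonneg_right (pow_nonneg b0 _)
  have hP : ∀ k, Real.circleAverage (Bd k) 0 1 = P k z := by
    intro k
    simp only [Bd]
    rw [Real.circleAverage_fun_add (circ_int (by fun_prop)) (circ_int (by fun_prop)), nsq_lin,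
      nsq_lin, P, ← sum_add_distrib]
    refine sum_congr rfl fun j _ => ?_
    rw [pow_mul (-z), neg_sq, ← pow_mul, mul_add]
  rw [← hP, ← hP]
  exact four_aux hI hJ hc h1 h2 h3 z hz d _ _ (by simp only [Bd]; fun_prop)
    (by simp only [Bd]; fun_prop) (hB T) (hB T')

theorem Dn_tilt {H : Submodule (ZMod 3) (ι → ZMod 3)} {I J : Finset ι} (hI : Info H I)
    (hJ : Info H J) (hIJ : Disjoint I J) (hc : I.card = J.card) (d : ℕ) (z : ℝ) (hz : 0 < z) :
    (Dn H d : ℝ) * z ^ d ≤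
      (1 + 2 * z ^ 2) ^ I.card * (1 + 2 * z) ^ (Fintype.card ι - 2 * I.card) := by
  obtain ⟨T, T', h1, h2, h3, h4, h5⟩ := exists_halves hIJ hc
    (k := Fintype.card ι - 2 * I.card) (k' := Fintype.card ι - 2 * I.card - (Fintype.card ι -
      2 * I.card)) (by omega)
  have hB : ∀ (T : Finset ι) (u : ℂ), ‖u‖ = 1 → ∀ f : ι → ZMod 3,
      ∏ i ∈ T, ga z u (f i) ≤ ((1 + 2 * z) ^ 2) ^ T.card := by
    intro T u hu f
    rw [← prod_const]
    refine prod_le_prod (fun i _ => sq_nonneg _) fun i _ => ?_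
    have : ∀ a : ℝ, |a| ≤ 2 * z → ‖1 + (a : ℂ) * u‖ ^ 2 ≤ (1 + 2 * z) ^ 2 := by
      intro a ha
      refine pow_le_pow_left₀ (norm_nonneg _) ((norm_add_le _ _).trans ?_) 2
      rw [norm_one, norm_mul, hu, Complex.norm_real, Real.norm_eq_abs]
      linarith
    rw [ga_eq]
    split_ifs
    · exact this _ (abs_of_pos (by linarith)).le
    · exact this _ (by rw [abs_neg, abs_of_pos hz]; linarith)
  have := four_aux hI hJ hc h1 h2 h3 z hz d (fun _ => ((1 + 2 * z) ^ 2) ^ T.card)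
    (fun _ => ((1 + 2 * z) ^ 2) ^ T'.card) continuous_const continuous_const (hB T) (hB T')
  rw [Real.circleAverage_const, Real.circleAverage_const, h4, h5, Nat.sub_self, pow_zero,
    mul_one] at this
  refine le_of_sq_le_sq ?_ (by positivity)
  refine this.trans (le_of_eq ?_)
  rw [mul_pow, ← pow_mul, ← pow_mul, ← pow_mul, mul_comm 2 I.card,
    mul_comm 2 (Fintype.card ι - _)]

end Pool.Agent.Lib.MP_990a44_co.Q3
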