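import Pool.Agent.Lib.MP_990a44_co.Q3Line
import Pool.Agent.Lib.MP_990a44_co.Q3Mac

/-! The hull of a constant distance pair and the facts used by the arithmetic part. -/

namespace Pool.Agent.Lib.MP_990a44_co.Q3

open Finset

variable {ι : Type} [Fintype ι] [DecidableEq ι]

/-- the span of the common differences of `A` and `B` -/
def hull (A B : Finset (ι → ZMod 3)) : Submodule (ZMod 3) (ι → ZMod 3) :=
  Submodule.span (ZMod 3) {e | (∃ a ∈ A, a + e ∈ A) ∧ ∃ b ∈ B, b + e ∈ B}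

omit [DecidableEq ι] in
theorem orth_span {s : Set (ι → ZMod 3)} {c : ι → ZMod 3} (h : ∀ e ∈ s, c ⬝ᵥ e = 0) :
    ∀ e ∈ Submodule.span (ZMod 3) s, c ⬝ᵥ e = 0 := by
  intro e he
  induction he using Submodule.span_induction with
  | mem x hx => exact h x hx
  | zero => simp
  | add x y _ _ hx hy => rw [dotProduct_add, hx, hy, add_zero]
  | smul c x _ hx => rw [dotProduct_smul, hx, smul_zero]

omit [DecidableEq ι] in
theorem hull_orth {A B : Finset (ι → ZMod 3)} {d : ℕ} (h : CD A B d) :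
    ∀ e ∈ hull A B, ∀ f ∈ hull A B, e ⬝ᵥ f = 0 := by
  intro e he
  refine orth_span fun f hf => ?_
  rw [dotProduct_comm]
  refine orth_span (fun g hg => ?_) e he
  obtain ⟨⟨a, ha, ha'⟩, -⟩ := hf
  obtain ⟨-, b, hb, hb'⟩ := hg
  simpa using h.orth ha ha' hb hb'

theorem diff_mem_dual {A B : Finset (ι → ZMod 3)} {d : ℕ} (h : CD A B d) {a b : ι → ZMod 3}
    (ha : a ∈ A) (hb : b ∈ B) : b - a ∈ dual (hull A B) := by
  refine mem_dual.2 (orth_span fun e he => ?_)
  obtain ⟨⟨a₁, ha₁, ha₁'⟩, b₁, hb₁, hb₁'⟩ := he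
  have o1 := h.orth ha₁ ha₁' hb₁ hb
  have o2 := h.orth ha₁ ha hb₁ hb₁'
  have s1 := h.sq ha₁ hb₁
  have s2 := h.sq ha₁' hb₁
  have s3 := h.sq ha₁ hb₁'
  rw [add_sub_cancel_left] at o1 o2
  rw [show b₁ - (a₁ + e) = (b₁ - a₁) - e by abel] at s2
  rw [show b₁ + e - a₁ = (b₁ - a₁) + e by abel] at s3
  rw [show b - a = (b₁ - a₁) + (b - b₁) - (a - a₁) by abel]
  generalize b₁ - a₁ = c at *
  generalize b - b₁ = u at *
  generalize a - a₁ = v at *
  simp only [sub_dotProduct, dotProduct_sub, add_dotProduct, dotProduct_add] at s2 s3 ⊢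
  rw [dotProduct_comm e c] at s2 s3
  rw [dotProduct_comm e u] at o1
  have h3 : (3 : ZMod 3) = 0 := rfl
  linear_combination s3 - s2 + o1 - o2 - (c ⬝ᵥ e) * h3

/-- the words of `A` whose shift by `c` lies in `B` -/
def cl (A B : Finset (ι → ZMod 3)) (c : ι → ZMod 3) : Finset (ι → ZMod 3) :=
  A.filter fun a => a + c ∈ B

omit [DecidableEq ι] in
theorem card_mul_eq (X Y T : Finset (ι → ZMod 3)) (h : ∀ x ∈ X, ∀ y ∈ Y, y - x ∈ T) :
    X.card * Y.card = ∑ c ∈ T, (cl X Y c).card := by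
  simp only [cl, card_filter]
  rw [sum_comm, ← smul_eq_mul, ← sum_const]
  refine sum_congr rfl fun x hx => ?_
  rw [← card_filter]
  refine card_bij (fun y _ => y - x) ?_ ?_ ?_
  · intro y hy
    rw [mem_filter]
    exact ⟨h x hx y hy, by simpa using hy⟩
  · intro y _ y' _ hh
    exact sub_left_injective hh
  · intro c hc
    rw [mem_filter] at hc
    exact ⟨x + c, hc.2, by simp⟩

omit [DecidableEq ι] in
theorem cl_diff {A B : Finset (ι → ZMod 3)} {c a a' : ι → ZMod 3} (ha : a ∈ cl A B c)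
    (ha' : a' ∈ cl A B c) : a' - a ∈ hull A B := by
  rw [cl, mem_filter] at ha ha'
  refine Submodule.subset_span ⟨⟨a, ha.1, by simpa using ha'.1⟩, a + c, ha.2, ?_⟩
  rw [show a + c + (a' - a) = a' + c by abel]
  exact ha'.2

theorem cl_le_words (A B : Finset (ι → ZMod 3)) (c : ι → ZMod 3) :
    (cl A B c).card ≤ (words (hull A B)).card := by
  rcases (cl A B c).eq_empty_or_nonempty with h | ⟨a, ha⟩
  · simp [h]
  · refine card_le_card_of_injOn (fun x => x - a) (fun x hx => mem_words.2 (cl_diff ha hx)) ?_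
    intro x _ y _ hh
    exact sub_left_injective hh

theorem cl_le_pow {A B : Finset (ι → ZMod 3)} {d : ℕ} (h : CD A B d) {c : ι → ZMod 3}
    (hc : wt univ c = d) : (cl A B c).card ≤ 3 ^ (Fintype.card ι - d) := by
  have h1 : (supp c)ᶜ.card = Fintype.card ι - d := by rw [card_compl, card_supp, hc]
  rw [← h1, ← card_box]
  refine card_le_card_of_injOn (proj (supp c)ᶜ) (fun x _ => proj_mem_box _ x) ?_
  intro a ha a' ha' hh
  rw [mem_coe, cl, mem_filter] at ha ha'
  have e1 := h a' ha'.1 _ ha.2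
  have e2 := h a ha.1 _ ha'.2
  rw [hd_eq_wt] at e1 e2
  have key : wt univ (a + c - a') + wt univ (a' + c - a) + wt univ (a' - a) = 2 * wt univ c := by
    simp only [wt_eq_sum, mul_sum, ← sum_add_distrib]
    refine sum_congr rfl fun i _ => ?_
    have hi : c i = 0 → a i = a' i := fun h0 =>
      proj_eq_iff.1 hh i (by simp [supp, h0])
    have aux : ∀ x y z : ZMod 3, (z = 0 → x = y) →
        ((if x + z - y ≠ 0 then 1 else 0) + (if y + z - x ≠ 0 then 1 else 0) +
          (if y - x ≠ 0 then 1 else 0) : ℕ) = 2 * (if z ≠ 0 then 1 else 0) := by decide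
    exact aux (a i) (a' i) (c i) hi
  have h0 : wt univ (a' - a) = 0 := by omega
  have : a' - a = 0 := funext fun i => wt_eq_zero.1 h0 i (mem_univ i)
  exact (sub_eq_zero.1 this).symm

theorem sum_cl_sq (A B T : Finset (ι → ZMod 3)) :
    ∑ c ∈ T, (cl A B c).card ^ 2 ≤
      ∑ e ∈ words (hull A B), (Sh A e).card * (Sh B e).card := by
  simp only [sq, ← card_product, ← card_sigma]
  refine card_le_card_of_injOn (fun x => ⟨x.2.2 - x.2.1, (x.2.1, x.2.1 + x.1)⟩) ?_ ?_
  · rintro ⟨c, a, a'⟩ hx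
    rw [mem_coe, mem_sigma, mem_product] at hx
    obtain ⟨-, ha, ha'⟩ := hx
    rw [mem_coe, mem_sigma, mem_product]
    refine ⟨mem_words.2 (cl_diff ha ha'), ?_, ?_⟩
    · rw [cl, mem_filter] at ha ha'
      rw [Sh, mem_filter]
      exact ⟨ha.1, by simpa using ha'.1⟩
    · rw [cl, mem_filter] at ha ha'
      rw [Sh, mem_filter]
      refine ⟨ha.2, ?_⟩
      show a + c + (a' - a) ∈ B
      rw [show a + c + (a' - a) = a' + c by abel]
      exact ha'.2
  · rintro ⟨c, a, a'⟩ _ ⟨c₁, a₁, a₁'⟩ _ hh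
    simp only [Sigma.mk.injEq, heq_eq_eq, Prod.mk.injEq] at hh
    obtain ⟨h1, h2, h3⟩ := hh
    subst h2
    have h4 : c = c₁ := add_left_cancel h3
    have h5 : a' = a₁' := sub_left_injective h1
    subst h4 h5
    rfl

theorem transport {H : Submodule (ZMod 3) (ι → ZMod 3)} {I J : Finset ι} (hI : Info H I)
    (hJ : Info H J) (hc : I.card = J.card) (c : (ι → ZMod 3) → ℝ) (φ : ℕ → ℝ)
    (h : ∀ e ∈ (words H).erase 0, 2 * c e ≤ φ (wt I e) + φ (wt J e)) :
    ∑ e ∈ (words H).erase 0, c e ≤ ∑ j ∈ Icc 1 I.card, (I.card.choose j : ℝ) * 2 ^ j * φ j := by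
  have h1 := sum_le_sum h
  rw [sum_add_distrib, hI.sum_wt, hJ.sum_wt, ← hc, ← mul_sum] at h1
  linarith

theorem wt_facts {H : Submodule (ZMod 3) (ι → ZMod 3)} {I J : Finset ι} (hI : Info H I)
    (hJ : Info H J) (hIJ : Disjoint I J) (hc : I.card = J.card)
    (hH : ∀ e ∈ H, ∀ f ∈ H, e ⬝ᵥ f = 0) {lo : ℕ} {e : ι → ZMod 3} (he : e ∈ (words H).erase 0)
    (hlo : lo ≤ wt univ e) :
    Wt (Fintype.card ι) I.card lo (wt I e) (wt J e) (wt univ e) := by
  rw [mem_erase, mem_words] at he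
  have h1 : wt I e ≠ 0 := fun h0 => he.1 (hI.1 e he.2 (wt_eq_zero.1 h0))
  have h2 : wt J e ≠ 0 := fun h0 => he.1 (hJ.1 e he.2 (wt_eq_zero.1 h0))
  have h3 := wt_le I e
  have h4 := wt_le J e
  have h5 : wt univ e = wt I e + wt J e + wt (I ∪ J)ᶜ e := by
    rw [← wt_union hIJ, ← wt_union disjoint_compl_right, union_compl]
  have h6 := wt_le (I ∪ J)ᶜ e
  rw [card_compl, card_union_of_disjoint hIJ] at h6
  have h7 : 3 ∣ wt univ e := by
    rw [← ZMod.natCast_eq_zero_iff, wt_cast]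
    exact hH e he.2 e he.2
  refine ⟨by omega, h3, by omega, by omega, by omega, by omega, h7, hlo⟩

theorem adm {n : ℕ} (ih : IH n) (hn : Fintype.card ι = n) {A B : Finset (ι → ZMod 3)}
    {d : ℕ} (h : CD A B d) (hA : A.Nonempty) (hB : B.Nonempty) {k : ℕ}
    (hk : (words (hull A B)).card = 3 ^ k) {e : ι → ZMod 3} (he : e ≠ 0) :
    Adm n d (A.card * B.card) k (wt univ e)
      (((Sh A e).card * (Sh B e).card : ℝ) / (A.card * B.card)) := by
  have hα : (0 : ℝ) < A.card := by exact_mod_cast hA.card_pos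
  have hβ : (0 : ℝ) < B.card := by exact_mod_cast hB.card_pos
  have hN : (0 : ℝ) < A.card * B.card := mul_pos hα hβ
  have hp : ((Sh A e).card * (Sh B e).card : ℝ) / (A.card * B.card) * (A.card * B.card) =
      (Sh A e).card * (Sh B e).card := div_mul_cancel₀ _ hN.ne'
  refine ⟨by positivity, ?_, ?_⟩
  · rw [div_le_one hN]
    have h1 : (Sh A e).card ≤ A.card := card_filter_le _ _
    have h2 : (Sh B e).card ≤ B.card := card_filter_le _ _
    exact_mod_cast Nat.mul_le_mul h1 h2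
  rcases (Sh A e).eq_empty_or_nonempty with h1 | ⟨a, ha⟩
  · left; simp [h1]
  rcases (Sh B e).eq_empty_or_nonempty with h1 | ⟨b, hb⟩
  · left; simp [h1]
  right
  have ht := tri_sh h ha hb
  have hb1 := ht.bal
  have hb2 := ht.wt_eq
  have hb3 : wt univ (b - a) = wt (supp e) (b - a) + wt (supp e)ᶜ (b - a) := by
    rw [← wt_union disjoint_compl_right, union_compl]
  have hb4 := wt_le (supp e)ᶜ (b - a)
  rw [card_compl, card_supp, hn] at hb4
  have h0 : 0 < wt univ e := Nat.pos_of_ne_zero fun h0 =>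
    he (funext fun i => wt_eq_zero.1 h0 i (mem_univ i))
  refine ⟨by omega, fun hw => collision ih hn h hA hB h0 hw _ hp, fun hw => ⟨by omega, ?_⟩⟩
  classical
  have c1 := card_mul_eq (Sh A e) (Sh B e) (univ.filter fun c => Tri e d c) fun x hx y hy => by
    rw [mem_filter]; exact ⟨mem_univ _, tri_sh h hx hy⟩
  have c2 := card_tri_full hn hw (d := d) (by omega) (univ.filter fun c => Tri e d c)
    fun c hc => (mem_filter.1 hc).2
  have c3 : ∀ c ∈ univ.filter fun c => Tri e d c, (cl (Sh A e) (Sh B e) c).card ≤ 3 ^ k := by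
    intro c _
    rw [← hk]
    refine le_trans (card_le_card fun x hx => ?_) (cl_le_words A B c)
    rw [cl, mem_filter, Sh, Sh, mem_filter, mem_filter] at hx
    rw [cl, mem_filter]
    exact ⟨hx.1.1, hx.2.1⟩
  have c4 := sum_le_card_nsmul _ _ _ c3
  rw [← c1, smul_eq_mul, mul_comm _ (3 ^ k)] at c4
  have c5 := c4.trans (Nat.mul_le_mul_left _ c2)
  rw [Nat.cast_mul A.card, hp]
  exact_mod_cast c5

theorem exists_hull {n : ℕ} (ih : IH n) (hn : Fintype.card ι = n) {A B : Finset (ι → ZMod 3)}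
    {d : ℕ} (h : CD A B d) (hA : A.Nonempty) (hB : B.Nonempty) :
    ∃ k D : ℕ, ∀ lo : ℕ, (∀ e ∈ hull A B, e ≠ 0 → lo ≤ wt univ e) →
      Hull n d (A.card * B.card) k D lo := by
  subst hn
  obtain ⟨I, J, hI, hJ, hIJ, hc⟩ := exists_two_info (hull A B) (hull_orth h)
  refine ⟨I.card, Dn (hull A B) d, fun lo hlo => ?_⟩
  have hlo' : ∀ e ∈ (words (hull A B)).erase 0, lo ≤ wt univ e := fun e he => by
    rw [mem_erase, mem_words] at he
    exact hlo e he.2 he.1
  have hW := fun e he => wt_facts hI hJ hIJ hc (hull_orth h) he (hlo' e he)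
  have hN := card_mul_eq A B ((dual (hull A B)).filter fun c => wt univ c = d) fun a ha b hb => by
    rw [mem_filter, ← hd_eq_wt]
    exact ⟨diff_mem_dual h ha hb, h a ha b hb⟩
  have h0 : (0 : ι → ZMod 3) ∈ words (hull A B) := mem_words.2 (Submodule.zero_mem _)
  refine ⟨?_, ?_, ?_, Dn_le_S _ _, Dn_le_pow hI d, fun z hz => Dn_tilt hI hJ hIJ hc d z hz,
    fun z k k' hz hk => Dn_four hI hJ hIJ hc d z k k' hz hk, fun φ hφ => ?_, fun φ hφ => ?_⟩
  · have := card_le_univ (I ∪ J)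
    rw [card_union_of_disjoint hIJ] at this
    omega
  · rw [hN, ← hI.card_words]
    exact sum_le_card_nsmul _ _ _ fun c _ => cl_le_words A B c
  · rw [hN]
    exact sum_le_card_nsmul _ _ _ fun c hc => cl_le_pow h (mem_filter.1 hc).2
  · have m1 := mac_K (hull A B) d
    rw [hI.card_words, ← add_sum_erase _ _ h0,
      show wt univ (0 : ι → ZMod 3) = 0 from wt_eq_zero.2 fun _ _ => rfl, K_zero] at m1
    have m2 : (3 : ℝ) ^ I.card * Dn (hull A B) d = S (Fintype.card ι) d +
        ∑ e ∈ (words (hull A B)).erase 0, (K (Fintype.card ι) d (wt univ e) : ℝ) := by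
      exact_mod_cast m1
    rw [m2]
    exact add_le_add_right
      (transport hI hJ hc (fun e => (K (Fintype.card ι) d (wt univ e) : ℝ)) φ
        fun e he => hφ _ _ _ (hW e he)) _
  · have hα : (0 : ℝ) < A.card := by exact_mod_cast hA.card_pos
    have hβ : (0 : ℝ) < B.card := by exact_mod_cast hB.card_pos
    have hp : (0 : ℝ) < A.card * B.card := mul_pos hα hβ
    have t1 := transport hI hJ hc
      (fun e => ((Sh A e).card * (Sh B e).card : ℝ) / (A.card * B.card)) φ fun e he =>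
        hφ _ _ _ _ (hW e he) (adm ih rfl h hA hB hI.card_words (mem_erase.1 he).1)
    have t2 := sum_cl_sq A B ((dual (hull A B)).filter fun c => wt univ c = d)
    have t3 := sq_sum_le_card_mul_sum_sq (s := (dual (hull A B)).filter fun c => wt univ c = d)
      (f := fun c => (cl A B c).card)
    rw [← hN] at t3
    have t4 := t3.trans (Nat.mul_le_mul_left _ t2)
    rw [← add_sum_erase _ _ h0, show Sh A 0 = A by simp [Sh], show Sh B 0 = B by simp [Sh]] at t4
    have t5 : ((A.card : ℝ) * B.card) ^ 2 ≤ Dn (hull A B) d * (A.card * B.card +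
        ∑ e ∈ (words (hull A B)).erase 0, ((Sh A e).card * (Sh B e).card : ℝ)) := by
      exact_mod_cast t4
    rw [← sum_div, div_le_iff₀ hp] at t1
    push_cast
    refine le_of_mul_le_mul_right ?_ hp
    have hD : (0 : ℝ) ≤ Dn (hull A B) d := Nat.cast_nonneg _
    nlinarith [mul_le_mul_of_nonneg_left t1 hD]

end Pool.Agent.Lib.MP_990a44_co.Q3
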