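import Pool.Agent.Lib.MP_990a44_co.Q3Basic

/-! Orthogonality modulo three, information sets and weight counts. -/

namespace Pool.Agent.Lib.MP_990a44_co.Q3

open Finset

variable {ι : Type} [Fintype ι] [DecidableEq ι]

/-- weight on the coordinates in `W` -/
def wt (W : Finset ι) (e : ι → ZMod 3) : ℕ := (W.filter fun i => e i ≠ 0).card

omit [Fintype ι] [DecidableEq ι] in
theorem dW_eq_wt (W : Finset ι) (a b : ι → ZMod 3) : dW W a b = wt W (b - a) := by
  unfold dW wt
  congr 1
  refine filter_congr fun i _ => ?_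
  rw [Pi.sub_apply, sub_ne_zero, ne_comm]

omit [DecidableEq ι] in
theorem hd_eq_wt (a b : ι → ZMod 3) : hammingDist a b = wt univ (b - a) := by
  rw [hd_eq_dW, dW_eq_wt]

omit [Fintype ι] [DecidableEq ι] in
theorem wt_congr {W : Finset ι} {a b : ι → ZMod 3} (h : ∀ i ∈ W, a i = b i) : wt W a = wt W b := by
  unfold wt
  congr 1
  refine filter_congr fun i hi => ?_
  rw [h i hi]

omit [Fintype ι] [DecidableEq ι] in
theorem wt_le (W : Finset ι) (e : ι → ZMod 3) : wt W e ≤ W.card := card_filter_le _ _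

omit [Fintype ι] [DecidableEq ι] in
theorem wt_eq_zero {W : Finset ι} {e : ι → ZMod 3} : wt W e = 0 ↔ ∀ i ∈ W, e i = 0 := by
  simp [wt, filter_eq_empty_iff]

omit [Fintype ι] in
theorem wt_union {U V : Finset ι} (h : Disjoint U V) (e : ι → ZMod 3) :
    wt (U ∪ V) e = wt U e + wt V e := by
  unfold wt
  rw [filter_union, card_union_of_disjoint (disjoint_filter_filter h)]

omit [DecidableEq ι] in
theorem wt_cast (e : ι → ZMod 3) : ((wt univ e : ℕ) : ZMod 3) = e ⬝ᵥ e := by
  unfold wt dotProduct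
  rw [card_filter]
  push_cast
  refine sum_congr rfl fun i _ => ?_
  have aux : ∀ x : ZMod 3, (if x ≠ 0 then (1 : ZMod 3) else 0) = x * x := by decide
  exact aux _

omit [DecidableEq ι] in
theorem CD.sq {A B : Finset (ι → ZMod 3)} {d : ℕ} (h : CD A B d) {a b : ι → ZMod 3}
    (ha : a ∈ A) (hb : b ∈ B) : (b - a) ⬝ᵥ (b - a) = (d : ZMod 3) := by
  rw [← wt_cast, ← hd_eq_wt, h a ha b hb]

omit [DecidableEq ι] in
theorem CD.orth {A B : Finset (ι → ZMod 3)} {d : ℕ} (h : CD A B d) {a a' b b' : ι → ZMod 3}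
    (ha : a ∈ A) (ha' : a' ∈ A) (hb : b ∈ B) (hb' : b' ∈ B) : (a' - a) ⬝ᵥ (b' - b) = 0 := by
  have e1 := h.sq ha hb
  have e2 := h.sq ha' hb
  have e3 := h.sq ha hb'
  have e4 := h.sq ha' hb'
  have h3 : (3 : ZMod 3) = 0 := rfl
  simp only [sub_dotProduct, dotProduct_sub] at e1 e2 e3 e4 ⊢
  rw [dotProduct_comm b a] at e1
  rw [dotProduct_comm b a'] at e2
  rw [dotProduct_comm b' a] at e3
  rw [dotProduct_comm b' a'] at e4
  linear_combination e1 - e2 - e3 + e4 +
    (a' ⬝ᵥ b' - a' ⬝ᵥ b - (a ⬝ᵥ b' - a ⬝ᵥ b)) * h3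

/-- `I` is an information set of `C` -/
def Info (C : Submodule (ZMod 3) (ι → ZMod 3)) (I : Finset ι) : Prop :=
  (∀ e ∈ C, (∀ i ∈ I, e i = 0) → e = 0) ∧ ∀ v : ι → ZMod 3, ∃ e ∈ C, ∀ i ∈ I, e i = v i

omit [Fintype ι] in
theorem exists_info (C : Submodule (ZMod 3) (ι → ZMod 3)) (T : Finset ι)
    (hT : ∀ e ∈ C, (∀ i ∈ T, e i = 0) → e = 0) : ∃ I ⊆ T, Info C I := by
  classical
  obtain ⟨I, hI, hmin⟩ := exists_min_image
    (T.powerset.filter fun I => ∀ e ∈ C, (∀ i ∈ I, e i = 0) → e = 0) card
    ⟨T, by rw [mem_filter]; exact ⟨mem_powerset_self T, hT⟩⟩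
  rw [mem_filter, mem_powerset] at hI
  refine ⟨I, hI.1, hI.2, ?_⟩
  have hu : ∀ i ∈ I, ∃ u ∈ C, u i = 1 ∧ ∀ j ∈ I, j ≠ i → u j = 0 := by
    intro i hi
    by_contra hcon
    have := hmin (I.erase i) (by
      rw [mem_filter, mem_powerset]
      refine ⟨(erase_subset _ _).trans hI.1, fun e he h0 => ?_⟩
      by_contra hne
      apply hcon
      have hi0 : e i ≠ 0 := by
        intro hi0
        apply hne
        refine hI.2 e he fun j hj => ?_
        by_cases hji : j = i
        · rw [hji]; exact hi0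
        · exact h0 j (mem_erase.2 ⟨hji, hj⟩)
      refine ⟨e i • e, C.smul_mem _ he, ?_, fun j hj hji => ?_⟩
      · have aux : ∀ x : ZMod 3, x ≠ 0 → x * x = 1 := by decide
        exact aux _ hi0
      · simp [h0 j (mem_erase.2 ⟨hji, hj⟩)])
    rw [card_erase_of_mem hi] at this
    have := card_pos.2 ⟨i, hi⟩
    omega
  choose! u hu using hu
  intro v
  refine ⟨∑ i ∈ I, v i • u i, C.sum_mem fun i hi => C.smul_mem _ (hu i hi).1, fun j hj => ?_⟩
  rw [Finset.sum_apply, sum_eq_single j]
  · simp [(hu j hj).2.1]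
  · intro i hi hij
    simp [(hu i hi).2.2 j hj hij.symm]
  · intro h; exact absurd hj h

/-- a word orthogonal to `C` that vanishes off an information set of `C` is zero -/
theorem Info.eq_zero_of_orth {C : Submodule (ZMod 3) (ι → ZMod 3)} {I : Finset ι} (hI : Info C I)
    {c : ι → ZMod 3} (hc : ∀ e ∈ C, c ⬝ᵥ e = 0) (h0 : ∀ i ∈ Iᶜ, c i = 0) : c = 0 := by
  funext j
  by_cases hj : j ∈ I
  · obtain ⟨e, he, hv⟩ := hI.2 (Pi.single j 1)
    have := hc e he
    unfold dotProduct at this
    rw [sum_eq_single j] at this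
    · simpa [hv j hj] using this
    · intro i _ hij
      by_cases hi : i ∈ I
      · simp [hv i hi, hij]
      · simp [h0 i (mem_compl.2 hi)]
    · intro h; exact absurd (mem_univ _) h
  · exact h0 j (mem_compl.2 hj)

/-- the words supported on `I` -/
def box (I : Finset ι) : Finset (ι → ZMod 3) :=
  Fintype.piFinset fun i => if i ∈ I then univ else {0}

theorem mem_box {I : Finset ι} {v : ι → ZMod 3} : v ∈ box I ↔ ∀ i, i ∉ I → v i = 0 := by
  unfold box
  rw [Fintype.mem_piFinset]
  refine forall_congr' fun i => ?_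
  by_cases hi : i ∈ I <;> simp [hi]

theorem proj_mem_box (I : Finset ι) (a : ι → ZMod 3) : proj I a ∈ box I :=
  mem_box.2 fun i hi => by simp [proj, hi]

omit [Fintype ι] in
theorem proj_apply {I : Finset ι} (a : ι → ZMod 3) {i : ι} (hi : i ∈ I) : proj I a i = a i := by
  simp [proj, hi]

theorem box_univ : box (univ : Finset ι) = univ := by
  ext v; simp [mem_box]

theorem sum_box_prod {R : Type*} [CommSemiring R] (I : Finset ι) (g : ι → ZMod 3 → R) :
    ∑ v ∈ box I, ∏ i ∈ I, g i (v i) = ∏ i ∈ I, ∑ x, g i x := by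
  have h1 := Finset.prod_univ_sum (fun i : ι => if i ∈ I then (univ : Finset (ZMod 3)) else {0})
    (fun i x => if i ∈ I then g i x else 1)
  have h2 : ∀ f : ι → R, ∏ i, (if i ∈ I then f i else 1) = ∏ i ∈ I, f i := by
    intro f
    rw [← prod_filter]
    congr 1
    ext i; simp
  unfold box
  rw [← h2, show (∏ i, if i ∈ I then ∑ x, g i x else 1) =
    ∏ i, ∑ x ∈ (if i ∈ I then (univ : Finset (ZMod 3)) else {0}), if i ∈ I then g i x else 1 from
      prod_congr rfl fun i _ => by by_cases hi : i ∈ I <;> simp [hi], h1]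
  exact sum_congr rfl fun v _ => (h2 fun i => g i (v i)).symm

theorem card_box (I : Finset ι) : (box I).card = 3 ^ I.card := by
  have := sum_box_prod I (fun _ _ => (1 : ℕ))
  simpa using this

theorem sum_box_wt {M : Type*} [AddCommMonoid M] (I : Finset ι) (φ : ℕ → M) :
    ∑ v ∈ box I, φ (wt I v) = ∑ j ∈ range (I.card + 1), (I.card.choose j * 2 ^ j) • φ j := by
  rw [← sum_fiberwise_of_maps_to (s := box I) (t := I.powerset)
    (g := fun v => I.filter fun i => v i ≠ 0) (fun v _ => mem_powerset.2 (filter_subset _ _))]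
  have h1 : ∀ T ∈ I.powerset, ∑ v ∈ (box I).filter (fun v => (I.filter fun i => v i ≠ 0) = T),
      φ (wt I v) = (2 ^ T.card) • φ T.card := by
    intro T hT
    rw [mem_powerset] at hT
    rw [sum_congr rfl (g := fun _ => φ T.card) (fun v hv => by
      rw [mem_filter] at hv
      rw [wt, hv.2]), sum_const]
    congr 1
    have : (box I).filter (fun v => (I.filter fun i => v i ≠ 0) = T) =
        Fintype.piFinset fun i => if i ∈ T then univ.erase 0 else {0} := by
      ext v
      rw [mem_filter, mem_box, Fintype.mem_piFinset]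
      constructor
      · rintro ⟨h1, h2⟩ i
        by_cases hi : i ∈ T
        · have := hi
          rw [← h2, mem_filter] at this
          simpa [hi] using this.2
        · by_cases hI : i ∈ I
          · have : ¬ (v i ≠ 0) := fun hv => hi (by rw [← h2, mem_filter]; exact ⟨hI, hv⟩)
            simpa [hi] using this
          · simpa [hi] using h1 i hI
      · intro h
        refine ⟨fun i hi => ?_, ?_⟩
        · have := h i
          rw [if_neg fun hh => hi (hT hh)] at this
          simpa using this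
        · ext i
          have := h i
          rw [mem_filter]
          by_cases hi : i ∈ T
          · rw [if_pos hi] at this
            simp only [hi, iff_true]
            exact ⟨hT hi, by simpa using this⟩
          · rw [if_neg hi] at this
            simp only [hi, iff_false, not_and, not_not]
            intro _
            simpa using this
    rw [this, Fintype.card_piFinset]
    rw [prod_congr rfl (g := fun i => if i ∈ T then 2 else 1) (fun i _ => by
      by_cases hi : i ∈ T
      · rw [if_pos hi, if_pos hi, card_erase_of_mem (mem_univ _)]; simp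
      · simp [hi])]
    rw [← prod_filter]
    simp
  rw [sum_congr rfl h1, sum_powerset_apply_card (fun k => (2 ^ k) • φ k)]
  exact sum_congr rfl fun j _ => by rw [mul_smul]

open Classical in
/-- the words of a subspace as a finite set -/
noncomputable def words (C : Submodule (ZMod 3) (ι → ZMod 3)) : Finset (ι → ZMod 3) :=
  univ.filter fun e => e ∈ C

theorem mem_words {C : Submodule (ZMod 3) (ι → ZMod 3)} {e : ι → ZMod 3} :
    e ∈ words C ↔ e ∈ C := by simp [words]

theorem Info.sum_eq {M : Type*} [AddCommMonoid M] {C : Submodule (ZMod 3) (ι → ZMod 3)}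
    {I : Finset ι} (hI : Info C I) (g : (ι → ZMod 3) → M) :
    ∑ e ∈ words C, g (proj I e) = ∑ v ∈ box I, g v := by
  refine sum_bij (fun e _ => proj I e) (fun e _ => proj_mem_box I e) ?_ ?_ fun _ _ => rfl
  · intro e he e' he' h
    rw [mem_words] at he he'
    have := hI.1 (e - e') (C.sub_mem he he') fun i hi => by
      rw [Pi.sub_apply, proj_eq_iff.1 h i hi, sub_self]
    exact sub_eq_zero.1 this
  · intro v hv
    obtain ⟨e, he, h⟩ := hI.2 v
    refine ⟨e, mem_words.2 he, ?_⟩
    funext i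
    by_cases hi : i ∈ I
    · rw [proj_apply _ hi, h i hi]
    · rw [mem_box.1 hv i hi]; simp [proj, hi]

theorem Info.card_words {C : Submodule (ZMod 3) (ι → ZMod 3)} {I : Finset ι} (hI : Info C I) :
    (words C).card = 3 ^ I.card := by
  have := hI.sum_eq (fun _ => (1 : ℕ))
  simpa [card_box] using this

theorem Info.sum_prod {R : Type*} [CommSemiring R] {C : Submodule (ZMod 3) (ι → ZMod 3)}
    {I : Finset ι} (hI : Info C I) (g : ZMod 3 → R) :
    ∑ e ∈ words C, ∏ i ∈ I, g (e i) = (∑ x, g x) ^ I.card := by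
  have h1 := hI.sum_eq (fun v => ∏ i ∈ I, g (v i))
  rw [sum_box_prod I (fun _ x => g x), prod_const] at h1
  rw [← h1]
  exact sum_congr rfl fun e _ => prod_congr rfl fun i hi => by rw [proj_apply _ hi]

theorem Info.sum_wt {C : Submodule (ZMod 3) (ι → ZMod 3)} {I : Finset ι} (hI : Info C I)
    (φ : ℕ → ℝ) : ∑ e ∈ (words C).erase 0, φ (wt I e) =
      ∑ j ∈ Icc 1 I.card, (I.card.choose j : ℝ) * 2 ^ j * φ j := by
  have h1 := hI.sum_eq (fun v => φ (wt I v))
  rw [sum_box_wt] at h1
  have h2 : ∑ e ∈ words C, φ (wt I (proj I e)) = ∑ e ∈ words C, φ (wt I e) :=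
    sum_congr rfl fun e _ => by rw [wt_congr fun i hi => proj_apply e hi]
  rw [h2, ← add_sum_erase _ _ (mem_words.2 C.zero_mem), range_eq_Ico,
    sum_eq_sum_Ico_succ_bot (Nat.succ_pos _)] at h1
  have h3 : wt I (0 : ι → ZMod 3) = 0 := wt_eq_zero.2 fun _ _ => rfl
  rw [h3] at h1
  simp only [Nat.choose_zero_right, pow_zero, mul_one, one_smul, add_right_inj] at h1
  rw [h1]
  refine sum_congr rfl fun j _ => ?_
  rw [nsmul_eq_mul]; push_cast; ring

theorem card_sphere (d : ℕ) :
    (univ.filter fun c : ι → ZMod 3 => wt univ c = d).card = S (Fintype.card ι) d := by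
  have := sum_box_wt (univ : Finset ι) (fun j => if j = d then 1 else 0 : ℕ → ℕ)
  rw [box_univ, ← card_filter, card_univ] at this
  rw [this, S]
  simp only [smul_eq_mul, mul_ite, mul_one, mul_zero, sum_ite_eq', mem_range]
  split_ifs with h
  · ring
  · rw [Nat.choose_eq_zero_of_lt (by omega)]; simp

/-- two disjoint information sets of a self-orthogonal code -/
theorem exists_two_info (H : Submodule (ZMod 3) (ι → ZMod 3))
    (hH : ∀ e ∈ H, ∀ f ∈ H, e ⬝ᵥ f = 0) :
    ∃ I J : Finset ι, Info H I ∧ Info H J ∧ Disjoint I J ∧ I.card = J.card := by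
  obtain ⟨I, -, hI⟩ := exists_info H univ fun e _ h => funext fun i => h i (mem_univ i)
  obtain ⟨J, hJI, hJ⟩ := exists_info H Iᶜ fun e he h => hI.eq_zero_of_orth (hH e he) h
  refine ⟨I, J, hI, hJ, disjoint_left.2 fun i hi hj => mem_compl.1 (hJI hj) hi, ?_⟩
  have := hI.card_words.symm.trans hJ.card_words
  exact Nat.pow_right_injective (by norm_num) this

end Pool.Agent.Lib.MP_990a44_co.Q3
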