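import Mathlib

/-! The real inequality behind the three balanced pairs. -/

namespace Pool.Agent.Lib.MP_990a44_co.Q3

theorem core_i (P Q F : ℝ) (hP : 0 ≤ P) (hF0 : 0 ≤ F) (h2 : F ≤ 2 * P) (hQ0 : 0 ≤ Q) (hQ : Q ≤ 1)
    (hP1 : P ≤ 1) (hy : F ≤ P + Q - P * Q) :
    F * Q * (2 - (P + Q - P * Q)) ≤ (P + Q - P * Q) ^ 2 := by
  have hy1 : 0 ≤ 2 - (P + Q - P * Q) := by nlinarith
  have hy0 : 0 ≤ P + Q - P * Q := by nlinarith
  rcases le_total (2 * P) (P + Q - P * Q) with h | h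
  · have a1 : Q * (2 - (P + Q - P * Q)) ≤ 2 * (Q - P * Q) := by nlinarith
    have a2 : F * (Q * (2 - (P + Q - P * Q))) ≤ 2 * P * (2 * (Q - P * Q)) :=
      mul_le_mul h2 a1 (mul_nonneg hQ0 hy1) (by linarith)
    nlinarith [sq_nonneg (P - (Q - P * Q))]
  · have a1 : Q * (2 - (P + Q - P * Q)) ≤ P + Q - P * Q := by
      nlinarith [mul_nonneg (sub_nonneg.2 hQ) (sub_nonneg.2 h)]
    have a2 : F * (Q * (2 - (P + Q - P * Q))) ≤ (P + Q - P * Q) * (P + Q - P * Q) :=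
      mul_le_mul hy a1 (mul_nonneg hQ0 hy1) hy0
    nlinarith

theorem core_E (P y : ℝ) (hP : 0 ≤ P) (h : 2 * P ≤ y) (hy : y ≤ 1) :
    0 ≤ y ^ 2 - P * y * (4 - y) + P ^ 2 * ((2 - y) * (3 - y)) := by
  have hy0 : 0 ≤ y := by linarith
  rcases le_total y (3 / 5) with h1 | h1
  · nlinarith [sq_nonneg (y - 2 * P), sq_nonneg (2 * y - 5 * P), sq_nonneg (y - 3 * P),
      mul_nonneg hP hy0, mul_nonneg (mul_nonneg hP hP) (sub_nonneg.2 h1),
      mul_nonneg (mul_nonneg hP hy0) hy0,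
      mul_nonneg (mul_nonneg hP hP) (sq_nonneg y)]
  · have hu : 0 ≤ y / 2 - P := by linarith
    have a1 : 0 ≤ -2 + 4 * y - y ^ 2 := by nlinarith
    have a2 : 0 ≤ (2 - y) * (3 - y) := by nlinarith
    have a3 : 0 ≤ (1 - y) * (2 - y) := by nlinarith
    nlinarith [mul_nonneg (sq_nonneg y) a3, mul_nonneg (mul_nonneg hu hy0) a1,
      mul_nonneg (sq_nonneg (y / 2 - P)) a2]

theorem core_ii (P Q F : ℝ) (hP : 0 ≤ P) (h1 : P ≤ F) (h2 : F ≤ 2 * P) (hQ : Q ≤ 1)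
    (hPQ : P ≤ Q) (hy : F ≤ P + Q - P * Q) :
    (F * (P + Q - P * Q) - 3 * (F - P) * (P * (1 - Q))) * (2 - (P + Q - P * Q)) ≤
      (P + Q - P * Q) ^ 2 := by
  set y := P + Q - P * Q with hyd
  have hy1 : y ≤ 1 := by nlinarith
  have hy0 : 0 ≤ y := by nlinarith
  have hQ0 : 0 ≤ Q := by linarith
  have e0 : P * y * (2 - y) ≤ y ^ 2 := by
    have : P * (2 - y) ≤ y := by
      have : 2 * P - P ^ 2 ≤ y := by nlinarith
      nlinarith [mul_nonneg hP (mul_nonneg hP (sub_nonneg.2 (hPQ.trans hQ)))]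
    nlinarith
  rcases le_total y (3 * (P * (1 - Q))) with hs | hs
  · have : F * y - 3 * (F - P) * (P * (1 - Q)) ≤ P * y := by nlinarith
    nlinarith
  · rcases le_total (2 * P) y with h | h
    · have a1 : F * y - 3 * (F - P) * (P * (1 - Q)) ≤ 2 * P * y - 3 * P * (P * (1 - Q)) := by
        nlinarith
      have a2 := core_E P y hP h hy1
      have hP1 : 0 < 1 - P := by linarith
      have a3 : (2 * P * y - 3 * P * (P * (1 - Q))) * (2 - y) ≤ y ^ 2 := by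
        refine le_of_mul_le_mul_right ?_ hP1
        have : (1 - Q) * (1 - P) = 1 - y := by rw [hyd]; ring
        have e : (2 * P * y - 3 * P * (P * (1 - Q))) * (2 - y) * (1 - P) =
          2 * P * y * (2 - y) * (1 - P) - 3 * P ^ 2 * (2 - y) * ((1 - Q) * (1 - P)) := by ring
        rw [e, this]
        nlinarith
      nlinarith
    · have a1 : F * y - 3 * (F - P) * (P * (1 - Q)) ≤ y * y - 3 * (y - P) * (P * (1 - Q)) := by
        nlinarith
      have a2 : y ≤ 3 / 2 * Q * (2 - y) := by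
        have b1 : y ≤ 2 * Q - Q ^ 2 := by nlinarith
        have b2 : 0 ≤ 3 / 2 * Q ^ 2 - 2 * Q + 1 := by nlinarith [sq_nonneg (Q - 2 / 3)]
        nlinarith [mul_nonneg hQ0 b2, mul_nonneg hQ0 (sub_nonneg.2 b1)]
      have a3 : y * y ≤ 2 * P * (3 / 2 * Q * (2 - y)) := mul_le_mul h a2 hy0 (by linarith)
      have a4 : (y - P) * (P * (1 - Q)) = P * Q * (1 - y) := by rw [hyd]; ring
      have a5 : (y * y - 3 * (P * Q * (1 - y))) * (2 - y) ≤ y ^ 2 := by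
        nlinarith [mul_nonneg (sub_nonneg.2 hy1) (sub_nonneg.2 a3)]
      have a6 : y * y - 3 * (y - P) * (P * (1 - Q)) = y * y - 3 * (P * Q * (1 - y)) := by
        rw [← a4]; ring
      rw [a6] at a1
      nlinarith

theorem core (P Q F G : ℝ) (hP : 0 ≤ P) (h1 : P ≤ F) (h2 : F ≤ 2 * P) (h3 : Q ≤ G)
    (hG : G ≤ 1) (hPQ : P ≤ Q) (hy : F ≤ P + Q - P * Q) (hy' : G ≤ P + Q - P * Q) :
    (F * G - 3 * (F - P) * (G - Q)) * (2 - (P + Q - P * Q)) ≤ (P + Q - P * Q) ^ 2 := by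
  have hQ : Q ≤ 1 := h3.trans hG
  have hy1 : 0 ≤ 2 - (P + Q - P * Q) := by nlinarith
  rcases le_total (3 * P) (2 * F) with h | h
  · refine le_trans (mul_le_mul_of_nonneg_right ?_ hy1)
      (core_i P Q F hP (by linarith) h2 (by linarith) hQ (by linarith) hy)
    nlinarith
  · refine le_trans (mul_le_mul_of_nonneg_right ?_ hy1) (core_ii P Q F hP h1 h2 hQ hPQ hy)
    nlinarith

theorem psi_one (s f t g μ : ℝ) (hf : 0 ≤ f) (hfs : f ≤ s) (hs : 2 * s + f ≤ 3)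
    (hg : 0 ≤ g) (hgt : g ≤ t) (m1 : s * t ≤ μ) (m3 : g * (3 - s - f) ≤ μ)
    (x : ℝ) (hx : 9 * x = (s + 2 * f) * (t + 2 * g)) (hfx : f ≤ x) :
    x * (3 - x) ≤ μ * (1 + x) := by
  obtain ⟨l, hl⟩ : ∃ l, l = 3 - s - f := ⟨_, rfl⟩
  rw [← hl] at m3
  have hsl : s ≤ l := by linarith
  have hs0 : 0 ≤ s := by linarith
  have hl1 : 1 ≤ l := by linarith
  have ht0 : 0 ≤ t := by linarith
  have hμ : 0 ≤ μ := (mul_nonneg hs0 ht0).trans m1
  have hx0 : 0 ≤ x := by linarith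
  have a1 : s * l * (t + 2 * g) ≤ μ * (l + 2 * s) := by nlinarith
  have a2 : (s + 2 * f) * (s + l) * (l + 2 * s) ≤ 3 * s * l * (s + l + 4 * f) := by
    nlinarith [mul_nonneg (mul_nonneg (sub_nonneg.2 hfs) (sub_nonneg.2 hsl))
      (add_nonneg hs0 (by linarith : 0 ≤ l)),
      mul_nonneg (mul_nonneg hf (sub_nonneg.2 hsl)) hs0]
  have a3 : (s + 2 * f) * (3 - x) * (l + 2 * s) ≤ 9 * s * l * (1 + x) := by
    have b1 : (s + 2 * f) * (3 - x) * (l + 2 * s) ≤ (s + 2 * f) * (s + l) * (l + 2 * s) := by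
      have : 3 - x ≤ s + l := by linarith
      have h0 : 0 ≤ s + 2 * f := by linarith
      gcongr
    have b2 : 3 * s * l * (s + l + 4 * f) ≤ 9 * s * l * (1 + x) := by
      have : s + l + 4 * f ≤ 3 * (1 + x) := by linarith
      nlinarith [mul_nonneg (mul_nonneg hs0 (by linarith : 0 ≤ l)) (sub_nonneg.2 this)]
    linarith
  have hp : 0 < l + 2 * s := by linarith
  refine le_of_mul_le_mul_right ?_ hp
  have c1 : (t + 2 * g) * ((s + 2 * f) * (3 - x) * (l + 2 * s)) ≤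
      (t + 2 * g) * (9 * s * l * (1 + x)) := mul_le_mul_of_nonneg_left a3 (by linarith)
  have c2 : s * l * (t + 2 * g) * (1 + x) ≤ μ * (l + 2 * s) * (1 + x) :=
    mul_le_mul_of_nonneg_right a1 (by linarith)
  have c3 : (t + 2 * g) * ((s + 2 * f) * (3 - x) * (l + 2 * s)) =
      9 * x * ((3 - x) * (l + 2 * s)) := by rw [hx]; ring
  nlinarith

theorem psi_two (s f t g μ : ℝ) (hfs : f ≤ s) (hs : 2 * s + f ≤ 3)
    (hg : 0 ≤ g) (hgt : g ≤ t) (m1 : s * t ≤ μ) (m2 : f * (3 - t - g) ≤ μ)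
    (m3 : g * (3 - s - f) ≤ μ)
    (x : ℝ) (hx : 9 * x = (s + 2 * f) * (t + 2 * g)) (hfx : x ≤ f) (hgx : x ≤ g) (hx0 : 0 ≤ x)
    (hab : t + 2 * g ≤ s + 2 * f) :
    x * (3 - x) ≤ μ * (1 + x) := by
  have hy : (1 - (s + 2 * f) / 3) + (1 - (t + 2 * g) / 3) -
      (1 - (s + 2 * f) / 3) * (1 - (t + 2 * g) / 3) = 1 - x := by linarith
  have := core (1 - (s + 2 * f) / 3) (1 - (t + 2 * g) / 3) (1 - f) (1 - g) (by linarith)
    (by linarith) (by linarith) (by linarith) (by linarith) (by linarith) (by rw [hy]; linarith)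
    (by rw [hy]; linarith)
  rw [hy] at this
  have h3 : 1 - ((1 - f) * (1 - g) - 3 * (1 - f - (1 - (s + 2 * f) / 3)) *
      (1 - g - (1 - (t + 2 * g) / 3))) ≤ μ := by nlinarith
  nlinarith [mul_le_mul_of_nonneg_right h3 (by linarith : 0 ≤ 1 + x)]

theorem psi (s f t g μ : ℝ) (hf : 0 ≤ f) (hfs : f ≤ s) (hs : 2 * s + f ≤ 3)
    (hg : 0 ≤ g) (hgt : g ≤ t) (ht : 2 * t + g ≤ 3) (m1 : s * t ≤ μ) (m2 : f * (3 - t - g) ≤ μ)
    (m3 : g * (3 - s - f) ≤ μ) (x : ℝ) (hx : 9 * x = (s + 2 * f) * (t + 2 * g)) :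
    x * (3 - x) ≤ μ * (1 + x) := by
  have hx0 : 0 ≤ x := by
    nlinarith [mul_nonneg (by linarith : 0 ≤ s + 2 * f) (by linarith : 0 ≤ t + 2 * g)]
  rcases le_total f x with h1 | h1
  · exact psi_one s f t g μ hf hfs hs hg hgt m1 m3 x hx h1
  rcases le_total g x with h2 | h2
  · exact psi_one t g s f μ hg hgt ht hf hfs (by linarith) m2 x (by linarith) h2
  rcases le_total (t + 2 * g) (s + 2 * f) with h3 | h3
  · exact psi_two s f t g μ hfs hs hg hgt m1 m2 m3 x hx h1 h2 hx0 h3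
  · exact psi_two t g s f μ hgt ht hf hfs (by linarith) m3 m2 x (by linarith) h2 h1 hx0 h3

end Pool.Agent.Lib.MP_990a44_co.Q3
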