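import Pool.Agent.Lib.MP_990a44_co.Q3Lin
import Pool.Agent.Lib.MP_990a44_co.Q3Psi

/-! Lines in a collision direction: the three balanced pairs. -/

namespace Pool.Agent.Lib.MP_990a44_co.Q3

open Finset

variable {ι : Type} [Fintype ι] [DecidableEq ι]

/-- the whole line through `c` in direction `e` lies in the sphere of radius `d` -/
def Tri (e : ι → ZMod 3) (d : ℕ) (c : ι → ZMod 3) : Prop := ∀ k : ZMod 3, wt univ (c + k • e) = d

/-- support -/
def supp (e : ι → ZMod 3) : Finset ι := univ.filter fun i => e i ≠ 0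

omit [DecidableEq ι] in
theorem card_supp (e : ι → ZMod 3) : (supp e).card = wt univ e := rfl

omit [Fintype ι] [DecidableEq ι] in
theorem wt_eq_sum (W : Finset ι) (c : ι → ZMod 3) :
    wt W c = ∑ i ∈ W, if c i ≠ 0 then 1 else 0 := card_filter _ _

omit [DecidableEq ι] in
theorem Tri.bal {e c : ι → ZMod 3} {d : ℕ} (h : Tri e d c) :
    3 * wt (supp e) c = 2 * wt univ e := by
  have h0 := h 0
  have h1 := h 1
  have h2 := h 2
  have key : wt univ (c + (0 : ZMod 3) • e) + wt univ (c + (1 : ZMod 3) • e) +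
      wt univ (c + (2 : ZMod 3) • e) + 3 * wt (supp e) c =
      3 * wt univ (c + (0 : ZMod 3) • e) + 2 * wt univ e := by
    have e1 : wt (supp e) c = ∑ i, if e i ≠ 0 then (if c i ≠ 0 then 1 else 0) else 0 := by
      rw [wt_eq_sum, supp, sum_filter]
    rw [e1]
    simp only [wt_eq_sum, mul_sum, ← sum_add_distrib]
    refine sum_congr rfl fun i _ => ?_
    have aux : ∀ x y : ZMod 3,
        ((if x + 0 * y ≠ 0 then 1 else 0) + (if x + 1 * y ≠ 0 then 1 else 0) +
          (if x + 2 * y ≠ 0 then 1 else 0) +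
          3 * (if y ≠ 0 then (if x ≠ 0 then 1 else 0) else 0) : ℕ) =
        3 * (if x + 0 * y ≠ 0 then 1 else 0) + 2 * (if y ≠ 0 then 1 else 0) := by decide
    exact aux (c i) (e i)
  omega

omit [DecidableEq ι] in
theorem Tri.wt_eq {e c : ι → ZMod 3} {d : ℕ} (h : Tri e d c) : wt univ c = d := by
  simpa using h 0

omit [DecidableEq ι] in
theorem CD.line {A B : Finset (ι → ZMod 3)} {d : ℕ} (h : CD A B d) {e x y : ι → ZMod 3}
    {i j k : ZMod 3} (hx : x + i • e ∈ A) (hy : y + j • e ∈ B) (hk : k = j - i) :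
    wt univ (y - x + k • e) = d := by
  rw [← h _ hx _ hy, hd_eq_wt, hk]
  congr 1
  rw [sub_smul]
  abel

theorem tri_split {n : ℕ} (ih : IH n) (hn : Fintype.card ι = n) {e : ι → ZMod 3} {d : ℕ}
    (h0 : 0 < wt univ e) (hw : wt univ e < n) {X Y : Finset (ι → ZMod 3)}
    (h : ∀ x ∈ X, ∀ y ∈ Y, Tri e d (y - x)) :
    X.card * Y.card ≤ F (wt univ e) (2 * wt univ e / 3) *
      F (n - wt univ e) (d - 2 * wt univ e / 3) := by
  refine split ih hn (supp e) hw h0 (d := d) (fun x hx y hy => ?_) fun x hx y hy => ?_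
  · rw [hd_eq_wt]; exact (h x hx y hy).wt_eq
  · have := (h x hx y hy).bal
    rw [dW_eq_wt]
    omega

/-- words on a line meeting `A` -/
def L1 (A : Finset (ι → ZMod 3)) (e : ι → ZMod 3) : Finset (ι → ZMod 3) :=
  univ.filter fun x => ∃ k : ZMod 3, x + k • e ∈ A

/-- words on a line meeting `A` at least twice -/
def L2 (A : Finset (ι → ZMod 3)) (e : ι → ZMod 3) : Finset (ι → ZMod 3) :=
  univ.filter fun x => ∃ k : ZMod 3, x + k • e ∈ A ∧ x + (k + 1) • e ∈ A

/-- words on a line contained in `A` -/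
def L3 (A : Finset (ι → ZMod 3)) (e : ι → ZMod 3) : Finset (ι → ZMod 3) :=
  univ.filter fun x => ∀ k : ZMod 3, x + k • e ∈ A

/-- words of `A` whose shift by `e` is in `A` -/
def Sh (A : Finset (ι → ZMod 3)) (e : ι → ZMod 3) : Finset (ι → ZMod 3) :=
  A.filter fun a => a + e ∈ A

theorem sum_shift (X : Finset (ι → ZMod 3)) (v : ι → ZMod 3) :
    ∑ x : ι → ZMod 3, (if x + v ∈ X then 1 else 0) = X.card := by
  rw [Fintype.sum_equiv (Equiv.addRight v) (fun x => if x + v ∈ X then 1 else 0)
    (fun x => if x ∈ X then 1 else 0) fun _ => rfl, ← card_filter, filter_mem_eq_inter, univ_inter]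

theorem count_one (A : Finset (ι → ZMod 3)) (e : ι → ZMod 3) :
    (L1 A e).card + (L2 A e).card + (L3 A e).card = 3 * A.card := by
  have h : ∑ k : ZMod 3, ∑ x : ι → ZMod 3, (if x + k • e ∈ A then 1 else 0) = 3 * A.card := by
    simp only [sum_shift]; simp
  rw [← h, sum_comm, L1, L2, L3, card_filter, card_filter, card_filter, ← sum_add_distrib,
    ← sum_add_distrib]
  refine sum_congr rfl fun x _ => ?_
  have aux : ∀ g : ZMod 3 → Bool,
      ((if ∃ k, g k = true then 1 else 0) + (if ∃ k, g k = true ∧ g (k + 1) = true then 1 else 0) +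
        (if ∀ k, g k = true then 1 else 0) : ℕ) = ∑ k, if g k = true then 1 else 0 := by decide
  simpa only [decide_eq_true_eq] using aux fun k => decide (x + k • e ∈ A)

theorem count_two (A : Finset (ι → ZMod 3)) (e : ι → ZMod 3) :
    (L2 A e).card + 2 * (L3 A e).card = 3 * (Sh A e).card := by
  have h : ∑ k : ZMod 3, ∑ x : ι → ZMod 3, (if x + k • e ∈ Sh A e then 1 else 0) =
      3 * (Sh A e).card := by
    simp only [sum_shift]; simp
  rw [← h, sum_comm, L2, L3, card_filter, card_filter, mul_sum, ← sum_add_distrib]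
  refine sum_congr rfl fun x _ => ?_
  have aux : ∀ g : ZMod 3 → Bool,
      ((if ∃ k, g k = true ∧ g (k + 1) = true then 1 else 0) +
        2 * (if ∀ k, g k = true then 1 else 0) : ℕ) =
        ∑ k, if g k = true ∧ g (k + 1) = true then 1 else 0 := by decide
  have e1 : ∀ k : ZMod 3, x + k • e ∈ Sh A e ↔ x + k • e ∈ A ∧ x + (k + 1) • e ∈ A := by
    intro k
    rw [Sh, mem_filter, add_smul, one_smul, add_assoc]
  simp only [e1]
  simpa only [decide_eq_true_eq] using aux fun k => decide (x + k • e ∈ A)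

theorem L3_le_L2 (A : Finset (ι → ZMod 3)) (e : ι → ZMod 3) : (L3 A e).card ≤ (L2 A e).card := by
  refine card_le_card fun x hx => ?_
  rw [L3, mem_filter] at hx
  rw [L2, mem_filter]
  exact ⟨hx.1, 0, hx.2 _, hx.2 _⟩

theorem L2_le_L1 (A : Finset (ι → ZMod 3)) (e : ι → ZMod 3) : (L2 A e).card ≤ (L1 A e).card := by
  refine card_le_card fun x hx => ?_
  rw [L2, mem_filter] at hx
  rw [L1, mem_filter]
  obtain ⟨k, hk, _⟩ := hx.2
  exact ⟨hx.1, k, hk⟩

theorem tri_22 {A B : Finset (ι → ZMod 3)} {d : ℕ} (h : CD A B d) {e x y : ι → ZMod 3}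
    (hx : x ∈ L2 A e) (hy : y ∈ L2 B e) : Tri e d (y - x) := by
  rw [L2, mem_filter] at hx hy
  obtain ⟨i, hi, hi'⟩ := hx.2
  obtain ⟨j, hj, hj'⟩ := hy.2
  intro k
  have aux : ∀ i j k : ZMod 3, k = j - i ∨ k = j + 1 - i ∨ k = j - (i + 1) := by decide
  rcases aux i j k with hk | hk | hk
  · exact h.line hi hj hk
  · exact h.line hi hj' hk
  · exact h.line hi' hj hk

theorem tri_31 {A B : Finset (ι → ZMod 3)} {d : ℕ} (h : CD A B d) {e x y : ι → ZMod 3}
    (hx : x ∈ L3 A e) (hy : y ∈ L1 B e) : Tri e d (y - x) := by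
  rw [L3, mem_filter] at hx
  rw [L1, mem_filter] at hy
  obtain ⟨j, hj⟩ := hy.2
  intro k
  exact h.line (hx.2 (j - k)) hj (by ring)

theorem tri_13 {A B : Finset (ι → ZMod 3)} {d : ℕ} (h : CD A B d) {e x y : ι → ZMod 3}
    (hx : x ∈ L1 A e) (hy : y ∈ L3 B e) : Tri e d (y - x) := by
  rw [L3, mem_filter] at hy
  rw [L1, mem_filter] at hx
  obtain ⟨i, hi⟩ := hx.2
  intro k
  exact h.line hi (hy.2 (k + i)) (by ring)

theorem tri_sh {A B : Finset (ι → ZMod 3)} {d : ℕ} (h : CD A B d) {e x y : ι → ZMod 3}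
    (hx : x ∈ Sh A e) (hy : y ∈ Sh B e) : Tri e d (y - x) := by
  rw [Sh, mem_filter] at hx hy
  refine tri_22 h ?_ ?_
  · rw [L2, mem_filter]
    exact ⟨mem_univ _, 0, by simpa using hx.1, by simpa using hx.2⟩
  · rw [L2, mem_filter]
    exact ⟨mem_univ _, 0, by simpa using hy.1, by simpa using hy.2⟩

/-- the collision inequality in a direction of weight below the length -/
theorem collision {n : ℕ} (ih : IH n) (hn : Fintype.card ι = n) {A B : Finset (ι → ZMod 3)}
    {d : ℕ} (h : CD A B d) (hA : A.Nonempty) (hB : B.Nonempty) {e : ι → ZMod 3}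
    (h0 : 0 < wt univ e) (hw : wt univ e < n) (p : ℝ)
    (hp : p * (A.card * B.card) = (Sh A e).card * (Sh B e).card) :
    p * (3 - p) * (A.card * B.card : ℕ) ≤ (F (wt univ e) (2 * wt univ e / 3) *
      F (n - wt univ e) (d - 2 * wt univ e / 3) : ℕ) * (1 + p) := by
  have m1 := tri_split ih hn h0 hw fun x hx y hy => tri_22 h hx hy
  have m2 := tri_split ih hn h0 hw fun x hx y hy => tri_31 h hx hy
  have m3 := tri_split ih hn h0 hw fun x hx y hy => tri_13 h hx hy
  generalize F (wt univ e) (2 * wt univ e / 3) * F (n - wt univ e) (d - 2 * wt univ e / 3) = μ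
    at m1 m2 m3 ⊢
  have a1 := count_one A e
  have a2 := count_two A e
  have a3 := L3_le_L2 A e
  have a4 := L2_le_L1 A e
  have b1 := count_one B e
  have b2 := count_two B e
  have b3 := L3_le_L2 B e
  have b4 := L2_le_L1 B e
  have hα : (0 : ℝ) < A.card := by exact_mod_cast hA.card_pos
  have hβ : (0 : ℝ) < B.card := by exact_mod_cast hB.card_pos
  push_cast
  generalize (L1 A e).card = l at *
  generalize (L2 A e).card = s at *
  generalize (L3 A e).card = f at *
  generalize (L1 B e).card = m at *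
  generalize (L2 B e).card = t at *
  generalize (L3 B e).card = g at *
  generalize (Sh A e).card = a at *
  generalize (Sh B e).card = b at *
  generalize A.card = α at *
  generalize B.card = β at *
  have m1' : (s : ℝ) * t ≤ μ := by exact_mod_cast m1
  have m2' : (f : ℝ) * m ≤ μ := by exact_mod_cast m2
  have m3' : (l : ℝ) * g ≤ μ := by exact_mod_cast m3
  have a1' : (l : ℝ) + s + f = 3 * α := by exact_mod_cast a1
  have a2' : (s : ℝ) + 2 * f = 3 * a := by exact_mod_cast a2
  have a3' : (f : ℝ) ≤ s := by exact_mod_cast a3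
  have a4' : (s : ℝ) ≤ l := by exact_mod_cast a4
  have b1' : (m : ℝ) + t + g = 3 * β := by exact_mod_cast b1
  have b2' : (t : ℝ) + 2 * g = 3 * b := by exact_mod_cast b2
  have b3' : (g : ℝ) ≤ t := by exact_mod_cast b3
  have b4' : (t : ℝ) ≤ m := by exact_mod_cast b4
  have hαβ : (0 : ℝ) < α * β := mul_pos hα hβ
  have key := psi (s / α) (f / α) (t / β) (g / β) (μ / (α * β)) (by positivity)
    (div_le_div_of_nonneg_right a3' hα.le)
    (by rw [show 2 * ((s : ℝ) / α) + f / α = (2 * s + f) / α by ring, div_le_iff₀ hα]; linarith)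
    (by positivity) (div_le_div_of_nonneg_right b3' hβ.le)
    (by rw [show 2 * ((t : ℝ) / β) + g / β = (2 * t + g) / β by ring, div_le_iff₀ hβ]; linarith)
    (by rw [div_mul_div_comm]; exact div_le_div_of_nonneg_right m1' hαβ.le)
    (by
      rw [show (3 : ℝ) - t / β - g / β = m / β by field_simp; linarith, div_mul_div_comm]
      exact div_le_div_of_nonneg_right m2' hαβ.le)
    (by
      rw [show (3 : ℝ) - s / α - f / α = l / α by field_simp; linarith, mul_comm,
        div_mul_div_comm]
      exact div_le_div_of_nonneg_right m3' hαβ.le) p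
    (by
      rw [show (s : ℝ) / α + 2 * (f / α) = 3 * a / α by rw [← a2']; ring,
        show (t : ℝ) / β + 2 * (g / β) = 3 * b / β by rw [← b2']; ring, div_mul_div_comm,
        eq_div_iff hαβ.ne']
      linear_combination 9 * hp)
  rw [div_mul_eq_mul_div, le_div_iff₀ hαβ] at key
  exact key

/-- number of balanced words for a direction of full weight -/
theorem card_tri_full {n : ℕ} (hn : Fintype.card ι = n) {e : ι → ZMod 3} (hw : wt univ e = n)
    {d : ℕ} (hd : 3 * d = 2 * n) (T : Finset (ι → ZMod 3)) (hT : ∀ c ∈ T, Tri e d c) :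
    T.card ≤ n.choose (n / 3) * (2 * n / 3).choose (n / 3) := by
  have he : ∀ i, e i ≠ 0 := by
    have : supp e = univ := eq_univ_of_card _ (by rw [card_supp, hw, hn])
    intro i
    have hi : i ∈ supp e := by rw [this]; exact mem_univ i
    exact (mem_filter.1 hi).2
  have hz : ∀ v : ι → ZMod 3, wt univ v = d → (univ.filter fun i => v i = 0).card = n / 3 := by
    intro v hv
    have := card_filter_add_card_filter_not (s := (univ : Finset ι)) (fun i => v i = 0)
    rw [card_univ, hn] at this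
    unfold wt at hv
    simp only [ne_eq] at hv
    omega
  have hc : ((powersetCard (n / 3) (univ : Finset ι)).sigma
      fun Z => powersetCard (n / 3) Zᶜ).card = n.choose (n / 3) * (2 * n / 3).choose (n / 3) := by
    rw [card_sigma, sum_congr rfl (g := fun _ => (2 * n / 3).choose (n / 3)) fun Z hZ => by
      rw [card_powersetCard, card_compl, (mem_powersetCard.1 hZ).2, hn]
      congr 1
      omega]
    rw [sum_const, card_powersetCard, card_univ, hn, smul_eq_mul]
  rw [← hc]
  refine card_le_card_of_injOn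
    (fun c => ⟨univ.filter fun i => c i = 0, univ.filter fun i => (c + (1 : ZMod 3) • e) i = 0⟩)
    ?_ ?_
  · intro c hc
    rw [mem_coe] at hc
    rw [mem_coe, mem_sigma, mem_powersetCard, mem_powersetCard]
    refine ⟨⟨subset_univ _, hz c (hT c hc).wt_eq⟩, fun i hi => ?_, hz _ (hT c hc 1)⟩
    rw [mem_filter] at hi
    rw [mem_compl, mem_filter]
    intro h
    have := hi.2
    simp only [Pi.add_apply, one_smul, h.2, zero_add] at this
    exact he i this
  · intro c _ c' _ h
    simp only [Sigma.mk.injEq, heq_eq_eq] at h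
    funext i
    have h1 : c i = 0 ↔ c' i = 0 := by simpa using Finset.ext_iff.1 h.1 i
    have h2 : c i + e i = 0 ↔ c' i + e i = 0 := by simpa using Finset.ext_iff.1 h.2 i
    have aux : ∀ x y z : ZMod 3, z ≠ 0 → (x = 0 ↔ y = 0) → (x + z = 0 ↔ y + z = 0) → x = y := by
      decide
    exact aux _ _ _ (he i) h1 h2

end Pool.Agent.Lib.MP_990a44_co.Q3
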