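import Pool.Agent.Lib.MP_990a44_co.Q3Hull

/-! The nine-letter bound when the hull contains a word of weight three. -/

namespace Pool.Agent.Lib.MP_990a44_co.Q3

open Finset

variable {ι : Type} [Fintype ι] [DecidableEq ι]

/-- distance between two letters of the nine-letter alphabet (line `l`, position `p`) -/
def dd (l p l' p' : ZMod 3) : ℕ := if l = l' then (if p = p' then 0 else 3) else 2

/-- a pair seen through the nine-letter alphabet; `V` is the set of remaining coordinates -/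
structure NineData (V : Finset ι) (ln ps : (ι → ZMod 3) → ZMod 3) (A B : Finset (ι → ZMod 3))
    (d : ℕ) : Prop where
  dist : ∀ a ∈ A, ∀ b ∈ B, dW V a b + dd (ln a) (ps a) (ln b) (ps b) = d
  injA : ∀ a ∈ A, ∀ a' ∈ A, (∀ i ∈ V, a i = a' i) → ln a = ln a' → ps a = ps a' → a = a'
  injB : ∀ a ∈ B, ∀ a' ∈ B, (∀ i ∈ V, a i = a' i) → ln a = ln a' → ps a = ps a' → a = a'

/-- all fibres of the projection to `V` have at most `k` elements -/
def Fib (V : Finset ι) (X : Finset (ι → ZMod 3)) (k : ℕ) : Prop :=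
  ∀ v, (X.filter fun a => proj V a = v).card ≤ k

/-- the words on the line `l` -/
def onL (ln : (ι → ZMod 3) → ZMod 3) (X : Finset (ι → ZMod 3)) (l : ZMod 3) :
    Finset (ι → ZMod 3) := X.filter fun a => ln a = l

variable {V : Finset ι} {ln ps : (ι → ZMod 3) → ZMod 3} {A B : Finset (ι → ZMod 3)} {d : ℕ}

theorem dd_comm (l p l' p' : ZMod 3) : dd l p l' p' = dd l' p' l p := by
  revert l p l' p'; decide

omit [Fintype ι] [DecidableEq ι] in
theorem NineData.symm (h : NineData V ln ps A B d) : NineData V ln ps B A d :=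
  ⟨fun b hb a ha => by rw [dW_comm, dd_comm]; exact h.dist a ha b hb, h.injB, h.injA⟩

omit [Fintype ι] [DecidableEq ι] in
theorem NineData.same (h : NineData V ln ps A B d) {a a' b : ι → ZMod 3} (ha : a ∈ A)
    (ha' : a' ∈ A) (hb : b ∈ B) (hh : ∀ i ∈ V, a i = a' i) :
    dd (ln a) (ps a) (ln b) (ps b) = dd (ln a') (ps a') (ln b) (ps b) := by
  have e1 := h.dist a ha b hb
  have e2 := h.dist a' ha' b hb
  rw [← dW_congr hh fun _ _ => rfl] at e2
  omega

theorem NineData.fib_of (h : NineData V ln ps A B d) (l : ZMod 3) {X : Finset (ι → ZMod 3)}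
    (hX : X ⊆ onL ln A l) (T : Finset (ZMod 3)) (hT : ∀ a ∈ X, ps a ∈ T) : Fib V X T.card := by
  intro v
  refine card_le_card_of_injOn ps (fun a ha => hT a (mem_filter.1 ha).1) ?_
  intro a ha a' ha' hh
  rw [mem_coe, mem_filter] at ha ha'
  have h1 := hX ha.1
  have h2 := hX ha'.1
  rw [onL, mem_filter] at h1 h2
  exact h.injA a h1.1 a' h2.1 (proj_eq_iff.1 (ha.2.trans ha'.2.symm)) (h1.2.trans h2.2.symm) hh

theorem NineData.fib_three (h : NineData V ln ps A B d) (l : ZMod 3) : Fib V (onL ln A l) 3 := by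
  simpa using h.fib_of l (Subset.refl _) univ fun _ _ => mem_univ _

theorem card_erase_three (x : ZMod 3) : ((univ : Finset (ZMod 3)).erase x).card = 2 := by
  rw [card_erase_of_mem (mem_univ _)]; simp

theorem NineData.fib_two (h : NineData V ln ps A B d) (l : ZMod 3) (hB : (onL ln B l).Nonempty) :
    Fib V (onL ln A l) 2 := by
  obtain ⟨b, hb⟩ := hB
  rw [onL, mem_filter] at hb
  intro v
  by_cases h1 : ((onL ln A l).filter fun a => proj V a = v).card ≤ 1
  · omega
  have h2 := h.fib_of l (X := (onL ln A l).filter fun a => proj V a = v) (filter_subset _ _)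
    (univ.erase (ps b)) (by
      intro a ha
      obtain ⟨a', ha', hne⟩ := exists_mem_ne (not_le.1 h1) a
      rw [mem_filter, onL, mem_filter] at ha ha'
      have hh := proj_eq_iff.1 (ha.2.trans ha'.2.symm)
      have e := h.same ha.1.1 ha'.1.1 hb.1 hh
      rw [ha.1.2, ha'.1.2, hb.2] at e
      rw [mem_erase]
      refine ⟨fun hp => hne (h.injA a ha.1.1 a' ha'.1.1 hh (ha.1.2.trans ha'.1.2.symm) ?_).symm,
        mem_univ _⟩
      have aux : ∀ l x y z : ZMod 3, dd l x l z = dd l y l z → x = z → x = y := by decide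
      exact aux _ _ _ _ e hp) v
  rw [filter_filter, card_erase_three] at h2
  simpa using h2

theorem NineData.fib_or (h : NineData V ln ps A B d) (l : ZMod 3) :
    Fib V (onL ln A l) 1 ∨ Fib V (onL ln B l) 1 := by
  by_cases h1 : Fib V (onL ln A l) 1
  · exact Or.inl h1
  right
  unfold Fib at h1
  push Not at h1
  obtain ⟨v, hv⟩ := h1
  obtain ⟨a, ha, a', ha', hne⟩ := one_lt_card.1 hv
  rw [mem_filter, onL, mem_filter] at ha ha'
  have hh := proj_eq_iff.1 (ha.2.trans ha'.2.symm)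
  have hp : ps a ≠ ps a' := fun hp =>
    hne (h.injA a ha.1.1 a' ha'.1.1 hh (ha.1.2.trans ha'.1.2.symm) hp)
  have := h.symm.fib_of l (Subset.refl _) {-(ps a + ps a')} (by
    intro b hb
    rw [onL, mem_filter] at hb
    have e := h.same ha.1.1 ha'.1.1 hb.1 hh
    rw [ha.1.2, ha'.1.2, hb.2] at e
    have aux : ∀ l x y z : ZMod 3, dd l x l z = dd l y l z → x ≠ y → z = -(x + y) := by decide
    exact mem_singleton.2 (aux _ _ _ _ e hp))
  simpa using this

theorem NineData.rect {n : ℕ} (ih : IH n) (hV : V.card < n) (h : NineData V ln ps A B d)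
    {X Y : Finset (ι → ZMod 3)} (hX : X ⊆ A) (hY : Y ⊆ B) (t k l : ℕ)
    (ht : ∀ a ∈ X, ∀ b ∈ Y, dd (ln a) (ps a) (ln b) (ps b) = t) (hk : Fib V X k)
    (hl : Fib V Y l) : X.card * Y.card ≤ k * l * F V.card (d - t) := by
  refine restrict_fib ih V hV (fun a ha b hb => ?_) k l hk hl
  have := h.dist a (hX ha) b (hY hb)
  rw [ht a ha b hb] at this
  omega

theorem NineData.letter {n : ℕ} (ih : IH n) (hV : V.card < n) (h : NineData V ln ps A B d)
    (l x : ZMod 3) (k : ℕ) (hk : Fib V ((onL ln B l).filter fun b => ¬ ps b = x) k) :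
    ((onL ln A l).filter fun a => ps a = x).card * (onL ln B l).card ≤
      F V.card d + k * F V.card (d - 3) := by
  have fA : Fib V ((onL ln A l).filter fun a => ps a = x) 1 := by
    simpa using h.fib_of l (filter_subset _ _) {x} fun a ha => mem_singleton.2 (mem_filter.1 ha).2
  have fB : Fib V ((onL ln B l).filter fun a => ps a = x) 1 := by
    simpa using h.symm.fib_of l (filter_subset _ _) {x}
      fun a ha => mem_singleton.2 (mem_filter.1 ha).2
  have sA : ((onL ln A l).filter fun a => ps a = x) ⊆ A :=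
    (filter_subset _ _).trans (filter_subset _ _)
  have r1 := h.rect ih hV sA (Y := (onL ln B l).filter fun a => ps a = x)
    ((filter_subset _ _).trans (filter_subset _ _)) 0 1 1 (by
      intro a ha b hb
      rw [mem_filter, onL, mem_filter] at ha hb
      rw [ha.1.2, hb.1.2, ha.2, hb.2, dd, if_pos rfl, if_pos rfl]) fA fB
  have r2 := h.rect ih hV sA (Y := (onL ln B l).filter fun a => ¬ ps a = x)
    ((filter_subset _ _).trans (filter_subset _ _)) 3 1 k (by
      intro a ha b hb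
      rw [mem_filter, onL, mem_filter] at ha hb
      rw [ha.1.2, hb.1.2, ha.2, dd, if_pos rfl, if_neg fun hh => hb.2 hh.symm]) fA hk
  rw [← card_filter_add_card_filter_not (s := onL ln B l) (fun b => ps b = x), mul_add]
  simpa using add_le_add r1 r2

theorem NineData.same_line {n : ℕ} (ih : IH n) (hV : V.card < n) (h : NineData V ln ps A B d)
    (hM : F V.card d + F V.card (d - 3) ≤ F V.card (d - 2)) (l : ZMod 3) :
    (onL ln A l).card * (onL ln B l).card ≤ 3 * F V.card (d - 2) := by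
  by_cases h1 : ∃ x, ∀ a ∈ onL ln A l, ps a = x
  · obtain ⟨x, hx⟩ := h1
    have := h.letter ih hV l x 2 (by
      rw [← card_erase_three x]
      exact h.symm.fib_of l (filter_subset _ _) _ fun b hb =>
        mem_erase.2 ⟨(mem_filter.1 hb).2, mem_univ _⟩)
    rw [filter_true_of_mem hx] at this
    omega
  · push Not at h1
    have h2 : ∀ x ∈ (univ : Finset (ZMod 3)),
        ((onL ln A l).filter fun a => ps a = x).card * (onL ln B l).card ≤ F V.card (d - 2) := by
      intro x _
      obtain ⟨a, ha, hx⟩ := h1 x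
      rw [onL, mem_filter] at ha
      have := h.letter ih hV l x 1 (fib_le_one (by
        intro b hb b' hb' hh
        rw [mem_filter, onL, mem_filter] at hb hb'
        have e := h.symm.same hb.1.1 hb'.1.1 ha.1 hh
        rw [hb.1.2, hb'.1.2, ha.2] at e
        have aux : ∀ l x p q r : ZMod 3, p ≠ x → dd l q l p = dd l r l p → ¬ q = x → ¬ r = x →
          q = r := by decide
        exact h.injB b hb.1.1 b' hb'.1.1 hh (hb.1.2.trans hb'.1.2.symm)
          (aux _ _ _ _ _ hx e hb.2 hb'.2)))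
      omega
    have h3 := sum_le_card_nsmul _ _ _ h2
    rw [← sum_mul, ← card_eq_sum_card_fiberwise fun _ _ => mem_univ _] at h3
    simpa using h3

/-- the four types of a line -/
def Ty (u v s : ℕ) : Prop :=
  (u = 3 ∧ v = 0 ∧ s = 0) ∨ (u = 0 ∧ v = 3 ∧ s = 0) ∨ (u = 2 ∧ v = 1 ∧ s = 3) ∨
    (u = 1 ∧ v = 2 ∧ s = 3)

theorem fib_empty (V : Finset ι) : Fib V ∅ 0 := fun v => by simp

theorem NineData.line_type {n : ℕ} (ih : IH n) (hV : V.card < n) (h : NineData V ln ps A B d)
    (hM : F V.card d + F V.card (d - 3) ≤ F V.card (d - 2)) (l : ZMod 3) :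
    ∃ u v s : ℕ, Ty u v s ∧ Fib V (onL ln A l) u ∧ Fib V (onL ln B l) v ∧
      (onL ln A l).card * (onL ln B l).card ≤ s * F V.card (d - 2) ∧
      (v ≠ 0 → (onL ln B l).Nonempty) := by
  rcases (onL ln B l).eq_empty_or_nonempty with hB | hB
  · refine ⟨3, 0, 0, Or.inl ⟨rfl, rfl, rfl⟩, h.fib_three l, ?_, by simp [hB], fun hh => absurd rfl hh⟩
    rw [hB]; exact fib_empty V
  rcases (onL ln A l).eq_empty_or_nonempty with hA | hA
  · refine ⟨0, 3, 0, Or.inr (Or.inl ⟨rfl, rfl, rfl⟩), ?_, h.symm.fib_three l, by simp [hA],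
      fun _ => hB⟩
    rw [hA]; exact fib_empty V
  rcases h.fib_or l with h1 | h1
  · exact ⟨1, 2, 3, Or.inr (Or.inr (Or.inr ⟨rfl, rfl, rfl⟩)), h1, h.symm.fib_two l hA,
      h.same_line ih hV hM l, fun _ => hB⟩
  · exact ⟨2, 1, 3, Or.inr (Or.inr (Or.inl ⟨rfl, rfl, rfl⟩)), h.fib_two l hB, h1,
      h.same_line ih hV hM l, fun _ => hB⟩

theorem NineData.fib_off (h : NineData V ln ps A B d) (l : ZMod 3) {u₁ u₂ v₁ v₂ : ℕ}
    (h₁ : Fib V (onL ln A (l + 1)) u₁) (h₂ : Fib V (onL ln A (l + 2)) u₂)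
    (n₁ : v₁ ≠ 0 → (onL ln B (l + 1)).Nonempty) (n₂ : v₂ ≠ 0 → (onL ln B (l + 2)).Nonempty) :
    Fib V (A.filter fun a => ¬ ln a = l) (if v₁ = 0 ∧ v₂ = 0 then u₁ + u₂ else max u₁ u₂) := by
  intro v
  have aux : ∀ l x : ZMod 3, ¬ x = l → x = l + 1 ∨ x = l + 2 := by decide
  split_ifs with hv
  · refine le_trans (card_le_card ?_) ((card_union_le _ _).trans (add_le_add (h₁ v) (h₂ v)))
    intro a ha
    rw [mem_filter, mem_filter] at ha
    rw [mem_union, mem_filter, mem_filter, onL, onL, mem_filter, mem_filter]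
    rcases aux l _ ha.1.2 with h1 | h1
    · exact Or.inl ⟨⟨ha.1.1, h1⟩, ha.2⟩
    · exact Or.inr ⟨⟨ha.1.1, h1⟩, ha.2⟩
  · obtain ⟨b, hb, hbl⟩ : ∃ b ∈ B, ln b = l + 1 ∨ ln b = l + 2 := by
      rcases not_and_or.1 hv with h1 | h1
      · obtain ⟨b, hb⟩ := n₁ h1
        rw [onL, mem_filter] at hb
        exact ⟨b, hb.1, Or.inl hb.2⟩
      · obtain ⟨b, hb⟩ := n₂ h1
        rw [onL, mem_filter] at hb
        exact ⟨b, hb.1, Or.inr hb.2⟩
    rcases ((A.filter fun a => ¬ ln a = l).filter fun a => proj V a = v).eq_empty_or_nonempty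
      with h0 | ⟨a₀, ha₀⟩
    · simp [h0]
    rw [mem_filter, mem_filter] at ha₀
    have hsub : ((A.filter fun a => ¬ ln a = l).filter fun a => proj V a = v) ⊆
        (onL ln A (ln a₀)).filter fun a => proj V a = v := by
      intro a ha
      rw [mem_filter, mem_filter] at ha
      rw [mem_filter, onL, mem_filter]
      refine ⟨⟨ha.1.1, ?_⟩, ha.2⟩
      have e := h.same ha.1.1 ha₀.1.1 hb (proj_eq_iff.1 (ha.2.trans ha₀.2.symm))
      have aux2 : ∀ l x y z p q r : ZMod 3, ¬ x = l → ¬ y = l → (z = l + 1 ∨ z = l + 2) →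
        dd x p z r = dd y q z r → x = y := by decide
      exact aux2 _ _ _ _ _ _ _ ha.1.2 ha₀.1.2 hbl e
    refine (card_le_card hsub).trans ?_
    rcases aux l _ ha₀.1.2 with h1 | h1
    · rw [h1]; exact (h₁ v).trans (le_max_left _ _)
    · rw [h1]; exact (h₂ v).trans (le_max_right _ _)

theorem NineData.bound {n : ℕ} (ih : IH n) (hV : V.card < n) (h : NineData V ln ps A B d)
    (hM : F V.card d + F V.card (d - 3) ≤ F V.card (d - 2)) :
    A.card * B.card ≤ 18 * F V.card (d - 2) := by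
  choose u v s hT hu hv hs hn using h.line_type ih hV hM
  have key : ∀ l, A.card * (onL ln B l).card ≤ (s l + (if v (l + 1) = 0 ∧ v (l + 2) = 0 then
      u (l + 1) + u (l + 2) else max (u (l + 1)) (u (l + 2))) * v l) * F V.card (d - 2) := by
    intro l
    have r := h.rect ih hV (X := A.filter fun a => ¬ ln a = l) (Y := onL ln B l)
      (filter_subset _ _) (filter_subset _ _) 2 _ _ (by
        intro a ha b hb
        rw [mem_filter] at ha
        rw [onL, mem_filter] at hb
        rw [hb.2, dd, if_neg ha.2])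
      (h.fib_off l (hu _) (hu _) (hn _) (hn _)) (hv l)
    rw [← card_filter_add_card_filter_not (s := A) (fun a => ln a = l), add_mul, add_mul]
    exact add_le_add (hs l) r
  have hB : B.card = (onL ln B 0).card + (onL ln B 1).card + (onL ln B 2).card := by
    rw [card_eq_sum_card_fiberwise (s := B) (t := univ) (f := ln) fun _ _ => mem_univ _]
    exact Fin.sum_univ_three fun l : ZMod 3 => (onL ln B l).card
  have k0 := key 0
  have k1 := key 1
  have k2 := key 2
  rw [show (0 + 1 : ZMod 3) = 1 from rfl, show (0 + 2 : ZMod 3) = 2 from rfl] at k0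
  rw [show (1 + 1 : ZMod 3) = 2 from rfl, show (1 + 2 : ZMod 3) = 0 from rfl] at k1
  rw [show (2 + 1 : ZMod 3) = 0 from rfl, show (2 + 2 : ZMod 3) = 1 from rfl] at k2
  rw [hB, mul_add, mul_add]
  refine (add_le_add (add_le_add k0 k1) k2).trans ?_
  rw [← add_mul, ← add_mul]
  refine Nat.mul_le_mul_right _ ?_
  have t0 := hT 0
  have t1 := hT 1
  have t2 := hT 2
  generalize u 0 = u0 at *
  generalize u 1 = u1 at *
  generalize u 2 = u2 at *
  generalize v 0 = v0 at *
  generalize v 1 = v1 at *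
  generalize v 2 = v2 at *
  generalize s 0 = s0 at *
  generalize s 1 = s1 at *
  generalize s 2 = s2 at *
  rcases t0 with ⟨rfl, rfl, rfl⟩ | ⟨rfl, rfl, rfl⟩ | ⟨rfl, rfl, rfl⟩ | ⟨rfl, rfl, rfl⟩ <;>
  rcases t1 with ⟨rfl, rfl, rfl⟩ | ⟨rfl, rfl, rfl⟩ | ⟨rfl, rfl, rfl⟩ | ⟨rfl, rfl, rfl⟩ <;>
  rcases t2 with ⟨rfl, rfl, rfl⟩ | ⟨rfl, rfl, rfl⟩ | ⟨rfl, rfl, rfl⟩ | ⟨rfl, rfl, rfl⟩ <;>
  decide

theorem nine {n : ℕ} (ih : IH n) (hn : Fintype.card ι = n) (h : CD A B d) (hA : A.Nonempty)
    (hB : B.Nonempty) {e : ι → ZMod 3} (he : e ∈ hull A B) (hw : wt univ e = 3) :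
    Nine n d (A.card * B.card) := by
  intro _ hM
  obtain ⟨i, j, k, hij, hik, hjk, hs⟩ := card_eq_three.1 ((card_supp e).trans hw)
  have hne : ∀ t ∈ supp e, e t ≠ 0 := fun t ht => (mem_filter.1 ht).2
  have hi := hne i (by simp [hs])
  have hj := hne j (by simp [hs])
  have hk := hne k (by simp [hs])
  have hdot : ∀ c : ι → ZMod 3, c ⬝ᵥ e = c i * e i + (c j * e j + c k * e k) := by
    intro c
    have : c ⬝ᵥ e = ∑ t ∈ supp e, c t * e t := by
      rw [supp, sum_filter, dotProduct]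
      refine sum_congr rfl fun t _ => ?_
      by_cases ht : e t = 0 <;> simp [ht]
    rw [this, hs, sum_insert (by simp [hij, hik]), sum_insert (by simp [hjk]), sum_singleton]
  have hwt : ∀ c : ι → ZMod 3, wt (supp e) c =
      (if c i ≠ 0 then 1 else 0) + ((if c j ≠ 0 then 1 else 0) + if c k ≠ 0 then 1 else 0) := by
    intro c
    rw [wt_eq_sum, hs, sum_insert (by simp [hij, hik]), sum_insert (by simp [hjk]), sum_singleton]
  have h0 : ∀ a ∈ A, ∀ b ∈ B, (b - a) ⬝ᵥ e = 0 := fun a ha b hb =>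
    mem_dual.1 (diff_mem_dual h ha hb) e he
  have hc : (supp e)ᶜ.card = n - 3 := by rw [card_compl, card_supp, hw, hn]
  have h3 : 3 ≤ n := by rw [← hw, ← hn, ← card_univ]; exact wt_le _ _
  have inj : ∀ a a' : ι → ZMod 3, (a' - a) ⬝ᵥ e = 0 → (∀ t ∈ (supp e)ᶜ, a t = a' t) →
      a j * e j - a i * e i = a' j * e j - a' i * e i → a i * e i = a' i * e i → a = a' := by
    intro a a' h1 h2 h3 h4
    rw [hdot] at h1
    simp only [Pi.sub_apply] at h1
    have aux : ∀ x x' y : ZMod 3, y ≠ 0 → (x' - x) * y = 0 → x = x' := by decide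
    have e1 : a i = a' i := aux _ _ _ hi (by linear_combination -h4)
    have e2 : a j = a' j := aux _ _ _ hj (by linear_combination -h3 - h4)
    have e3 : a k = a' k := aux _ _ _ hk (by rw [e1, e2] at h1; linear_combination h1)
    funext t
    by_cases ht : t ∈ supp e
    · rw [hs] at ht
      simp only [mem_insert, mem_singleton] at ht
      rcases ht with rfl | rfl | rfl <;> assumption
    · exact h2 t (mem_compl.2 ht)
  obtain ⟨a₀, ha₀⟩ := hA
  obtain ⟨b₀, hb₀⟩ := hB
  have hd : NineData (supp e)ᶜ (fun x => x j * e j - x i * e i) (fun x => x i * e i) A B d := by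
    refine ⟨fun a ha b hb => ?_, fun a ha a' ha' => inj a a' ?_, fun b hb b' hb' => inj b b' ?_⟩
    · have e1 := dW_add_compl (supp e) a b
      rw [h a ha b hb, dW_eq_wt (supp e), hwt] at e1
      have e2 := h0 a ha b hb
      rw [hdot] at e2
      have aux : ∀ x y z p q r : ZMod 3, p ≠ 0 → q ≠ 0 → r ≠ 0 → x * p + (y * q + z * r) = 0 →
          ((if x ≠ 0 then 1 else 0) + ((if y ≠ 0 then 1 else 0) + if z ≠ 0 then 1 else 0) : ℕ) =
          dd 0 0 (y * q - x * p) (x * p) := by decide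
      have aux2 : ∀ l p l' p' : ZMod 3, dd l p l' p' = dd 0 0 (l' - l) (p' - p) := by decide
      rw [aux _ _ _ _ _ _ hi hj hk e2] at e1
      rw [aux2, ← e1, add_comm]
      congr 2
      · simp only [Pi.sub_apply]; ring
      · simp only [Pi.sub_apply]; ring
    · have := congrArg₂ (· - ·) (h0 a ha b₀ hb₀) (h0 a' ha' b₀ hb₀)
      simp only [sub_dotProduct] at this ⊢
      linear_combination this
    · have := congrArg₂ (· - ·) (h0 a₀ ha₀ b' hb') (h0 a₀ ha₀ b hb)
      simp only [sub_dotProduct] at this ⊢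
      linear_combination this
  have := hd.bound ih (by rw [hc]; omega) (by rw [hc]; exact hM)
  rwa [hc] at this

end Pool.Agent.Lib.MP_990a44_co.Q3
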