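import Pool.Agent.Lib.MP_990a44_co.Matrix

/-!
Upper bound for constant distance code pairs over alphabets with at least four letters, by a
weighted (LYM type) induction that removes a coordinate of disagreement.
-/

namespace Pool.Agent.Lib.MP_990a44_co

open Finset

set_option linter.unusedSectionVars false

/-- One step growth factor. -/
noncomputable def cc (q m l : ℕ) : ℝ := max (qb q : ℝ) (((q : ℝ) - 1) * ((m : ℝ) + l) / l)

/-- Inverse weight. -/
noncomputable def G (q m δ i : ℕ) : ℝ := (qb q : ℝ) ^ i * ∏ l ∈ range (δ - i), cc q m (l + 1)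

theorem qb_le_cc (q m l : ℕ) : (qb q : ℝ) ≤ cc q m l := le_max_left _ _

theorem qbR_pos {q : ℕ} (hq : 4 ≤ q) : (0 : ℝ) < qb q := by
  exact_mod_cast qb_pos (by omega : 2 ≤ q)

theorem cc_pos {q : ℕ} (hq : 4 ≤ q) (m l : ℕ) : 0 < cc q m l :=
  lt_of_lt_of_le (qbR_pos hq) (qb_le_cc q m l)

theorem G_pos {q : ℕ} (hq : 4 ≤ q) (m δ i : ℕ) : 0 < G q m δ i := by
  unfold G
  exact mul_pos (pow_pos (qbR_pos hq) _) (prod_pos fun l _ => cc_pos hq m _)

theorem G_succ_succ (q m δ i : ℕ) : G q m (δ + 1) (i + 1) = qb q * G q m δ i := by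
  unfold G
  rw [Nat.add_sub_add_right, pow_succ]; ring

theorem G_succ (q m δ i : ℕ) (h : i ≤ δ) :
    G q m (δ + 1) i = cc q m (δ + 1 - i) * G q m δ i := by
  unfold G
  have : δ + 1 - i = (δ - i) + 1 := by omega
  rw [this, prod_range_succ]; ring

theorem G_step {q : ℕ} (hq : 4 ≤ q) (m δ i : ℕ) (h : i < δ) : G q m δ (i + 1) ≤ G q m δ i := by
  obtain ⟨δ', rfl⟩ : ∃ δ', δ = δ' + 1 := ⟨δ - 1, by omega⟩
  rw [G_succ_succ, G_succ q m δ' i (by omega)]
  exact mul_le_mul_of_nonneg_right (qb_le_cc _ _ _) (G_pos hq _ _ _).le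

theorem G_anti {q : ℕ} (hq : 4 ≤ q) (m δ i j : ℕ) (hij : i ≤ j) (hj : j ≤ δ) :
    G q m δ j ≤ G q m δ i := by
  induction j, hij using Nat.le_induction with
  | base => exact le_rfl
  | succ k hk ih => exact (G_step hq m δ k (by omega)).trans (ih (by omega))

variable {ι α : Type*} [Fintype ι] [DecidableEq ι] [DecidableEq α]

/-- Coordinates where `a` has a letter unused by `B` and `b` has a letter unused by `A`. -/
def Iset (A B : Finset (ι → α)) (a b : ι → α) : Finset ι :=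
  univ.filter fun t => (∀ b' ∈ B, b' t ≠ a t) ∧ (∀ a' ∈ A, a' t ≠ b t)

theorem hd_eq (a b : ι → α) : hammingDist a b = (univ.filter fun t => a t ≠ b t).card := rfl

theorem Iset_subset {A B : Finset (ι → α)} {a b : ι → α} (hb : b ∈ B) :
    Iset A B a b ⊆ univ.filter fun t => a t ≠ b t := by
  intro t ht
  simp only [Iset, mem_filter, mem_univ, true_and] at ht ⊢
  exact (ht.1 b hb).symm

theorem filter_update (a b : ι → α) (t : ι) (c : α) :
    (univ.filter fun s => Function.update a t c s ≠ Function.update b t c s)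
      = (univ.filter fun s => a s ≠ b s).erase t := by
  ext s
  by_cases h : s = t
  · subst h; simp
  · simp [h]

theorem hd_update_of_ne {a b : ι → α} {t : ι} (c : α) (h : a t ≠ b t) :
    hammingDist (Function.update a t c) (Function.update b t c) + 1 = hammingDist a b := by
  rw [hd_eq, hd_eq, filter_update, card_erase_add_one]
  simpa using h

theorem hd_update_of_eq {a b : ι → α} {t : ι} (c : α) (h : a t = b t) :
    hammingDist (Function.update a t c) (Function.update b t c) = hammingDist a b := by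
  rw [hd_eq, hd_eq, filter_update, erase_eq_of_notMem]
  simpa using h

theorem eq_of_update_eq {a a' : ι → α} {t : ι} {c : α}
    (h : Function.update a t c = Function.update a' t c) (ht : a t = a' t) : a = a' := by
  funext s
  by_cases hs : s = t
  · rw [hs, ht]
  · have := congrFun h s
    simpa [Function.update_of_ne hs] using this

/-- Injectivity of the projection on words whose letter at `t` lies in `S`, where at most one
letter of `S` is unused by the other family. -/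
theorem injOn_update {A B : Finset (ι → α)} {δ : ℕ}
    (hd : ∀ a ∈ A, ∀ b ∈ B, hammingDist a b = δ) (t : ι) (c : α) (S P : Finset α)
    (hS : ∀ x ∈ S, x ∉ P → ∃ b ∈ B, b t = x) (hP : (S ∩ P).card ≤ 1) :
    Set.InjOn (fun a : ι → α => Function.update a t c)
      ((A.filter fun a => a t ∈ S : Finset (ι → α)) : Set (ι → α)) := by
  intro a ha a' ha' h
  simp only [coe_filter, Set.mem_setOf_eq] at ha ha'
  apply eq_of_update_eq h
  by_contra hne
  have key : ∀ x y : ι → α, x ∈ A → y ∈ A → Function.update x t c = Function.update y t c →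
      x t ≠ y t → (∃ b ∈ B, b t = x t) → False := by
    rintro x y hx hy hxy hne ⟨b, hb, hbt⟩
    have h1 := hd_update_of_eq c hbt.symm
    have h2 := hd_update_of_ne c (a := y) (b := b) (t := t) (by rw [hbt]; exact hne.symm)
    rw [hd x hx b hb] at h1
    rw [hd y hy b hb, ← hxy] at h2
    omega
  by_cases h1 : a t ∈ P
  · by_cases h2 : a' t ∈ P
    · exact hne (card_le_one.1 hP _ (mem_inter.2 ⟨ha.2, h1⟩) _ (mem_inter.2 ⟨ha'.2, h2⟩))
    · exact key a' a ha'.1 ha.1 h.symm (Ne.symm hne) (hS _ ha'.2 h2)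
  · exact key a a' ha.1 ha'.1 h hne (hS _ ha.2 h1)

/-- The statement proved by induction on the distance. -/
def Claim (q m δ : ℕ) (ι α : Type*) [Fintype ι] [DecidableEq ι] [DecidableEq α] (c : α) : Prop :=
  ∀ (U : Finset ι) (A B : Finset (ι → α)), U.card = m + δ →
    (∀ a ∈ A, ∀ t, t ∉ U → a t = c) → (∀ b ∈ B, ∀ t, t ∉ U → b t = c) →
    (∀ a ∈ A, ∀ b ∈ B, hammingDist a b = δ) →
    ∑ a ∈ A, ∑ b ∈ B, 1 / G q m δ (Iset A B a b).card ≤ 1

theorem sub_pair {q m δ : ℕ} (hq : 4 ≤ q) {c : α} (ih : Claim q m δ ι α c)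
    {U : Finset ι} {A B : Finset (ι → α)} (hU : U.card = m + (δ + 1))
    (hA : ∀ a ∈ A, ∀ t, t ∉ U → a t = c) (hB : ∀ b ∈ B, ∀ t, t ∉ U → b t = c)
    (hd : ∀ a ∈ A, ∀ b ∈ B, hammingDist a b = δ + 1) {t : ι} (ht : t ∈ U)
    (S T : Finset α) (hST : Disjoint S T)
    (hiA : Set.InjOn (fun a : ι → α => Function.update a t c)
      ((A.filter fun a => a t ∈ S : Finset (ι → α)) : Set (ι → α)))
    (hiB : Set.InjOn (fun a : ι → α => Function.update a t c)
      ((B.filter fun b => b t ∈ T : Finset (ι → α)) : Set (ι → α))) :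
    ∑ a ∈ A.filter (fun a => a t ∈ S), ∑ b ∈ B.filter (fun b => b t ∈ T),
      1 / G q m δ ((Iset A B a b).erase t).card ≤ 1 := by
  set A' := (A.filter fun a => a t ∈ S).image (fun a => Function.update a t c) with hA'
  set B' := (B.filter fun b => b t ∈ T).image (fun a => Function.update a t c) with hB'
  have hd' : ∀ a ∈ A.filter (fun a => a t ∈ S), ∀ b ∈ B.filter (fun b => b t ∈ T),
      hammingDist (Function.update a t c) (Function.update b t c) = δ := by
    intro a ha b hb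
    rw [mem_filter] at ha hb
    have hne : a t ≠ b t := fun h => disjoint_left.1 hST ha.2 (h ▸ hb.2)
    have := hd_update_of_ne c hne
    rw [hd a ha.1 b hb.1] at this
    omega
  have hout : ∀ (C : Finset (ι → α)) (R : Finset α), (∀ a ∈ C, ∀ t, t ∉ U → a t = c) →
      ∀ a ∈ (C.filter fun a => a t ∈ R).image (fun a => Function.update a t c),
        ∀ s, s ∉ U.erase t → a s = c := by
    intro C R hC a ha s hs
    obtain ⟨a0, ha0, rfl⟩ := mem_image.1 ha
    by_cases h : s = t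
    · subst h; simp
    · rw [Function.update_of_ne h]
      exact hC a0 (mem_filter.1 ha0).1 s (fun h' => hs (mem_erase.2 ⟨h, h'⟩))
  have h1 := ih (U.erase t) A' B' (by rw [card_erase_of_mem ht]; omega)
    (hout A S hA) (hout B T hB) (by
      intro a ha b hb
      obtain ⟨a0, ha0, rfl⟩ := mem_image.1 ha
      obtain ⟨b0, hb0, rfl⟩ := mem_image.1 hb
      exact hd' a0 ha0 b0 hb0)
  rw [hA', sum_image hiA] at h1
  refine le_trans (sum_le_sum fun a ha => ?_) h1
  rw [hB', sum_image hiB]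
  refine sum_le_sum fun b hb => ?_
  rw [← hA', ← hB']
  apply one_div_le_one_div_of_le (G_pos hq _ _ _)
  apply G_anti hq
  · apply card_le_card
    intro s hs
    rw [mem_erase] at hs
    simp only [Iset, mem_filter, mem_univ, true_and] at hs ⊢
    constructor
    · intro b' hb'
      obtain ⟨b0, hb0, rfl⟩ := mem_image.1 hb'
      rw [Function.update_of_ne hs.1, Function.update_of_ne hs.1]
      exact hs.2.1 b0 (mem_filter.1 hb0).1
    · intro a' ha'
      obtain ⟨a0, ha0, rfl⟩ := mem_image.1 ha'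
      rw [Function.update_of_ne hs.1, Function.update_of_ne hs.1]
      exact hs.2.2 a0 (mem_filter.1 ha0).1
  · rw [← hd' a ha b hb, hd_eq]
    exact card_le_card (Iset_subset (mem_image_of_mem _ hb))

theorem sum_fiber (A : Finset (ι → α)) (t : ι) (S : Finset α) (f : (ι → α) → ℝ) :
    ∑ x ∈ S, ∑ a ∈ A.filter (fun a => a t = x), f a = ∑ a ∈ A.filter (fun a => a t ∈ S), f a := by
  rw [← sum_fiberwise_of_maps_to (s := A.filter (fun a => a t ∈ S)) (t := S) (g := fun a => a t)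
    (fun a ha => (mem_filter.1 ha).2)]
  apply sum_congr rfl
  intro x hx
  apply sum_congr _ (fun _ _ => rfl)
  ext a
  simp only [mem_filter]
  constructor
  · rintro ⟨h1, h2⟩; exact ⟨⟨h1, h2 ▸ hx⟩, h2⟩
  · rintro ⟨⟨h1, _⟩, h2⟩; exact ⟨h1, h2⟩

theorem sum_fiber₂ (A B : Finset (ι → α)) (t : ι) (S T : Finset α)
    (f : (ι → α) → (ι → α) → ℝ) :
    ∑ x ∈ S, ∑ y ∈ T, ∑ a ∈ A.filter (fun a => a t = x), ∑ b ∈ B.filter (fun b => b t = y), f a b
      = ∑ a ∈ A.filter (fun a => a t ∈ S), ∑ b ∈ B.filter (fun b => b t ∈ T), f a b := by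
  rw [← sum_fiber A t S]
  apply sum_congr rfl
  intro x _
  rw [sum_comm]
  apply sum_congr rfl
  intro a _
  exact sum_fiber B t T (f a)

/-- The one coordinate inequality. -/
theorem star [Fintype α] {q m δ : ℕ} (hq : 4 ≤ q) (hcard : Fintype.card α = q) {c : α}
    (ih : Claim q m δ ι α c)
    {U : Finset ι} {A B : Finset (ι → α)} (hU : U.card = m + (δ + 1))
    (hA : ∀ a ∈ A, ∀ t, t ∉ U → a t = c) (hB : ∀ b ∈ B, ∀ t, t ∉ U → b t = c)
    (hd : ∀ a ∈ A, ∀ b ∈ B, hammingDist a b = δ + 1) {t : ι} (ht : t ∈ U) :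
    ∑ a ∈ A, ∑ b ∈ B, (if a t = b t then 0 else if t ∈ Iset A B a b then 1 / (qb q : ℝ)
      else 1 / ((q : ℝ) - 1)) * (1 / G q m δ ((Iset A B a b).erase t).card) ≤ 1 := by
  set X := A.image (fun a => a t) with hX
  set Y := B.image (fun b => b t) with hY
  set ψ : (ι → α) → (ι → α) → ℝ := fun a b => 1 / G q m δ ((Iset A B a b).erase t).card with hψ
  set z : α → α → ℝ := fun x y =>
    ∑ a ∈ A.filter (fun a => a t = x), ∑ b ∈ B.filter (fun b => b t = y), ψ a b with hz
  have hψ0 : ∀ a b, 0 ≤ ψ a b := fun a b => (one_div_pos.2 (G_pos hq _ _ _)).le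
  have hz0 : ∀ x y, 0 ≤ z x y := fun x y =>
    sum_nonneg fun a _ => sum_nonneg fun b _ => hψ0 a b
  have hKP : Disjoint (X ∩ Y) (X \ Y) := by
    rw [disjoint_left]; intro x h1 h2; exact (mem_sdiff.1 h2).2 (mem_inter.1 h1).2
  have hKQ : Disjoint (X ∩ Y) (Y \ X) := by
    rw [disjoint_left]; intro x h1 h2; exact (mem_sdiff.1 h2).2 (mem_inter.1 h1).1
  have hPQ : Disjoint (X \ Y) (Y \ X) := by
    rw [disjoint_left]; intro x h1 h2; exact (mem_sdiff.1 h2).2 (mem_sdiff.1 h1).1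
  have hXu : X = X ∩ Y ∪ X \ Y := by
    ext x; simp only [mem_union, mem_inter, mem_sdiff]; tauto
  have hYu : Y = X ∩ Y ∪ Y \ X := by
    ext x; simp only [mem_union, mem_inter, mem_sdiff]; tauto
  have hcard' : (X ∩ Y).card + (X \ Y).card + (Y \ X).card ≤ q := by
    rw [← card_union_of_disjoint hKP, ← card_union_of_disjoint
      (disjoint_union_left.2 ⟨hKQ, hPQ⟩), ← hcard]
    exact card_le_univ _
  have hm := matrix_lemma q hq (X ∩ Y) (X \ Y) (Y \ X) z hz0 hKP hKQ hPQ hcard' (by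
    intro S T hS hT hST hSP hTQ
    simp only [hz]
    rw [sum_fiber₂ A B t S T ψ]
    apply sub_pair hq ih hU hA hB hd ht S T hST
    · apply injOn_update hd t c S (X \ Y) _ hSP
      intro x hx hxP
      rcases mem_union.1 (hS hx) with h | h
      · obtain ⟨b, hb, hbt⟩ := mem_image.1 (mem_inter.1 h).2
        exact ⟨b, hb, hbt⟩
      · exact absurd h hxP
    · apply injOn_update (A := B) (B := A) (δ := δ + 1)
        (fun b hb a ha => by rw [hammingDist_comm]; exact hd a ha b hb) t c T (Y \ X) _ hTQ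
      intro x hx hxP
      rcases mem_union.1 (hT hx) with h | h
      · obtain ⟨b, hb, hbt⟩ := mem_image.1 (mem_inter.1 h).1
        exact ⟨b, hb, hbt⟩
      · exact absurd h hxP)
  set κ : α → α → ℝ := fun x y => if x = y then 0 else if x ∉ Y ∧ y ∉ X then 1 / (qb q : ℝ)
      else 1 / ((q : ℝ) - 1) with hκ
  have e1 : ∑ a ∈ A, ∑ b ∈ B, (if a t = b t then 0 else if t ∈ Iset A B a b then 1 / (qb q : ℝ)
      else 1 / ((q : ℝ) - 1)) * (1 / G q m δ ((Iset A B a b).erase t).card)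
      = ∑ x ∈ X, ∑ y ∈ Y, κ x y * z x y := by
    have e2 : ∑ x ∈ X, ∑ y ∈ Y, κ x y * z x y = ∑ x ∈ X, ∑ y ∈ Y,
        ∑ a ∈ A.filter (fun a => a t = x), ∑ b ∈ B.filter (fun b => b t = y),
          κ (a t) (b t) * ψ a b := by
      refine sum_congr rfl fun x _ => sum_congr rfl fun y _ => ?_
      simp only [hz, mul_sum]
      refine sum_congr rfl fun a ha => sum_congr rfl fun b hb => ?_
      rw [(mem_filter.1 ha).2, (mem_filter.1 hb).2]
    rw [e2, sum_fiber₂ A B t X Y (fun a b => κ (a t) (b t) * ψ a b),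
      filter_true_of_mem (fun a ha => mem_image_of_mem _ ha),
      filter_true_of_mem (fun b hb => mem_image_of_mem _ hb)]
    refine sum_congr rfl fun a _ => sum_congr rfl fun b _ => ?_
    have : t ∈ Iset A B a b ↔ (a t ∉ Y ∧ b t ∉ X) := by
      simp only [Iset, mem_filter, mem_univ, true_and, hX, hY, mem_image, not_exists, not_and]
    simp only [hκ, hψ, this]
  rw [e1]
  refine le_trans (le_of_eq ?_) hm
  have hsplit : ∀ f : α → α → ℝ, ∑ x ∈ X, ∑ y ∈ Y, f x y
      = ∑ x ∈ X ∩ Y, ∑ y ∈ X ∩ Y, f x y + ∑ x ∈ X ∩ Y, ∑ y ∈ Y \ X, f x y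
        + ∑ x ∈ X \ Y, ∑ y ∈ X ∩ Y, f x y + ∑ x ∈ X \ Y, ∑ y ∈ Y \ X, f x y := by
    intro f
    have h1 : ∀ g : α → ℝ, ∑ x ∈ X, g x = ∑ x ∈ X ∩ Y, g x + ∑ x ∈ X \ Y, g x := by
      intro g; rw [← sum_union hKP, ← hXu]
    have h2 : ∀ g : α → ℝ, ∑ x ∈ Y, g x = ∑ x ∈ X ∩ Y, g x + ∑ x ∈ Y \ X, g x := by
      intro g; rw [← sum_union hKQ, ← hYu]
    rw [h1]
    simp only [h2 (f _), sum_add_distrib]
    ring
  rw [hsplit]
  have t1 : ∑ x ∈ X ∩ Y, ∑ y ∈ X ∩ Y, κ x y * z x y
      = (∑ x ∈ X ∩ Y, ∑ y ∈ (X ∩ Y).erase x, z x y) / ((q : ℝ) - 1) := by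
    rw [sum_div]
    refine sum_congr rfl fun x hx => ?_
    rw [← add_sum_erase _ _ hx, sum_div]
    simp only [hκ, if_true, zero_mul, zero_add]
    refine sum_congr rfl fun y hy => ?_
    have h1 : x ≠ y := (mem_erase.1 hy).1.symm
    have h2 : ¬ (x ∉ Y ∧ y ∉ X) := fun h => h.1 (mem_inter.1 hx).2
    rw [if_neg h1, if_neg h2]; ring
  have t2 : ∑ x ∈ X ∩ Y, ∑ y ∈ Y \ X, κ x y * z x y
      = (∑ x ∈ X ∩ Y, ∑ y ∈ Y \ X, z x y) / ((q : ℝ) - 1) := by
    rw [sum_div]
    refine sum_congr rfl fun x hx => ?_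
    rw [sum_div]
    refine sum_congr rfl fun y hy => ?_
    have h1 : x ≠ y := fun h => (mem_sdiff.1 hy).2 (h ▸ (mem_inter.1 hx).1)
    have h2 : ¬ (x ∉ Y ∧ y ∉ X) := fun h => h.1 (mem_inter.1 hx).2
    simp only [hκ]
    rw [if_neg h1, if_neg h2]; ring
  have t3 : ∑ x ∈ X \ Y, ∑ y ∈ X ∩ Y, κ x y * z x y
      = (∑ x ∈ X \ Y, ∑ y ∈ X ∩ Y, z x y) / ((q : ℝ) - 1) := by
    rw [sum_div]
    refine sum_congr rfl fun x hx => ?_
    rw [sum_div]
    refine sum_congr rfl fun y hy => ?_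
    have h1 : x ≠ y := fun h => (mem_sdiff.1 hx).2 (h ▸ (mem_inter.1 hy).2)
    have h2 : ¬ (x ∉ Y ∧ y ∉ X) := fun h => h.2 (mem_inter.1 hy).1
    simp only [hκ]
    rw [if_neg h1, if_neg h2]; ring
  have t4 : ∑ x ∈ X \ Y, ∑ y ∈ Y \ X, κ x y * z x y
      = (∑ x ∈ X \ Y, ∑ y ∈ Y \ X, z x y) / (qb q : ℝ) := by
    rw [sum_div]
    refine sum_congr rfl fun x hx => ?_
    rw [sum_div]
    refine sum_congr rfl fun y hy => ?_
    have h1 : x ≠ y := fun h => (mem_sdiff.1 hy).2 (h ▸ (mem_sdiff.1 hx).1)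
    have h2 : x ∉ Y ∧ y ∉ X := ⟨(mem_sdiff.1 hx).2, (mem_sdiff.1 hy).2⟩
    simp only [hκ]
    rw [if_neg h1, if_pos h2]; ring
  rw [t1, t2, t3, t4]
  ring

theorem claim_zero {q m : ℕ} (hq : 4 ≤ q) (c : α) : Claim q m 0 ι α c := by
  intro U A B _ _ _ hd
  have h1 : ∀ a ∈ A, ∀ b ∈ B, a = b := fun a ha b hb => hammingDist_eq_zero.1 (hd a ha b hb)
  rcases A.eq_empty_or_nonempty with rfl | ⟨a, ha⟩
  · simp
  rcases B.eq_empty_or_nonempty with rfl | ⟨b, hb⟩
  · simp
  have hA : A = {a} := eq_singleton_iff_unique_mem.2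
    ⟨ha, fun x hx => (h1 x hx b hb).trans (h1 a ha b hb).symm⟩
  have hB : B = {a} := eq_singleton_iff_unique_mem.2
    ⟨(h1 a ha b hb) ▸ hb, fun x hx => (h1 a ha x hx).symm⟩
  subst hA
  rw [hB]
  have : Iset ({a} : Finset (ι → α)) {a} a a = ∅ := by
    ext t; simp [Iset]
  simp [this, G]

theorem claim_succ [Fintype α] {q m δ : ℕ} (hq : 4 ≤ q) (hcard : Fintype.card α = q) {c : α}
    (ih : Claim q m δ ι α c) : Claim q m (δ + 1) ι α c := by
  intro U A B hU hA hB hd
  have hq1 : (0 : ℝ) < (q : ℝ) - 1 := by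
    have : (4 : ℝ) ≤ q := by exact_mod_cast hq
    linarith
  have hDU : ∀ a ∈ A, ∀ b ∈ B, (univ.filter fun t => a t ≠ b t) ⊆ U := by
    intro a ha b hb t ht
    by_contra h
    exact (mem_filter.1 ht).2 ((hA a ha t h).trans (hB b hb t h).symm)
  have hDc : ∀ a ∈ A, ∀ b ∈ B, (univ.filter fun t => a t ≠ b t).card = δ + 1 :=
    fun a ha b hb => by rw [← hd_eq]; exact hd a ha b hb
  have hI : ∀ a b t, t ∈ Iset A B a b →
      1 / (qb q : ℝ) * (1 / G q m δ ((Iset A B a b).erase t).card)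
        = 1 / G q m (δ + 1) (Iset A B a b).card := by
    intro a b t ht
    rw [← card_erase_add_one ht, G_succ_succ, one_div_mul_one_div]
  by_cases hex : ∃ a0 ∈ A, ∃ b0 ∈ B, (Iset A B a0 b0).card = δ + 1
  · obtain ⟨a0, ha0, b0, hb0, hI0⟩ := hex
    have hDb : ∀ b ∈ B, (univ.filter fun t => a0 t ≠ b t) = Iset A B a0 b0 := by
      intro b hb
      symm
      apply eq_of_subset_of_card_le
      · intro t ht
        simp only [Iset, mem_filter, mem_univ, true_and] at ht ⊢
        exact (ht.1 b hb).symm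
      · rw [hDc a0 ha0 b hb, hI0]
    have hDa : ∀ a ∈ A, (univ.filter fun t => a t ≠ b0 t) = Iset A B a0 b0 := by
      intro a ha
      symm
      apply eq_of_subset_of_card_le
      · intro t ht
        simp only [Iset, mem_filter, mem_univ, true_and] at ht ⊢
        exact ht.2 a ha
      · rw [hDc a ha b0 hb0, hI0]
    have hD : ∀ a ∈ A, ∀ b ∈ B, (univ.filter fun t => a t ≠ b t) = Iset A B a0 b0 := by
      intro a ha b hb
      apply eq_of_subset_of_card_le
      · intro t ht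
        by_contra h
        have e1 : a0 t = b t := by
          by_contra h'
          exact h (hDb b hb ▸ mem_filter.2 ⟨mem_univ _, h'⟩)
        have e2 : a t = b0 t := by
          by_contra h'
          exact h (hDa a ha ▸ mem_filter.2 ⟨mem_univ _, h'⟩)
        have e3 : a0 t = b0 t := by
          by_contra h'
          exact h (hDb b0 hb0 ▸ mem_filter.2 ⟨mem_univ _, h'⟩)
        exact (mem_filter.1 ht).2 (e2.trans (e3.symm.trans e1))
      · rw [hDc a ha b hb, hI0]
    obtain ⟨t, ht⟩ : (Iset A B a0 b0).Nonempty := card_pos.1 (by omega)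
    have hne : ∀ a ∈ A, ∀ b ∈ B, a t ≠ b t := by
      intro a ha b hb
      have := hD a ha b hb ▸ ht
      exact (mem_filter.1 this).2
    have htU : t ∈ U := hDU a0 ha0 b0 hb0 (mem_filter.2 ⟨mem_univ _, hne a0 ha0 b0 hb0⟩)
    refine le_trans (le_of_eq ?_) (star hq hcard ih hU hA hB hd htU)
    refine sum_congr rfl fun a ha => sum_congr rfl fun b hb => ?_
    have h2 : t ∈ Iset A B a b := by
      simp only [Iset, mem_filter, mem_univ, true_and]
      exact ⟨fun b' hb' => (hne a ha b' hb').symm, fun a' ha' => hne a' ha' b hb⟩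
    rw [if_neg (hne a ha b hb), if_pos h2, hI a b t h2]
  · push Not at hex
    have hsum := sum_le_sum (s := U) fun t ht => star hq hcard ih hU hA hB hd ht
    rw [sum_const, nsmul_eq_mul, mul_one, sum_comm] at hsum
    have hn : (0 : ℝ) < U.card := by
      rw [hU]; positivity
    apply le_of_mul_le_mul_left _ hn
    rw [mul_one, mul_sum]
    refine le_trans (sum_le_sum fun a ha => ?_) hsum
    rw [sum_comm, mul_sum]
    refine sum_le_sum fun b hb => ?_
    have hsub := Iset_subset (A := A) (a := a) hb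
    have hle : (Iset A B a b).card ≤ δ + 1 := by
      rw [← hDc a ha b hb]; exact card_le_card hsub
    have hlt : (Iset A B a b).card ≤ δ := by
      have := hex a ha b hb; omega
    set D := univ.filter fun t => a t ≠ b t with hD
    set I := Iset A B a b with hIdef
    set i := I.card with hi
    rw [← sum_subset (hDU a ha b hb) (by
      intro t _ ht
      have : a t = b t := by
        by_contra h; exact ht (mem_filter.2 ⟨mem_univ _, h⟩)
      rw [if_pos this, zero_mul]), ← sum_sdiff hsub]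
    have e1 : ∑ t ∈ I, (if a t = b t then 0 else if t ∈ I then 1 / (qb q : ℝ)
        else 1 / ((q : ℝ) - 1)) * (1 / G q m δ (I.erase t).card)
        = i * (1 / G q m (δ + 1) i) := by
      rw [← nsmul_eq_mul, ← sum_const]
      refine sum_congr rfl fun t ht => ?_
      rw [if_neg (mem_filter.1 (hsub ht)).2, if_pos ht]
      exact hI a b t ht
    have e2 : ∑ t ∈ D \ I, (if a t = b t then 0 else if t ∈ I then 1 / (qb q : ℝ)
        else 1 / ((q : ℝ) - 1)) * (1 / G q m δ (I.erase t).card)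
        = ((δ + 1 - i : ℕ) : ℝ) * (1 / ((q : ℝ) - 1) * (1 / G q m δ i)) := by
      have : (D \ I).card = δ + 1 - i := by
        rw [card_sdiff_of_subset hsub, hDc a ha b hb]
      rw [← this, ← nsmul_eq_mul, ← sum_const]
      refine sum_congr rfl fun t ht => ?_
      rw [mem_sdiff] at ht
      rw [if_neg (mem_filter.1 ht.1).2, if_neg ht.2, erase_eq_of_notMem ht.2]
    rw [e1, e2, G_succ q m δ i hlt, hU]
    have hG := G_pos hq m δ i
    have hc := cc_pos hq m (δ + 1 - i)
    have hl : (0 : ℝ) < ((δ + 1 - i : ℕ) : ℝ) := by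
      have : 0 < δ + 1 - i := by omega
      exact_mod_cast this
    have hcl : ((q : ℝ) - 1) * ((m : ℝ) + ((δ + 1 - i : ℕ) : ℝ))
        ≤ cc q m (δ + 1 - i) * ((δ + 1 - i : ℕ) : ℝ) := by
      rw [← div_le_iff₀ hl]; exact le_max_right _ _
    have hcast : ((m + (δ + 1) : ℕ) : ℝ) = (m : ℝ) + ((δ + 1 - i : ℕ) : ℝ) + i := by
      have : m + (δ + 1) = m + (δ + 1 - i) + i := by omega
      rw [this]; push_cast; ring
    rw [hcast]
    set l : ℝ := ((δ + 1 - i : ℕ) : ℝ)
    set C := cc q m (δ + 1 - i)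
    set g := G q m δ i
    have : ((m : ℝ) + l) * (1 / (C * g)) ≤ l * (1 / ((q : ℝ) - 1) * (1 / g)) := by
      rw [one_div_mul_one_div, mul_one_div, mul_one_div, div_le_div_iff₀ (by positivity)
        (by positivity)]
      nlinarith
    linarith

theorem claim_all [Fintype α] {q : ℕ} (hq : 4 ≤ q) (hcard : Fintype.card α = q) (c : α)
    (m δ : ℕ) : Claim q m δ ι α c := by
  induction δ with
  | zero => exact claim_zero hq c
  | succ δ ih => exact claim_succ hq hcard ih

theorem prod_choose (q m j : ℕ) :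
    ∏ l ∈ range j, (((q : ℝ) - 1) * ((m : ℝ) + (l + 1 : ℕ)) / (l + 1 : ℕ))
      = ((q : ℝ) - 1) ^ j * ((m + j).choose j : ℝ) := by
  induction j with
  | zero => simp
  | succ j ih =>
    rw [prod_range_succ, ih]
    have h := Nat.add_one_mul_choose_eq (m + j) j
    have h' : ((m : ℝ) + j + 1) * ((m + j).choose j : ℝ)
        = ((m + (j + 1)).choose (j + 1) : ℝ) * ((j : ℝ) + 1) := by
      exact_mod_cast h
    have hj : (j : ℝ) + 1 ≠ 0 := by positivity
    push_cast
    field_simp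
    linear_combination (((q : ℝ) - 1) ^ j * ((q : ℝ) - 1)) * h'

theorem G_zero_eq {q : ℕ} (hq : 4 ≤ q) (m δ : ℕ) :
    ∃ i j, i + j = δ ∧
      G q m δ 0 = ((q : ℝ) - 1) ^ j * (qb q : ℝ) ^ i * ((m + j).choose j : ℝ) := by
  have hq1 : (0 : ℝ) < (q : ℝ) - 1 := by
    have : (4 : ℝ) ≤ q := by exact_mod_cast hq
    linarith
  induction δ with
  | zero => exact ⟨0, 0, rfl, by simp [G]⟩
  | succ δ ih =>
    rcases le_total (((q : ℝ) - 1) * ((m : ℝ) + (δ + 1 : ℕ)) / (δ + 1 : ℕ)) (qb q : ℝ) with h | h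
    · obtain ⟨i, j, hij, hG⟩ := ih
      refine ⟨i + 1, j, by omega, ?_⟩
      rw [G_succ q m δ 0 (Nat.zero_le _), hG, Nat.sub_zero, cc, max_eq_left h]
      ring
    · refine ⟨0, δ + 1, by omega, ?_⟩
      rw [pow_zero, mul_one, ← prod_choose, G, pow_zero, one_mul, Nat.sub_zero]
      refine prod_congr rfl fun l hl => ?_
      rw [cc]
      apply max_eq_right
      refine h.trans ?_
      have hl' : l + 1 ≤ δ + 1 := mem_range.1 hl
      have hlR : ((l + 1 : ℕ) : ℝ) ≤ ((δ + 1 : ℕ) : ℝ) := by exact_mod_cast hl'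
      have h1 : (0 : ℝ) < ((l + 1 : ℕ) : ℝ) := by positivity
      have h2 : (0 : ℝ) < ((δ + 1 : ℕ) : ℝ) := by positivity
      rw [div_le_div_iff₀ h2 h1]
      have hm : (0 : ℝ) ≤ m := Nat.cast_nonneg _
      have : (m : ℝ) * ((l + 1 : ℕ) : ℝ) ≤ m * ((δ + 1 : ℕ) : ℝ) :=
        mul_le_mul_of_nonneg_left hlR hm
      nlinarith

/-- The upper bound. -/
theorem upper [Fintype α] {q : ℕ} (hq : 4 ≤ q) (hcard : Fintype.card α = q) (m δ : ℕ)
    (hn : Fintype.card ι = m + δ) (A B : Finset (ι → α))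
    (hd : ∀ a ∈ A, ∀ b ∈ B, hammingDist a b = δ) :
    ∃ i j, i + j = δ ∧ A.card * B.card ≤ (q - 1) ^ j * qb q ^ i * (m + j).choose j := by
  obtain ⟨i, j, hij, hG⟩ := G_zero_eq hq m δ
  refine ⟨i, j, hij, ?_⟩
  have hne : Nonempty α := Fintype.card_pos_iff.1 (by omega)
  obtain ⟨c⟩ := hne
  have h := claim_all (ι := ι) hq hcard c m δ univ A B (by rw [card_univ, hn]) (by simp)
    (by simp) hd
  have h2 : ∑ _a ∈ A, ∑ _b ∈ B, 1 / G q m δ 0
      ≤ ∑ a ∈ A, ∑ b ∈ B, 1 / G q m δ (Iset A B a b).card := by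
    refine sum_le_sum fun a ha => sum_le_sum fun b hb => ?_
    apply one_div_le_one_div_of_le (G_pos hq _ _ _)
    apply G_anti hq _ _ _ _ (Nat.zero_le _)
    rw [← hd a ha b hb, hd_eq]
    exact card_le_card (Iset_subset hb)
  rw [sum_const, sum_const, nsmul_eq_mul, nsmul_eq_mul, ← mul_assoc, mul_one_div] at h2
  have h3 := h2.trans h
  rw [div_le_one (G_pos hq _ _ _), hG] at h3
  have hq' : ((q - 1 : ℕ) : ℝ) = (q : ℝ) - 1 := by
    rw [Nat.cast_sub (by omega)]; simp
  rw [← hq'] at h3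
  exact_mod_cast h3

end Pool.Agent.Lib.MP_990a44_co
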